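import Pool.Agent.Lib.MP_46e101_co.Defs

/-! ### Module PRESC -/

open MvPolynomial

universe u w

noncomputable section

namespace MP46

section PRESC
variable {V : Type u} [Fintype V] [DecidableEq V] {U : Type w} [AddCommGroup U] [Module ℝ U]
  {o : Module.Dual ℝ U} {p : V → Module.Dual ℝ U}

/-- the functionals `p v`, `v ∈ F`, take arbitrary values -/
private theorem surj_of_ind {F : Finset V} (hI : Ind p F) (c : V → ℝ) :
    ∃ y : U, ∀ v ∈ F, p v y = c v := by
  let Φ : U →ₗ[ℝ] (F → ℝ) := LinearMap.pi fun v : F => p (v : V)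
  have htop : LinearMap.range Φ = ⊤ := by
    by_contra hne
    obtain ⟨g, hg0, hg⟩ := Submodule.exists_le_ker_of_lt_top _ (lt_top_iff_ne_top.2 hne)
    have h1 : ∑ v : F, g (Pi.single v 1) • p (v : V) = 0 := by
      refine LinearMap.ext fun y => ?_
      have h2 : Φ y = ∑ v : F, p (v : V) y • (Pi.single v 1 : F → ℝ) := by
        funext u
        rw [Finset.sum_apply]
        rw [Finset.sum_eq_single u]
        · rw [Pi.smul_apply, Pi.single_eq_same, smul_eq_mul, mul_one]
          rfl
        · intro b _ hb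
          rw [Pi.smul_apply, Pi.single_eq_of_ne hb.symm, smul_zero]
        · intro h
          exact absurd (Finset.mem_univ u) h
      have h3 : g (Φ y) = 0 := hg ⟨y, rfl⟩
      rw [h2, map_sum] at h3
      rw [LinearMap.sum_apply, LinearMap.zero_apply, ← h3]
      refine Finset.sum_congr rfl fun v _ => ?_
      rw [map_smul, LinearMap.smul_apply, smul_eq_mul, smul_eq_mul, mul_comm]
    have h4 := Fintype.linearIndependent_iff.1 hI (fun v => g (Pi.single v 1)) h1
    apply hg0
    refine LinearMap.pi_ext' fun v => LinearMap.ext_ring ?_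
    rw [LinearMap.comp_apply, LinearMap.zero_comp, LinearMap.zero_apply]
    exact h4 v
  have h5 : (fun v : F => c (v : V)) ∈ LinearMap.range Φ := by rw [htop]; trivial
  obtain ⟨y, hy⟩ := h5
  refine ⟨y, fun v hv => ?_⟩
  exact congrFun hy ⟨v, hv⟩

theorem prescribe {x : U} (hx : o x = 1) {F : Finset V} (hF : ∀ v ∈ F, p v x = 0)
    (hI : Ind p F) (r : ℝ) (c : V → ℝ) : ∃ y : U, o y = r ∧ ∀ v ∈ F, p v y = c v := by
  obtain ⟨y, hy⟩ := surj_of_ind hI c
  refine ⟨y + (r - o y) • x, ?_, fun v hv => ?_⟩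
  · rw [map_add, map_smul, hx, smul_eq_mul]
    ring
  · rw [map_add, map_smul, hF v hv, smul_zero, add_zero, hy v hv]

theorem Ind.mono {F G : Finset V} (hF : Ind p F) (h : G ⊆ F) : Ind p G :=
  LinearIndependent.comp hF (fun v : G => (⟨(v : V), h v.2⟩ : F))
    (fun _ _ hab => Subtype.ext (congrArg (fun z : F => (z : V)) hab))

theorem ind_iff {F : Finset V} :
    Ind p F ↔ ∀ c : V → ℝ, ∑ v ∈ F, c v • p v = 0 → ∀ v ∈ F, c v = 0 := by
  unfold Ind
  rw [Fintype.linearIndependent_iff]
  constructor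
  · intro h c hc v hv
    refine h (fun v : F => c (v : V)) ?_ ⟨v, hv⟩
    rw [← hc]
    exact Finset.sum_coe_sort F (fun v => c v • p v)
  · intro h g hg v
    have h1 := h (fun v => if hv : v ∈ F then g ⟨v, hv⟩ else 0) ?_ v v.2
    · simpa using h1
    · rw [← hg, ← Finset.sum_coe_sort F]
      refine Finset.sum_congr rfl fun v _ => ?_
      rw [dif_pos v.2]

/-- the evaluation map -/
private def Phi (o : Module.Dual ℝ U) (p : V → Module.Dual ℝ U) (F : Finset V) :
    U →ₗ[ℝ] ℝ × (F → ℝ) :=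
  LinearMap.prod o (LinearMap.pi fun v : F => p (v : V))

private theorem rank_eq {n : ℕ} (hdim : Module.finrank ℝ U = n + 1) {x : U} (hx : o x = 1)
    {F : Finset V} (hF : ∀ v ∈ F, p v x = 0) (hI : Ind p F) :
    1 + F.card + Module.finrank ℝ (LinearMap.ker (Phi o p F)) = n + 1 := by
  have : Module.Finite ℝ U := Module.finite_of_finrank_pos (by omega)
  have hsurj : LinearMap.range (Phi o p F) = ⊤ := by
    rw [LinearMap.range_eq_top]
    rintro ⟨r, c⟩
    obtain ⟨y, hy1, hy2⟩ := prescribe hx hF hI r (fun v => if hv : v ∈ F then c ⟨v, hv⟩ else 0)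
    refine ⟨y, Prod.ext hy1 (funext fun v => ?_)⟩
    have := hy2 v v.2
    rw [dif_pos v.2] at this
    exact this
  have h1 := LinearMap.finrank_range_add_finrank_ker (Phi o p F)
  rw [hsurj, finrank_top, Module.finrank_prod, Module.finrank_self, Module.finrank_fintype_fun_eq_card,
    Fintype.card_coe, hdim] at h1
  exact h1

private theorem mem_ker_Phi {F : Finset V} {y : U} :
    y ∈ LinearMap.ker (Phi o p F) ↔ o y = 0 ∧ ∀ v ∈ F, p v y = 0 := by
  rw [LinearMap.mem_ker]
  constructor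
  · intro h
    refine ⟨congrArg Prod.fst h, fun v hv => ?_⟩
    exact congrFun (congrArg Prod.snd h) ⟨v, hv⟩
  · rintro ⟨h1, h2⟩
    exact Prod.ext h1 (funext fun v => h2 v v.2)

theorem card_le_of_ind {n : ℕ} (hdim : Module.finrank ℝ U = n + 1) {x : U} (hx : o x = 1)
    {F : Finset V} (hF : ∀ v ∈ F, p v x = 0) (hI : Ind p F) : F.card ≤ n := by
  have := rank_eq hdim hx hF hI
  omega

/-- with `n` active independent functionals the point is determined. -/
theorem eq_zero_of_full {n : ℕ} (hdim : Module.finrank ℝ U = n + 1) {x : U} (hx : o x = 1)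
    {F : Finset V} (hF : ∀ v ∈ F, p v x = 0) (hI : Ind p F) (hc : F.card = n) (y : U)
    (hoy : o y = 0) (hy : ∀ v ∈ F, p v y = 0) : y = 0 := by
  have : Module.Finite ℝ U := Module.finite_of_finrank_pos (by omega)
  have h1 := rank_eq hdim hx hF hI
  have h2 : Module.finrank ℝ (LinearMap.ker (Phi o p F)) = 0 := by omega
  have h3 : LinearMap.ker (Phi o p F) = ⊥ := Submodule.finrank_eq_zero.1 h2
  have h4 : y ∈ LinearMap.ker (Phi o p F) := mem_ker_Phi.2 ⟨hoy, hy⟩
  rw [h3] at h4
  exact (Submodule.mem_bot ℝ).1 h4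

/-- if `(o, p_F)` only vanish jointly at `0`, `F` independent and vanishing at a point of height
one, then `F` has exactly `n` elements. -/
theorem card_eq_of_zero {n : ℕ} (hdim : Module.finrank ℝ U = n + 1) {x : U} (hx : o x = 1)
    {F : Finset V} (hF : ∀ v ∈ F, p v x = 0) (hI : Ind p F)
    (h : ∀ y : U, o y = 0 → (∀ v ∈ F, p v y = 0) → y = 0) : F.card = n := by
  have h1 := rank_eq hdim hx hF hI
  have h3 : LinearMap.ker (Phi o p F) = ⊥ := by
    rw [eq_bot_iff]
    intro y hy
    obtain ⟨h4, h5⟩ := mem_ker_Phi.1 hy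
    exact (Submodule.mem_bot ℝ).2 (h y h4 h5)
  rw [h3, finrank_bot] at h1
  omega

/-- expansion of a functional in the basis `o, p_F`. -/
theorem full_rep {n : ℕ} (hdim : Module.finrank ℝ U = n + 1) {x : U} (hx : o x = 1)
    {F : Finset V} (hF : ∀ v ∈ F, p v x = 0) (hI : Ind p F) (hc : F.card = n)
    (f : Module.Dual ℝ U) :
    ∃ (t : ℝ) (c : V → ℝ), (∀ v, v ∉ F → c v = 0) ∧ f = -t • o + ∑ v ∈ F, c v • p v := by
  have hex : ∀ v : V, ∃ y : U, o y = 0 ∧ ∀ u ∈ F, p u y = if u = v then 1 else 0 := fun v =>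
    prescribe hx hF hI 0 (fun u => if u = v then 1 else 0)
  choose Y hY1 hY2 using hex
  refine ⟨-f x, fun v => if v ∈ F then f (Y v) else 0, fun v hv => if_neg hv, ?_⟩
  refine LinearMap.ext fun y => ?_
  have h1 : y - (o y • x + ∑ v ∈ F, p v y • Y v) = 0 := by
    refine eq_zero_of_full hdim hx hF hI hc _ ?_ fun u hu => ?_
    · rw [map_sub, map_add, map_smul, hx, smul_eq_mul, mul_one, map_sum]
      rw [Finset.sum_eq_zero fun v _ => by rw [map_smul, hY1, smul_zero]]
      ring
    · rw [map_sub, map_add, map_smul, hF u hu, smul_zero, zero_add, map_sum]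
      rw [Finset.sum_eq_single u]
      · rw [map_smul, hY2 u u hu, if_pos rfl, smul_eq_mul, mul_one, sub_self]
      · intro v _ hvu
        rw [map_smul, hY2 v u hu, if_neg (Ne.symm hvu), smul_zero]
      · intro h
        exact absurd hu h
  have h2 : y = o y • x + ∑ v ∈ F, p v y • Y v := sub_eq_zero.1 h1
  rw [LinearMap.add_apply, LinearMap.smul_apply, neg_neg, LinearMap.sum_apply, smul_eq_mul]
  conv_lhs => rw [h2]
  rw [map_add, map_smul, map_sum, smul_eq_mul, mul_comm]
  congr 1
  refine Finset.sum_congr rfl fun v hv => ?_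
  rw [map_smul, LinearMap.smul_apply]
  show p v y • f (Y v) = (if v ∈ F then f (Y v) else 0) • p v y
  rw [if_pos hv, smul_eq_mul, smul_eq_mul, mul_comm]

theorem full_rep_unique {x : U} (hx : o x = 1)
    {F : Finset V} (hF : ∀ v ∈ F, p v x = 0) (hI : Ind p F) {t t' : ℝ} {c c' : V → ℝ}
    (h : -t • o + ∑ v ∈ F, c v • p v = -t' • o + ∑ v ∈ F, c' v • p v) :
    t = t' ∧ ∀ v ∈ F, c v = c' v := by
  have h0 : ∀ d : V → ℝ, (∑ v ∈ F, d v • p v) x = 0 := fun d => by
    rw [LinearMap.sum_apply]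
    exact Finset.sum_eq_zero fun v hv => by rw [LinearMap.smul_apply, hF v hv, smul_zero]
  have h1 := congrArg (fun g : Module.Dual ℝ U => g x) h
  simp only [LinearMap.add_apply, LinearMap.smul_apply, h0, hx, smul_eq_mul, mul_one,
    add_zero] at h1
  have ht : t = t' := by linarith
  refine ⟨ht, fun v hv => ?_⟩
  rw [ht] at h
  have h2 : ∑ v ∈ F, (c v - c' v) • p v = 0 := by
    rw [Finset.sum_congr rfl fun v _ => sub_smul (c v) (c' v) (p v), Finset.sum_sub_distrib,
      sub_eq_zero]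
    exact add_left_cancel h
  exact sub_eq_zero.1 (ind_iff.1 hI (fun v => c v - c' v) h2 v hv)

end PRESC

end MP46
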