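import Pool.Agent.Lib.MP_46e101_co.VERT
import Pool.Agent.Lib.MP_46e101_co.PRESC

/-!
# MP_46e101_co: faces of ordinary data
-/

open MvPolynomial

universe u w

noncomputable section

namespace MP46

variable {V : Type u} [Fintype V] [DecidableEq V] {U : Type w} [AddCommGroup U] [Module ℝ U]
  {o : Module.Dual ℝ U} {p : V → Module.Dual ℝ U} {n : ℕ}

private theorem mem_act {x : U} {v : V} : v ∈ act p x ↔ p v x = 0 := by simp [act]

theorem Face.mono {F G : Finset V} (hF : Face o p F) (h : G ⊆ F) : Face o p G := by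
  obtain ⟨x, hx, hFx⟩ := hF
  exact ⟨x, hx, h.trans hFx⟩

theorem Ord.face_empty (h : Ord n o p) : Face o p ∅ := by
  obtain ⟨x, hx⟩ := h.ne
  exact ⟨x, hx, Finset.empty_subset _⟩

theorem Ord.ind (h : Ord n o p) {G : Finset V} (hG : Face o p G) : Ind p G := by
  obtain ⟨x, hx, hGx⟩ := hG
  exact (h.simple x hx).mono hGx

theorem Ord.card_le (h : Ord n o p) {G : Finset V} (hG : Face o p G) : G.card ≤ n := by
  have hI := Ord.ind h hG
  obtain ⟨x, hx, hGx⟩ := hG
  exact card_le_of_ind h.dim hx.1 (fun v hv => mem_act.1 (hGx hv)) hI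

/-- the vertex of a facet. -/
theorem Ord.facet_point (h : Ord n o p) {F : Finset V} (hF : Face o p F) (hc : F.card = n) :
    ∃ x ∈ PP o p, act p x = F ∧ ∀ x' ∈ PP o p, F ⊆ act p x' → x' = x := by
  have hI := Ord.ind h hF
  obtain ⟨x, hx, hFx⟩ := hF
  refine ⟨x, hx, ?_, ?_⟩
  · symm
    refine Finset.eq_of_subset_of_card_le hFx ?_
    rw [hc]
    exact Ord.card_le h ⟨x, hx, subset_rfl⟩
  · intro x' hx' hFx'
    have : x' - x = 0 := by
      refine eq_zero_of_full h.dim hx.1 (fun v hv => mem_act.1 (hFx hv)) hI hc _ ?_ ?_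
      · rw [map_sub, hx.1, hx'.1, sub_self]
      · intro v hv
        rw [map_sub, mem_act.1 (hFx hv), mem_act.1 (hFx' hv), sub_self]
    exact sub_eq_zero.1 this

/-- vertex above a point, inside the same face. -/
theorem Ord.vertex_above (h : Ord n o p) {x0 : U} (hx0 : x0 ∈ PP o p) (f : Module.Dual ℝ U) :
    ∃ x ∈ PP o p, act p x0 ⊆ act p x ∧ f x0 ≤ f x ∧ (act p x).card = n := by
  obtain ⟨x, hx, h1, h2, h3⟩ := exists_vertex h.bdd hx0 f
  exact ⟨x, hx, h1, h2, card_eq_of_zero h.dim hx.1 (fun v hv => mem_act.1 hv)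
    (h.simple x hx) h3⟩

theorem Ord.face_facet (h : Ord n o p) {G : Finset V} (hG : Face o p G) :
    ∃ F : Finset V, Face o p F ∧ F.card = n ∧ G ⊆ F := by
  obtain ⟨x0, hx0, hGx⟩ := hG
  obtain ⟨x, hx, h1, -, h3⟩ := Ord.vertex_above h hx0 0
  exact ⟨act p x, ⟨x, hx, subset_rfl⟩, h3, hGx.trans h1⟩

theorem Ord.relint (h : Ord n o p) {G : Finset V} (hG : Face o p G) :
    ∃ x ∈ PP o p, act p x = G := by
  obtain ⟨F, hF, hc, hGF⟩ := Ord.face_facet h hG
  obtain ⟨x, hx, hact, -⟩ := Ord.facet_point h hF hc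
  have hF0 : ∀ v ∈ F, p v x = 0 := fun v hv => mem_act.1 (hact ▸ hv)
  obtain ⟨y, hoy, hy⟩ := prescribe hx.1 hF0 (Ord.ind h hF) 0 (fun v => if v ∈ G then 0 else 1)
  have hnn : ∀ v ∈ act p x, 0 ≤ p v y := by
    intro v hv
    rw [hact] at hv
    rw [hy v hv]
    split_ifs <;> norm_num
  obtain ⟨ε, hε, hmv⟩ := small_move hx hoy hnn
  obtain ⟨h1, h2⟩ := hmv ε hε le_rfl
  refine ⟨_, h1, ?_⟩
  rw [h2, hact]
  ext v
  simp only [Finset.mem_filter]
  constructor
  · rintro ⟨hv, hv0⟩
    by_contra hvG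
    rw [hy v hv, if_neg hvG] at hv0
    exact one_ne_zero hv0
  · intro hv
    exact ⟨hGF hv, by rw [hy v (hGF hv), if_pos hv]⟩

theorem Ord.interior (h : Ord n o p) : ∃ x : U, o x = 1 ∧ ∀ v, 0 < p v x := by
  obtain ⟨x, hx, hact⟩ := Ord.relint h (Ord.face_empty h)
  refine ⟨x, hx.1, fun v => lt_of_le_of_ne (hx.2 v) fun hv => ?_⟩
  have : v ∈ act p x := mem_act.2 hv.symm
  rw [hact] at this
  exact absurd this (Finset.notMem_empty v)

/-- every ridge is in exactly two facets, on the two sides. -/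
theorem Ord.ridge (h : Ord n o p) {G : Finset V} (hG : Face o p G) (hc : G.card + 1 = n) :
    ∃ y : U, y ≠ 0 ∧ o y = 0 ∧ (∀ g ∈ G, p g y = 0) ∧
      (∀ y' : U, o y' = 0 → (∀ g ∈ G, p g y' = 0) → ∃ r : ℝ, y' = r • y) ∧
      ∃ a b : V, a ∉ G ∧ b ∉ G ∧ a ≠ b ∧ Face o p (insert a G) ∧ Face o p (insert b G) ∧
        0 < p a y ∧ p b y < 0 ∧ ∀ v, v ∉ G → Face o p (insert v G) → v = a ∨ v = b := by
  obtain ⟨F, hF, hFc, hGF⟩ := Ord.face_facet h hG
  obtain ⟨xF, hxF, hactF, -⟩ := Ord.facet_point h hF hFc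
  have hF0 : ∀ v ∈ F, p v xF = 0 := fun v hv => mem_act.1 (hactF ▸ hv)
  obtain ⟨u₀, hu₀F, hu₀G⟩ : ∃ u₀ ∈ F, u₀ ∉ G := by
    refine Finset.exists_mem_notMem_of_card_lt_card (by omega)
  have hFG : ∀ v ∈ F, v ≠ u₀ → v ∈ G := by
    have h1 : insert u₀ G ⊆ F := Finset.insert_subset hu₀F hGF
    have h2 : insert u₀ G = F := Finset.eq_of_subset_of_card_le h1 (by
      rw [Finset.card_insert_of_notMem hu₀G]; omega)
    intro v hv hne
    rw [← h2, Finset.mem_insert] at hv
    exact hv.resolve_left hne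
  obtain ⟨y, hoy, hy⟩ := prescribe hxF.1 hF0 (Ord.ind h hF) 0 (fun v => if v = u₀ then 1 else 0)
  have hyu : p u₀ y = 1 := by rw [hy u₀ hu₀F, if_pos rfl]
  have hyG : ∀ g ∈ G, p g y = 0 := by
    intro g hg
    rw [hy g (hGF hg), if_neg]
    rintro rfl
    exact hu₀G hg
  have hy0 : y ≠ 0 := by
    rintro rfl
    rw [map_zero] at hyu
    exact zero_ne_one hyu
  have hline : ∀ y' : U, o y' = 0 → (∀ g ∈ G, p g y' = 0) → ∃ r : ℝ, y' = r • y := by
    intro y' hoy' hy'
    refine ⟨p u₀ y', sub_eq_zero.1 ?_⟩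
    refine eq_zero_of_full h.dim hxF.1 hF0 (Ord.ind h hF) hFc _ ?_ ?_
    · rw [map_sub, map_smul, hoy, hoy', smul_zero, sub_zero]
    · intro v hv
      rw [map_sub, map_smul]
      by_cases hvu : v = u₀
      · subst hvu
        rw [hyu, smul_eq_mul, mul_one, sub_self]
      · rw [hy' v (hFG v hv hvu), hyG v (hFG v hv hvu), smul_zero, sub_zero]
  obtain ⟨x, hx, hact⟩ := Ord.relint h hG
  have hxG : ∀ g ∈ G, p g x = 0 := fun g hg => mem_act.1 (hact ▸ hg)
  have hxpos : ∀ v, v ∉ G → 0 < p v x := by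
    intro v hv
    refine lt_of_le_of_ne (hx.2 v) fun h0 => hv ?_
    rw [← hact]
    exact mem_act.2 h0.symm
  obtain ⟨t1, ht1, hP1, b, hby, hb0⟩ := first_hit h.bdd hx hy0 hoy
  obtain ⟨t2, ht2, hP2, a, hay, ha0⟩ := first_hit h.bdd hx (neg_ne_zero.2 hy0)
    (by rw [map_neg, hoy, neg_zero])
  rw [map_neg, neg_neg_iff_pos] at hay
  have haG : a ∉ G := fun hg => by rw [hyG a hg] at hay; exact lt_irrefl _ hay
  have hbG : b ∉ G := fun hg => by rw [hyG b hg] at hby; exact lt_irrefl _ hby
  have hact1 : insert b G ⊆ act p (x + t1 • y) := by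
    intro v hv
    rw [Finset.mem_insert] at hv
    rw [mem_act]
    rcases hv with rfl | hv
    · exact hb0
    · rw [map_add, map_smul, hxG v hv, hyG v hv, smul_zero, add_zero]
  have hact2 : insert a G ⊆ act p (x + t2 • (-y)) := by
    intro v hv
    rw [Finset.mem_insert] at hv
    rw [mem_act]
    rcases hv with rfl | hv
    · exact ha0
    · rw [map_add, map_smul, map_neg, hxG v hv, hyG v hv, neg_zero, smul_zero, add_zero]
  refine ⟨y, hy0, hoy, hyG, hline, a, b, haG, hbG, ?_, ⟨_, hP2, hact2⟩, ⟨_, hP1, hact1⟩, hay,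
    hby, ?_⟩
  · rintro rfl
    exact lt_asymm hay hby
  · rintro v hvG ⟨z, hz, hzv⟩
    obtain ⟨r, hr⟩ := hline (z - x) (by rw [map_sub, hz.1, hx.1, sub_self]) (by
      intro g hg
      rw [map_sub, mem_act.1 (hzv (Finset.mem_insert_of_mem hg)), hxG g hg, sub_self])
    have hzx : z = x + r • y := by rw [← hr]; abel
    have hvz : p v x + r * p v y = 0 := by
      have := mem_act.1 (hzv (Finset.mem_insert_self v G))
      rw [hzx, map_add, map_smul, smul_eq_mul] at this
      exact this
    have hvx := hxpos v hvG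
    rcases lt_trichotomy r 0 with hr0 | hr0 | hr0
    · -- side of `a`
      left
      have hvy : 0 < p v y := by
        by_contra hcon
        push Not at hcon
        nlinarith [mul_nonneg_of_nonpos_of_nonpos hr0.le hcon]
      have h1 : 0 ≤ p a x + r * p a y := by
        have := hz.2 a
        rw [hzx, map_add, map_smul, smul_eq_mul] at this
        exact this
      have h2 : p a x - t2 * p a y = 0 := by
        have := ha0
        rw [map_add, map_smul, map_neg, smul_eq_mul] at this
        linarith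
      have h3 : 0 ≤ p v x - t2 * p v y := by
        have := hP2.2 v
        rw [map_add, map_smul, map_neg, smul_eq_mul] at this
        linarith
      have h4 : r = -t2 := by
        have h5 : 0 ≤ (r + t2) * p a y := by linarith
        have h6 : (r + t2) * p v y ≤ 0 := by linarith
        have h7 : 0 ≤ r + t2 := nonneg_of_mul_nonneg_left h5 hay
        have h8 : r + t2 ≤ 0 := by
          by_contra hcon
          push Not at hcon
          nlinarith [mul_pos hcon hvy]
        linarith
      by_contra hva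
      have hsub : insert v (insert a G) ⊆ act p z := by
        refine Finset.insert_subset (hzv (Finset.mem_insert_self v G)) ?_
        have : z = x + t2 • (-y) := by rw [hzx, h4, smul_neg, neg_smul]
        rw [this]
        exact hact2
      have hcard := Ord.card_le h ⟨z, hz, hsub⟩
      rw [Finset.card_insert_of_notMem (by
        rw [Finset.mem_insert, not_or]; exact ⟨hva, hvG⟩),
        Finset.card_insert_of_notMem haG] at hcard
      omega
    · rw [hr0, zero_mul, add_zero] at hvz
      exact absurd hvz hvx.ne'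
    · right
      have hvy : p v y < 0 := by
        by_contra hcon
        push Not at hcon
        nlinarith [mul_nonneg hr0.le hcon]
      have h1 : 0 ≤ p b x + r * p b y := by
        have := hz.2 b
        rw [hzx, map_add, map_smul, smul_eq_mul] at this
        exact this
      have h2 : p b x + t1 * p b y = 0 := by
        have := hb0
        rw [map_add, map_smul, smul_eq_mul] at this
        linarith
      have h3 : 0 ≤ p v x + t1 * p v y := by
        have := hP1.2 v
        rw [map_add, map_smul, smul_eq_mul] at this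
        linarith
      have h4 : r = t1 := by
        have h5 : 0 ≤ (t1 - r) * (-p b y) := by linarith
        have h6 : (t1 - r) * (-p v y) ≤ 0 := by linarith
        have h7 : 0 ≤ t1 - r := nonneg_of_mul_nonneg_left h5 (by linarith)
        have h8 : t1 - r ≤ 0 := by
          by_contra hcon
          push Not at hcon
          nlinarith [mul_pos hcon (show 0 < -p v y by linarith)]
        linarith
      by_contra hvb
      have hsub : insert v (insert b G) ⊆ act p z := by
        refine Finset.insert_subset (hzv (Finset.mem_insert_self v G)) ?_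
        rw [hzx, h4]
        exact hact1
      have hcard := Ord.card_le h ⟨z, hz, hsub⟩
      rw [Finset.card_insert_of_notMem (by
        rw [Finset.mem_insert, not_or]; exact ⟨hvb, hvG⟩),
        Finset.card_insert_of_notMem hbG] at hcard
      omega

end MP46
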