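import Pool.Agent.Lib.MP_46e101_co.FACES

/-!
# Links of geometric data (module LGEO)
-/

open MvPolynomial

universe u w

noncomputable section

namespace MP46

section LGEO
variable {V : Type u} [Fintype V] [DecidableEq V] {U : Type w} [AddCommGroup U] [Module ℝ U]
  {o : Module.Dual ℝ U} {p : V → Module.Dual ℝ U} {n : ℕ}

private theorem lg_mem_act {W : Type u} [Fintype W] {U' : Type w} [AddCommGroup U'] [Module ℝ U']
    {q : W → Module.Dual ℝ U'} {x : U'} {v : W} : v ∈ act q x ↔ q v x = 0 := by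
  simp [act]

private theorem lg_PP {v : V} {x : LinearMap.ker (p v)} :
    x ∈ PP (linkO o p v) (linkP p v) ↔ (x : U) ∈ PP o p := by
  constructor
  · rintro ⟨h1, h2⟩
    refine ⟨h1, fun w => ?_⟩
    by_cases hw : w = v
    · subst hw
      exact le_of_eq (LinearMap.mem_ker.mp x.2).symm
    · exact h2 ⟨w, hw⟩
  · rintro ⟨h1, h2⟩
    exact ⟨h1, fun w => h2 w.1⟩

private theorem lg_act {v : V} {x : LinearMap.ker (p v)} :
    act (linkP p v) x = (act p (x : U)).subtype (fun w => w ≠ v) := by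
  ext w
  rw [lg_mem_act, Finset.mem_subtype, lg_mem_act]
  rfl

private theorem lg_sub {v : V} {G : Finset {w : V // w ≠ v}} {x : U} :
    insert v (G.map (Function.Embedding.subtype fun w => w ≠ v)) ⊆ act p x ↔
      p v x = 0 ∧ ∀ w ∈ G, p w.1 x = 0 := by
  constructor
  · intro h
    refine ⟨lg_mem_act.mp (h (Finset.mem_insert_self _ _)), fun w hw => ?_⟩
    exact lg_mem_act.mp (h (Finset.mem_insert_of_mem (Finset.mem_map.mpr ⟨w, hw, rfl⟩)))
  · rintro ⟨h1, h2⟩ w hw
    rw [lg_mem_act]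
    rcases Finset.mem_insert.mp hw with rfl | hw
    · exact h1
    · obtain ⟨a, ha, rfl⟩ := Finset.mem_map.mp hw
      exact h2 a ha

private theorem lg_face {v : V} (G : Finset {w : V // w ≠ v}) :
    Face (linkO o p v) (linkP p v) G ↔ linkF (Face o p) v G := by
  constructor
  · rintro ⟨x, hx, hG⟩
    refine ⟨(x : U), lg_PP.mp hx, lg_sub.mpr ⟨x.2, fun w hw => ?_⟩⟩
    have h1 : linkP p v w x = 0 := lg_mem_act.mp (hG hw)
    exact h1
  · rintro ⟨x, hx, hG⟩
    obtain ⟨h1, h2⟩ := lg_sub.mp hG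
    refine ⟨⟨x, h1⟩, lg_PP.mpr hx, fun w hw => ?_⟩
    exact lg_mem_act.mpr (h2 w hw)

private theorem lg_bdd (h : Bdd o p) (v : V) : Bdd (linkO o p v) (linkP p v) := by
  intro x hx hox
  obtain ⟨w, hw⟩ := h (x : U) (fun h0 => hx (Subtype.ext h0)) hox
  have hwv : w ≠ v := by
    rintro rfl
    rw [LinearMap.mem_ker.mp x.2] at hw
    exact lt_irrefl _ hw
  exact ⟨⟨w, hwv⟩, hw⟩

private theorem lg_dim {v : V} {y : U} (hy : p v y = 1)
    (hdim : Module.finrank ℝ U = n + 1 + 1) :
    Module.finrank ℝ (LinearMap.ker (p v)) = n + 1 := by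
  have : FiniteDimensional ℝ U := FiniteDimensional.of_finrank_pos (by omega)
  have hne : p v ≠ 0 := by
    intro h0
    rw [h0] at hy
    simp at hy
  have := Module.Dual.finrank_ker_add_one_of_ne_zero hne
  omega

private theorem lg_exists_y {F : Finset V} (hI : Ind p F) {v : V} (hv : v ∈ F) :
    ∃ y : U, p v y = 1 := by
  have hne : p v ≠ 0 := by
    intro h0
    have := (ind_iff.mp hI) (fun w => if w = v then 1 else 0) (by simp [h0]) v hv
    simp at this
  obtain ⟨y, hy⟩ : ∃ y, p v y ≠ 0 := by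
    by_contra hcon
    push Not at hcon
    exact hne (LinearMap.ext hcon)
  refine ⟨(p v y)⁻¹ • y, ?_⟩
  rw [map_smul, smul_eq_mul, inv_mul_cancel₀ hy]

private theorem lg_ind {F : Finset V} (hI : Ind p F) {v : V} (hv : v ∈ F) :
    Ind (linkP p v) (F.subtype fun w => w ≠ v) := by
  classical
  obtain ⟨y, hy⟩ := lg_exists_y hI hv
  rw [ind_iff]
  intro c hc w hw
  let g : Module.Dual ℝ U := ∑ u ∈ F.subtype (fun w => w ≠ v), c u • p u.1
  have hg : ∀ u : U, g u = g y * p v u := by
    intro u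
    have hmem : u - (p v u) • y ∈ LinearMap.ker (p v) := by
      rw [LinearMap.mem_ker, map_sub, map_smul, hy, smul_eq_mul, mul_one, sub_self]
    have h1 := LinearMap.congr_fun hc ⟨u - (p v u) • y, hmem⟩
    have h2 : g (u - (p v u) • y) = 0 := by
      rw [LinearMap.zero_apply, LinearMap.sum_apply] at h1
      change (∑ u ∈ F.subtype (fun w => w ≠ v), c u • p u.1) (u - (p v u) • y) = 0
      rw [LinearMap.sum_apply]
      exact h1
    rw [map_sub, map_smul, smul_eq_mul] at h2
    linarith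
  let c' : V → ℝ := fun u => if hu : u ≠ v then c ⟨u, hu⟩ else - g y
  have hsum : ∑ u ∈ F, c' u • p u = 0 := by
    rw [← Finset.sum_erase_add F _ hv]
    have e1 : ∑ u ∈ F.erase v, c' u • p u = g := by
      change _ = ∑ u ∈ F.subtype (fun w => w ≠ v), c u • p u.1
      refine Finset.sum_bij' (fun u hu => (⟨u, Finset.ne_of_mem_erase hu⟩ : {w : V // w ≠ v}))
        (fun u _ => u.1) ?_ ?_ ?_ ?_ ?_
      · intro u hu
        exact Finset.mem_subtype.mpr (Finset.mem_of_mem_erase hu)
      · intro u hu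
        exact Finset.mem_erase.mpr ⟨u.2, Finset.mem_subtype.mp hu⟩
      · intro u hu; rfl
      · intro u hu; rfl
      · intro u hu
        have : u ≠ v := Finset.ne_of_mem_erase hu
        simp [c', this]
    rw [e1]
    ext u
    have : c' v = - g y := by simp [c']
    rw [this, LinearMap.add_apply, LinearMap.smul_apply, hg u]
    simp
  have := (ind_iff.mp hI) c' hsum w.1 (Finset.mem_subtype.mp hw)
  have h3 : w.1 ≠ v := w.2
  simpa [c', h3] using this

theorem Ord.link_points (h : Ord (n + 1) o p) {v : V} (hv : Face o p {v}) :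
    (∃ y : U, o y = 0 ∧ p v y = 1) ∧ ∃ x' : LinearMap.ker (p v), o x' = 1 := by
  obtain ⟨x, hx, hvx⟩ := hv
  have hI : Ind p {v} := (h.simple x hx).mono hvx
  have h0 : p v x = 0 := lg_mem_act.mp (hvx (Finset.mem_singleton_self v))
  obtain ⟨y, hoy, hy⟩ := prescribe hx.1 (F := {v})
    (fun u hu => by rw [Finset.mem_singleton.mp hu]; exact h0) hI 0 (fun _ => 1)
  exact ⟨⟨y, hoy, hy v (Finset.mem_singleton_self v)⟩, ⟨⟨x, h0⟩, hx.1⟩⟩

theorem Ord.link (h : Ord (n + 1) o p) {v : V} (hv : Face o p {v}) :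
    Ord n (linkO o p v) (linkP p v) ∧
      ∀ G, Face (linkO o p v) (linkP p v) G ↔ linkF (Face o p) v G := by
  refine ⟨⟨?_, ?_, lg_bdd h.bdd v, ?_⟩, lg_face⟩
  · obtain ⟨⟨y, -, hy⟩, -⟩ := h.link_points hv
    exact lg_dim hy h.dim
  · obtain ⟨x, hx, hvx⟩ := hv
    have h0 : p v x = 0 := lg_mem_act.mp (hvx (Finset.mem_singleton_self v))
    exact ⟨⟨x, h0⟩, lg_PP.mpr hx⟩
  · intro x hx
    rw [lg_act]
    exact lg_ind (h.simple (x : U) (lg_PP.mp hx)) (lg_mem_act.mpr x.2)

private theorem lg_card_union {A B : Finset V} {xs : U} (h : Spec n o p A B xs) :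
    (A ∪ B).card = n + 1 := by
  rw [Finset.card_union_of_disjoint h.disj, h.card]

private theorem lg_ind_single {A B : Finset V} {xs : U} (h : Spec (n + 1) o p A B xs) {v : V}
    (hv : v ∈ A ∪ B) : Ind p {v} := by
  have hc := lg_card_union h
  obtain ⟨u, hu, huv⟩ : ∃ u ∈ A ∪ B, u ≠ v := by
    apply Finset.exists_mem_ne _ v
    omega
  refine (h.circuit u hu).mono ?_
  rw [Finset.singleton_subset_iff]
  exact Finset.mem_erase.mpr ⟨huv.symm, hv⟩

theorem Spec.link_points {A B : Finset V} {xs : U} (h : Spec (n + 1) o p A B xs) {v : V}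
    (hv : Face o p {v}) :
    (∃ y : U, o y = 0 ∧ p v y = 1) ∧ ∃ x' : LinearMap.ker (p v), o x' = 1 := by
  obtain ⟨x, hx, hvx⟩ := hv
  have hI : Ind p {v} := by
    by_cases hxs : x = xs
    · subst hxs
      rw [h.act_eq] at hvx
      exact lg_ind_single h (Finset.singleton_subset_iff.mp hvx)
    · exact (h.simple x hx hxs).mono hvx
  have h0 : p v x = 0 := lg_mem_act.mp (hvx (Finset.mem_singleton_self v))
  obtain ⟨y, hoy, hy⟩ := prescribe hx.1 (F := {v})
    (fun u hu => by rw [Finset.mem_singleton.mp hu]; exact h0) hI 0 (fun _ => 1)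
  exact ⟨⟨y, hoy, hy v (Finset.mem_singleton_self v)⟩, ⟨⟨x, h0⟩, hx.1⟩⟩

/-- if all of `A` is active at `x` then `x = xs`. -/
private theorem lg_A_act {A B : Finset V} {xs : U} (h : Spec n o p A B xs) {x : U}
    (hx : x ∈ PP o p) (hA : A ⊆ act p x) : x = xs := by
  by_contra hne
  obtain ⟨c, hc, hrel⟩ := h.rel
  have h1 := LinearMap.congr_fun hrel x
  rw [LinearMap.sum_apply, LinearMap.sum_apply] at h1
  have h2 : ∑ v ∈ A, (c v • p v) x = 0 := by
    refine Finset.sum_eq_zero fun v hv => ?_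
    rw [LinearMap.smul_apply, lg_mem_act.mp (hA hv), smul_zero]
  rw [h2] at h1
  have h3 : ∀ v ∈ B, 0 ≤ (c v • p v) x := by
    intro v hv
    rw [LinearMap.smul_apply, smul_eq_mul]
    exact mul_nonneg (hc v (Finset.mem_union_right _ hv)).le (hx.2 v)
  have h4 := (Finset.sum_eq_zero_iff_of_nonneg h3).mp h1.symm
  have hB : B ⊆ act p x := by
    intro v hv
    have := h4 v hv
    rw [LinearMap.smul_apply, smul_eq_mul] at this
    rw [lg_mem_act]
    rcases mul_eq_zero.mp this with h5 | h5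
    · exact absurd h5 (hc v (Finset.mem_union_right _ hv)).ne'
    · exact h5
  have hI : Ind p (A ∪ B) := (h.simple x hx hne).mono (Finset.union_subset hA hB)
  obtain ⟨a, ha⟩ := h.neA
  have h5 := (ind_iff.mp hI) (fun v => if v ∈ A then c v else - c v) ?_ a
    (Finset.mem_union_left _ ha)
  · rw [if_pos ha] at h5
    exact absurd h5 (hc a (Finset.mem_union_left _ ha)).ne'
  · rw [Finset.sum_union h.disj]
    have e1 : ∑ v ∈ A, (if v ∈ A then c v else - c v) • p v = ∑ v ∈ A, c v • p v :=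
      Finset.sum_congr rfl fun v hv => by rw [if_pos hv]
    have e2 : ∑ v ∈ B, (if v ∈ A then c v else - c v) • p v = - ∑ v ∈ B, c v • p v := by
      rw [← Finset.sum_neg_distrib]
      refine Finset.sum_congr rfl fun v hv => ?_
      have hvA : v ∉ A := fun hvA => (Finset.disjoint_left.mp h.disj) hvA hv
      rw [if_neg hvA]
      exact neg_smul (c v) (p v)
    rw [e1, e2, hrel, add_neg_cancel]

theorem Spec.link_out {A B : Finset V} {xs : U} (h : Spec (n + 1) o p A B xs) {v : V}
    (hv : Face o p {v}) (hA : v ∉ A) (hB : v ∉ B) :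
    Ord n (linkO o p v) (linkP p v) ∧
      ∀ G, Face (linkO o p v) (linkP p v) G ↔ linkF (SFace o p A) v G := by
  have hxs : ∀ x : U, p v x = 0 → x ≠ xs := by
    rintro x h0 rfl
    have : v ∈ act p x := lg_mem_act.mpr h0
    rw [h.act_eq] at this
    rcases Finset.mem_union.mp this with h1 | h1
    · exact hA h1
    · exact hB h1
  refine ⟨⟨?_, ?_, lg_bdd h.bdd v, ?_⟩, ?_⟩
  · obtain ⟨⟨y, -, hy⟩, -⟩ := h.link_points hv
    exact lg_dim hy h.dim
  · obtain ⟨x, hx, hvx⟩ := hv
    have h0 : p v x = 0 := lg_mem_act.mp (hvx (Finset.mem_singleton_self v))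
    exact ⟨⟨x, h0⟩, lg_PP.mpr hx⟩
  · intro x hx
    rw [lg_act]
    exact lg_ind (h.simple (x : U) (lg_PP.mp hx) (hxs _ x.2)) (lg_mem_act.mpr x.2)
  · intro G
    rw [lg_face]
    constructor
    · rintro ⟨x, hx, hG⟩
      refine ⟨⟨x, hx, hG⟩, fun hAG => ?_⟩
      have h1 := lg_A_act h hx (hAG.trans hG)
      exact hxs x (lg_sub.mp hG).1 h1
    · exact fun hG => hG.1

/-- the link of a label of the circuit. -/
private theorem lg_link_circuit {A B : Finset V} {xs : U} (h : Spec (n + 1) o p A B xs) {v : V}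
    (hv : v ∈ A ∪ B) (hA : (A.erase v).Nonempty) (hB : (B.erase v).Nonempty) :
    ∃ xs' : LinearMap.ker (p v),
      Spec n (linkO o p v) (linkP p v) (A.subtype fun w => w ≠ v) (B.subtype fun w => w ≠ v) xs' ∧
      (∀ G, SFace (linkO o p v) (linkP p v) (A.subtype fun w => w ≠ v) G ↔
        linkF (SFace o p A) v G) := by
  classical
  have hv0 : p v xs = 0 := by
    have : v ∈ act p xs := by rw [h.act_eq]; exact hv
    exact lg_mem_act.mp this
  have hun : (A.subtype fun w => w ≠ v) ∪ (B.subtype fun w => w ≠ v)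
      = (A ∪ B).subtype fun w => w ≠ v := by
    ext w
    simp only [Finset.mem_union, Finset.mem_subtype]
  refine ⟨⟨xs, hv0⟩, ⟨?_, lg_bdd h.bdd v, lg_PP.mpr h.mem, ?_, ?_, ?_, ?_, ?_, ?_, ?_, ?_⟩, ?_⟩
  · obtain ⟨y, hy⟩ := lg_exists_y (lg_ind_single h hv) (Finset.mem_singleton_self v)
    exact lg_dim hy h.dim
  · rw [lg_act, hun, h.act_eq]
  · rw [Finset.disjoint_left]
    intro w hwA hwB
    exact (Finset.disjoint_left.mp h.disj) (Finset.mem_subtype.mp hwA) (Finset.mem_subtype.mp hwB)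
  · have hd : Disjoint (A.subtype fun w => w ≠ v) (B.subtype fun w => w ≠ v) := by
      rw [Finset.disjoint_left]
      intro w hwA hwB
      exact (Finset.disjoint_left.mp h.disj) (Finset.mem_subtype.mp hwA)
        (Finset.mem_subtype.mp hwB)
    rw [← Finset.card_union_of_disjoint hd, hun, Finset.card_subtype]
    have e : (A ∪ B).filter (fun w => w ≠ v) = (A ∪ B).erase v := by
      ext w
      simp only [Finset.mem_filter, Finset.mem_erase]
      tauto
    rw [e, Finset.card_erase_of_mem hv, lg_card_union h]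
    omega
  · obtain ⟨a, ha⟩ := hA
    exact ⟨⟨a, Finset.ne_of_mem_erase ha⟩, Finset.mem_subtype.mpr (Finset.mem_of_mem_erase ha)⟩
  · obtain ⟨a, ha⟩ := hB
    exact ⟨⟨a, Finset.ne_of_mem_erase ha⟩, Finset.mem_subtype.mpr (Finset.mem_of_mem_erase ha)⟩
  · obtain ⟨c, hc, hrel⟩ := h.rel
    refine ⟨fun w => c w.1, ?_, ?_⟩
    · intro w hw
      rw [hun] at hw
      exact hc w.1 (Finset.mem_subtype.mp hw)
    · have key : ∀ (S : Finset V) (x : LinearMap.ker (p v)),
          (∑ w ∈ S.subtype (fun w => w ≠ v), c w.1 • linkP p v w) x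
            = (∑ w ∈ S, c w • p w) (x : U) := by
        intro S x
        rw [LinearMap.sum_apply, LinearMap.sum_apply]
        have e1 : ∑ w ∈ S, (c w • p w) (x : U)
            = ∑ w ∈ S.filter (fun w => w ≠ v), (c w • p w) (x : U) := by
          symm
          refine Finset.sum_filter_of_ne fun w _ hw => ?_
          rintro rfl
          apply hw
          rw [LinearMap.smul_apply, LinearMap.mem_ker.mp x.2, smul_zero]
        rw [e1]
        refine Finset.sum_bij' (fun u _ => u.1)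
          (fun u hu => (⟨u, (Finset.mem_filter.mp hu).2⟩ : {w : V // w ≠ v})) ?_ ?_ ?_ ?_ ?_
        · intro u hu
          exact Finset.mem_filter.mpr ⟨Finset.mem_subtype.mp hu, u.2⟩
        · intro u hu
          exact Finset.mem_subtype.mpr (Finset.mem_filter.mp hu).1
        · intro u hu; rfl
        · intro u hu; rfl
        · intro u hu; rfl
      refine LinearMap.ext fun x => ?_
      rw [key A x, key B x, hrel]
  · intro w hw
    rw [hun] at hw ⊢
    have h1 := lg_ind (h.circuit w.1 (Finset.mem_subtype.mp hw)) (v := v)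
      (Finset.mem_erase.mpr ⟨fun hh => w.2 hh.symm, hv⟩)
    have e : ((A ∪ B).erase w.1).subtype (fun w => w ≠ v)
        = ((A ∪ B).subtype fun w => w ≠ v).erase w := by
      ext u
      simp only [Finset.mem_subtype, Finset.mem_erase, Subtype.ext_iff, ne_eq]
    rw [← e]
    exact h1
  · intro x hx hne
    rw [lg_act]
    exact lg_ind (h.simple (x : U) (lg_PP.mp hx) (fun h0 => hne (Subtype.ext h0)))
      (lg_mem_act.mpr x.2)
  · intro G
    have e : (A.subtype fun w => w ≠ v) ⊆ G ↔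
        A ⊆ insert v (G.map (Function.Embedding.subtype fun w => w ≠ v)) := by
      constructor
      · intro hG a ha
        by_cases hav : a = v
        · rw [hav]; exact Finset.mem_insert_self _ _
        · refine Finset.mem_insert_of_mem (Finset.mem_map.mpr ⟨⟨a, hav⟩, ?_, rfl⟩)
          exact hG (Finset.mem_subtype.mpr ha)
      · intro hG a ha
        have h1 := hG (Finset.mem_subtype.mp ha)
        rcases Finset.mem_insert.mp h1 with h2 | h2
        · exact absurd h2 a.2
        · obtain ⟨b, hb, hba⟩ := Finset.mem_map.mp h2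
          have : b = a := Subtype.ext hba
          rwa [this] at hb
    unfold SFace
    rw [lg_face, e]
    rfl

theorem Spec.link_A {A B : Finset V} {xs : U} (h : Spec (n + 1) o p A B xs) {v : V}
    (hA : v ∈ A) (hc : 2 ≤ A.card) :
    ∃ xs' : LinearMap.ker (p v),
      Spec n (linkO o p v) (linkP p v) (A.subtype fun w => w ≠ v) (B.subtype fun w => w ≠ v) xs' ∧
      (∀ G, SFace (linkO o p v) (linkP p v) (A.subtype fun w => w ≠ v) G ↔
        linkF (SFace o p A) v G) := by
  refine lg_link_circuit h (Finset.mem_union_left _ hA) ?_ ?_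
  · rw [← Finset.card_pos, Finset.card_erase_of_mem hA]
    omega
  · have hvB : v ∉ B := fun hvB => (Finset.disjoint_left.mp h.disj) hA hvB
    rw [Finset.erase_eq_of_notMem hvB]
    exact h.neB

theorem Spec.link_B {A B : Finset V} {xs : U} (h : Spec (n + 1) o p A B xs) {v : V}
    (hB : v ∈ B) (hc : 2 ≤ B.card) :
    ∃ xs' : LinearMap.ker (p v),
      Spec n (linkO o p v) (linkP p v) (A.subtype fun w => w ≠ v) (B.subtype fun w => w ≠ v) xs' ∧
      (∀ G, SFace (linkO o p v) (linkP p v) (A.subtype fun w => w ≠ v) G ↔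
        linkF (SFace o p A) v G) := by
  refine lg_link_circuit h (Finset.mem_union_right _ hB) ?_ ?_
  · have hvA : v ∉ A := fun hvA => (Finset.disjoint_left.mp h.disj) hvA hB
    rw [Finset.erase_eq_of_notMem hvA]
    exact h.neA
  · rw [← Finset.card_pos, Finset.card_erase_of_mem hB]
    omega

/-- a direction which is strictly positive on the whole circuit. -/
private theorem lg_dir {A B : Finset V} {xs : U} (h : Spec n o p A B xs) :
    ∃ y : U, o y = 0 ∧ ∀ v ∈ A ∪ B, 0 < p v y := by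
  obtain ⟨c, hc, hrel⟩ := h.rel
  obtain ⟨a0, ha0⟩ := h.neA
  have ha0B : a0 ∉ B := fun hh => (Finset.disjoint_left.mp h.disj) ha0 hh
  have hSB : 0 < ∑ v ∈ B, c v :=
    Finset.sum_pos (fun v hv => hc v (Finset.mem_union_right _ hv)) h.neB
  have hSA : 0 ≤ ∑ v ∈ A.erase a0, c v :=
    Finset.sum_nonneg fun v hv => (hc v (Finset.mem_union_left _ (Finset.mem_of_mem_erase hv))).le
  obtain ⟨y, hoy, hy⟩ := prescribe h.mem.1 (F := (A ∪ B).erase a0)
    (fun v hv => by
      have : v ∈ act p xs := by rw [h.act_eq]; exact Finset.mem_of_mem_erase hv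
      exact lg_mem_act.mp this) (h.circuit a0 (Finset.mem_union_left _ ha0)) 0
    (fun v => if v ∈ A then 1 else (∑ v ∈ A.erase a0, c v + 1) / ∑ v ∈ B, c v)
  refine ⟨y, hoy, ?_⟩
  have hyB : ∀ v ∈ B, p v y = (∑ v ∈ A.erase a0, c v + 1) / ∑ v ∈ B, c v := by
    intro v hv
    have hvA : v ∉ A := fun hvA => (Finset.disjoint_left.mp h.disj) hvA hv
    have := hy v (Finset.mem_erase.mpr ⟨fun hh => hvA (hh ▸ ha0), Finset.mem_union_right _ hv⟩)
    rwa [if_neg hvA] at this
  have hyA : ∀ v ∈ A.erase a0, p v y = 1 := by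
    intro v hv
    have hvA := Finset.mem_of_mem_erase hv
    have := hy v (Finset.mem_erase.mpr ⟨Finset.ne_of_mem_erase hv, Finset.mem_union_left _ hvA⟩)
    rwa [if_pos hvA] at this
  have h1 := LinearMap.congr_fun hrel y
  rw [LinearMap.sum_apply, LinearMap.sum_apply, ← Finset.sum_erase_add A _ ha0] at h1
  have e1 : ∑ v ∈ A.erase a0, (c v • p v) y = ∑ v ∈ A.erase a0, c v :=
    Finset.sum_congr rfl fun v hv => by
      rw [LinearMap.smul_apply, hyA v hv, smul_eq_mul, mul_one]
  have e2 : ∑ v ∈ B, (c v • p v) y = ∑ v ∈ A.erase a0, c v + 1 := by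
    have : ∑ v ∈ B, (c v • p v) y
        = (∑ v ∈ B, c v) * ((∑ v ∈ A.erase a0, c v + 1) / ∑ v ∈ B, c v) := by
      rw [Finset.sum_mul]
      refine Finset.sum_congr rfl fun v hv => ?_
      rw [LinearMap.smul_apply, hyB v hv, smul_eq_mul]
    rw [this, mul_div_cancel₀ _ hSB.ne']
  rw [e1, e2, LinearMap.smul_apply, smul_eq_mul] at h1
  have h2 : c a0 * p a0 y = 1 := by linarith
  have hca : 0 < c a0 := hc a0 (Finset.mem_union_left _ ha0)
  have h3 : 0 < p a0 y := by
    by_contra hcon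
    push Not at hcon
    have := mul_nonpos_of_nonneg_of_nonpos hca.le hcon
    linarith
  intro v hv
  by_cases hva : v = a0
  · rw [hva]; exact h3
  · rcases Finset.mem_union.mp hv with hvA | hvB
    · rw [hyA v (Finset.mem_erase.mpr ⟨hva, hvA⟩)]
      exact one_pos
    · rw [hyB v hvB]
      positivity

theorem Spec.interior {A B : Finset V} {xs : U} (h : Spec n o p A B xs) :
    ∃ x : U, o x = 1 ∧ ∀ v, 0 < p v x := by
  obtain ⟨y, hoy, hy⟩ := lg_dir h
  obtain ⟨ε, hε, hs⟩ := small_move h.mem hoy (fun v hv => by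
    rw [h.act_eq] at hv
    exact (hy v hv).le)
  obtain ⟨h1, h2⟩ := hs ε hε le_rfl
  refine ⟨xs + ε • y, h1.1, fun v => ?_⟩
  rcases lt_or_eq_of_le (h1.2 v) with h3 | h3
  · exact h3
  · exfalso
    have h4 : v ∈ act p (xs + ε • y) := lg_mem_act.mpr h3.symm
    rw [h2, Finset.mem_filter, h.act_eq] at h4
    exact (hy v h4.1).ne' h4.2

/-- `n ≥ 1`: some label outside `A ∪ B` is a face. -/
theorem Spec.exists_outside {A B : Finset V} {xs : U} (h : Spec n o p A B xs) :
    ∃ v, v ∉ A ∧ v ∉ B ∧ Face o p {v} := by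
  obtain ⟨y, hoy, hy⟩ := lg_dir h
  obtain ⟨a0, ha0⟩ := h.neA
  have hy0 : y ≠ 0 := by
    rintro rfl
    have := hy a0 (Finset.mem_union_left _ ha0)
    simp at this
  obtain ⟨t, ht, hxt, v, hv1, hv2⟩ := first_hit h.bdd h.mem hy0 hoy
  refine ⟨v, ?_, ?_, ⟨xs + t • y, hxt, ?_⟩⟩
  · intro hvA
    exact absurd (hy v (Finset.mem_union_left _ hvA)) (not_lt.mpr hv1.le)
  · intro hvB
    exact absurd (hy v (Finset.mem_union_right _ hvB)) (not_lt.mpr hv1.le)
  · rw [Finset.singleton_subset_iff]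
    exact lg_mem_act.mpr hv2

end LGEO

end MP46
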