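import Pool.Agent.Lib.MP_46e101_co.VERT
import Pool.Agent.Lib.MP_46e101_co.FACES

/-! ### Module LOC -/

open MvPolynomial

universe u w

noncomputable section

namespace MP46

section CH
variable {V : Type u} [Fintype V] [DecidableEq V] {U : Type w} [AddCommGroup U] [Module ℝ U]
  {o : Module.Dual ℝ U} {p : V → Module.Dual ℝ U} {n : ℕ}

omit [DecidableEq V] in
private theorem mem_act {x : U} {v : V} : v ∈ act p x ↔ p v x = 0 := by
  unfold act
  rw [Finset.mem_filter]
  exact and_iff_right (Finset.mem_univ v)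

theorem local_global (hn : 2 ≤ n) (h : Ord n o p) {v : V} (hv : Face o p {v}) {f : U}
    (hfv : p v f = 0) (hf : ∀ w, w ≠ v → Face o p {v, w} → 0 ≤ p w f) (w : V) : 0 ≤ p w f := by
  by_contra hcon
  push Not at hcon
  obtain ⟨x0, hx0, hact⟩ := Ord.relint h hv
  have hx0v : p v x0 = 0 := by
    have : v ∈ act p x0 := by rw [hact]; exact Finset.mem_singleton_self v
    exact mem_act.1 this
  have hpos : ∀ u, u ≠ v → 0 < p u x0 := by
    intro u hu
    refine lt_of_le_of_ne (hx0.2 u) fun h0 => hu ?_
    have : u ∈ act p x0 := mem_act.2 h0.symm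
    rw [hact] at this
    exact Finset.mem_singleton.1 this
  -- the first label hit
  obtain ⟨w1, hw1, hmin⟩ := Finset.exists_min_image (Finset.univ.filter fun u => p u f < 0)
    (fun u => p u x0 / (-p u f)) ⟨w, Finset.mem_filter.2 ⟨Finset.mem_univ _, hcon⟩⟩
  have hw1f : p w1 f < 0 := (Finset.mem_filter.1 hw1).2
  have hw1v : w1 ≠ v := by
    rintro rfl
    rw [hfv] at hw1f
    exact lt_irrefl _ hw1f
  obtain ⟨r, hr⟩ : ∃ r : ℝ, r = p w1 x0 / (-p w1 f) := ⟨_, rfl⟩
  have hrpos : 0 < r := by
    rw [hr]
    exact div_pos (hpos w1 hw1v) (by linarith)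
  have hval : ∀ u, p u (x0 + r • f) = p u x0 + r * p u f := fun u => by
    rw [map_add, map_smul, smul_eq_mul]
  have hz : ∀ u, 0 ≤ p u (x0 + r • f) := by
    intro u
    rw [hval]
    by_cases hu : p u f < 0
    · have h1 := hmin u (Finset.mem_filter.2 ⟨Finset.mem_univ _, hu⟩)
      have h2 : r * (-p u f) ≤ p u x0 := by
        rw [le_div_iff₀ (by linarith)] at h1
        rw [hr]
        exact h1
      linarith
    · have h1 : 0 ≤ p u f := not_lt.1 hu
      have h2 := mul_nonneg hrpos.le h1
      have h3 := hx0.2 u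
      linarith
  have hzv : p v (x0 + r • f) = 0 := by rw [hval, hx0v, hfv, mul_zero, add_zero]
  have hzw : p w1 (x0 + r • f) = 0 := by
    rw [hval]
    have h1 : -p w1 f ≠ 0 := by linarith
    have h2 : r * (-p w1 f) = p w1 x0 := by rw [hr]; exact div_mul_cancel₀ _ h1
    linarith
  by_cases hoz : 0 < o (x0 + r • f)
  · -- normalise
    have hface : Face o p {v, w1} := by
      refine ⟨(o (x0 + r • f))⁻¹ • (x0 + r • f), ⟨?_, fun u => ?_⟩, ?_⟩
      · rw [map_smul, smul_eq_mul]
        exact inv_mul_cancel₀ hoz.ne'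
      · rw [map_smul, smul_eq_mul]
        exact mul_nonneg (inv_pos.2 hoz).le (hz u)
      · intro u hu
        rw [mem_act, map_smul, smul_eq_mul]
        rw [Finset.mem_insert, Finset.mem_singleton] at hu
        rcases hu with rfl | rfl
        · rw [hzv, mul_zero]
        · rw [hzw, mul_zero]
    exact absurd (hf w1 hw1v hface) (not_le.2 hw1f)
  · have hoz' : o (x0 + r • f) ≤ 0 := not_lt.1 hoz
    have hy : (x0 + r • f) - (o (x0 + r • f)) • x0 = 0 := by
      by_contra hne
      obtain ⟨u, hu⟩ := h.bdd _ hne (by rw [map_sub, map_smul, hx0.1, smul_eq_mul, mul_one,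
        sub_self])
      rw [map_sub, map_smul, smul_eq_mul] at hu
      have h1 := hz u
      have h2 := mul_nonneg (neg_nonneg.2 hoz') (hx0.2 u)
      linarith
    have hz1 : x0 + r • f = (o (x0 + r • f)) • x0 := sub_eq_zero.1 hy
    have h0 : o (x0 + r • f) = 0 := by
      have h1 := congrArg (p w1) hz1
      rw [hzw, map_smul, smul_eq_mul] at h1
      rcases mul_eq_zero.1 h1.symm with h2 | h2
      · exact h2
      · exact absurd h2 (hpos w1 hw1v).ne'
    rw [h0, zero_smul] at hz1
    -- every `p u f` with `u ≠ v` is negative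
    have hneg : ∀ u, u ≠ v → p u f < 0 := by
      intro u hu
      have h1 := congrArg (p u) hz1
      rw [hval, map_zero] at h1
      by_contra hc
      have h2 := mul_nonneg hrpos.le (not_lt.1 hc)
      have h3 := hpos u hu
      linarith
    obtain ⟨F, hF, hFc, hvF⟩ := Ord.face_facet h hv
    obtain ⟨u, huF, huv⟩ : ∃ u ∈ F, u ≠ v :=
      Finset.exists_mem_ne (by omega) v
    have hface : Face o p {v, u} := by
      refine Face.mono hF ?_
      intro u' hu'
      rw [Finset.mem_insert, Finset.mem_singleton] at hu'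
      rcases hu' with rfl | rfl
      · exact hvF (Finset.mem_singleton_self _)
      · exact huF
    exact absurd (hf u huv hface) (not_le.2 (hneg u huv))

end CH

end MP46
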