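import Pool.Agent.Lib.MP_46e101_co.Defs
import Pool.Agent.Lib.MP_46e101_co.FACES
import Pool.Agent.Lib.MP_46e101_co.LOC
import Pool.Agent.Lib.MP_46e101_co.LGEO

open MvPolynomial

universe u w

noncomputable section

namespace MP46

section ACYchains

variable {V : Type u} [Fintype V] [DecidableEq V]

private theorem acy_bd_add (c c' : Finset V → ZMod 2) (G : Finset V) :
    bd (fun G => c G + c' G) G = bd c G + bd c' G := by
  simp [bd, Finset.sum_add_distrib]

private theorem acy_bd_bd (c : Finset V → ZMod 2) (G : Finset V) : bd (bd c) G = 0 := by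
  unfold bd
  rw [Finset.sum_sigma']
  refine Finset.sum_involution (fun x _ => (⟨x.2, x.1⟩ : Σ _ : V, V)) ?_ ?_ ?_ ?_
  · intro x _
    have : insert x.1 (insert x.2 G) = insert x.2 (insert x.1 G) := Finset.insert_comm _ _ _
    simp only [this]
    exact CharTwo.add_self_eq_zero _
  · intro x hx _ he
    have h2 : x.2 = x.1 := congrArg Sigma.fst he
    simp only [Finset.mem_sigma, Finset.mem_filter, Finset.mem_univ, true_and,
      Finset.mem_insert, not_or] at hx
    exact hx.2.1 h2
  · intro x hx
    simp only [Finset.mem_sigma, Finset.mem_filter, Finset.mem_univ, true_and,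
      Finset.mem_insert, not_or] at hx ⊢
    exact ⟨hx.2.2, fun e => hx.2.1 e.symm, hx.1⟩
  · intro x _
    rfl

/-- the cone `v * c'`. -/
private def acyCone (v : V) (c' : Finset {w : V // w ≠ v} → ZMod 2) (G : Finset V) : ZMod 2 :=
  if v ∈ G then c' (G.subtype fun w => w ≠ v) else 0

private theorem acy_cone_mem (v : V) (c' : Finset {w : V // w ≠ v} → ZMod 2) {G : Finset V}
    (hv : v ∈ G) : bd (acyCone v c') G = bd c' (G.subtype fun w => w ≠ v) := by
  unfold bd
  symm
  refine Finset.sum_bij (fun w' _ => w'.1) ?_ ?_ ?_ ?_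
  · intro w' hw'
    simp only [Finset.mem_filter, Finset.mem_univ, true_and, Finset.mem_subtype] at hw' ⊢
    exact hw'
  · intro a _ b _ hab
    exact Subtype.ext hab
  · intro w hw
    simp only [Finset.mem_filter, Finset.mem_univ, true_and] at hw
    have hne : w ≠ v := fun e => hw (e ▸ hv)
    refine ⟨⟨w, hne⟩, ?_, rfl⟩
    simp only [Finset.mem_filter, Finset.mem_univ, true_and, Finset.mem_subtype]
    exact hw
  · intro w' _
    have hv' : v ∈ insert w'.1 G := Finset.mem_insert_of_mem hv
    rw [acyCone, if_pos hv']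
    have : insert w' (G.subtype fun w => w ≠ v) = (insert w'.1 G).subtype fun w => w ≠ v := by
      ext a
      simp only [Finset.mem_insert, Finset.mem_subtype, Subtype.ext_iff]
    rw [this]

private theorem acy_cone_notMem (v : V) (c' : Finset {w : V // w ≠ v} → ZMod 2) {G : Finset V}
    (hv : v ∉ G) : bd (acyCone v c') G = c' (G.subtype fun w => w ≠ v) := by
  unfold bd
  rw [Finset.sum_eq_single v]
  · rw [acyCone, if_pos (Finset.mem_insert_self v G)]
    have : (insert v G).subtype (fun w => w ≠ v) = G.subtype fun w => w ≠ v := by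
      ext a
      simp only [Finset.mem_insert, Finset.mem_subtype]
      constructor
      · rintro (h | h)
        · exact absurd h a.2
        · exact h
      · exact Or.inr
    rw [this]
  · intro w hw hne
    simp only [Finset.mem_filter, Finset.mem_univ, true_and] at hw
    rw [acyCone, if_neg]
    simp only [Finset.mem_insert, not_or]
    exact ⟨fun e => hne e.symm, hv⟩
  · intro h
    exact absurd (by simpa using hv) h

private theorem acy_link_bd (v : V) (z : Finset V → ZMod 2) (G : Finset {w : V // w ≠ v}) :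
    bd (fun G' : Finset {w : V // w ≠ v} =>
      z (insert v (G'.map (Function.Embedding.subtype fun w => w ≠ v)))) G =
    bd z (insert v (G.map (Function.Embedding.subtype fun w => w ≠ v))) := by
  unfold bd
  refine Finset.sum_bij (fun w' _ => w'.1) ?_ ?_ ?_ ?_
  · intro w' hw'
    simp only [Finset.mem_filter, Finset.mem_univ, true_and, Finset.mem_insert, not_or] at hw' ⊢
    refine ⟨w'.2, ?_⟩
    intro hm
    rw [Finset.mem_map] at hm
    obtain ⟨a, ha, hae⟩ := hm
    have : a = w' := Subtype.ext hae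
    exact hw' (this ▸ ha)
  · intro a _ b _ hab
    exact Subtype.ext hab
  · intro w hw
    simp only [Finset.mem_filter, Finset.mem_univ, true_and, Finset.mem_insert, not_or] at hw
    refine ⟨⟨w, hw.1⟩, ?_, rfl⟩
    simp only [Finset.mem_filter, Finset.mem_univ, true_and]
    intro hm
    exact hw.2 (Finset.mem_map.2 ⟨_, hm, rfl⟩)
  · intro w' _
    have : insert v ((insert w' G).map (Function.Embedding.subtype fun w => w ≠ v)) =
        insert w'.1 (insert v (G.map (Function.Embedding.subtype fun w => w ≠ v))) := by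
      rw [Finset.map_insert, Finset.insert_comm]
      rfl
    show z _ = z _
    rw [this]

private theorem acy_sub_map (v : V) {G : Finset V} (hv : v ∈ G) :
    insert v ((G.subtype fun w => w ≠ v).map (Function.Embedding.subtype fun w => w ≠ v)) = G := by
  rw [Finset.subtype_map]
  ext a
  simp only [Finset.mem_insert, Finset.mem_filter]
  constructor
  · rintro (h | h)
    · exact h ▸ hv
    · exact h.1
  · intro h
    by_cases e : a = v
    · exact Or.inl e
    · exact Or.inr ⟨h, e⟩

private theorem acy_sub_map' (v : V) {G : Finset V} (hv : v ∉ G) :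
    (G.subtype fun w => w ≠ v).map (Function.Embedding.subtype fun w => w ≠ v) = G := by
  rw [Finset.subtype_map]
  ext a
  simp only [Finset.mem_filter]
  constructor
  · exact fun h => h.1
  · intro h
    exact ⟨h, fun e => hv (e ▸ h)⟩

end ACYchains

section ACYgeo

variable {V : Type u} [Fintype V] [DecidableEq V] {U : Type w} [AddCommGroup U] [Module ℝ U]
  {o : Module.Dual ℝ U} {p : V → Module.Dual ℝ U} {n : ℕ}

private theorem acy_small (S : Finset V) (a b : V → ℝ) (ha : ∀ w ∈ S, 0 < a w) :
    ∃ ε : ℝ, 0 < ε ∧ ∀ w ∈ S, ε * b w < a w := by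
  have h1 : ∀ᶠ ε in nhdsWithin (0 : ℝ) (Set.Ioi 0), ∀ w ∈ S, ε * b w < a w := by
    rw [Filter.eventually_all_finset]
    intro w hw
    apply Filter.Eventually.filter_mono nhdsWithin_le_nhds
    have hc : Continuous fun ε : ℝ => ε * b w := by fun_prop
    have h0 : (0 : ℝ) * b w < a w := by rw [zero_mul]; exact ha w hw
    exact (hc.tendsto 0).eventually_lt_const h0
  have h2 : ∀ᶠ ε in nhdsWithin (0 : ℝ) (Set.Ioi 0), 0 < ε := self_mem_nhdsWithin
  obtain ⟨ε, h3, h4⟩ := (h2.and h1).exists
  exact ⟨ε, h3, h4⟩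

private theorem acy_vertex (h : Ord n o p) {f : U} (hpos : ∃ v, Face o p {v} ∧ 0 < p v f) :
    ∃ v, Face o p {v} ∧ 0 < p v f ∧ ∃ f₁ f₂ : U, p v f₁ = 0 ∧ p v f₂ < 0 ∧
      ∀ w, w ≠ v → Face o p {w} → (0 < p w f → 0 < p w f₁ ∧ 0 < p w f₂) ∧
        (p w f < 0 → p w f₁ < 0 ∧ p w f₂ < 0) := by
  classical
  obtain ⟨g, -, hg⟩ := h.interior
  obtain ⟨v0, hv0, hv0'⟩ := hpos
  obtain ⟨v, hv, hmin⟩ := Finset.exists_min_image
    (Finset.univ.filter fun w => Face o p {w} ∧ 0 < p w f) (fun w => p w f / p w g)
    ⟨v0, by simp [hv0, hv0']⟩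
  simp only [Finset.mem_filter, Finset.mem_univ, true_and] at hv hmin
  obtain ⟨x, hxP, hxa⟩ := h.relint hv.1
  have hvx : p v x = 0 := by
    have : v ∈ act p x := by rw [hxa]; exact Finset.mem_singleton_self v
    simpa [act] using this
  have hwx : ∀ w, w ≠ v → 0 < p w x := by
    intro w hw
    have h1 : 0 ≤ p w x := hxP.2 w
    rcases h1.lt_or_eq with h2 | h2
    · exact h2
    · exfalso
      have : w ∈ act p x := by simp [act, h2.symm]
      rw [hxa, Finset.mem_singleton] at this
      exact hw this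
  set t0 : ℝ := p v f / p v g with ht0
  have ht0p : 0 < t0 := div_pos hv.2 (hg v)
  -- first perturbation
  obtain ⟨ε, hε, hεw⟩ := acy_small (Finset.univ.filter fun w => Face o p {w} ∧ p w f < 0)
    (fun w => -(p w f - t0 * p w g)) (fun w => p w x) (by
      intro w hw
      simp only [Finset.mem_filter, Finset.mem_univ, true_and] at hw
      have := mul_pos ht0p (hg w)
      linarith [hw.2])
  have hf1 : ∀ w, p w (f - t0 • g + ε • x) = p w f - t0 * p w g + ε * p w x := by
    intro w
    simp [map_add, map_sub, map_smul]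
  have hpos1 : ∀ w, w ≠ v → Face o p {w} → 0 < p w f → 0 < p w (f - t0 • g + ε • x) := by
    intro w hw hFw hpw
    rw [hf1]
    have h1 := hmin w ⟨hFw, hpw⟩
    have h2 : t0 * p w g ≤ p w f := by
      rw [le_div_iff₀ (hg w)] at h1
      exact h1
    have h3 := mul_pos hε (hwx w hw)
    linarith
  have hneg1 : ∀ w, Face o p {w} → p w f < 0 → p w (f - t0 • g + ε • x) < 0 := by
    intro w hFw hpw
    rw [hf1]
    have := hεw w (by simp [hFw, hpw])
    linarith
  obtain ⟨δ, hδ, hδw⟩ := acy_small (Finset.univ.filter fun w => w ≠ v ∧ Face o p {w} ∧ 0 < p w f)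
    (fun w => p w (f - t0 • g + ε • x)) (fun w => p w g) (by
      intro w hw
      simp only [Finset.mem_filter, Finset.mem_univ, true_and] at hw
      exact hpos1 w hw.1 hw.2.1 hw.2.2)
  have hv1 : p v (f - t0 • g + ε • x) = 0 := by
    rw [hf1, hvx, ht0, div_mul_cancel₀ _ (hg v).ne']
    ring
  refine ⟨v, hv.1, hv.2, f - t0 • g + ε • x, f - t0 • g + ε • x - δ • g, hv1, ?_, ?_⟩
  · rw [map_sub, map_smul, hv1, smul_eq_mul]
    have := mul_pos hδ (hg v)
    linarith
  · intro w hw hFw
    refine ⟨fun hpw => ⟨hpos1 w hw hFw hpw, ?_⟩, fun hnw => ⟨hneg1 w hFw hnw, ?_⟩⟩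
    · rw [map_sub, map_smul, smul_eq_mul]
      have := hδw w (by simp [hw, hFw, hpw])
      linarith
    · rw [map_sub, map_smul, smul_eq_mul]
      have h1 := hneg1 w hFw hnw
      have h2 := mul_pos hδ (hg w)
      linarith

/-- in dimension one there is only one positive vertex. -/
private theorem acy_dim_one (h : Ord 1 o p) {f : U} {v w : V} (hv : Face o p {v})
    (hpv : 0 < p v f) (hw : Face o p {w}) (hpw : 0 < p w f)
    (hneg : ∃ v, Face o p {v} ∧ p v f < 0) : w = v := by
  obtain ⟨y, -, -, -, -, a, b, -, -, -, -, -, -, -, hall⟩ :=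
    h.ridge (G := ∅) h.face_empty (by simp)
  have hall' : ∀ u, Face o p {u} → u = a ∨ u = b := by
    intro u hu
    exact hall u (by simp) (by simpa using hu)
  obtain ⟨u, hu, hpu⟩ := hneg
  have huv : u ≠ v := fun e => by rw [e] at hpu; linarith
  have huw : u ≠ w := fun e => by rw [e] at hpu; linarith
  rcases hall' u hu with h1 | h1 <;> rcases hall' v hv with h2 | h2 <;>
    rcases hall' w hw with h3 | h3 <;> subst h1 <;> simp_all

end ACYgeo

private def AcyStmt (n : ℕ) : Prop :=
  ∀ (V : Type u) [Fintype V] [DecidableEq V] (U : Type w) [AddCommGroup U] [Module ℝ U]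
    (o : Module.Dual ℝ U) (p : V → Module.Dual ℝ U), Ord n o p → ∀ f : U,
    (∀ v, Face o p {v} → p v f ≠ 0) → (∃ v, Face o p {v} ∧ 0 < p v f) →
    (∃ v, Face o p {v} ∧ p v f < 0) → ∀ (j : ℕ) (z : Finset V → ZMod 2),
    (∀ G, z G ≠ 0 → Face o p G ∧ G.card = j ∧ ∀ v ∈ G, 0 < p v f) → (∀ G, bd z G = 0) →
    ∃ c : Finset V → ZMod 2,
      (∀ G, c G ≠ 0 → Face o p G ∧ G.card = j + 1 ∧ ∀ v ∈ G, 0 < p v f) ∧
      ∀ G, bd c G = z G

private theorem acy_zero : AcyStmt.{u, w} 0 := by
  intro V _ _ U _ _ o p h f _ hpos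
  obtain ⟨v, hv, -⟩ := hpos
  have := h.card_le hv
  simp at this

section ACYmain

variable {V : Type u} [Fintype V] [DecidableEq V] {U : Type w} [AddCommGroup U] [Module ℝ U]
  {o : Module.Dual ℝ U} {p : V → Module.Dual ℝ U} {n : ℕ}

/-- degree `0` -/
private theorem acy_deg_zero {f : U} {v : V} (hv : Face o p {v}) (hpv : 0 < p v f)
    (z : Finset V → ZMod 2)
    (hz : ∀ G, z G ≠ 0 → Face o p G ∧ G.card = 0 ∧ ∀ v ∈ G, 0 < p v f) :
    ∃ c : Finset V → ZMod 2,
      (∀ G, c G ≠ 0 → Face o p G ∧ G.card = 0 + 1 ∧ ∀ v ∈ G, 0 < p v f) ∧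
      ∀ G, bd c G = z G := by
  refine ⟨fun G => if G = {v} then z ∅ else 0, ?_, ?_⟩
  · intro G hG
    by_cases e : G = {v}
    · subst e
      exact ⟨hv, by simp, by simpa using hpv⟩
    · simp [e] at hG
  · intro G
    by_cases hG : G = ∅
    · subst hG
      unfold bd
      rw [Finset.sum_eq_single v]
      · simp
      · intro w _ hw
        simp [hw]
      · intro h
        simp at h
    · have hz0 : z G = 0 := by
        by_contra hne
        have := (hz G hne).2.1
        exact hG (Finset.card_eq_zero.1 this)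
      rw [hz0]
      unfold bd
      apply Finset.sum_eq_zero
      intro w hw
      simp only [Finset.mem_filter, Finset.mem_univ, true_and] at hw
      show (if insert w G = {v} then z ∅ else 0) = 0
      rw [if_neg]
      intro e
      have h1 : (insert w G).card = 1 := by rw [e]; simp
      rw [Finset.card_insert_of_notMem hw] at h1
      have h2 : G.card = 0 := by omega
      exact hG (Finset.card_eq_zero.1 h2)

/-- only one positive vertex -/
private theorem acy_single {f : U} {v : V} (hv : Face o p {v}) (hpv : 0 < p v f)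
    (honly : ∀ w, Face o p {w} → 0 < p w f → w = v) (j : ℕ) (z : Finset V → ZMod 2)
    (hz : ∀ G, z G ≠ 0 → Face o p G ∧ G.card = j ∧ ∀ v ∈ G, 0 < p v f)
    (hcyc : ∀ G, bd z G = 0) :
    ∃ c : Finset V → ZMod 2,
      (∀ G, c G ≠ 0 → Face o p G ∧ G.card = j + 1 ∧ ∀ v ∈ G, 0 < p v f) ∧
      ∀ G, bd c G = z G := by
  rcases Nat.eq_zero_or_pos j with hj | hj
  · subst hj
    exact acy_deg_zero hv hpv z hz
  · have hsub : ∀ G, z G ≠ 0 → G = {v} := by
      intro G hG
      obtain ⟨h1, h2, h3⟩ := hz G hG
      have h4 : ∀ w ∈ G, w = v := by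
        intro w hw
        exact honly w (h1.mono (Finset.singleton_subset_iff.2 hw)) (h3 w hw)
      have h5 : G ⊆ {v} := fun w hw => Finset.mem_singleton.2 (h4 w hw)
      rcases Finset.subset_singleton_iff.1 h5 with h6 | h6
      · rw [h6] at h2
        simp at h2
        omega
      · exact h6
    have hzv : z {v} = 0 := by
      have h1 := hcyc ∅
      unfold bd at h1
      rw [Finset.sum_eq_single v] at h1
      · simpa using h1
      · intro w _ hw
        by_contra hne
        have := hsub _ hne
        simp at this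
        exact hw this
      · intro h
        simp at h
    have hz0 : ∀ G, z G = 0 := by
      intro G
      by_contra hne
      have := hsub G hne
      rw [this] at hne
      exact hne hzv
    refine ⟨fun _ => 0, fun G hG => absurd rfl hG, fun G => ?_⟩
    rw [hz0 G]
    simp [bd]

end ACYmain

private theorem acy_succ {m : ℕ} (IH : AcyStmt.{u, w} m) : AcyStmt.{u, w} (m + 1) := by
  intro V _ _ U _ _ o p h f hf hpos hneg j z hz hcyc
  classical
  -- inner induction on the number of positive vertices
  induction hk : (Finset.univ.filter fun w => Face o p {w} ∧ 0 < p w f).card using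
    Nat.strong_induction_on generalizing f z with
  | _ k ih =>
  obtain ⟨v, hv, hpv, f₁, f₂, hv1, hv2, hsig⟩ := acy_vertex h hpos
  by_cases honly : ∀ w, Face o p {w} → 0 < p w f → w = v
  · exact acy_single hv hpv honly j z hz hcyc
  push Not at honly
  obtain ⟨u, hu, hpu, huv⟩ := honly
  rcases Nat.eq_zero_or_pos j with hj | hj
  · subst hj
    exact acy_deg_zero hv hpv z hz
  obtain ⟨i, rfl⟩ : ∃ i, j = i + 1 := ⟨j - 1, by omega⟩
  -- the dimension is at least two
  have hn : 2 ≤ m + 1 := by
    by_contra hlt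
    have hm : m = 0 := by omega
    subst hm
    exact huv (acy_dim_one h hv hpv hu hpu hneg)
  obtain ⟨hL, hLF⟩ := h.link hv
  -- signs of `f₁` in the link
  have hne1 : ∀ w, w ≠ v → Face o p {w} → p w f₁ ≠ 0 := by
    intro w hw hFw
    rcases lt_or_gt_of_ne (hf w hFw) with h1 | h1
    · exact ((hsig w hw hFw).2 h1).1.ne
    · exact ((hsig w hw hFw).1 h1).1.ne'
  have hvert : ∀ w' : {w : V // w ≠ v}, Face (linkO o p v) (linkP p v) {w'} →
      Face o p {v, w'.1} := by
    intro w' hw'
    have := (hLF {w'}).1 hw'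
    simpa [linkF] using this
  have hvert' : ∀ (w : V) (hw : w ≠ v), Face o p {v, w} →
      Face (linkO o p v) (linkP p v) {(⟨w, hw⟩ : {w : V // w ≠ v})} := by
    intro w hw hF
    apply (hLF _).2
    simpa [linkF] using hF
  have hface1 : ∀ w, Face o p {v, w} → Face o p {w} := by
    intro w hF
    exact hF.mono (by simp)
  obtain ⟨c', hc'1, hc'2⟩ := IH {w : V // w ≠ v} (LinearMap.ker (p v)) (linkO o p v) (linkP p v) hL
    ⟨f₁, hv1⟩ (by
      intro w' hw'
      exact hne1 w'.1 w'.2 (hface1 _ (hvert w' hw')))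
    (by
      by_contra hcon
      push Not at hcon
      have h1 : ∀ w, 0 ≤ p w (-f₁) := by
        intro w
        refine local_global hn h hv (by rw [map_neg, hv1, neg_zero]) ?_ w
        intro w hw hF
        have := hcon ⟨w, hw⟩ (hvert' w hw hF)
        rw [map_neg]
        have h2 : linkP p v ⟨w, hw⟩ ⟨f₁, hv1⟩ = p w f₁ := rfl
        rw [h2] at this
        linarith
      have h3 := h1 u
      rw [map_neg] at h3
      have h4 := ((hsig u huv hu).1 hpu).1
      linarith)
    (by
      by_contra hcon
      push Not at hcon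
      have h1 : ∀ w, 0 ≤ p w f₁ := by
        intro w
        refine local_global hn h hv hv1 ?_ w
        intro w hw hF
        have := hcon ⟨w, hw⟩ (hvert' w hw hF)
        have h2 : linkP p v ⟨w, hw⟩ ⟨f₁, hv1⟩ = p w f₁ := rfl
        rw [h2] at this
        linarith
      obtain ⟨a, ha, hpa⟩ := hneg
      have hav : a ≠ v := fun e => by rw [e] at hpa; linarith
      have h3 := h1 a
      have h4 := ((hsig a hav ha).2 hpa).1
      linarith)
    i (fun G' => z (insert v (G'.map (Function.Embedding.subtype fun w => w ≠ v))))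
    (by
      intro G' hG'
      obtain ⟨g1, g2, g3⟩ := hz _ hG'
      refine ⟨(hLF G').2 g1, ?_, ?_⟩
      · rw [Finset.card_insert_of_notMem, Finset.card_map] at g2
        · omega
        · intro hm
          rw [Finset.mem_map] at hm
          obtain ⟨a, -, ha⟩ := hm
          exact a.2 ha
      · intro w' hw'
        have hmem : w'.1 ∈ insert v (G'.map (Function.Embedding.subtype fun w => w ≠ v)) :=
          Finset.mem_insert_of_mem (Finset.mem_map.2 ⟨w', hw', rfl⟩)
        have h5 := g3 _ hmem
        exact ((hsig w'.1 w'.2 (g1.mono (Finset.singleton_subset_iff.2 hmem))).1 h5).1)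
    (by
      intro G'
      rw [acy_link_bd]
      exact hcyc _)
  -- support of c'
  have hc'pos : ∀ G', c' G' ≠ 0 → ∀ w' ∈ G', Face o p {w'.1} ∧ 0 < p w'.1 f := by
    intro G' hG' w' hw'
    obtain ⟨g1, g2, g3⟩ := hc'1 G' hG'
    have hmem : w'.1 ∈ insert v (G'.map (Function.Embedding.subtype fun w => w ≠ v)) :=
      Finset.mem_insert_of_mem (Finset.mem_map.2 ⟨w', hw', rfl⟩)
    have hFw : Face o p {w'.1} := ((hLF G').1 g1).mono (Finset.singleton_subset_iff.2 hmem)
    refine ⟨hFw, ?_⟩
    have h6 : 0 < p w'.1 f₁ := g3 w' hw'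
    rcases lt_or_gt_of_ne (hf w'.1 hFw) with h7 | h7
    · have := ((hsig w'.1 w'.2 hFw).2 h7).1
      linarith
    · exact h7
  have hconesupp : ∀ G, acyCone v c' G ≠ 0 → Face o p G ∧ G.card = i + 1 + 1 ∧
      ∀ w ∈ G, 0 < p w f := by
    intro G hG
    by_cases hvG : v ∈ G
    · rw [acyCone, if_pos hvG] at hG
      obtain ⟨g1, g2, g3⟩ := hc'1 _ hG
      have g1' := (hLF _).1 g1
      unfold linkF at g1'
      rw [acy_sub_map v hvG] at g1'
      refine ⟨g1', ?_, ?_⟩
      · have h8 := congrArg Finset.card (acy_sub_map v hvG)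
        rw [Finset.card_insert_of_notMem, Finset.card_map, g2] at h8
        · exact h8.symm
        · intro hm
          rw [Finset.mem_map] at hm
          obtain ⟨a, -, ha⟩ := hm
          exact a.2 ha
      · intro w hw
        by_cases e : w = v
        · rw [e]; exact hpv
        · exact (hc'pos _ hG ⟨w, e⟩ (by simpa using hw)).2
    · rw [acyCone, if_neg hvG] at hG
      exact absurd rfl hG
  -- the remaining cycle
  have hz2v : ∀ G, v ∈ G → z G + bd (acyCone v c') G = 0 := by
    intro G hvG
    rw [acy_cone_mem v c' hvG, hc'2, acy_sub_map v hvG]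
    exact CharTwo.add_self_eq_zero _
  have hlt : (Finset.univ.filter fun w => Face o p {w} ∧ 0 < p w f₂).card < k := by
    rw [← hk]
    apply Finset.card_lt_card
    rw [Finset.ssubset_iff_of_subset]
    · refine ⟨v, by simp [hv, hpv], ?_⟩
      simp only [Finset.mem_filter, Finset.mem_univ, true_and, not_and, not_lt]
      intro _
      exact hv2.le
    · intro w hw
      simp only [Finset.mem_filter, Finset.mem_univ, true_and] at hw ⊢
      have hwv : w ≠ v := fun e => by rw [e] at hw; linarith [hw.2]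
      refine ⟨hw.1, ?_⟩
      rcases lt_or_gt_of_ne (hf w hw.1) with h7 | h7
      · have := ((hsig w hwv hw.1).2 h7).2
        linarith [hw.2]
      · exact h7
  obtain ⟨c2, hc21, hc22⟩ := ih _ hlt (f := f₂)
    (by
      intro w hFw
      by_cases e : w = v
      · rw [e]; exact hv2.ne
      rcases lt_or_gt_of_ne (hf w hFw) with h1 | h1
      · exact ((hsig w e hFw).2 h1).2.ne
      · exact ((hsig w e hFw).1 h1).2.ne')
    ⟨u, hu, ((hsig u huv hu).1 hpu).2⟩
    ⟨v, hv, hv2⟩
    (fun G => z G + bd (acyCone v c') G)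
    (by
      intro G hG
      have hvG : v ∉ G := fun hvG => hG (hz2v G hvG)
      have hkey : Face o p G ∧ G.card = i + 1 ∧ ∀ w ∈ G, 0 < p w f := by
        by_cases hzG : z G = 0
        · rw [hzG, zero_add, acy_cone_notMem v c' hvG] at hG
          obtain ⟨g1, g2, g3⟩ := hc'1 _ hG
          have g1' := (hLF _).1 g1
          unfold linkF at g1'
          rw [acy_sub_map' v hvG] at g1'
          refine ⟨g1'.mono (Finset.subset_insert _ _), ?_, ?_⟩
          · have h8 := congrArg Finset.card (acy_sub_map' v hvG)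
            rw [Finset.card_map, g2] at h8
            exact h8.symm
          · intro w hw
            have e : w ≠ v := fun e => hvG (e ▸ hw)
            exact (hc'pos _ hG ⟨w, e⟩ (by simpa using hw)).2
        · exact hz G hzG
      refine ⟨hkey.1, hkey.2.1, ?_⟩
      intro w hw
      have e : w ≠ v := fun e => hvG (e ▸ hw)
      exact ((hsig w e (hkey.1.mono (Finset.singleton_subset_iff.2 hw))).1 (hkey.2.2 w hw)).2)
    (by
      intro G
      have := acy_bd_add z (bd (acyCone v c')) G
      rw [this, hcyc G, acy_bd_bd, add_zero])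
    rfl
  refine ⟨fun G => acyCone v c' G + c2 G, ?_, ?_⟩
  · intro G hG
    by_cases h9 : acyCone v c' G = 0
    · simp only [h9, zero_add] at hG
      obtain ⟨g1, g2, g3⟩ := hc21 G hG
      refine ⟨g1, g2, ?_⟩
      intro w hw
      have hFw : Face o p {w} := g1.mono (Finset.singleton_subset_iff.2 hw)
      have h10 := g3 w hw
      have e : w ≠ v := fun e => by rw [e] at h10; linarith
      rcases lt_or_gt_of_ne (hf w hFw) with h7 | h7
      · have := ((hsig w e hFw).2 h7).2
        linarith
      · exact h7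
    · exact hconesupp G h9
  · intro G
    rw [acy_bd_add, hc22 G]
    have h11 : bd (acyCone v c') G + (z G + bd (acyCone v c') G) =
        z G + (bd (acyCone v c') G + bd (acyCone v c') G) := by ring
    rw [h11, CharTwo.add_self_eq_zero, add_zero]

private theorem acy_all : ∀ n : ℕ, AcyStmt.{u, w} n
  | 0 => acy_zero
  | n + 1 => acy_succ (acy_all n)

section ACY

variable {V : Type u} [Fintype V] [DecidableEq V] {U : Type w} [AddCommGroup U] [Module ℝ U]
  {o : Module.Dual ℝ U} {p : V → Module.Dual ℝ U} {n : ℕ}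

theorem acyclic (h : Ord n o p) {f : U} (hf : ∀ v, Face o p {v} → p v f ≠ 0)
    (hpos : ∃ v, Face o p {v} ∧ 0 < p v f) (hneg : ∃ v, Face o p {v} ∧ p v f < 0) (j : ℕ)
    (z : Finset V → ZMod 2)
    (hz : ∀ G, z G ≠ 0 → Face o p G ∧ G.card = j ∧ ∀ v ∈ G, 0 < p v f)
    (hcyc : ∀ G, bd z G = 0) :
    ∃ c : Finset V → ZMod 2,
      (∀ G, c G ≠ 0 → Face o p G ∧ G.card = j + 1 ∧ ∀ v ∈ G, 0 < p v f) ∧
      ∀ G, bd c G = z G :=
  acy_all n V U o p h f hf hpos hneg j z hz hcyc

end ACY

end MP46
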