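import Pool.Agent.Lib.MP_46e101_co.Defs

/-! # MP_46e101_co, module ANA0: continuous solution of a parametric linear system -/

open MvPolynomial

universe u w

noncomputable section

namespace MP46

/-- a finite family in `H` which is a basis of a complement of `K ∩ H` in `H`. -/
theorem exists_compl_family {E : Type w} [AddCommGroup E] [Module ℝ E] (H K : Submodule ℝ E)
    [Module.Finite ℝ H] :
    ∃ (N : ℕ) (e : Fin N → E), (∀ i, e i ∈ H) ∧
      (∀ b ∈ H, ∃ (k : E) (x : Fin N → ℝ), k ∈ H ∧ k ∈ K ∧ b = k + ∑ i, x i • e i) ∧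
      (∀ x : Fin N → ℝ, ∑ i, x i • e i ∈ K → x = 0) := by
  obtain ⟨W, hKW⟩ := Submodule.exists_isCompl (K.comap H.subtype)
  have bs := Module.finBasis ℝ W
  have hcoe : ∀ x : Fin (Module.finrank ℝ W) → ℝ,
      (((∑ i, x i • bs i : W) : H) : E) = ∑ i, x i • ((bs i : H) : E) := by
    intro x
    simp only [Submodule.coe_sum, Submodule.coe_smul]
  refine ⟨Module.finrank ℝ W, fun i => ((bs i : H) : E), fun i => (bs i : H).2, ?_, ?_⟩
  · intro b hb
    have hb' : (⟨b, hb⟩ : H) ∈ K.comap H.subtype ⊔ W := by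
      rw [hKW.sup_eq_top]; trivial
    obtain ⟨k, hk, w, hw, hkw⟩ := Submodule.mem_sup.1 hb'
    refine ⟨(k : E), fun i => bs.repr ⟨w, hw⟩ i, k.2, hk, ?_⟩
    rw [← hcoe, bs.sum_repr ⟨w, hw⟩]
    have h4 := congrArg (fun z : H => (z : E)) hkw
    simp only [Submodule.coe_add] at h4
    exact h4.symm
  · intro x hx
    have hW : ((∑ i, x i • bs i : W) : H) ∈ K.comap H.subtype := by
      rw [Submodule.mem_comap, Submodule.subtype_apply, hcoe]
      exact hx
    have h0' : ((∑ i, x i • bs i : W) : H) = 0 := by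
      have h7 := hKW.disjoint
      rw [Submodule.disjoint_def] at h7
      exact h7 _ hW (Subtype.property _)
    have h0'' : (∑ i, x i • bs i : W) = 0 := by
      apply Subtype.ext
      rw [h0']; rfl
    funext i
    exact Fintype.linearIndependent_iff.1 bs.linearIndependent x h0'' i

section ANA0
variable {V : Type u}

/-- continuity of `s ↦ D (c * (l + s m)^k)`. -/
theorem continuous_D_pow (D : MvPolynomial V ℝ →ₗ[ℝ] ℝ) (l m : MvPolynomial V ℝ) (k : ℕ) :
    ∀ c : MvPolynomial V ℝ, Continuous fun s : ℝ => D (c * (l + s • m) ^ k) := by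
  induction k with
  | zero => intro c; simpa using continuous_const
  | succ k ih =>
    intro c
    have h : (fun s : ℝ => D (c * (l + s • m) ^ (k + 1))) =
        fun s : ℝ => D ((c * l) * (l + s • m) ^ k) + s * D ((c * m) * (l + s • m) ^ k) := by
      funext s
      have : c * (l + s • m) ^ (k + 1) =
          (c * l) * (l + s • m) ^ k + s • ((c * m) * (l + s • m) ^ k) := by
        rw [pow_succ, smul_eq_C_mul, smul_eq_C_mul]; ring
      rw [this, map_add, map_smul, smul_eq_mul]
    rw [h]
    exact (ih _).add (continuous_id.mul (ih _))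

/-- `l + s m` is homogeneous of degree one. -/
theorem isHomogeneous_line {l m : MvPolynomial V ℝ} (hl : l.IsHomogeneous 1)
    (hm : m.IsHomogeneous 1) (s : ℝ) : (l + s • m).IsHomogeneous 1 := by
  rw [smul_eq_C_mul]
  exact hl.add (hm.C_mul s)

/-- a multiple of an annihilated element is killed. -/
theorem ann_mul_pow {D : MvPolynomial V ℝ →ₗ[ℝ] ℝ} {l a b : MvPolynomial V ℝ}
    (hl : l.IsHomogeneous 1) {i j q : ℕ} (ha : Ann D j a) (hb : b.IsHomogeneous i)
    (hq : i + q = j) : D (a * b * l ^ q) = 0 := by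
  rw [mul_assoc]
  apply ha
  have h := hb.mul (hl.pow q)
  rw [one_mul, hq] at h
  exact h

variable [Finite V]

theorem solve {D : MvPolynomial V ℝ →ₗ[ℝ] ℝ} {l m : MvPolynomial V ℝ}
    (hl : l.IsHomogeneous 1) (hm : m.IsHomogeneous 1) {n j : ℕ} (hj : 2 * j ≤ n)
    (hnd : ND D l n j) (r : ℝ → MvPolynomial V ℝ →ₗ[ℝ] ℝ)
    (hr : ∀ b, Continuous fun s => r s b)
    (hr0 : ∀ s, ∀ b : MvPolynomial V ℝ, b.IsHomogeneous j → Ann D (n - j) b → r s b = 0) :
    ∃ (N : ℕ) (e : Fin N → MvPolynomial V ℝ) (γ : Fin N → ℝ → ℝ),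
      (∀ i, (e i).IsHomogeneous j) ∧ (∀ i, ContinuousAt (γ i) 0) ∧
      (∀ᶠ s in nhds (0 : ℝ), ∀ b : MvPolynomial V ℝ, b.IsHomogeneous j →
        D ((∑ i, γ i s • e i) * b * (l + s • m) ^ (n - 2 * j)) = r s b) ∧
      ((∀ b : MvPolynomial V ℝ, b.IsHomogeneous j → r 0 b = 0) → ∀ i, γ i 0 = 0) := by
  classical
  -- the annihilated part
  let K : Submodule ℝ (MvPolynomial V ℝ) :=
    { carrier := {b | Ann D (n - j) b}
      add_mem' := by
        intro a b ha hb c hc
        rw [add_mul, map_add, ha c hc, hb c hc, add_zero]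
      zero_mem' := by
        intro c _
        rw [zero_mul, map_zero]
      smul_mem' := by
        intro t a ha c hc
        rw [smul_mul_assoc, map_smul, ha c hc, smul_zero] }
  have hfin : Module.Finite ℝ (homogeneousSubmodule V ℝ j) :=
    Module.Finite.iff_fg.mpr (homogeneousSubmodule_fg V ℝ j)
  obtain ⟨N, e, he', hdec', hind⟩ := exists_compl_family (homogeneousSubmodule V ℝ j) K
  have he : ∀ i, (e i).IsHomogeneous j := fun i => (mem_homogeneousSubmodule j _).1 (he' i)
  have hdec : ∀ b : MvPolynomial V ℝ, b.IsHomogeneous j → ∃ (k : MvPolynomial V ℝ)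
      (x : Fin N → ℝ), k.IsHomogeneous j ∧ Ann D (n - j) k ∧ b = k + ∑ i, x i • e i := by
    intro b hb
    obtain ⟨k, x, h1, h2, h3⟩ := hdec' b ((mem_homogeneousSubmodule j _).2 hb)
    exact ⟨k, x, (mem_homogeneousSubmodule j _).1 h1, h2, h3⟩
  have hsumH : ∀ x : Fin N → ℝ, (∑ i, x i • e i).IsHomogeneous j := by
    intro x
    apply IsHomogeneous.sum
    intro i _
    rw [smul_eq_C_mul]
    exact (he i).C_mul _
  let M : ℝ → Matrix (Fin N) (Fin N) ℝ := fun s a b => D (e a * e b * (l + s • m) ^ (n - 2 * j))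
  have hMc : Continuous M := by
    apply continuous_matrix
    intro a b
    exact continuous_D_pow D l m _ _
  have hq : j + (n - 2 * j) = n - j := by omega
  -- the determinant at 0
  have hdet : (M 0).det ≠ 0 := by
    intro h0
    obtain ⟨x, hx, hxM⟩ := Matrix.exists_vecMul_eq_zero_iff.2 h0
    apply hx
    have hann : Ann D (n - j) (∑ i, x i • e i) := by
      apply hnd
      · exact hsumH x
      · intro b hb
        obtain ⟨k, y, hk, hkA, rfl⟩ := hdec b hb
        have h1 : D ((∑ i, x i • e i) * k * l ^ (n - 2 * j)) = 0 := by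
          have : (∑ i, x i • e i) * k * l ^ (n - 2 * j) =
              k * (∑ i, x i • e i) * l ^ (n - 2 * j) := by ring
          rw [this]
          exact ann_mul_pow hl hkA (hsumH x) hq
        have h2 : ∀ c, D ((∑ i, x i • e i) * e c * l ^ (n - 2 * j)) = 0 := by
          intro c
          have h3 := congrFun hxM c
          rw [Matrix.vecMul, dotProduct] at h3
          have h4 : (∑ i, x i • e i) * e c * l ^ (n - 2 * j) =
              ∑ i, x i • (e i * e c * l ^ (n - 2 * j)) := by
            rw [Finset.sum_mul, Finset.sum_mul]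
            refine Finset.sum_congr rfl fun i _ => ?_
            rw [smul_mul_assoc, smul_mul_assoc]
          rw [h4, map_sum]
          simp only [map_smul, smul_eq_mul]
          have h5 : ∀ i, M 0 i c = D (e i * e c * l ^ (n - 2 * j)) := by
            intro i
            simp only [M, zero_smul, add_zero]
          simp only [h5] at h3
          exact h3
        rw [mul_add, add_mul, map_add, h1, zero_add]
        have h6 : (∑ i, x i • e i) * (∑ c, y c • e c) * l ^ (n - 2 * j) =
            ∑ c, y c • ((∑ i, x i • e i) * e c * l ^ (n - 2 * j)) := by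
          rw [Finset.mul_sum, Finset.sum_mul]
          refine Finset.sum_congr rfl fun c _ => ?_
          rw [mul_smul_comm, smul_mul_assoc]
        rw [h6, map_sum]
        refine Finset.sum_eq_zero fun c _ => ?_
        rw [map_smul, h2 c, smul_zero]
    exact hind x hann
  -- the solution
  let ρ : ℝ → Fin N → ℝ := fun s i => r s (e i)
  let γ : Fin N → ℝ → ℝ := fun i s => ((M s).det)⁻¹ * ∑ a, ρ s a * (M s).adjugate a i
  have hdc : Continuous fun s => (M s).det := hMc.matrix_det
  have hac : Continuous fun s => (M s).adjugate := hMc.matrix_adjugate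
  refine ⟨N, e, γ, he, ?_, ?_, ?_⟩
  · intro i
    apply ContinuousAt.mul
    · exact (hdc.continuousAt).inv₀ hdet
    · apply Continuous.continuousAt
      refine continuous_finsetSum _ fun a _ => ?_
      exact (hr _).mul (hac.matrix_elem a i)
  · have hev : ∀ᶠ s in nhds (0 : ℝ), (M s).det ≠ 0 :=
      (hdc.continuousAt).eventually_ne hdet
    filter_upwards [hev] with s hs
    have key : Matrix.vecMul (fun i => γ i s) (M s) = ρ s := by
      have h1 : (fun i => γ i s) = ((M s).det)⁻¹ • Matrix.vecMul (ρ s) (M s).adjugate := by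
        funext i
        simp only [γ, Pi.smul_apply, smul_eq_mul, Matrix.vecMul, dotProduct]
      rw [h1, Matrix.smul_vecMul, Matrix.vecMul_vecMul, Matrix.adjugate_mul, Matrix.vecMul_smul,
        Matrix.vecMul_one, smul_smul, inv_mul_cancel₀ hs, one_smul]
    intro b hb
    obtain ⟨k, y, hk, hkA, rfl⟩ := hdec b hb
    have h1 : D ((∑ i, γ i s • e i) * k * (l + s • m) ^ (n - 2 * j)) = 0 := by
      have : (∑ i, γ i s • e i) * k * (l + s • m) ^ (n - 2 * j) =
          k * (∑ i, γ i s • e i) * (l + s • m) ^ (n - 2 * j) := by ring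
      rw [this]
      exact ann_mul_pow (isHomogeneous_line hl hm s) hkA (hsumH fun i => γ i s) hq
    have h2 : ∀ c, D ((∑ i, γ i s • e i) * e c * (l + s • m) ^ (n - 2 * j)) = r s (e c) := by
      intro c
      have h3 := congrFun key c
      rw [Matrix.vecMul, dotProduct] at h3
      have h4 : (∑ i, γ i s • e i) * e c * (l + s • m) ^ (n - 2 * j) =
          ∑ i, γ i s • (e i * e c * (l + s • m) ^ (n - 2 * j)) := by
        rw [Finset.sum_mul, Finset.sum_mul]
        refine Finset.sum_congr rfl fun i _ => ?_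
        rw [smul_mul_assoc, smul_mul_assoc]
      rw [h4, map_sum]
      simp only [map_smul, smul_eq_mul]
      exact h3
    rw [mul_add, add_mul, map_add, h1, zero_add, map_add, hr0 s k hk hkA, zero_add]
    have h6 : (∑ i, γ i s • e i) * (∑ c, y c • e c) * (l + s • m) ^ (n - 2 * j) =
        ∑ c, y c • ((∑ i, γ i s • e i) * e c * (l + s • m) ^ (n - 2 * j)) := by
      rw [Finset.mul_sum, Finset.sum_mul]
      refine Finset.sum_congr rfl fun c _ => ?_
      rw [mul_smul_comm, smul_mul_assoc]
    rw [h6, map_sum, map_sum]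
    refine Finset.sum_congr rfl fun c _ => ?_
    rw [map_smul, h2 c, map_smul]
  · intro h0 i
    have : ∀ a, ρ 0 a = 0 := fun a => h0 _ (he a)
    simp only [γ, this, zero_mul, Finset.sum_const_zero, mul_zero]

end ANA0

end MP46
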