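import Pool.Agent.Lib.MP_46e101_co.ANA0

/-! # MP_46e101_co, module ANAL: limits of the Hodge-Riemann relations -/

open MvPolynomial

universe u w

noncomputable section

namespace MP46

section ANAL
variable {V : Type u}

/-- value of an annihilated element. -/
private theorem ann_value {D : MvPolynomial V ℝ →ₗ[ℝ] ℝ} {l a : MvPolynomial V ℝ}
    (hl : l.IsHomogeneous 1) {n k : ℕ} (hk : 2 * k ≤ n) (ha : a.IsHomogeneous k)
    (hA : Ann D (n - k) a) : D (a ^ 2 * l ^ (n - 2 * k)) = 0 := by
  rw [pow_two]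
  exact ann_mul_pow hl hA ha (by omega)

variable [Finite V]

theorem hrw_limit {D : MvPolynomial V ℝ →ₗ[ℝ] ℝ} {l m : MvPolynomial V ℝ}
    (hl : l.IsHomogeneous 1) (hm : m.IsHomogeneous 1) {n k : ℕ} (hk : 2 * k ≤ n)
    (hnd : ∀ j, j + 1 = k → ND D l n j)
    (H : ∀ᶠ s in nhdsWithin (0 : ℝ) (Set.Ioi 0), HRs D (l + s • m) n k) :
    HRw D l n k := by
  intro a ha hP
  rcases k with _ | j
  · -- k = 0
    have hev : ∀ᶠ s in nhdsWithin (0 : ℝ) (Set.Ioi 0),
        0 ≤ (-1 : ℝ) ^ 0 * D (a ^ 2 * (l + s • m) ^ (n - 2 * 0)) := by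
      filter_upwards [H] with s hs
      rcases hs a ha (by intro j b hj; omega) with h | h
      · exact h.le
      · rw [ann_value (isHomogeneous_line hl hm s) hk ha h, mul_zero]
    have hc : Continuous fun s : ℝ => (-1 : ℝ) ^ 0 * D (a ^ 2 * (l + s • m) ^ (n - 2 * 0)) :=
      continuous_const.mul (continuous_D_pow D l m _ _)
    have ht := (hc.tendsto 0).mono_left (nhdsWithin_le_nhds (s := Set.Ioi (0 : ℝ)))
    have := ge_of_tendsto ht hev
    simpa using this
  · -- k = j + 1
    have hq : n - 2 * (j + 1) + 1 + 1 = n - 2 * j := by omega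
    obtain ⟨N, e, γ, he, hγc, hγ, hγ0⟩ := solve hl hm (n := n) (j := j) (by omega) (hnd j rfl)
      (fun s => D ∘ₗ (LinearMap.mulRight ℝ ((l + s • m) ^ (n - 2 * (j + 1) + 1))) ∘ₗ
        (LinearMap.mulLeft ℝ a))
      (by
        intro b
        simp only [LinearMap.comp_apply, LinearMap.mulLeft_apply, LinearMap.mulRight_apply]
        exact continuous_D_pow D l m _ _)
      (by
        intro s b hb hA
        simp only [LinearMap.comp_apply, LinearMap.mulLeft_apply, LinearMap.mulRight_apply]
        have : a * b * (l + s • m) ^ (n - 2 * (j + 1) + 1) =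
            b * a * (l + s • m) ^ (n - 2 * (j + 1) + 1) := by ring
        rw [this]
        exact ann_mul_pow (isHomogeneous_line hl hm s) hA ha (by omega))
    simp only [LinearMap.comp_apply, LinearMap.mulLeft_apply, LinearMap.mulRight_apply] at hγ hγ0
    have hγ00 : ∀ i, γ i 0 = 0 := by
      apply hγ0
      intro b hb
      have := hP j b rfl hb
      simpa using this
    -- the corrected element
    have hcor : ∀ s, (∑ i, γ i s • e i).IsHomogeneous j := by
      intro s
      apply IsHomogeneous.sum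
      intro i _
      rw [smul_eq_C_mul]
      exact (he i).C_mul _
    have hev : ∀ᶠ s in nhdsWithin (0 : ℝ) (Set.Ioi 0),
        0 ≤ (-1 : ℝ) ^ (j + 1) * D ((a - (∑ i, γ i s • e i) * (l + s • m)) ^ 2 *
          (l + s • m) ^ (n - 2 * (j + 1))) := by
      filter_upwards [H, hγ.filter_mono nhdsWithin_le_nhds] with s hs hγs
      have hah : (a - (∑ i, γ i s • e i) * (l + s • m)).IsHomogeneous (j + 1) :=
        ha.sub ((hcor s).mul (isHomogeneous_line hl hm s))
      rcases hs _ hah (by
        intro i b hi hb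
        obtain rfl : i = j := by omega
        have h1 := hγs b hb
        rw [← hq] at h1
        have : (a - (∑ i, γ i s • e i) * (l + s • m)) * b *
            (l + s • m) ^ (n - 2 * (i + 1) + 1) =
            a * b * (l + s • m) ^ (n - 2 * (i + 1) + 1) -
              (∑ i, γ i s • e i) * b * (l + s • m) ^ (n - 2 * (i + 1) + 1 + 1) := by
          ring
        rw [this, map_sub, h1, sub_self]) with h | h
      · exact h.le
      · rw [ann_value (isHomogeneous_line hl hm s) hk hah h, mul_zero]
    -- expansion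
    have hexp : ∀ s : ℝ, D ((a - (∑ i, γ i s • e i) * (l + s • m)) ^ 2 *
          (l + s • m) ^ (n - 2 * (j + 1))) =
        D (a ^ 2 * (l + s • m) ^ (n - 2 * (j + 1))) -
          2 * ∑ i, γ i s * D (a * e i * (l + s • m) ^ (n - 2 * (j + 1) + 1)) +
          ∑ i, γ i s * ∑ i', γ i' s * D (e i * e i' * (l + s • m) ^ (n - 2 * j)) := by
      intro s
      have h1 : (a - (∑ i, γ i s • e i) * (l + s • m)) ^ 2 * (l + s • m) ^ (n - 2 * (j + 1)) =
          a ^ 2 * (l + s • m) ^ (n - 2 * (j + 1)) -
            (2 : ℝ) • ((∑ i, γ i s • e i) * (a * (l + s • m) ^ (n - 2 * (j + 1) + 1))) +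
            (∑ i, γ i s • e i) * ((∑ i, γ i s • e i) * (l + s • m) ^ (n - 2 * j)) := by
        rw [← hq]
        generalize l + s • m = L
        generalize (∑ i, γ i s • e i) = c
        rw [smul_eq_C_mul, show (C (2 : ℝ) : MvPolynomial V ℝ) = 2 from map_ofNat C 2]
        ring
      rw [h1, map_add, map_sub, map_smul, smul_eq_mul]
      congr 1
      · congr 2
        rw [Finset.sum_mul, map_sum]
        refine Finset.sum_congr rfl fun i _ => ?_
        rw [smul_mul_assoc, map_smul, smul_eq_mul]
        congr 2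
        ring
      · rw [Finset.sum_mul, map_sum]
        refine Finset.sum_congr rfl fun i _ => ?_
        rw [smul_mul_assoc, map_smul, smul_eq_mul]
        congr 1
        rw [Finset.sum_mul, Finset.mul_sum, map_sum]
        refine Finset.sum_congr rfl fun i' _ => ?_
        rw [smul_mul_assoc, mul_smul_comm, map_smul, smul_eq_mul]
        congr 2
        ring
    have hc : ContinuousAt (fun s : ℝ => (-1 : ℝ) ^ (j + 1) *
        D ((a - (∑ i, γ i s • e i) * (l + s • m)) ^ 2 * (l + s • m) ^ (n - 2 * (j + 1)))) 0 := by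
      simp only [hexp]
      refine continuousAt_const.mul (ContinuousAt.add (ContinuousAt.sub
        (continuous_D_pow D l m _ _).continuousAt (continuousAt_const.mul ?_)) ?_)
      · refine tendsto_finsetSum _ fun i _ => ?_
        exact (hγc i).mul (continuous_D_pow D l m _ _).continuousAt
      · refine tendsto_finsetSum _ fun i _ => ?_
        refine (hγc i).mul (tendsto_finsetSum _ fun i' _ => ?_)
        exact (hγc i').mul (continuous_D_pow D l m _ _).continuousAt
    have ht : Filter.Tendsto _ (nhdsWithin (0 : ℝ) (Set.Ioi 0)) _ :=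
      hc.tendsto.mono_left nhdsWithin_le_nhds
    have h2 := ge_of_tendsto ht hev
    simpa [hγ00] using h2

theorem hrs_of_hrw {D : MvPolynomial V ℝ →ₗ[ℝ] ℝ} {l : MvPolynomial V ℝ}
    (hl : l.IsHomogeneous 1) {n k : ℕ} (hk : 2 * k ≤ n)
    (hnd : ∀ j, j + 1 = k → ND D l n j) (hndk : ND D l n k) (H : HRw D l n k) :
    HRs D l n k := by
  intro a ha hP
  rcases (H a ha hP).lt_or_eq with h | h
  · exact Or.inl h
  right
  have h0 : D (a ^ 2 * l ^ (n - 2 * k)) = 0 := by
    have h1 : (-1 : ℝ) ^ k ≠ 0 := pow_ne_zero _ (by norm_num)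
    exact (mul_eq_zero.1 h.symm).resolve_left h1
  -- orthogonality to the primitive elements
  have hprim : ∀ b : MvPolynomial V ℝ, b.IsHomogeneous k → Prim D l n k b →
      D (a * b * l ^ (n - 2 * k)) = 0 := by
    intro b hb hPb
    have h2 : ∀ t : ℝ, 0 ≤ (-1 : ℝ) ^ k * D (b ^ 2 * l ^ (n - 2 * k)) +
        t * (2 * ((-1 : ℝ) ^ k * D (a * b * l ^ (n - 2 * k)))) := by
      intro t
      have hh : (b + t • a).IsHomogeneous k := by
        rw [smul_eq_C_mul]
        exact hb.add (ha.C_mul t)
      have h3 := H (b + t • a) hh (by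
        intro j c hj hc
        have : (b + t • a) * c * l ^ (n - 2 * k + 1) =
            b * c * l ^ (n - 2 * k + 1) + t • (a * c * l ^ (n - 2 * k + 1)) := by
          rw [smul_eq_C_mul, smul_eq_C_mul]; ring
        rw [this, map_add, map_smul, hPb j c hj hc, hP j c hj hc, smul_zero, add_zero])
      have h4 : (b + t • a) ^ 2 * l ^ (n - 2 * k) = b ^ 2 * l ^ (n - 2 * k) +
          (2 * t) • (a * b * l ^ (n - 2 * k)) + (t * t) • (a ^ 2 * l ^ (n - 2 * k)) := by
        rw [smul_eq_C_mul, smul_eq_C_mul, smul_eq_C_mul, map_mul, map_mul,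
          show (C (2 : ℝ) : MvPolynomial V ℝ) = 2 from map_ofNat C 2]
        ring
      rw [h4, map_add, map_add, map_smul, map_smul, h0, smul_zero, add_zero, smul_eq_mul] at h3
      calc (0 : ℝ) ≤ _ := h3
        _ = _ := by ring
    by_contra hne
    have hne' : 2 * ((-1 : ℝ) ^ k * D (a * b * l ^ (n - 2 * k))) ≠ 0 :=
      mul_ne_zero two_ne_zero (mul_ne_zero (pow_ne_zero _ (by norm_num)) hne)
    set A := (-1 : ℝ) ^ k * D (b ^ 2 * l ^ (n - 2 * k)) with hA
    set B := 2 * ((-1 : ℝ) ^ k * D (a * b * l ^ (n - 2 * k))) with hB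
    have h5 := h2 (-(A + 1) / B)
    rw [div_mul_cancel₀ _ hne'] at h5
    linarith
  apply hndk a ha
  intro b hb
  rcases k with _ | j
  · exact hprim b hb (by intro j c hj; omega)
  · have hq : n - 2 * (j + 1) + 1 + 1 = n - 2 * j := by omega
    have hm : (0 : MvPolynomial V ℝ).IsHomogeneous 1 := isHomogeneous_zero V ℝ 1
    obtain ⟨N, e, γ, he, hγc, hγ, hγ0⟩ := solve hl hm (n := n) (j := j) (by omega) (hnd j rfl)
      (fun _ => D ∘ₗ (LinearMap.mulRight ℝ (l ^ (n - 2 * (j + 1) + 1))) ∘ₗ
        (LinearMap.mulLeft ℝ b))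
      (fun _ => continuous_const)
      (by
        intro s c hc hA
        simp only [LinearMap.comp_apply, LinearMap.mulLeft_apply, LinearMap.mulRight_apply]
        have : b * c * l ^ (n - 2 * (j + 1) + 1) = c * b * l ^ (n - 2 * (j + 1) + 1) := by ring
        rw [this]
        exact ann_mul_pow hl hA hb (by omega))
    simp only [LinearMap.comp_apply, LinearMap.mulLeft_apply, LinearMap.mulRight_apply,
      smul_zero, add_zero] at hγ
    have hc0 : ∀ c : MvPolynomial V ℝ, c.IsHomogeneous j →
        D ((∑ i, γ i 0 • e i) * c * l ^ (n - 2 * j)) =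
          D (b * c * l ^ (n - 2 * (j + 1) + 1)) := hγ.self_of_nhds
    have hcor : (∑ i, γ i 0 • e i).IsHomogeneous j := by
      apply IsHomogeneous.sum
      intro i _
      rw [smul_eq_C_mul]
      exact (he i).C_mul _
    set c := ∑ i, γ i 0 • e i with hc
    have hp := hprim (b - c * l) (hb.sub (hcor.mul hl)) (by
      intro i d hi hd
      obtain rfl : i = j := by omega
      have h1 := hc0 d hd
      rw [← hq] at h1
      have : (b - c * l) * d * l ^ (n - 2 * (i + 1) + 1) =
          b * d * l ^ (n - 2 * (i + 1) + 1) - c * d * l ^ (n - 2 * (i + 1) + 1 + 1) := by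
        ring
      rw [this, map_sub, h1, sub_self])
    have h6 := hP j c rfl hcor
    have h7 : a * b * l ^ (n - 2 * (j + 1)) = a * (b - c * l) * l ^ (n - 2 * (j + 1)) +
        a * c * l ^ (n - 2 * (j + 1) + 1) := by ring
    rw [h7, map_add, hp, h6, add_zero]

end ANAL

end MP46
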