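import Pool.Agent.Lib.MP_46e101_co.Defs

/-!
# MP_46e101_co, module ANAO: openness of the strict Hodge-Riemann relations
-/

open MvPolynomial

universe u w

noncomputable section

namespace MP46

section ANA
variable {V : Type u} [Finite V]

/-- families of polynomials depending continuously on a parameter (inside a fixed finite
dimensional space). -/
private def CC {W : Type*} [TopologicalSpace W] (g : W → MvPolynomial V ℝ) : Prop :=
  ∃ (N : ℕ) (c : Fin N → W → ℝ) (q : Fin N → MvPolynomial V ℝ), (∀ i, Continuous (c i)) ∧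
    ∀ y, g y = ∑ i, c i y • q i

omit [Finite V] in
private theorem CC.mk' {W : Type*} [TopologicalSpace W] {ι : Type*} [Fintype ι]
    {g : W → MvPolynomial V ℝ}
    (c : ι → W → ℝ) (q : ι → MvPolynomial V ℝ) (hc : ∀ i, Continuous (c i))
    (hg : ∀ y, g y = ∑ i, c i y • q i) : CC g := by
  refine ⟨Fintype.card ι, fun i => c ((Fintype.equivFin ι).symm i),
    fun i => q ((Fintype.equivFin ι).symm i), fun i => hc _, fun y => ?_⟩
  rw [hg y]
  exact (Equiv.sum_comp (Fintype.equivFin ι).symm (fun i => c i y • q i)).symm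

omit [Finite V] in
private theorem CC.const {W : Type*} [TopologicalSpace W] (a : MvPolynomial V ℝ) :
    CC (fun _ : W => a) := by
  refine CC.mk' (ι := Unit) (fun _ _ => 1) (fun _ => a) (fun _ => continuous_const) ?_
  intro y
  simp

omit [Finite V] in
private theorem CC.mul {W : Type*} [TopologicalSpace W] {g h : W → MvPolynomial V ℝ}
    (hg : CC g) (hh : CC h) : CC (fun y => g y * h y) := by
  obtain ⟨N, c, q, hc, hg⟩ := hg
  obtain ⟨N', c', q', hc', hh⟩ := hh
  refine CC.mk' (ι := Fin N × Fin N') (fun i y => c i.1 y * c' i.2 y)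
    (fun i => q i.1 * q' i.2) (fun i => (hc _).mul (hc' _)) ?_
  intro y
  rw [hg y, hh y, Finset.sum_mul_sum, Fintype.sum_prod_type]
  refine Finset.sum_congr rfl fun i _ => Finset.sum_congr rfl fun j _ => ?_
  rw [smul_mul_smul_comm]

omit [Finite V] in
private theorem CC.pow {W : Type*} [TopologicalSpace W] {g : W → MvPolynomial V ℝ}
    (hg : CC g) (r : ℕ) : CC (fun y => g y ^ r) := by
  induction r with
  | zero => simpa using CC.const (1 : MvPolynomial V ℝ)
  | succ r ih =>
    simp only [pow_succ]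
    exact ih.mul hg

omit [Finite V] in
private theorem CC.cont {W : Type*} [TopologicalSpace W] {g : W → MvPolynomial V ℝ}
    (hg : CC g) (D : MvPolynomial V ℝ →ₗ[ℝ] ℝ) : Continuous fun y => D (g y) := by
  obtain ⟨N, c, q, hc, hg⟩ := hg
  have h1 : (fun y => D (g y)) = fun y => ∑ i, c i y * D (q i) := by
    funext y
    rw [hg y, map_sum]
    refine Finset.sum_congr rfl fun i _ => ?_
    rw [map_smul, smul_eq_mul]
  rw [h1]
  exact continuous_finsetSum _ fun i _ => (hc i).mul continuous_const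

private theorem exists_coords (D : MvPolynomial V ℝ →ₗ[ℝ] ℝ) (k j : ℕ) :
    ∃ (N : ℕ) (e : Fin N → MvPolynomial V ℝ), (∀ i, (e i).IsHomogeneous k) ∧
      (∀ a : MvPolynomial V ℝ, a.IsHomogeneous k →
        ∃ x : Fin N → ℝ, Ann D j (a - ∑ i, x i • e i)) ∧
      (∀ x : Fin N → ℝ, Ann D j (∑ i, x i • e i) → x = 0) := by
  classical
  let H := homogeneousSubmodule V ℝ k
  have : Module.Finite ℝ H := Module.Finite.iff_fg.2 (homogeneousSubmodule_fg V ℝ k)
  let K : Submodule ℝ H :=
    { carrier := {a | Ann D j (a : MvPolynomial V ℝ)}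
      add_mem' := by
        intro a b ha hb c hc
        rw [Submodule.coe_add, add_mul, map_add, ha c hc, hb c hc, add_zero]
      zero_mem' := by
        intro c hc
        simp
      smul_mem' := by
        intro r a ha c hc
        rw [Submodule.coe_smul, smul_mul_assoc, map_smul, ha c hc, smul_zero] }
  let b := Module.finBasis ℝ (H ⧸ K)
  choose e he using fun i => K.mkQ_surjective (b i)
  refine ⟨_, fun i => (e i : MvPolynomial V ℝ), fun i => (mem_homogeneousSubmodule k _).1 (e i).2,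
    ?_, ?_⟩
  · intro a ha
    let a' : H := ⟨a, (mem_homogeneousSubmodule k _).2 ha⟩
    refine ⟨b.repr (K.mkQ a'), ?_⟩
    have h1 : a' - ∑ i, (b.repr (K.mkQ a')) i • e i ∈ K := by
      refine (Submodule.Quotient.mk_eq_zero K).1 ?_
      change K.mkQ _ = 0
      rw [map_sub, map_sum]
      simp only [map_smul, he]
      rw [b.sum_repr, sub_self]
    have h2 : Ann D j ((a' - ∑ i, (b.repr (K.mkQ a')) i • e i : H) : MvPolynomial V ℝ) := h1
    simpa [a'] using h2
  · intro x hx
    have h1 : (∑ i, x i • e i) ∈ K := by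
      change Ann D j ((∑ i, x i • e i : H) : MvPolynomial V ℝ)
      simpa using hx
    have h2 : K.mkQ (∑ i, x i • e i) = 0 := (Submodule.Quotient.mk_eq_zero K).2 h1
    rw [map_sum] at h2
    simp only [map_smul, he] at h2
    funext i
    exact Fintype.linearIndependent_iff.1 b.linearIndependent x h2 i

omit [Finite V] in
private theorem hom_sum {N : ℕ} {k : ℕ} {e : Fin N → MvPolynomial V ℝ}
    (he : ∀ i, (e i).IsHomogeneous k) (x : Fin N → ℝ) :
    (∑ i, x i • e i).IsHomogeneous k := by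
  refine IsHomogeneous.sum _ _ _ fun i _ => ?_
  rw [smul_eq_C_mul]
  simpa using (isHomogeneous_C V (x i)).mul (he i)

omit [Finite V] in
private theorem hom_line {l m : MvPolynomial V ℝ} (hl : l.IsHomogeneous 1)
    (hm : m.IsHomogeneous 1) (s : ℝ) : (l + s • m).IsHomogeneous 1 := by
  refine hl.add ?_
  rw [smul_eq_C_mul]
  simpa using (isHomogeneous_C V s).mul hm

/-- openness of the strict Hodge-Riemann relations. -/
theorem hrs_open {D : MvPolynomial V ℝ →ₗ[ℝ] ℝ} {l m : MvPolynomial V ℝ}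
    (hl : l.IsHomogeneous 1) (hm : m.IsHomogeneous 1) {n k : ℕ} (hk : 2 * k ≤ n)
    (H : HRs D l n k) : ∀ᶠ s in nhds (0 : ℝ), HRs D (l + s • m) n k := by
  obtain ⟨N, e, he, hrep, hzero⟩ := exists_coords D k (n - k)
  have hline : CC (fun z : ℝ × (Fin N → ℝ) => l + z.1 • m) := by
    refine CC.mk' (ι := Fin 2) (fun i z => if i = 0 then 1 else z.1)
      (fun i => if i = 0 then l else m) ?_ ?_
    · intro i
      by_cases hi : i = 0
      · simp only [hi, if_true]; exact continuous_const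
      · simp only [hi, if_false]; exact continuous_fst
    · intro z
      simp [Fin.sum_univ_two]
  have hT : CC (fun z : ℝ × (Fin N → ℝ) => ∑ i, z.2 i • e i) :=
    ⟨N, fun i z => z.2 i, e, fun i => (continuous_apply i).comp continuous_snd, fun z => rfl⟩
  have hφ : Continuous fun z : ℝ × (Fin N → ℝ) =>
      (-1 : ℝ) ^ k * D ((∑ i, z.2 i • e i) ^ 2 * (l + z.1 • m) ^ (n - 2 * k)) :=
    continuous_const.mul (((hT.pow 2).mul (hline.pow _)).cont D)
  have hψ : ∀ b : MvPolynomial V ℝ, Continuous fun z : ℝ × (Fin N → ℝ) =>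
      D ((∑ i, z.2 i • e i) * b * (l + z.1 • m) ^ (n - 2 * k + 1)) := fun b =>
    ((hT.mul (CC.const b)).mul (hline.pow _)).cont D
  have hK : IsCompact (Metric.sphere (0 : Fin N → ℝ) 1) := isCompact_sphere _ _
  have key : ∀ᶠ s in nhds (0 : ℝ), ∀ x ∈ Metric.sphere (0 : Fin N → ℝ) 1,
      (0 < (-1 : ℝ) ^ k * D ((∑ i, x i • e i) ^ 2 * (l + s • m) ^ (n - 2 * k)) ∨
        ∃ (j : ℕ) (b : MvPolynomial V ℝ), j + 1 = k ∧ b.IsHomogeneous j ∧
          D ((∑ i, x i • e i) * b * (l + s • m) ^ (n - 2 * k + 1)) ≠ 0) := by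
    refine hK.eventually_forall_of_forall_eventually (P := fun s x =>
      (0 < (-1 : ℝ) ^ k * D ((∑ i, x i • e i) ^ 2 * (l + s • m) ^ (n - 2 * k)) ∨
        ∃ (j : ℕ) (b : MvPolynomial V ℝ), j + 1 = k ∧ b.IsHomogeneous j ∧
          D ((∑ i, x i • e i) * b * (l + s • m) ^ (n - 2 * k + 1)) ≠ 0)) ?_
    intro x hx
    have hx0 : x ≠ 0 := by
      rintro rfl
      simp at hx
    by_cases hp : Prim D l n k (∑ i, x i • e i)
    · have h1 := H _ (hom_sum he x) hp
      have h2 : ¬ Ann D (n - k) (∑ i, x i • e i) := fun h => hx0 (hzero x h)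
      have h3 := h1.resolve_right h2
      have h4 : ∀ᶠ z : ℝ × (Fin N → ℝ) in nhds ((0 : ℝ), x),
          0 < (-1 : ℝ) ^ k * D ((∑ i, z.2 i • e i) ^ 2 * (l + z.1 • m) ^ (n - 2 * k)) := by
        refine hφ.continuousAt.eventually (lt_mem_nhds ?_)
        simpa using h3
      exact h4.mono fun z hz => Or.inl hz
    · unfold Prim at hp
      push Not at hp
      obtain ⟨j, b, hj, hb, hne⟩ := hp
      have h4 : ∀ᶠ z : ℝ × (Fin N → ℝ) in nhds ((0 : ℝ), x),
          D ((∑ i, z.2 i • e i) * b * (l + z.1 • m) ^ (n - 2 * k + 1)) ≠ 0 := by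
        refine (hψ b).continuousAt.eventually_ne ?_
        simpa using hne
      exact h4.mono fun z hz => Or.inr ⟨j, b, hj, hb, hz⟩
  refine key.mono fun s hs a ha hprim => ?_
  obtain ⟨x, hx⟩ := hrep a ha
  by_cases hx0 : x = 0
  · right
    subst hx0
    simpa using hx
  left
  have hls := hom_line hl hm s
  have hnx : 0 < ‖x‖ := norm_pos_iff.2 hx0
  set T : MvPolynomial V ℝ := ∑ i, x i • e i with hTdef
  have hTh : T.IsHomogeneous k := hom_sum he x
  set r := a - T with hr
  have har : a = T + r := by rw [hr]; ring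
  have hTx : (∑ i, (‖x‖⁻¹ • x) i • e i) = ‖x‖⁻¹ • T := by
    rw [hTdef, Finset.smul_sum]
    refine Finset.sum_congr rfl fun i _ => ?_
    rw [Pi.smul_apply, smul_eq_mul, mul_smul]
  have hmem : ‖x‖⁻¹ • x ∈ Metric.sphere (0 : Fin N → ℝ) 1 := by
    rw [mem_sphere_zero_iff_norm, norm_smul, norm_inv, norm_norm, inv_mul_cancel₀ hnx.ne']
  have hval : D (a ^ 2 * (l + s • m) ^ (n - 2 * k)) = D (T ^ 2 * (l + s • m) ^ (n - 2 * k)) := by
    have h1 : a ^ 2 * (l + s • m) ^ (n - 2 * k) = T ^ 2 * (l + s • m) ^ (n - 2 * k) +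
        r * ((2 : MvPolynomial V ℝ) * T + r) * (l + s • m) ^ (n - 2 * k) := by
      rw [har]; ring
    have hrh : r.IsHomogeneous k := by
      rw [hr, sub_eq_add_neg]; exact ha.add hTh.neg
    have h2 : (((2 : MvPolynomial V ℝ) * T + r) * (l + s • m) ^ (n - 2 * k)).IsHomogeneous
        (n - k) := by
      have h3 : ((2 : MvPolynomial V ℝ) * T + r).IsHomogeneous k := by
        refine IsHomogeneous.add ?_ hrh
        rw [two_mul]
        exact hTh.add hTh
      have h4 := h3.mul (hls.pow (n - 2 * k))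
      have h5 : k + 1 * (n - 2 * k) = n - k := by omega
      rw [h5] at h4
      exact h4
    rw [h1, map_add, mul_assoc, hx _ h2, add_zero]
  rcases hs _ hmem with h | ⟨j, b, hj, hb, hne⟩
  · rw [hTx] at h
    rw [hval]
    have h1 : (‖x‖⁻¹ • T) ^ 2 * (l + s • m) ^ (n - 2 * k) =
        (‖x‖⁻¹) ^ 2 • (T ^ 2 * (l + s • m) ^ (n - 2 * k)) := by
      rw [smul_pow, smul_mul_assoc]
    rw [h1, map_smul, smul_eq_mul, mul_left_comm] at h
    exact (pos_iff_pos_of_mul_pos h).1 (by positivity)
  · exfalso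
    apply hne
    rw [hTx]
    have h1 : ‖x‖⁻¹ • T * b * (l + s • m) ^ (n - 2 * k + 1) =
        ‖x‖⁻¹ • (T * b * (l + s • m) ^ (n - 2 * k + 1)) := by
      rw [smul_mul_assoc, smul_mul_assoc]
    rw [h1, map_smul]
    have h2 : T * b * (l + s • m) ^ (n - 2 * k + 1) =
        a * b * (l + s • m) ^ (n - 2 * k + 1) - r * (b * (l + s • m) ^ (n - 2 * k + 1)) := by
      rw [har]; ring
    have h3 : (b * (l + s • m) ^ (n - 2 * k + 1)).IsHomogeneous (n - k) := by
      have h4 := hb.mul (hls.pow (n - 2 * k + 1))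
      have h5 : j + 1 * (n - 2 * k + 1) = n - k := by omega
      rw [h5] at h4
      exact h4
    rw [h2, map_sub, hprim j b hj hb, hx _ h3, sub_zero, smul_zero]

end ANA

end MP46
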