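import Pool.Agent.Lib.MP_46e101_co.Defs
import Pool.Agent.Lib.MP_46e101_co.ANAL
import Pool.Agent.Lib.MP_46e101_co.ANAO

/-!
# MP_46e101_co, module ANAC: continuation of the strict Hodge-Riemann relations
-/

open MvPolynomial

universe u w

noncomputable section

namespace MP46

section ANA
variable {V : Type u} [Finite V]

/-- continuation along a segment on which hard Lefschetz holds. -/
theorem hrs_continue {D : MvPolynomial V ℝ →ₗ[ℝ] ℝ} {l m : MvPolynomial V ℝ}
    (hl : l.IsHomogeneous 1) (hm : m.IsHomogeneous 1) {n k : ℕ} (hk : 2 * k ≤ n) {α β : ℝ}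
    (hαβ : α < β)
    (hnd : ∀ s, α < s → s ≤ β → ∀ j, j + 1 = k → ND D (l + s • m) n j)
    (hndk : ∀ s, α < s → s ≤ β → ND D (l + s • m) n k)
    (H : ∀ᶠ s in nhdsWithin α (Set.Ioi α), HRs D (l + s • m) n k) :
    ∀ s, α < s → s ≤ β → HRs D (l + s • m) n k := by
  have hline : ∀ s : ℝ, (l + s • m).IsHomogeneous 1 := by
    intro s
    refine hl.add ?_
    rw [smul_eq_C_mul]
    simpa using (isHomogeneous_C V s).mul hm
  by_contra hcon
  push Not at hcon
  obtain ⟨s0, hs0, hs0', hbad⟩ := hcon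
  set T : Set ℝ := {s | α < s ∧ s ≤ β ∧ ¬ HRs D (l + s • m) n k} with hT
  have hTne : T.Nonempty := ⟨s0, hs0, hs0', hbad⟩
  have hTb : BddBelow T := ⟨α, fun s hs => hs.1.le⟩
  set σ := sInf T with hσ
  have hσ0 : σ ≤ s0 := csInf_le hTb ⟨hs0, hs0', hbad⟩
  have hσβ : σ ≤ β := hσ0.trans hs0'
  have hασ : α < σ := by
    rw [eventually_nhdsWithin_iff, Metric.eventually_nhds_iff] at H
    obtain ⟨ε, hε, hH⟩ := H
    have h1 : α + ε ≤ σ := by
      refine le_csInf hTne fun s hs => ?_
      by_contra hlt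
      push Not at hlt
      refine hs.2.2 (hH ?_ hs.1)
      rw [Real.dist_eq, abs_lt]
      constructor
      · linarith [hs.1]
      · linarith
    linarith
  have hgood : ∀ s, α < s → s < σ → HRs D (l + s • m) n k := by
    intro s h1 h2
    by_contra h3
    exact absurd (csInf_le hTb (show s ∈ T from ⟨h1, h2.le.trans hσβ, h3⟩)) (not_le.2 h2)
  have hσgood : HRs D (l + σ • m) n k := by
    refine hrs_of_hrw (hline σ) hk (hnd σ hασ hσβ) (hndk σ hασ hσβ) ?_
    refine hrw_limit (m := -m) (hline σ) hm.neg hk (hnd σ hασ hσβ) ?_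
    rw [eventually_nhdsWithin_iff, Metric.eventually_nhds_iff]
    refine ⟨σ - α, by linarith, fun s hs hs' => ?_⟩
    rw [Real.dist_eq, sub_zero, abs_lt] at hs
    have hs'' : 0 < s := hs'
    have h1 : l + σ • m + s • -m = l + (σ - s) • m := by
      rw [smul_neg, sub_smul]; abel
    rw [h1]
    exact hgood _ (by linarith) (by linarith)
  have hop := hrs_open (hline σ) hm hk hσgood
  rw [Metric.eventually_nhds_iff] at hop
  obtain ⟨δ, hδ, hop⟩ := hop
  obtain ⟨t, htT, ht⟩ := exists_lt_of_csInf_lt hTne (show sInf T < σ + δ by rw [← hσ]; linarith)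
  have htσ : σ ≤ t := csInf_le hTb htT
  refine htT.2.2 ?_
  have h1 : l + t • m = l + σ • m + (t - σ) • m := by
    rw [sub_smul]; abel
  rw [h1]
  refine hop ?_
  rw [Real.dist_eq, sub_zero, abs_lt]
  constructor <;> linarith

end ANA

end MP46
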