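import Pool.Agent.Lib.MP_46e101_co.FACES

/-! ### Module GEN -/

open MvPolynomial

universe u w

noncomputable section

namespace MP46

section GEN
variable {V : Type u} [Fintype V] [DecidableEq V] {U : Type w} [AddCommGroup U] [Module ℝ U]
  {o : Module.Dual ℝ U} {p : V → Module.Dual ℝ U} {n : ℕ}

private theorem mem_act' {x : U} {v : V} : v ∈ act p x ↔ p v x = 0 := by
  unfold act
  rw [Finset.mem_filter]
  exact and_iff_right (Finset.mem_univ v)

theorem exists_avoid [Module.Finite ℝ U] (S : Finset U) (hS : ∀ y ∈ S, y ≠ 0) :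
    ∃ f : Module.Dual ℝ U, ∀ y ∈ S, f y ≠ 0 := by
  classical
  induction S using Finset.induction_on with
  | empty => exact ⟨0, fun y hy => absurd hy (Finset.notMem_empty y)⟩
  | insert y S _ ih =>
    obtain ⟨f, hf⟩ := ih fun z hz => hS z (Finset.mem_insert_of_mem hz)
    by_cases hfy : f y = 0
    · have hy0 : y ≠ 0 := hS y (Finset.mem_insert_self y S)
      obtain ⟨g, hg⟩ : ∃ g : Module.Dual ℝ U, g y ≠ 0 := by
        by_contra hcon
        push Not at hcon
        exact hy0 ((Module.forall_dual_apply_eq_zero_iff ℝ y).1 hcon)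
      obtain ⟨r, hr⟩ := Infinite.exists_notMem_finset
        (insert (0 : ℝ) (S.image fun z => -f z / g z))
      rw [Finset.mem_insert, not_or] at hr
      refine ⟨f + r • g, fun z hz => ?_⟩
      rw [LinearMap.add_apply, LinearMap.smul_apply, smul_eq_mul]
      rcases Finset.mem_insert.1 hz with rfl | hz
      · rw [hfy, zero_add]
        exact mul_ne_zero hr.1 hg
      · intro h0
        by_cases hgz : g z = 0
        · rw [hgz, mul_zero, add_zero] at h0
          exact hf z hz h0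
        · apply hr.2
          refine Finset.mem_image.2 ⟨z, hz, ?_⟩
          rw [div_eq_iff hgz]
          linarith
    · refine ⟨f, fun z hz => ?_⟩
      rcases Finset.mem_insert.1 hz with rfl | hz
      · exact hfy
      · exact hf z hz

theorem Ord.gen_of_avoid (h : Ord n o p) :
    ∃ S : Finset U, (∀ y ∈ S, y ≠ 0) ∧ ∀ f : Module.Dual ℝ U, (∀ y ∈ S, f y ≠ 0) →
      ∃ (t : Finset V → ℝ) (c : Finset V → V → ℝ), Gen n o p f t c := by
  classical
  have hx : ∀ F : Finset V, ∃ x : U, Face o p F → F.card = n → x ∈ PP o p ∧ act p x = F := by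
    intro F
    by_cases hF : Face o p F ∧ F.card = n
    · obtain ⟨x, hx1, hx2, _⟩ := h.facet_point hF.1 hF.2
      exact ⟨x, fun _ _ => ⟨hx1, hx2⟩⟩
    · exact ⟨0, fun h1 h2 => absurd ⟨h1, h2⟩ hF⟩
  choose X hX using hx
  have hX0 : ∀ F, Face o p F → F.card = n → ∀ v ∈ F, p v (X F) = 0 := by
    intro F hF hc v hv
    rw [← (hX F hF hc).2] at hv
    exact mem_act'.1 hv
  have hy : ∀ (F : Finset V) (v : V), ∃ y : U, Face o p F → F.card = n → v ∈ F →
      o y = 0 ∧ ∀ u ∈ F, p u y = if u = v then 1 else 0 := by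
    intro F v
    by_cases hF : Face o p F ∧ F.card = n
    · obtain ⟨y, hy1, hy2⟩ := prescribe (hX F hF.1 hF.2).1.1 (hX0 F hF.1 hF.2) (h.ind hF.1) 0
        (fun u => if u = v then 1 else 0)
      exact ⟨y, fun _ _ _ => ⟨hy1, hy2⟩⟩
    · exact ⟨0, fun h1 h2 => absurd ⟨h1, h2⟩ hF⟩
  choose Y hY using hy
  refine ⟨((Finset.univ : Finset (Finset V × Finset V)).filter fun q =>
      Face o p q.1 ∧ q.1.card = n ∧ Face o p q.2 ∧ q.2.card = n ∧ q.1 ≠ q.2).image
        (fun q => X q.1 - X q.2) ∪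
    ((Finset.univ : Finset (Finset V × V)).filter fun q =>
      Face o p q.1 ∧ q.1.card = n ∧ q.2 ∈ q.1).image (fun q => Y q.1 q.2), ?_, ?_⟩
  · intro y hy
    rcases Finset.mem_union.1 hy with hy | hy
    · obtain ⟨q, hq, rfl⟩ := Finset.mem_image.1 hy
      obtain ⟨h1, h2, h3, h4, h5⟩ := (Finset.mem_filter.1 hq).2
      intro h0
      apply h5
      rw [← (hX q.1 h1 h2).2, ← (hX q.2 h3 h4).2, sub_eq_zero.1 h0]
    · obtain ⟨q, hq, rfl⟩ := Finset.mem_image.1 hy
      obtain ⟨h1, h2, h3⟩ := (Finset.mem_filter.1 hq).2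
      intro h0
      have h4 := (hY q.1 q.2 h1 h2 h3).2 q.2 h3
      rw [h0, map_zero, if_pos rfl] at h4
      exact zero_ne_one h4
  · intro f hf
    have hrep : ∀ F : Finset V, ∃ (t : ℝ) (c : V → ℝ), (∀ v, v ∉ F → c v = 0) ∧
        (Face o p F → F.card = n → f = -t • o + ∑ v ∈ F, c v • p v) := by
      intro F
      by_cases hF : Face o p F ∧ F.card = n
      · obtain ⟨t, c, h1, h2⟩ := full_rep h.dim (hX F hF.1 hF.2).1.1 (hX0 F hF.1 hF.2)
          (h.ind hF.1) hF.2 f
        exact ⟨t, c, h1, fun _ _ => h2⟩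
      · exact ⟨0, fun _ => 0, fun _ _ => rfl, fun h1 h2 => absurd ⟨h1, h2⟩ hF⟩
    choose t c h1 h2 using hrep
    refine ⟨t, c, ⟨h2, ?_, h1, ?_⟩⟩
    · intro F hF hc v hv
      obtain ⟨h3, h4⟩ := hY F v hF hc hv
      have h5 : f (Y F v) = c F v := by
        have h6 := congrArg (fun g : Module.Dual ℝ U => g (Y F v)) (h2 F hF hc)
        simp only [LinearMap.add_apply, LinearMap.smul_apply, h3, LinearMap.sum_apply,
          smul_eq_mul, mul_zero, zero_add] at h6
        rw [h6, Finset.sum_eq_single v]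
        · rw [h4 v hv, if_pos rfl, mul_one]
        · intro u hu huv
          rw [h4 u hu, if_neg huv, mul_zero]
        · intro hv'
          exact absurd hv hv'
      rw [← h5]
      refine hf _ (Finset.mem_union_right _ (Finset.mem_image.2 ⟨(F, v), ?_, rfl⟩))
      exact Finset.mem_filter.2 ⟨Finset.mem_univ _, hF, hc, hv⟩
    · intro F F' hF hc hF' hc' ht
      by_contra hne
      have hval : ∀ F, Face o p F → F.card = n → f (X F) = -t F := by
        intro F hF hc
        have h6 := congrArg (fun g : Module.Dual ℝ U => g (X F)) (h2 F hF hc)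
        simp only [LinearMap.add_apply, LinearMap.smul_apply, (hX F hF hc).1.1,
          LinearMap.sum_apply, smul_eq_mul, mul_one] at h6
        rw [h6, Finset.sum_eq_zero, add_zero]
        intro v hv
        rw [hX0 F hF hc v hv, mul_zero]
      refine hf (X F - X F') (Finset.mem_union_left _ (Finset.mem_image.2 ⟨(F, F'), ?_, rfl⟩)) ?_
      · exact Finset.mem_filter.2 ⟨Finset.mem_univ _, hF, hc, hF', hc', hne⟩
      · rw [map_sub, hval F hF hc, hval F' hF' hc', ht, sub_self]

theorem Ord.exists_gen (h : Ord n o p) :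
    ∃ (f : Module.Dual ℝ U) (t : Finset V → ℝ) (c : Finset V → V → ℝ), Gen n o p f t c := by
  have : Module.Finite ℝ U := Module.finite_of_finrank_pos (by rw [h.dim]; omega)
  obtain ⟨S, hS, hS'⟩ := h.gen_of_avoid
  obtain ⟨f, hf⟩ := exists_avoid S hS
  exact ⟨f, hS' f hf⟩

theorem mem_facets {F : Finset V} : F ∈ facets n o p ↔ Face o p F ∧ F.card = n := by
  classical
  unfold facets
  rw [Finset.mem_filter]
  exact and_iff_right (Finset.mem_univ F)

variable {f : Module.Dual ℝ U} {t : Finset V → ℝ} {c : Finset V → V → ℝ}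

theorem Gen.diff (hg : Gen n o p f t c) {F : Finset V} (hF : Face o p F) (hc : F.card = n)
    {x : U} (hx : o x = 1) : f x + t F = ∑ v ∈ F, c F v * p v x := by
  have h6 := congrArg (fun g : Module.Dual ℝ U => g x) (hg.rep F hF hc)
  simp only [LinearMap.add_apply, LinearMap.smul_apply, hx,
    LinearMap.sum_apply, smul_eq_mul, mul_one] at h6
  rw [h6]
  ring

theorem Gen.val (hg : Gen n o p f t c) {F : Finset V} (hF : Face o p F) (hc : F.card = n)
    {x : U} (hx : o x = 1) (hF' : ∀ v ∈ F, p v x = 0) : f x = - t F := by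
  have h1 := hg.diff hF hc hx
  rw [Finset.sum_eq_zero fun v hv => by rw [hF' v hv, mul_zero]] at h1
  linarith

private theorem Gen_move (h : Ord n o p) (hg : Gen n o p f t c) {F G : Finset V}
    (hF : Face o p F) (hc : F.card = n) (hGF : G ⊆ F) {v : V} (hv : v ∈ F) (hvG : v ∉ G) :
    ∃ s : ℝ, 0 < s ∧ ∃ x' ∈ PP o p, G ⊆ act p x' ∧ f x' = -t F + s * c F v := by
  obtain ⟨x, hx, hact, _⟩ := h.facet_point hF hc
  have hx0 : ∀ u ∈ F, p u x = 0 := fun u hu => by rw [← hact] at hu; exact mem_act'.1 hu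
  obtain ⟨y, hy1, hy2⟩ := prescribe hx.1 hx0 (h.ind hF) 0 (fun u => if u = v then 1 else 0)
  obtain ⟨ε, hε, hmove⟩ := small_move hx hy1 (fun u hu => by
    rw [hact] at hu
    rw [hy2 u hu]
    split_ifs
    · exact zero_le_one
    · exact le_rfl)
  obtain ⟨h1, h2⟩ := hmove ε hε le_rfl
  refine ⟨ε, hε, x + ε • y, h1, ?_, ?_⟩
  · intro u hu
    rw [h2, hact]
    refine Finset.mem_filter.2 ⟨hGF hu, ?_⟩
    rw [hy2 u (hGF hu), if_neg]
    rintro rfl
    exact hvG hu
  · have h3 := hg.diff hF hc h1.1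
    have h4 : ∑ u ∈ F, c F u * p u (x + ε • y) = ε * c F v := by
      rw [Finset.sum_eq_single v]
      · rw [map_add, map_smul, hx0 v hv, hy2 v hv, if_pos rfl, smul_eq_mul]
        ring
      · intro u hu huv
        rw [map_add, map_smul, hx0 u hu, hy2 u hu, if_neg huv, smul_zero, add_zero, mul_zero]
      · intro hv'
        exact absurd hv hv'
    rw [h4] at h3
    linarith

/-- positive coefficient: there is a lower facet through `G`. -/
theorem Gen.lower (h : Ord n o p) (hg : Gen n o p f t c) {F G : Finset V} (hF : Face o p F)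
    (hc : F.card = n) (hGF : G ⊆ F) {v : V} (hv : v ∈ F) (hvG : v ∉ G) (hpos : 0 < c F v) :
    ∃ F' : Finset V, Face o p F' ∧ F'.card = n ∧ G ⊆ F' ∧ t F' < t F := by
  obtain ⟨s, hs, x', hx', hG, hfx⟩ := Gen_move h hg hF hc hGF hv hvG
  obtain ⟨x, hx, hsub, hle, hcard⟩ := h.vertex_above hx' f
  have hface : Face o p (act p x) := ⟨x, hx, subset_rfl⟩
  refine ⟨act p x, hface, hcard, hG.trans hsub, ?_⟩
  have h1 := hg.val hface hcard hx.1 (fun u hu => mem_act'.1 hu)
  have h2 := mul_pos hs hpos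
  linarith

theorem Gen.upper (h : Ord n o p) (hg : Gen n o p f t c) {F G : Finset V} (hF : Face o p F)
    (hc : F.card = n) (hGF : G ⊆ F) {v : V} (hv : v ∈ F) (hvG : v ∉ G) (hneg : c F v < 0) :
    ∃ F' : Finset V, Face o p F' ∧ F'.card = n ∧ G ⊆ F' ∧ t F < t F' := by
  obtain ⟨s, hs, x', hx', hG, hfx⟩ := Gen_move h hg hF hc hGF hv hvG
  obtain ⟨x, hx, hsub, hle, hcard⟩ := h.vertex_above hx' (-f)
  have hface : Face o p (act p x) := ⟨x, hx, subset_rfl⟩
  refine ⟨act p x, hface, hcard, hG.trans hsub, ?_⟩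
  have h1 := hg.val hface hcard hx.1 (fun u hu => mem_act'.1 hu)
  have h2 := mul_neg_of_pos_of_neg hs hneg
  rw [LinearMap.neg_apply, LinearMap.neg_apply] at hle
  linarith

theorem Gen.le_of_pos (h : Ord n o p) (hg : Gen n o p f t c) {F F' : Finset V}
    (hF : Face o p F) (hc : F.card = n) (hF' : Face o p F') (hc' : F'.card = n)
    (hsub : ∀ v ∈ F, 0 < c F v → v ∈ F') : t F ≤ t F' := by
  obtain ⟨x, hx, hact, _⟩ := h.facet_point hF' hc'
  have hx0 : ∀ u ∈ F', p u x = 0 := fun u hu => by rw [← hact] at hu; exact mem_act'.1 hu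
  have h1 := hg.val hF' hc' hx.1 hx0
  have h2 := hg.diff hF hc hx.1
  have h3 : ∑ v ∈ F, c F v * p v x ≤ 0 := by
    refine Finset.sum_nonpos fun v hv => ?_
    rcases lt_or_ge 0 (c F v) with hpos | hneg
    · rw [hx0 v (hsub v hv hpos), mul_zero]
    · exact mul_nonpos_of_nonpos_of_nonneg hneg (hx.2 v)
  linarith

theorem Gen.le_of_neg (h : Ord n o p) (hg : Gen n o p f t c) {F F' : Finset V}
    (hF : Face o p F) (hc : F.card = n) (hF' : Face o p F') (hc' : F'.card = n)
    (hsub : ∀ v ∈ F, c F v < 0 → v ∈ F') : t F' ≤ t F := by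
  obtain ⟨x, hx, hact, _⟩ := h.facet_point hF' hc'
  have hx0 : ∀ u ∈ F', p u x = 0 := fun u hu => by rw [← hact] at hu; exact mem_act'.1 hu
  have h1 := hg.val hF' hc' hx.1 hx0
  have h2 := hg.diff hF hc hx.1
  have h3 : 0 ≤ ∑ v ∈ F, c F v * p v x := by
    refine Finset.sum_nonneg fun v hv => ?_
    rcases lt_or_ge (c F v) 0 with hneg | hpos
    · rw [hx0 v (hsub v hv hneg), mul_zero]
    · exact mul_nonneg hpos (hx.2 v)
  linarith

/-- existence of a point at level `-τ` in a face between a lower and an upper facet. -/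
theorem Gen.exists_level (h : Ord n o p) (hg : Gen n o p f t c) {F F' G : Finset V}
    (hF : Face o p F) (hc : F.card = n) (hF' : Face o p F') (hc' : F'.card = n)
    (hG : G ⊆ F) (hG' : G ⊆ F') {τ : ℝ} (h1 : t F ≤ τ) (h2 : τ ≤ t F') :
    ∃ x ∈ PP o p, G ⊆ act p x ∧ f x = -τ := by
  obtain ⟨x, hx, hact, _⟩ := h.facet_point hF hc
  obtain ⟨x', hx', hact', _⟩ := h.facet_point hF' hc'
  have hx0 : ∀ u ∈ F, p u x = 0 := fun u hu => by rw [← hact] at hu; exact mem_act'.1 hu
  have hx0' : ∀ u ∈ F', p u x' = 0 := fun u hu => by rw [← hact'] at hu; exact mem_act'.1 hu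
  have hfx := hg.val hF hc hx.1 hx0
  have hfx' := hg.val hF' hc' hx'.1 hx0'
  -- a convex combination
  obtain ⟨l, hl0, hl1, hl⟩ : ∃ l : ℝ, 0 ≤ l ∧ l ≤ 1 ∧ (1 - l) * t F + l * t F' = τ := by
    rcases eq_or_lt_of_le (h1.trans h2) with heq | hlt
    · exact ⟨0, le_rfl, zero_le_one, by linarith⟩
    · have hpos : 0 < t F' - t F := sub_pos.2 hlt
      refine ⟨(τ - t F) / (t F' - t F), div_nonneg (sub_nonneg.2 h1) hpos.le,
        (div_le_one hpos).2 (by linarith), ?_⟩
      have h3 : (τ - t F) / (t F' - t F) * (t F' - t F) = τ - t F :=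
        div_mul_cancel₀ _ hpos.ne'
      linarith
  refine ⟨(1 - l) • x + l • x', ⟨?_, fun v => ?_⟩, ?_, ?_⟩
  · rw [map_add, map_smul, map_smul, hx.1, hx'.1, smul_eq_mul, smul_eq_mul]
    ring
  · rw [map_add, map_smul, map_smul, smul_eq_mul, smul_eq_mul]
    exact add_nonneg (mul_nonneg (by linarith) (hx.2 v)) (mul_nonneg hl0 (hx'.2 v))
  · intro v hv
    rw [mem_act', map_add, map_smul, map_smul, hx0 v (hG hv), hx0' v (hG' hv), smul_zero,
      smul_zero, add_zero]
  · rw [map_add, map_smul, map_smul, hfx, hfx', smul_eq_mul, smul_eq_mul, ← hl]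
    ring

end GEN

end MP46
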