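import Pool.Agent.Lib.MP_46e101_co.PRESC
import Pool.Agent.Lib.MP_46e101_co.FACES

/-! ### Module SPAN -/

open MvPolynomial

universe u w

noncomputable section

namespace MP46

section SPAN
variable {V : Type u} [Fintype V] [DecidableEq V] {U : Type w} [AddCommGroup U] [Module ℝ U]
  {o : Module.Dual ℝ U} {p : V → Module.Dual ℝ U} {n : ℕ}

private theorem span_aux (h : Ord n o p) (j : ℕ) (E : MvPolynomial V ℝ →ₗ[ℝ] ℝ)
    (h1 : ∀ s : V →₀ ℕ, s.degree = j → ¬ Face o p s.support → E (monomial s 1) = 0)
    (h2 : ∀ x : U, o x = 0 → ∀ (i : ℕ) (b : MvPolynomial V ℝ), i + 1 = j →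
      b.IsHomogeneous i → E (theta p x * b) = 0)
    (h3 : ∀ F : Finset V, Face o p F → F.card = j → E (∏ v ∈ F, X v) = 0) (k : ℕ) :
    ∀ s : V →₀ ℕ, s.degree = j → Fintype.card V - s.support.card = k →
      E (monomial s 1) = 0 := by
  induction k using Nat.strong_induction_on with
  | _ k ih =>
    intro s hs hk
    by_cases hface : Face o p s.support
    · by_cases hsq : ∀ g ∈ s.support, s g ≤ 1
      · -- squarefree
        have hval : ∀ g ∈ s.support, s g = 1 := fun g hg => by
          have := hsq g hg
          have h4 := Finsupp.mem_support_iff.1 hg
          omega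
        have hcard : s.support.card = j := by
          rw [← hs, Finsupp.degree_apply, Finset.card_eq_sum_ones]
          exact Finset.sum_congr rfl fun g hg => (hval g hg).symm
        have hprod : (∏ v ∈ s.support, X v : MvPolynomial V ℝ) = monomial s 1 := by
          rw [monomial_eq, C_1, one_mul, Finsupp.prod]
          refine Finset.prod_congr rfl fun g hg => ?_
          rw [hval g hg, pow_one]
        rw [← hprod]
        exact h3 _ hface hcard
      · push Not at hsq
        obtain ⟨g, hg, hg2⟩ := hsq
        obtain ⟨x0, hx0, hsub⟩ := hface
        have hface : Face o p s.support := ⟨x0, hx0, hsub⟩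
        have hx00 : ∀ v ∈ s.support, p v x0 = 0 := fun v hv => (Finset.mem_filter.1 (hsub hv)).2
        obtain ⟨x, hx1, hx2⟩ := prescribe hx0.1 hx00 (h.ind hface) 0
          (fun u => if u = g then 1 else 0)
        set s' : V →₀ ℕ := s - Finsupp.single g 1 with hs'
        have hss' : s' + Finsupp.single g 1 = s := by
          rw [hs']
          refine tsub_add_cancel_of_le ?_
          rw [Finsupp.single_le_iff]
          omega
        have hdeg : s'.degree + 1 = j := by
          have h4 := congrArg Finsupp.degree hss'
          rw [map_add, Finsupp.degree_single, hs] at h4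
          exact h4
        have hsupp' : s'.support = s.support := by
          ext v
          rw [Finsupp.mem_support_iff, Finsupp.mem_support_iff, hs', Finsupp.tsub_apply]
          by_cases hvg : v = g
          · rw [hvg, Finsupp.single_eq_same]
            omega
          · rw [Finsupp.single_eq_of_ne hvg]
            omega
        have hexp : theta p x * monomial s' 1 =
            ∑ v, C (p v x) * monomial (s' + Finsupp.single v 1) (1 : ℝ) := by
          unfold theta
          rw [Finset.sum_mul]
          refine Finset.sum_congr rfl fun v _ => ?_
          rw [mul_assoc, X, monomial_mul, one_mul, add_comm]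
        have h5 : E (theta p x * monomial s' 1) = 0 :=
          h2 x hx1 s'.degree (monomial s' 1) hdeg (isHomogeneous_monomial 1 rfl)
        rw [hexp, map_sum, Finset.sum_eq_single g] at h5
        · rw [hx2 g hg, if_pos rfl, C_1, one_mul, hss'] at h5
          exact h5
        · intro v _ hvg
          rw [← smul_eq_C_mul, map_smul]
          by_cases hv : v ∈ s.support
          · rw [hx2 v hv, if_neg hvg, zero_smul]
          · have hsupp2 : (s' + Finsupp.single v 1).support = insert v s.support := by
              ext u
              rw [Finsupp.mem_support_iff, Finset.mem_insert, ← hsupp', Finsupp.mem_support_iff,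
                Finsupp.add_apply]
              by_cases huv : u = v
              · rw [huv, Finsupp.single_eq_same]
                simp
              · rw [Finsupp.single_eq_of_ne huv, add_zero]
                simp [huv]
            have hcard2 : (s' + Finsupp.single v 1).support.card = s.support.card + 1 := by
              rw [hsupp2, Finset.card_insert_of_notMem hv]
            have hle : (s' + Finsupp.single v 1).support.card ≤ Fintype.card V :=
              Finset.card_le_univ _
            rw [ih (Fintype.card V - (s' + Finsupp.single v 1).support.card) (by omega) _ ?_ rfl,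
              smul_zero]
            rw [map_add, Finsupp.degree_single]
            exact hdeg
        · intro hg'
          exact absurd (Finset.mem_univ g) hg'
    · exact h1 s hs hface

theorem lee_span (h : Ord n o p) (j : ℕ) (E : MvPolynomial V ℝ →ₗ[ℝ] ℝ)
    (h1 : ∀ s : V →₀ ℕ, s.degree = j → ¬ Face o p s.support → E (monomial s 1) = 0)
    (h2 : ∀ x : U, o x = 0 → ∀ (i : ℕ) (b : MvPolynomial V ℝ), i + 1 = j →
      b.IsHomogeneous i → E (theta p x * b) = 0)
    (h3 : ∀ F : Finset V, Face o p F → F.card = j → E (∏ v ∈ F, X v) = 0) :
    ∀ b : MvPolynomial V ℝ, b.IsHomogeneous j → E b = 0 := by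
  intro b hb
  rw [← support_sum_monomial_coeff b, map_sum]
  refine Finset.sum_eq_zero fun s hs => ?_
  have hdeg : s.degree = j := by
    rw [Finsupp.degree_eq_weight_one]
    exact hb (mem_support_iff.1 hs)
  have h4 : monomial s (coeff s b) = coeff s b • (monomial s 1 : MvPolynomial V ℝ) := by
    rw [smul_monomial, smul_eq_mul, mul_one]
  rw [h4, map_smul, span_aux h j E h1 h2 h3 _ s hdeg rfl, smul_zero]

end SPAN

end MP46
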