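import Pool.Agent.Lib.MP_46e101_co.Defs
import Pool.Agent.Lib.MP_46e101_co.PRESC
import Pool.Agent.Lib.MP_46e101_co.FACES
import Pool.Agent.Lib.MP_46e101_co.GEN
import Pool.Agent.Lib.MP_46e101_co.SPAN

open MvPolynomial

universe u w

noncomputable section

namespace MP46

section SID
variable {V : Type u} [Fintype V] [DecidableEq V] {U : Type w} [AddCommGroup U] [Module ℝ U]
  {o : Module.Dual ℝ U} {p : V → Module.Dual ℝ U} {n : ℕ} {f : Module.Dual ℝ U}
  {t : Finset V → ℝ} {c : Finset V → V → ℝ} {μ : Finset V → ℝ} {D : MvPolynomial V ℝ →ₗ[ℝ] ℝ}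

omit [Fintype V] in
private theorem sid_prod_monomial (F : Finset V) :
    (∏ v ∈ F, X v : MvPolynomial V ℝ) = monomial (∑ v ∈ F, Finsupp.single v 1) 1 := by
  induction F using Finset.induction_on with
  | empty => simp
  | insert a s ha ih =>
    rw [Finset.prod_insert ha, Finset.sum_insert ha, ih, X, monomial_mul, one_mul]

omit [Fintype V] in
private theorem sid_support (F : Finset V) :
    (∑ v ∈ F, Finsupp.single v 1 : V →₀ ℕ).support = F := by
  ext w
  rw [Finsupp.mem_support_iff, Finsupp.finsetSum_apply]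
  simp [Finsupp.single_apply]

omit [Fintype V] [DecidableEq V] in
private theorem sid_degree (F : Finset V) :
    (∑ v ∈ F, Finsupp.single v 1 : V →₀ ℕ).degree = F.card := by
  rw [map_sum]
  simp

omit [DecidableEq V] in
private theorem sid_theta (E : MvPolynomial V ℝ →ₗ[ℝ] ℝ) (y : U) (b : MvPolynomial V ℝ) :
    E (theta p y * b) = ∑ v, p v y * E (X v * b) := by
  rw [theta, Finset.sum_mul, map_sum]
  refine Finset.sum_congr rfl fun v _ => ?_
  rw [mul_assoc, C_mul', map_smul, smul_eq_mul]

omit [Fintype V] [DecidableEq V] in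
private theorem sid_ev_prod (z : V → ℝ) (F : Finset V) :
    evL z (∏ v ∈ F, X v) = ∏ v ∈ F, z v := by
  simp [evL, map_prod]

omit [DecidableEq V] in
private theorem sid_ev_theta (z : V → ℝ) (y : U) (b : MvPolynomial V ℝ) :
    evL z (theta p y * b) = (∑ v, p v y * z v) * evL z b := by
  simp [evL, theta]

theorem ridgeRel_of_isFun (h : Ord n o p) (hD : IsFun n (Face o p) o p D) :
    RidgeRel n o p (fun F => D (∏ v ∈ F, X v)) := by
  classical
  intro G hG y hoy hy
  have h0 := hD.k2 y hoy G.card (∏ v ∈ G, X v) hG (by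
    simpa using IsHomogeneous.prod G (fun v => (X v : MvPolynomial V ℝ)) (fun _ => 1)
      (fun v _ => isHomogeneous_X ℝ v))
  rw [sid_theta] at h0
  rw [← h0, Finset.sum_filter]
  refine Finset.sum_congr rfl fun v _ => ?_
  by_cases hv : v ∈ G
  · rw [if_neg (fun hh => hh.1 hv), hy v hv, zero_mul]
  · rw [← Finset.prod_insert hv]
    by_cases hF : Face o p (insert v G)
    · rw [if_pos ⟨hv, hF⟩, mul_comm]
    · rw [if_neg (fun hh => hF hh.2), sid_prod_monomial, hD.k1, mul_zero]
      · rw [sid_degree, Finset.card_insert_of_notMem hv, hG]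
      · rwa [sid_support]

/-- value of `f` at a vector killed by `o` and `p_G`. -/
private theorem sid_f_val (hg : Gen n o p f t c) {F G : Finset V} (hF : Face o p F)
    (hc : F.card = n) (hGF : G ⊆ F) {y : U} (hoy : o y = 0) (hy : ∀ g ∈ G, p g y = 0) :
    f y = ∑ v ∈ F \ G, c F v * p v y := by
  have h1 := congrArg (fun g : Module.Dual ℝ U => g y) (hg.rep F hF hc)
  simp only [LinearMap.add_apply, LinearMap.smul_apply, LinearMap.sum_apply, hoy, smul_eq_mul,
    mul_zero, zero_add] at h1
  rw [h1, ← Finset.sum_sdiff hGF, add_eq_left]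
  exact Finset.sum_eq_zero fun v hv => by rw [hy v hv, mul_zero]

theorem Y_zero (h : Ord n o p) (hg : Gen n o p f t c) (hR : RidgeRel n o p μ)
    {G : Finset V} (hG : G.card < n) :
    ∑ F ∈ (facets n o p).filter (fun F => G ⊆ F), μ F / ∏ v ∈ F \ G, (-c F v) = 0 := by
  classical
  induction hk : n - G.card generalizing G with
  | zero => omega
  | succ k ih =>
    by_cases hne : ((facets n o p).filter (fun F => G ⊆ F)).Nonempty
    swap
    · rw [Finset.not_nonempty_iff_eq_empty.1 hne, Finset.sum_empty]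
    obtain ⟨F₀, hF₀⟩ := hne
    rw [Finset.mem_filter, mem_facets] at hF₀
    obtain ⟨⟨hF₀f, hF₀c⟩, hGF₀⟩ := hF₀
    obtain ⟨v₀, hv₀, hv₀G⟩ : ∃ v ∈ F₀, v ∉ G := by
      by_contra hcon
      push Not at hcon
      have := Finset.card_le_card (show F₀ ⊆ G from hcon)
      omega
    obtain ⟨x₀, hx₀, hax₀, -⟩ := h.facet_point hF₀f hF₀c
    have hact : ∀ v ∈ F₀, p v x₀ = 0 := fun v hv => by
      have : v ∈ act p x₀ := by rw [hax₀]; exact hv
      simpa [act] using this
    obtain ⟨y, hoy, hy⟩ := prescribe hx₀.1 hact (h.ind hF₀f) 0 (fun v => if v = v₀ then 1 else 0)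
    have hyG : ∀ g ∈ G, p g y = 0 := fun g hg' => by
      rw [hy g (hGF₀ hg'), if_neg]
      rintro rfl
      exact hv₀G hg'
    have hfy : f y ≠ 0 := by
      rw [sid_f_val hg hF₀f hF₀c hGF₀ hoy hyG,
        Finset.sum_eq_single_of_mem v₀ (Finset.mem_sdiff.2 ⟨hv₀, hv₀G⟩)]
      · rw [hy v₀ hv₀, if_pos rfl, mul_one]
        exact hg.nz F₀ hF₀f hF₀c v₀ hv₀
      · intro v hv hne
        rw [hy v (Finset.mem_sdiff.1 hv).1, if_neg hne, mul_zero]
    have key : f y * (∑ F ∈ (facets n o p).filter (fun F => G ⊆ F),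
        μ F / ∏ v ∈ F \ G, (-c F v)) =
        - ∑ u ∈ Finset.univ.filter (fun u => u ∉ G), p u y *
          ∑ F ∈ (facets n o p).filter (fun F => insert u G ⊆ F),
            μ F / ∏ v ∈ F \ (insert u G), (-c F v) := by
      have e1 : ∀ u ∈ Finset.univ.filter (fun u => u ∉ G), p u y *
          ∑ F ∈ (facets n o p).filter (fun F => insert u G ⊆ F),
            μ F / ∏ v ∈ F \ (insert u G), (-c F v) =
          ∑ F ∈ (facets n o p).filter (fun F => G ⊆ F),
            if u ∈ F then p u y * (μ F / ∏ v ∈ F \ (insert u G), (-c F v)) else 0 := by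
        intro u hu
        rw [Finset.mul_sum, ← Finset.sum_filter, Finset.filter_filter]
        refine Finset.sum_congr ?_ fun _ _ => rfl
        ext F
        simp only [Finset.mem_filter, Finset.insert_subset_iff]
        tauto
      rw [Finset.sum_congr rfl e1, Finset.sum_comm, Finset.mul_sum, ← Finset.sum_neg_distrib]
      refine Finset.sum_congr rfl fun F hF => ?_
      rw [Finset.mem_filter, mem_facets] at hF
      obtain ⟨⟨hFf, hFc⟩, hGF⟩ := hF
      rw [sid_f_val hg hFf hFc hGF hoy hyG, Finset.sum_mul, ← Finset.sum_filter,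
        ← Finset.sum_neg_distrib]
      have e2 : (Finset.univ.filter (fun u => u ∉ G)).filter (fun u => u ∈ F) = F \ G := by
        ext u
        simp only [Finset.mem_filter, Finset.mem_univ, true_and, Finset.mem_sdiff]
        tauto
      rw [e2]
      refine Finset.sum_congr rfl fun u hu => ?_
      have hu' := Finset.mem_sdiff.1 hu
      have e3 : F \ insert u G = (F \ G).erase u := by
        ext v
        simp only [Finset.mem_sdiff, Finset.mem_insert, Finset.mem_erase]
        tauto
      rw [e3, ← Finset.mul_prod_erase (F \ G) (fun v => -c F v) hu]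
      have hcu : c F u ≠ 0 := hg.nz F hFf hFc u hu'.1
      have hP : ∏ v ∈ (F \ G).erase u, (-c F v) ≠ 0 :=
        Finset.prod_ne_zero_iff.2 fun v hv =>
          neg_ne_zero.2 (hg.nz F hFf hFc v (Finset.mem_sdiff.1 (Finset.mem_of_mem_erase hv)).1)
      field_simp
    have hz : ∑ u ∈ Finset.univ.filter (fun u => u ∉ G), p u y *
          ∑ F ∈ (facets n o p).filter (fun F => insert u G ⊆ F),
            μ F / ∏ v ∈ F \ (insert u G), (-c F v) = 0 := by
      rcases Nat.lt_or_ge (G.card + 1) n with hlt | hge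
      · refine Finset.sum_eq_zero fun u hu => ?_
        have huG : u ∉ G := (Finset.mem_filter.1 hu).2
        have hcu : (insert u G).card = G.card + 1 := Finset.card_insert_of_notMem huG
        rw [ih (G := insert u G) (by omega) (by omega), mul_zero]
      · have hGn : G.card + 1 = n := by omega
        rw [← hR G hGn y hoy hyG, Finset.sum_filter, Finset.sum_filter]
        refine Finset.sum_congr rfl fun u _ => ?_
        by_cases huG : u ∈ G
        · rw [if_neg (fun hh => hh huG), if_neg (fun hh => hh.1 huG)]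
        · have hcu : (insert u G).card = n := by
            rw [Finset.card_insert_of_notMem huG, hGn]
          rw [if_pos huG]
          by_cases hface : Face o p (insert u G)
          · rw [if_pos ⟨huG, hface⟩]
            have e4 : (facets n o p).filter (fun F => insert u G ⊆ F) = {insert u G} := by
              ext F
              simp only [Finset.mem_filter, mem_facets, Finset.mem_singleton]
              constructor
              · rintro ⟨⟨_, h2⟩, h3⟩
                exact (Finset.eq_of_subset_of_card_le h3 (by omega)).symm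
              · rintro rfl
                exact ⟨⟨hface, hcu⟩, Finset.Subset.refl _⟩
            rw [e4, Finset.sum_singleton, Finset.sdiff_self, Finset.prod_empty, div_one, mul_comm]
          · rw [if_neg (fun hh => hface hh.2)]
            have e4 : (facets n o p).filter (fun F => insert u G ⊆ F) = ∅ := by
              ext F
              simp only [Finset.mem_filter, mem_facets, Finset.notMem_empty, iff_false]
              rintro ⟨⟨h1, _⟩, h3⟩
              exact hface (h1.mono h3)
            rw [e4, Finset.sum_empty, mul_zero]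
    rw [hz, neg_zero] at key
    exact (mul_eq_zero.1 key).resolve_left hfy

omit [DecidableEq V] in
private theorem sid_Psi_apply (b : MvPolynomial V ℝ) :
    Psi n o p μ c b = ∑ F ∈ facets n o p, kap μ c F * evL (fun v => -c F v) b := by
  simp [Psi, LinearMap.sum_apply]

theorem Psi_facet (h : Ord n o p) (hg : Gen n o p f t c) {F : Finset V} (hF : Face o p F)
    (hc : F.card = n) : Psi n o p μ c (∏ v ∈ F, X v) = μ F := by
  rw [sid_Psi_apply, Finset.sum_eq_single_of_mem F (mem_facets.2 ⟨hF, hc⟩)]
  · rw [sid_ev_prod, kap, div_mul_cancel₀]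
    exact Finset.prod_ne_zero_iff.2 fun v hv => neg_ne_zero.2 (hg.nz F hF hc v hv)
  · intro F' hF' hne
    rw [mem_facets] at hF'
    obtain ⟨v, hv, hv'⟩ : ∃ v ∈ F, v ∉ F' := by
      by_contra hcon
      push Not at hcon
      exact hne (Finset.eq_of_subset_of_card_le (show F ⊆ F' from hcon) (by omega)).symm
    rw [sid_ev_prod, Finset.prod_eq_zero hv, mul_zero]
    rw [hg.supp F' v hv', neg_zero]

private theorem sid_Psi_k1 (hg : Gen n o p f t c) (s : V →₀ ℕ) (hs : ¬ Face o p s.support) :
    Psi n o p μ c (monomial s 1) = 0 := by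
  rw [sid_Psi_apply]
  refine Finset.sum_eq_zero fun F hF => ?_
  rw [mem_facets] at hF
  obtain ⟨v, hv, hv'⟩ : ∃ v ∈ s.support, v ∉ F := by
    by_contra hcon
    push Not at hcon
    exact hs (hF.1.mono hcon)
  have : evL (fun v => -c F v) (monomial s 1) = 0 := by
    simp only [evL, AlgHom.toLinearMap_apply, aeval_monomial]
    rw [Finsupp.prod, Finset.prod_eq_zero hv, mul_zero]
    rw [hg.supp F v hv', neg_zero, zero_pow (Finsupp.mem_support_iff.1 hv)]
  rw [this, mul_zero]

private theorem sid_Psi_theta (hg : Gen n o p f t c) {x : U} (hx : o x = 0)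
    (b : MvPolynomial V ℝ) :
    Psi n o p μ c (theta p x * b) = - f x * Psi n o p μ c b := by
  rw [sid_Psi_apply, sid_Psi_apply, Finset.mul_sum]
  refine Finset.sum_congr rfl fun F hF => ?_
  rw [mem_facets] at hF
  rw [sid_ev_theta]
  have h1 : f x = ∑ v, c F v * p v x := by
    rw [sid_f_val hg hF.1 hF.2 (Finset.empty_subset F) hx (by simp), Finset.sdiff_empty]
    refine Finset.sum_subset (Finset.subset_univ _) fun v _ hv => ?_
    rw [hg.supp F v hv, zero_mul]
  have h2 : ∑ v, p v x * -c F v = - f x := by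
    rw [h1, ← Finset.sum_neg_distrib]
    exact Finset.sum_congr rfl fun v _ => by ring
  rw [h2]
  ring

private theorem sid_Psi_face (h : Ord n o p) (hg : Gen n o p f t c) (hR : RidgeRel n o p μ)
    {G : Finset V} (hG : G.card < n) : Psi n o p μ c (∏ v ∈ G, X v) = 0 := by
  rw [← Y_zero h hg hR hG, sid_Psi_apply, Finset.sum_filter]
  refine Finset.sum_congr rfl fun F hF => ?_
  rw [mem_facets] at hF
  rw [sid_ev_prod]
  by_cases hGF : G ⊆ F
  · rw [if_pos hGF, kap, ← Finset.prod_sdiff hGF (f := fun v => -c F v)]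
    have h1 : ∏ v ∈ G, (-c F v) ≠ 0 :=
      Finset.prod_ne_zero_iff.2 fun v hv => neg_ne_zero.2 (hg.nz F hF.1 hF.2 v (hGF hv))
    have h2 : ∏ v ∈ F \ G, (-c F v) ≠ 0 :=
      Finset.prod_ne_zero_iff.2 fun v hv =>
        neg_ne_zero.2 (hg.nz F hF.1 hF.2 v (Finset.mem_sdiff.1 hv).1)
    field_simp
  · rw [if_neg hGF]
    obtain ⟨v, hv, hv'⟩ := Finset.not_subset.1 hGF
    rw [Finset.prod_eq_zero hv, mul_zero]
    rw [hg.supp F v hv', neg_zero]

theorem Psi_low (h : Ord n o p) (hg : Gen n o p f t c) (hR : RidgeRel n o p μ) {j : ℕ}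
    (hj : j < n) {b : MvPolynomial V ℝ} (hb : b.IsHomogeneous j) : Psi n o p μ c b = 0 := by
  induction j generalizing b with
  | zero =>
    exact lee_span h 0 (Psi n o p μ c) (fun s _ hs => sid_Psi_k1 hg s hs)
      (fun x _ i b hi _ => by omega) (fun G _ hc => sid_Psi_face h hg hR (by omega)) b hb
  | succ j ih =>
    refine lee_span h (j + 1) (Psi n o p μ c) (fun s _ hs => sid_Psi_k1 hg s hs)
      (fun x hx i b' hi hb' => ?_) (fun G _ hc => sid_Psi_face h hg hR (by omega)) b hb
    obtain rfl : i = j := by omega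
    rw [sid_Psi_theta hg hx, ih (by omega) hb', mul_zero]

theorem Psi_isFun (h : Ord n o p) (hg : Gen n o p f t c) (hR : RidgeRel n o p μ)
    (hμ : ∀ F, Face o p F → F.card = n → 0 < μ F) :
    IsFun n (Face o p) o p (Psi n o p μ c) := by
  refine ⟨fun s _ hs => sid_Psi_k1 hg s hs, fun x hx j b hj hb => ?_, fun F hF hc => ?_⟩
  · rw [sid_Psi_theta hg hx, Psi_low h hg hR (by omega) hb, mul_zero]
  · rw [Psi_facet h hg hF hc]
    exact hμ F hF hc

theorem Psi_eq (h : Ord n o p) (hg : Gen n o p f t c) (hD : IsFun n (Face o p) o p D)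
    {b : MvPolynomial V ℝ} (hb : b.IsHomogeneous n) :
    Psi n o p (fun F => D (∏ v ∈ F, X v)) c b = D b := by
  have hR := ridgeRel_of_isFun h hD
  have := lee_span h n (Psi n o p (fun F => D (∏ v ∈ F, X v)) c - D) ?_ ?_ ?_ b hb
  · simpa [sub_eq_zero] using this
  · intro s hs hns
    rw [LinearMap.sub_apply, sid_Psi_k1 hg s hns, hD.k1 s hs hns, sub_zero]
  · intro x hx i b hi hb
    rw [LinearMap.sub_apply, sid_Psi_theta hg hx, Psi_low h hg hR (by omega) hb, mul_zero,
      hD.k2 x hx i b hi hb, sub_zero]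
  · intro F hF hc
    rw [LinearMap.sub_apply, Psi_facet h hg hF hc, sub_self]

end SID

end MP46
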