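import Pool.Agent.Lib.MP_46e101_co.Defs
import Pool.Agent.Lib.MP_46e101_co.FACES
import Pool.Agent.Lib.MP_46e101_co.GEN
import Pool.Agent.Lib.MP_46e101_co.SID

/-! Module DET: existence of a weight (determinants) and of a degree functional (MP_46e101_co). -/

open MvPolynomial

universe u w

noncomputable section

namespace MP46

section DET
variable {V : Type u} [Fintype V] [DecidableEq V] {U : Type w} [AddCommGroup U] [Module ℝ U]
  {o : Module.Dual ℝ U} {p : V → Module.Dual ℝ U} {n : ℕ}

/-- the family `o, p`. -/
private def PO (o : Module.Dual ℝ U) (p : V → Module.Dual ℝ U) : Option V → Module.Dual ℝ U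
  | none => o
  | some v => p v

/-- absolute value of the determinant of a set of functionals. -/
private def Wt {m : ℕ} (ω : (Module.Dual ℝ U) [⋀^Fin m]→ₗ[ℝ] ℝ) (P : Option V → Module.Dual ℝ U)
    (S : Finset (Option V)) : ℝ :=
  if h : S.card = m then |ω (fun i => P ((S.equivFinOfCardEq h).symm i : Option V))| else 0

omit [Fintype V] [DecidableEq V] in
private theorem Wt_eq {m : ℕ} (ω : (Module.Dual ℝ U) [⋀^Fin m]→ₗ[ℝ] ℝ)
    (P : Option V → Module.Dual ℝ U) (S : Finset (Option V)) (hS : S.card = m)
    (c : Fin m → Option V) (hc : Function.Injective c) (hm : ∀ i, c i ∈ S) :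
    Wt ω P S = |ω (fun i => P (c i))| := by
  have hb : Function.Bijective (fun i => (⟨c i, hm i⟩ : S)) := by
    rw [Fintype.bijective_iff_injective_and_card]
    refine ⟨fun i j hij => hc (by simpa using hij), by simp [hS]⟩
  set σ : Equiv.Perm (Fin m) := (Equiv.ofBijective _ hb).trans (S.equivFinOfCardEq hS) with hσ
  have h1 : (fun i => P (c i)) =
      (fun i => P ((S.equivFinOfCardEq hS).symm i : Option V)) ∘ σ := by
    funext i
    simp [hσ]
  rw [Wt, dif_pos hS, h1, ω.map_perm]
  rcases Int.units_eq_one_or (Equiv.Perm.sign σ) with h | h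
  · rw [h]
    simp
  · rw [h]
    simp

private theorem det_ne (hdim : Module.finrank ℝ U = n + 1)
    (B : Module.Basis (Fin (n + 1)) ℝ (Module.Dual ℝ U)) (g : Fin (n + 1) → Module.Dual ℝ U)
    (hg : ∀ u : U, (∀ i, g i u = 0) → u = 0) : B.det g ≠ 0 := by
  have : FiniteDimensional ℝ U := FiniteDimensional.of_finrank_pos (by omega)
  have hspan : Submodule.span ℝ (Set.range g) = ⊤ := by
    have h1 : (Submodule.span ℝ (Set.range g)).dualCoannihilator = ⊥ := by
      rw [eq_bot_iff]
      intro u hu
      rw [Submodule.mem_dualCoannihilator] at hu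
      rw [Submodule.mem_bot]
      exact hg u fun i => hu (g i) (Submodule.subset_span ⟨i, rfl⟩)
    have h2 := Subspace.dualCoannihilator_dualAnnihilator_eq
      (W := Submodule.span ℝ (Set.range g))
    rw [← h2, h1, Submodule.dualAnnihilator_bot]
  have hli : LinearIndependent ℝ g := by
    apply linearIndependent_of_top_le_span_of_card_eq_finrank hspan.ge
    rw [Subspace.dual_finrank_eq, hdim, Fintype.card_fin]
  exact ((Module.Basis.is_basis_iff_det B).1 ⟨hli, hspan⟩).ne_zero

omit [Fintype V] [DecidableEq V] in
private theorem card_none (F : Finset V) (hc : F.card = n) :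
    (Finset.insertNone F).card = n + 1 := by
  rw [Finset.card_insertNone, hc]

private theorem Wt_pos (h : Ord n o p) (B : Module.Basis (Fin (n + 1)) ℝ (Module.Dual ℝ U))
    {F : Finset V} (hF : Face o p F) (hc : F.card = n) :
    0 < Wt B.det (PO o p) (Finset.insertNone F) := by
  rw [Wt, dif_pos (card_none F hc)]
  rw [abs_pos]
  apply det_ne h.dim
  intro u hu
  obtain ⟨x, hx, hFx⟩ := hF
  have hall : ∀ w ∈ Finset.insertNone F, PO o p w u = 0 := by
    intro w hw
    have := hu ((Finset.insertNone F).equivFinOfCardEq (card_none F hc) ⟨w, hw⟩)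
    simpa using this
  refine eq_zero_of_full h.dim hx.1 (F := F) (fun v hv => ?_) (h.ind ⟨x, hx, hFx⟩) hc u
    (hall none Finset.none_mem_insertNone) (fun v hv => hall (some v) (by simpa using hv))
  exact (Finset.mem_filter.1 (hFx hv)).2

/-- the key computation at a ridge. -/
private theorem ridge_key (h : Ord n o p) (B : Module.Basis (Fin (n + 1)) ℝ (Module.Dual ℝ U))
    {G : Finset V} (hc : G.card + 1 = n) {y : U}
    (hy : ∀ y' : U, o y' = 0 → (∀ g ∈ G, p g y' = 0) → ∃ r : ℝ, y' = r • y) :
    ∃ r : ℝ, ∀ v, v ∉ G → Wt B.det (PO o p) (Finset.insertNone (insert v G)) =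
      |r| * |p v y| := by
  have : FiniteDimensional ℝ U := FiniteDimensional.of_finrank_pos (by have := h.dim; omega)
  have hS : (Finset.insertNone G).card = n := by rw [Finset.card_insertNone, hc]
  set e := (Finset.insertNone G).equivFinOfCardEq hS with he
  set g : Fin n → Module.Dual ℝ U := fun i => PO o p ((e.symm i : Option V)) with hg
  let L : Module.Dual ℝ (Module.Dual ℝ U) :=
    { toFun := fun q => B.det.curryLeft q g
      map_add' := by
        intro q q'
        rw [map_add]
        rfl
      map_smul' := by
        intro r q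
        rw [map_smul]
        rfl }
  have hL : ∀ q, L q = B.det (Matrix.vecCons q g) := fun q => rfl
  have hLe : ∀ w ∈ Finset.insertNone G, L (PO o p w) = 0 := by
    intro w hw
    rw [hL]
    refine B.det.map_eq_zero_of_eq _ (i := 0) (j := (e ⟨w, hw⟩).succ) ?_
      (Fin.succ_ne_zero _).symm
    rw [Matrix.cons_val_zero, Matrix.cons_val_succ, hg]
    simp
  set u : U := (Module.evalEquiv ℝ U).symm L with hu
  have hqu : ∀ q : Module.Dual ℝ U, q u = L q := by
    intro q
    rw [hu, Module.apply_evalEquiv_symm_apply]
  obtain ⟨r, hr⟩ := hy u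
    (by
      have := hLe none Finset.none_mem_insertNone
      rw [hqu]
      exact this)
    (fun v hv => by
      have := hLe (some v) (by simpa using hv)
      rw [hqu]
      exact this)
  refine ⟨r, fun v hv => ?_⟩
  have hc1 : (Finset.insertNone (insert v G)).card = n + 1 := by
    rw [Finset.card_insertNone, Finset.card_insert_of_notMem hv, hc]
  have hinj : Function.Injective
      (Matrix.vecCons (some v) (fun i => (e.symm i : Option V)) : Fin (n + 1) → Option V) := by
    have hne : ∀ i : Fin n, (e.symm i : Option V) ≠ some v := by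
      intro i hi
      have h1 := (e.symm i).2
      rw [hi] at h1
      exact hv (by simpa using h1)
    intro i j
    refine Fin.cases ?_ (fun i => ?_) i
    · refine Fin.cases ?_ (fun j => ?_) j
      · intro _
        rfl
      · intro hij
        rw [Matrix.cons_val_zero, Matrix.cons_val_succ] at hij
        exact absurd hij.symm (hne j)
    · refine Fin.cases ?_ (fun j => ?_) j
      · intro hij
        rw [Matrix.cons_val_zero, Matrix.cons_val_succ] at hij
        exact absurd hij (hne i)
      · intro hij
        rw [Matrix.cons_val_succ, Matrix.cons_val_succ] at hij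
        have := e.symm.injective (Subtype.ext hij)
        rw [this]
  rw [Wt_eq B.det (PO o p) _ hc1 (Matrix.vecCons (some v) fun i => (e.symm i : Option V)) hinj]
  · have h1 : (fun i : Fin (n + 1) => PO o p
        ((Matrix.vecCons (some v) (fun i => (e.symm i : Option V)) : Fin (n + 1) → Option V) i)) =
        Matrix.vecCons (p v) g := by
      funext i
      refine Fin.cases ?_ (fun i => ?_) i
      · rfl
      · rfl
    rw [h1, ← hL, ← hqu, hr, map_smul, smul_eq_mul, abs_mul]
  · intro i
    refine Fin.cases ?_ (fun i => ?_) i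
    · rw [Matrix.cons_val_zero]
      simp
    · rw [Matrix.cons_val_succ]
      have h1 := (e.symm i).2
      cases h2 : (e.symm i : Option V) with
      | none => exact Finset.none_mem_insertNone
      | some w =>
        rw [h2] at h1
        simp only [Finset.some_mem_insertNone, Finset.mem_insert] at h1 ⊢
        exact Or.inr h1

theorem exists_weight (h : Ord n o p) :
    ∃ μ : Finset V → ℝ, (∀ F, Face o p F → F.card = n → 0 < μ F) ∧ RidgeRel n o p μ := by
  have : FiniteDimensional ℝ U := FiniteDimensional.of_finrank_pos (by have := h.dim; omega)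
  have hd : Module.finrank ℝ (Module.Dual ℝ U) = n + 1 := by
    rw [Subspace.dual_finrank_eq, h.dim]
  let B : Module.Basis (Fin (n + 1)) ℝ (Module.Dual ℝ U) := Module.finBasisOfFinrankEq ℝ _ hd
  refine ⟨fun F => 1 / Wt B.det (PO o p) (Finset.insertNone F), fun F hF hc => ?_, ?_⟩
  · exact div_pos one_pos (Wt_pos h B hF hc)
  · intro G hc y hoy hpy
    by_cases hG : Face o p G
    · obtain ⟨y0, hy0, -, -, hy0', a, b, ha, hb, hab, hFa, hFb, hpa, hpb, hall⟩ := h.ridge hG hc
      obtain ⟨r, hr⟩ := ridge_key h B hc hy0'
      obtain ⟨r', hr'⟩ := hy0' y hoy hpy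
      have hca : (insert a G).card = n := by rw [Finset.card_insert_of_notMem ha, hc]
      have hpos := Wt_pos h B hFa hca
      rw [hr a ha] at hpos
      have hr0 : |r| ≠ 0 := by
        intro h0
        rw [h0, zero_mul] at hpos
        exact lt_irrefl _ hpos
      refine (Finset.sum_congr (s₂ := ({a, b} : Finset V)) ?_ (fun _ _ => rfl)).trans ?_
      · ext v
        simp only [Finset.mem_filter, Finset.mem_univ, true_and, Finset.mem_insert,
          Finset.mem_singleton]
        constructor
        · rintro ⟨h1, h2⟩
          exact hall v h1 h2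
        · rintro (rfl | rfl)
          · exact ⟨ha, hFa⟩
          · exact ⟨hb, hFb⟩
      rw [Finset.sum_pair hab]
      beta_reduce
      rw [hr a ha, hr b hb, abs_of_pos hpa, abs_of_neg hpb, hr',
        map_smul, map_smul, smul_eq_mul, smul_eq_mul]
      have h1 := hpa.ne'
      have h2 := hpb.ne
      field_simp
      ring
    · apply Finset.sum_eq_zero
      intro v hv
      have hv' := (@Finset.mem_filter _ _ (_) _ _).1 hv
      exact absurd (hv'.2.2.mono (Finset.subset_insert v G)) hG

theorem exists_functional (h : Ord n o p) :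
    ∃ D : MvPolynomial V ℝ →ₗ[ℝ] ℝ, IsFun n (Face o p) o p D := by
  obtain ⟨f, t, c, hg⟩ := h.exists_gen
  obtain ⟨μ, hμ, hR⟩ := exists_weight h
  exact ⟨Psi n o p μ c, Psi_isFun h hg hR hμ⟩

end DET

end MP46
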