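import Pool.Agent.Lib.MP_46e101_co.SID

/-! # MP_46e101_co, module DTF: the truncated functional is a degree functional -/

open MvPolynomial

universe u w

noncomputable section

namespace MP46

set_option linter.unusedSectionVars false

section TRUNC
variable {V : Type u} [Fintype V] [DecidableEq V] {U : Type w} [AddCommGroup U] [Module ℝ U]
  {o : Module.Dual ℝ U} {p : V → Module.Dual ℝ U} {n : ℕ} {f : Module.Dual ℝ U}
  {t : Finset V → ℝ} {c : Finset V → V → ℝ} {D : MvPolynomial V ℝ →ₗ[ℝ] ℝ}

private lemma evL_monomial {W : Type u} (z : W → ℝ) (s : W →₀ ℕ) :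
    evL z (monomial s 1) = s.prod fun w k => z w ^ k := by
  simp [evL, aeval_monomial]

private lemma DT_apply (μ : Finset V → ℝ) (c : Finset V → V → ℝ) (T : Finset (Finset V))
    (b : MvPolynomial (Option V) ℝ) :
    DT μ c T b = ∑ F ∈ T, kap μ c F * evL (lam (c F)) b := by
  simp [DT, LinearMap.sum_apply]

private lemma evL_mul {W : Type u} (z : W → ℝ) (a b : MvPolynomial W ℝ) :
    evL z (a * b) = evL z a * evL z b := by
  simp [evL]

private lemma evL_prod_X {W : Type u} (z : W → ℝ) (G : Finset W) :
    evL z (∏ v ∈ G, X v) = ∏ v ∈ G, z v := by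
  simp [evL, map_prod]

private lemma evL_theta {W : Type u} [Fintype W] (z : W → ℝ) (q : W → Module.Dual ℝ U) (x : U) :
    evL z (theta q x) = ∑ v, q v x * z v := by
  simp [evL, theta, map_sum]

/-- the exponent of the old variables. -/
private def old (s : Option V →₀ ℕ) : V →₀ ℕ := s.some

private lemma ev_lam_zero (hg : Gen n o p f t c) {F : Finset V} {s : Option V →₀ ℕ} {v : V}
    (hv : s (some v) ≠ 0) (hF : v ∉ F) : (s.prod fun w k => lam (c F) w ^ k) = 0 := by
  classical
  rw [Finsupp.prod]
  apply Finset.prod_eq_zero (i := some v)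
  · simpa using hv
  · have : lam (c F) (some v) = 0 := by simp [lam, hg.supp F v hF]
    rw [this]
    exact zero_pow hv

private lemma ev_lam_some {F : Finset V} {s : Option V →₀ ℕ} :
    (s.prod fun w k => lam (c F) w ^ k) = (s.some.prod fun w k => (-c F w) ^ k) := by
  classical
  rw [Finsupp.prod_option_index]
  · simp [lam]
  · intro w; simp
  · intro w a b; rw [pow_add]

private lemma key_neg (h : Ord n o p) (hg : Gen n o p f t c) {G F F₁ : Finset V} {v : V}
    (hF : F ∈ facets n o p) (hF₁ : F₁ ∈ facets n o p) (hlt : t F < t F₁)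
    (hG : F = insert v G) (hv : v ∉ G) (hG₁ : G ⊆ F₁) : c F v < 0 := by
  classical
  obtain ⟨hFf, hFc⟩ := mem_facets.1 hF
  obtain ⟨hF₁f, hF₁c⟩ := mem_facets.1 hF₁
  obtain ⟨x, hx, hact, -⟩ := h.facet_point hF₁f hF₁c
  have hmem : ∀ w ∈ F₁, p w x = 0 := by
    intro w hw
    have : w ∈ act p x := by rw [hact]; exact hw
    simpa [act] using this
  have e1 := hg.val hF₁f hF₁c hx.1 hmem
  have e2 := hg.diff hFf hFc hx.1
  rw [e1, hG, Finset.sum_insert hv] at e2
  have e3 : ∑ w ∈ G, c (insert v G) w * p w x = 0 := by
    apply Finset.sum_eq_zero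
    intro w hw
    rw [hmem w (hG₁ hw), mul_zero]
  rw [e3, add_zero, ← hG] at e2
  have h0 : 0 ≤ p v x := hx.2 v
  by_contra hcon
  have : 0 ≤ c F v * p v x := mul_nonneg (not_lt.1 hcon) h0
  linarith

theorem DT_isFun (h : Ord n o p) (hg : Gen n o p f t c) (hD : IsFun n (Face o p) o p D)
    {T : Finset (Finset V)} (hT : T ⊆ facets n o p)
    (hdown : ∀ F ∈ T, ∀ F' ∈ facets n o p, t F' ≤ t F → F' ∈ T) (τ : ℝ) :
    IsFun n (TFace n o p T) o (optP p f o τ) (DT (fun F => D (∏ v ∈ F, X v)) c T) := by
  classical
  refine ⟨?_, ?_, ?_⟩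
  · intro s hs hns
    rw [DT_apply]
    simp only [evL_monomial]
    by_cases h1 : ∃ F ∈ facets n o p, F ∈ T ∧ ∀ v, some v ∈ s.support → v ∈ F
    · have h2 : ¬ (none ∈ s.support → ∃ F ∈ facets n o p, F ∉ T ∧ ∀ v, some v ∈ s.support → v ∈ F) :=
        fun hh => hns ⟨h1, hh⟩
      push Not at h2
      obtain ⟨hnone, h2⟩ := h2
      have hn0 : s none ≠ 0 := by simpa using hnone
      have hdeg : s.some.degree < n := by
        have : s.degree = s none + s.some.degree := by
          simp only [Finsupp.degree_eq_sum, Fintype.sum_option, Finsupp.some_apply]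
        omega
      have hP := Psi_low h hg (ridgeRel_of_isFun h hD) hdeg
        (isHomogeneous_monomial (1 : ℝ) (d := s.some) rfl)
      have : Psi n o p (fun F => D (∏ v ∈ F, X v)) c (monomial s.some 1) =
          ∑ F ∈ facets n o p, kap (fun F => D (∏ v ∈ F, X v)) c F *
            (s.some.prod fun w k => (-c F w) ^ k) := by
        simp [Psi, LinearMap.sum_apply, evL_monomial]
      rw [this] at hP
      rw [← hP, ← Finset.sum_subset hT]
      · apply Finset.sum_congr rfl
        intro F _
        rw [ev_lam_some]
      · intro F hF hFT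
        obtain ⟨v, hv, hvF⟩ := h2 F hF hFT
        rw [← ev_lam_some, ev_lam_zero hg (by simpa using hv) hvF, mul_zero]
    · apply Finset.sum_eq_zero
      intro F hF
      push Not at h1
      obtain ⟨v, hv, hvF⟩ := h1 F (hT hF) hF
      rw [ev_lam_zero hg (by simpa using hv) hvF, mul_zero]
  · intro x hx j b _ _
    rw [DT_apply]
    apply Finset.sum_eq_zero
    intro F hF
    obtain ⟨hFf, hFc⟩ := mem_facets.1 (hT hF)
    have e1 : evL (lam (c F)) (theta (optP p f o τ) x) = 0 := by
      rw [evL_theta, Fintype.sum_option]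
      have hrep := hg.rep F hFf hFc
      have : f x = ∑ v ∈ F, c F v * p v x := by
        conv_lhs => rw [hrep]
        simp [hx, LinearMap.sum_apply]
      have e2 : ∑ v, p v x * (-c F v) = - ∑ v ∈ F, c F v * p v x := by
        rw [← Finset.sum_neg_distrib, Finset.sum_subset (Finset.subset_univ F)]
        · apply Finset.sum_congr rfl
          intro v _; ring
        · intro v _ hv
          simp [hg.supp F v hv]
      simp only [optP, lam, LinearMap.add_apply, LinearMap.smul_apply, hx, smul_zero, add_zero,
        mul_one, e2, this]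
      ring
    rw [evL_mul, e1, zero_mul, mul_zero]
  · intro G hG hGc
    rw [DT_apply]
    simp only [evL_prod_X]
    obtain ⟨⟨F₀, hF₀, hF₀T, hGF₀⟩, hnone⟩ := hG
    obtain ⟨hF₀f, hF₀c⟩ := mem_facets.1 hF₀
    have hposF : ∀ F ∈ facets n o p, 0 < D (∏ v ∈ F, X v) := by
      intro F hF
      obtain ⟨a, b⟩ := mem_facets.1 hF
      exact hD.k3 F a b
    by_cases hn : none ∈ G
    · obtain ⟨F₁, hF₁, hF₁T, hGF₁⟩ := hnone hn
      -- `G' = eraseNone G`
      set G' : Finset V := Finset.eraseNone G with hG'
      have hGc' : G'.card + 1 = n := by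
        have h0 := Finset.card_eraseNone_of_mem hn
        rw [← hG'] at h0
        have hpos : 0 < G.card := Finset.card_pos.2 ⟨none, hn⟩
        omega
      have hmem' : ∀ v, v ∈ G' ↔ some v ∈ G := fun v => Finset.mem_eraseNone
      have hval : ∀ F : Finset V, ∏ v ∈ G, lam (c F) v = ∏ v ∈ G', (-c F v) := by
        intro F
        have : G = insert none (G'.map Function.Embedding.some) := by
          ext w
          cases w with
          | none => simp [hn]
          | some v => simp [hmem']
        rw [this, Finset.prod_insert (by simp), Finset.prod_map]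
        simp [lam]
      have hterm : ∀ F ∈ T, 0 ≤ kap (fun F => D (∏ v ∈ F, X v)) c F * ∏ v ∈ G, lam (c F) v ∧
          (G' ⊆ F → 0 < kap (fun F => D (∏ v ∈ F, X v)) c F * ∏ v ∈ G, lam (c F) v) := by
        intro F hF
        obtain ⟨hFf, hFc⟩ := mem_facets.1 (hT hF)
        have hB : G' ⊆ F → 0 < kap (fun F => D (∏ v ∈ F, X v)) c F * ∏ v ∈ G, lam (c F) v := by
          intro hsub
          obtain ⟨v, hv, hins⟩ : ∃ v, v ∉ G' ∧ insert v G' = F := by
            have : (F \ G').card = 1 := by
              rw [Finset.card_sdiff_of_subset hsub]; omega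
            obtain ⟨v, hv⟩ := Finset.card_eq_one.1 this
            have hv' : v ∈ F \ G' := by rw [hv]; simp
            refine ⟨v, (Finset.mem_sdiff.1 hv').2, ?_⟩
            apply Finset.eq_of_subset_of_card_le
            · intro w hw
              rcases Finset.mem_insert.1 hw with rfl | hw
              · exact (Finset.mem_sdiff.1 hv').1
              · exact hsub hw
            · rw [Finset.card_insert_of_notMem (Finset.mem_sdiff.1 hv').2]; omega
          have hlt : t F < t F₁ := by
            by_contra hcon
            exact hF₁T (hdown F hF F₁ hF₁ (not_lt.1 hcon))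
          have hcneg : c F v < 0 := key_neg h hg (hT hF) hF₁ hlt hins.symm hv
            (fun w hw => hGF₁ w ((hmem' w).1 hw))
          rw [hval, kap]
          have e1 : ∏ w ∈ F, (-c F w) = (-c F v) * ∏ w ∈ G', (-c F w) := by
            conv_lhs => rw [← hins]
            rw [Finset.prod_insert hv, hins]
          have hne : ∏ w ∈ G', (-c F w) ≠ 0 := by
            apply Finset.prod_ne_zero_iff.2
            intro w hw
            exact neg_ne_zero.2 (hg.nz F hFf hFc w (hsub hw))
          rw [e1]
          have hDp := hposF F (hT hF)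
          have : D (∏ v ∈ F, X v) / (-c F v * ∏ w ∈ G', -c F w) * ∏ v ∈ G', -c F v =
              D (∏ v ∈ F, X v) / (-c F v) := by
            have hcv : -c F v ≠ 0 := by linarith
            field_simp
          rw [this]
          exact div_pos hDp (by linarith)
        refine ⟨?_, hB⟩
        by_cases hsub : G' ⊆ F
        · exact (hB hsub).le
        · obtain ⟨v, hv, hvF⟩ := Finset.not_subset.1 hsub
          have : ∏ v ∈ G, lam (c F) v = 0 := by
            rw [hval]
            exact Finset.prod_eq_zero hv (by simp [hg.supp F v hvF])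
          rw [this, mul_zero]
      apply Finset.sum_pos' (fun F hF => (hterm F hF).1)
      exact ⟨F₀, hF₀T, (hterm F₀ hF₀T).2 (fun v hv => hGF₀ v ((hmem' v).1 hv))⟩
    · have hval : ∀ F : Finset V, ∏ v ∈ G, lam (c F) v = ∏ v ∈ Finset.eraseNone G, (-c F v) := by
        intro F
        have : G = (Finset.eraseNone G).map Function.Embedding.some := by
          ext w
          cases w with
          | none => simp [hn]
          | some v => simp
        conv_lhs => rw [this]
        rw [Finset.prod_map]
        simp [lam]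
      have hGe : Finset.eraseNone G = F₀ := by
        apply Finset.eq_of_subset_of_card_le
        · intro v hv
          exact hGF₀ v (Finset.mem_eraseNone.1 hv)
        · rw [Finset.card_eraseNone_of_not_mem hn, hGc, hF₀c]
      rw [Finset.sum_eq_single F₀]
      · rw [hval, hGe, kap]
        have hne : ∏ w ∈ F₀, (-c F₀ w) ≠ 0 := by
          apply Finset.prod_ne_zero_iff.2
          intro w hw
          exact neg_ne_zero.2 (hg.nz F₀ hF₀f hF₀c w hw)
        rw [div_mul_cancel₀ _ hne]
        exact hposF F₀ hF₀
      · intro F hF hne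
        obtain ⟨hFf, hFc⟩ := mem_facets.1 (hT hF)
        rw [hval, hGe]
        have : ¬ F₀ ⊆ F := by
          intro hsub
          apply hne
          exact (Finset.eq_of_subset_of_card_le hsub (by omega)).symm
        obtain ⟨v, hv, hvF⟩ := Finset.not_subset.1 this
        rw [Finset.prod_eq_zero hv (by simp [hg.supp F v hvF]), mul_zero]
      · intro hcon
        exact absurd hF₀T hcon

end TRUNC

end MP46
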