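import Mathlib

/-!
# Kalai's reconstruction conjecture (MP_46e101_co): definitions of the internal theory

Everything is done in the polar language.  `U` is a real vector space (of affine functionals),
`o` and `p v` (`v : V`) are linear functionals on `U` (evaluation at a point `o` and at the vertices
of the polytope).  The polar polytope is `PP o p = {x | o x = 1, p v x ≥ 0 for all v}`.
-/

open MvPolynomial

universe u w

noncomputable section

namespace MP46

section Geometry

variable {V : Type u} [Fintype V] [DecidableEq V] {U : Type w} [AddCommGroup U] [Module ℝ U]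

/-- The polyhedron `{x | o x = 1, p v x ≥ 0}`. -/
def PP (o : Module.Dual ℝ U) (p : V → Module.Dual ℝ U) : Set U :=
  {x | o x = 1 ∧ ∀ v, 0 ≤ p v x}

/-- The set of labels active at `x`. -/
def act (p : V → Module.Dual ℝ U) (x : U) : Finset V :=
  Finset.univ.filter fun v => p v x = 0

/-- Boundedness of the polyhedron. -/
def Bdd (o : Module.Dual ℝ U) (p : V → Module.Dual ℝ U) : Prop :=
  ∀ x : U, x ≠ 0 → o x = 0 → ∃ v, p v x < 0

/-- The functionals `p v`, `v ∈ F`, are linearly independent. -/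
def Ind (p : V → Module.Dual ℝ U) (F : Finset V) : Prop :=
  LinearIndependent ℝ (fun v : F => p (v : V))

/-- Ordinary (bounded, simple) data of dimension `n`. -/
structure Ord (n : ℕ) (o : Module.Dual ℝ U) (p : V → Module.Dual ℝ U) : Prop where
  dim : Module.finrank ℝ U = n + 1
  ne : (PP o p).Nonempty
  bdd : Bdd o p
  simple : ∀ x ∈ PP o p, Ind p (act p x)

/-- Faces (of the dual simplicial complex). -/
def Face (o : Module.Dual ℝ U) (p : V → Module.Dual ℝ U) (G : Finset V) : Prop :=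
  ∃ x ∈ PP o p, G ⊆ act p x

/-- Special data: exactly one point `xs` of the polyhedron has dependent active functionals, and
there `act p xs = A ∪ B` is a circuit `∑_{A} c v • p v = ∑_{B} c v • p v`, `c > 0`. -/
structure Spec (n : ℕ) (o : Module.Dual ℝ U) (p : V → Module.Dual ℝ U) (A B : Finset V)
    (xs : U) : Prop where
  dim : Module.finrank ℝ U = n + 1
  bdd : Bdd o p
  mem : xs ∈ PP o p
  act_eq : act p xs = A ∪ B
  disj : Disjoint A B
  card : A.card + B.card = n + 1
  neA : A.Nonempty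
  neB : B.Nonempty
  rel : ∃ c : V → ℝ, (∀ v ∈ A ∪ B, 0 < c v) ∧ ∑ v ∈ A, c v • p v = ∑ v ∈ B, c v • p v
  circuit : ∀ v ∈ A ∪ B, Ind p ((A ∪ B).erase v)
  simple : ∀ x ∈ PP o p, x ≠ xs → Ind p (act p x)

/-- Faces of the special complex `{G | G ⊆ act x, A ⊄ G}`. -/
def SFace (o : Module.Dual ℝ U) (p : V → Module.Dual ℝ U) (A : Finset V) (G : Finset V) : Prop :=
  Face o p G ∧ ¬ A ⊆ G

/-- The linear form `θ_x = ∑_v p_v(x) x_v`. -/
def theta (p : V → Module.Dual ℝ U) (x : U) : MvPolynomial V ℝ :=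
  ∑ v, C (p v x) * X v

/-- `D` is a degree functional (in degree `n`) for the complex `Δ` and the data `(o, p)`. -/
structure IsFun (n : ℕ) (Δ : Finset V → Prop) (o : Module.Dual ℝ U) (p : V → Module.Dual ℝ U)
    (D : MvPolynomial V ℝ →ₗ[ℝ] ℝ) : Prop where
  k1 : ∀ s : V →₀ ℕ, s.degree = n → ¬ Δ s.support → D (monomial s 1) = 0
  k2 : ∀ x : U, o x = 0 → ∀ (j : ℕ) (b : MvPolynomial V ℝ), j + 1 = n → b.IsHomogeneous j →
    D (theta p x * b) = 0
  k3 : ∀ F : Finset V, Δ F → F.card = n → 0 < D (∏ v ∈ F, X v)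

end Geometry

section Forms

variable {V : Type u}

/-- `a` is annihilated by `D` in complementary degree `j`. -/
def Ann (D : MvPolynomial V ℝ →ₗ[ℝ] ℝ) (j : ℕ) (a : MvPolynomial V ℝ) : Prop :=
  ∀ b : MvPolynomial V ℝ, b.IsHomogeneous j → D (a * b) = 0

/-- `a` (of degree `k`) is primitive for `D` (of degree `n`) and `ℓ`. -/
def Prim (D : MvPolynomial V ℝ →ₗ[ℝ] ℝ) (l : MvPolynomial V ℝ) (n k : ℕ)
    (a : MvPolynomial V ℝ) : Prop :=
  ∀ (j : ℕ) (b : MvPolynomial V ℝ), j + 1 = k → b.IsHomogeneous j →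
    D (a * b * l ^ (n - 2 * k + 1)) = 0

/-- Strict Hodge-Riemann relations in degree `k`. -/
def HRs (D : MvPolynomial V ℝ →ₗ[ℝ] ℝ) (l : MvPolynomial V ℝ) (n k : ℕ) : Prop :=
  ∀ a : MvPolynomial V ℝ, a.IsHomogeneous k → Prim D l n k a →
    0 < (-1 : ℝ) ^ k * D (a ^ 2 * l ^ (n - 2 * k)) ∨ Ann D (n - k) a

/-- Weak Hodge-Riemann relations in degree `k`. -/
def HRw (D : MvPolynomial V ℝ →ₗ[ℝ] ℝ) (l : MvPolynomial V ℝ) (n k : ℕ) : Prop :=
  ∀ a : MvPolynomial V ℝ, a.IsHomogeneous k → Prim D l n k a →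
    0 ≤ (-1 : ℝ) ^ k * D (a ^ 2 * l ^ (n - 2 * k))

/-- Non-degeneracy (hard Lefschetz) in degree `k`. -/
def ND (D : MvPolynomial V ℝ →ₗ[ℝ] ℝ) (l : MvPolynomial V ℝ) (n k : ℕ) : Prop :=
  ∀ a : MvPolynomial V ℝ, a.IsHomogeneous k →
    (∀ b : MvPolynomial V ℝ, b.IsHomogeneous k → D (a * b * l ^ (n - 2 * k)) = 0) →
    Ann D (n - k) a

end Forms

/-- The Hodge-Riemann relations for all ordinary data of dimension `n`. -/
def OrdHR (n : ℕ) : Prop :=
  ∀ (V : Type u) [Fintype V] [DecidableEq V] (U : Type w) [AddCommGroup U] [Module ℝ U]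
    (o : Module.Dual ℝ U) (p : V → Module.Dual ℝ U) (D : MvPolynomial V ℝ →ₗ[ℝ] ℝ),
    Ord n o p → IsFun n (Face o p) o p D → ∀ x : U, o x = 1 → ∀ k : ℕ, 2 * k ≤ n →
      HRs D (theta p x) n k

/-- The Hodge-Riemann relations for all special data of dimension `n`. -/
def SpecHR (n : ℕ) : Prop :=
  ∀ (V : Type u) [Fintype V] [DecidableEq V] (U : Type w) [AddCommGroup U] [Module ℝ U]
    (o : Module.Dual ℝ U) (p : V → Module.Dual ℝ U) (D : MvPolynomial V ℝ →ₗ[ℝ] ℝ)
    (A B : Finset V) (xs : U),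
    Spec n o p A B xs → IsFun n (SFace o p A) o p D → ∀ x : U, o x = 1 → ∀ k : ℕ, 2 * k ≤ n →
      (k < B.card → HRs D (theta p x) n k) ∧ (k = B.card → HRw D (theta p x) n k)

section Links

variable {V : Type u} [Fintype V] [DecidableEq V] {U : Type w} [AddCommGroup U] [Module ℝ U]

/-- The functional `o` restricted to `ker (p v)`. -/
def linkO (o : Module.Dual ℝ U) (p : V → Module.Dual ℝ U) (v : V) :
    Module.Dual ℝ (LinearMap.ker (p v)) :=
  o.domRestrict (LinearMap.ker (p v))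

/-- The functionals `p w`, `w ≠ v`, restricted to `ker (p v)`. -/
def linkP (p : V → Module.Dual ℝ U) (v : V) :
    {w : V // w ≠ v} → Module.Dual ℝ (LinearMap.ker (p v)) :=
  fun w => (p w.1).domRestrict (LinearMap.ker (p v))

/-- The functional `b ↦ D (x_v b)` on polynomials in the variables `w ≠ v`. -/
def linkD (D : MvPolynomial V ℝ →ₗ[ℝ] ℝ) (v : V) :
    MvPolynomial {w : V // w ≠ v} ℝ →ₗ[ℝ] ℝ :=
  D ∘ₗ (LinearMap.mulLeft ℝ (X v : MvPolynomial V ℝ)) ∘ₗ
    (rename (Subtype.val : {w : V // w ≠ v} → V)).toLinearMap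

/-- The link of `v` in an abstract complex. -/
def linkF (Δ : Finset V → Prop) (v : V) : Finset {w : V // w ≠ v} → Prop :=
  fun G => Δ (insert v (G.map (Function.Embedding.subtype fun w => w ≠ v)))

end Links

section Sweep

variable {V : Type u} [Fintype V] [DecidableEq V] {U : Type w} [AddCommGroup U] [Module ℝ U]

/-- Sweep coordinates: for a functional `f` on `U` and every facet `F`,
`f = -(t F) • o + ∑_{v ∈ F} c F v • p v`, all coefficients `c F v` (`v ∈ F`) nonzero and the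
numbers `t F` distinct.  (The vertex `x_F` of `PP o p` satisfies `f x_F = - t F`.) -/
structure Gen (n : ℕ) (o : Module.Dual ℝ U) (p : V → Module.Dual ℝ U) (f : Module.Dual ℝ U)
    (t : Finset V → ℝ) (c : Finset V → V → ℝ) : Prop where
  rep : ∀ F : Finset V, Face o p F → F.card = n → f = -(t F) • o + ∑ v ∈ F, c F v • p v
  nz : ∀ F : Finset V, Face o p F → F.card = n → ∀ v ∈ F, c F v ≠ 0
  supp : ∀ (F : Finset V) (v : V), v ∉ F → c F v = 0
  inj : ∀ F F' : Finset V, Face o p F → F.card = n → Face o p F' → F'.card = n →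
    t F = t F' → F = F'

open Classical in
/-- The finset of facets. -/
def facets (n : ℕ) (o : Module.Dual ℝ U) (p : V → Module.Dual ℝ U) : Finset (Finset V) :=
  Finset.univ.filter fun F => Face o p F ∧ F.card = n

/-- The data truncated by the half space `f + t • o ≥ 0` (new label `none`). -/
def optP (p : V → Module.Dual ℝ U) (f o : Module.Dual ℝ U) (t : ℝ) :
    Option V → Module.Dual ℝ U
  | none => f + t • o
  | some v => p v

/-- The evaluation point of a facet: `none ↦ 1`, `v ↦ -c v`. -/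
def lam (c : V → ℝ) : Option V → ℝ
  | none => 1
  | some v => -c v

/-- The weight `μ F / ∏_{v ∈ F} (-c F v)`. -/
def kap (μ : Finset V → ℝ) (c : Finset V → V → ℝ) (F : Finset V) : ℝ :=
  μ F / ∏ v ∈ F, (-c F v)

/-- Evaluation at a point as a linear functional. -/
def evL {W : Type u} (z : W → ℝ) : MvPolynomial W ℝ →ₗ[ℝ] ℝ :=
  (MvPolynomial.aeval z).toLinearMap

/-- `D_T b = ∑_{F ∈ T} κ_F b(λ_F)`. -/
def DT (μ : Finset V → ℝ) (c : Finset V → V → ℝ) (T : Finset (Finset V)) :
    MvPolynomial (Option V) ℝ →ₗ[ℝ] ℝ :=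
  ∑ F ∈ T, kap μ c F • evL (lam (c F))

/-- `Ψ b = ∑_{F facet} κ_F b(-c_F)` on polynomials in the old variables. -/
def Psi (n : ℕ) (o : Module.Dual ℝ U) (p : V → Module.Dual ℝ U) (μ : Finset V → ℝ)
    (c : Finset V → V → ℝ) : MvPolynomial V ℝ →ₗ[ℝ] ℝ :=
  ∑ F ∈ facets n o p, kap μ c F • evL (fun v => -c F v)

open Classical in
/-- Ridge relation for a weight `μ` on the facets. -/
def RidgeRel (n : ℕ) (o : Module.Dual ℝ U) (p : V → Module.Dual ℝ U) (μ : Finset V → ℝ) : Prop :=
  ∀ G : Finset V, G.card + 1 = n → ∀ y : U, o y = 0 → (∀ g ∈ G, p g y = 0) →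
    ∑ v ∈ Finset.univ.filter (fun v => v ∉ G ∧ Face o p (insert v G)),
      μ (insert v G) * p v y = 0

open Classical in
/-- The complex attached to a set `T` of facets (the swept ones). -/
def TFace (n : ℕ) (o : Module.Dual ℝ U) (p : V → Module.Dual ℝ U) (T : Finset (Finset V))
    (G : Finset (Option V)) : Prop :=
  (∃ F ∈ facets n o p, F ∈ T ∧ ∀ v, some v ∈ G → v ∈ F) ∧
    (none ∈ G → ∃ F ∈ facets n o p, F ∉ T ∧ ∀ v, some v ∈ G → v ∈ F)

/-- Facets with `t F < τ`. -/
def below (n : ℕ) (o : Module.Dual ℝ U) (p : V → Module.Dual ℝ U) (t : Finset V → ℝ) (τ : ℝ) :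
    Finset (Finset V) :=
  (facets n o p).filter fun F => t F < τ

/-- Facets with `t F ≤ τ`. -/
def belowEq (n : ℕ) (o : Module.Dual ℝ U) (p : V → Module.Dual ℝ U) (t : Finset V → ℝ) (τ : ℝ) :
    Finset (Finset V) :=
  (facets n o p).filter fun F => t F ≤ τ

/-- `{some v | v ∈ F, c F v > 0}`. -/
def posSet (c : Finset V → V → ℝ) (F : Finset V) : Finset (Option V) :=
  (F.filter fun v => 0 < c F v).map Function.Embedding.some

/-- `{none} ∪ {some v | v ∈ F, c F v < 0}`. -/
def negSet (c : Finset V → V → ℝ) (F : Finset V) : Finset (Option V) :=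
  insert none ((F.filter fun v => c F v < 0).map Function.Embedding.some)

/-- The data perturbed by `s • o` on `A`. -/
def pertP (o : Module.Dual ℝ U) (p : V → Module.Dual ℝ U) (A : Finset V) (s : ℝ) :
    V → Module.Dual ℝ U :=
  fun v => if v ∈ A then p v + s • o else p v

end Sweep

section Stress

variable {V : Type u} [Fintype V] [DecidableEq V] {U : Type w} [AddCommGroup U] [Module ℝ U]

/-- The linear form `∑ y_v x_v`. -/
def LF (y : V → ℝ) : MvPolynomial V ℝ := ∑ v, C (y v) * X v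

/-- Linear functionals on polynomials of degree `i` killing non-faces and all `θ_x`, `x ∈ U`. -/
def IsStressFun (i : ℕ) (Δ : Finset V → Prop) (p : V → Module.Dual ℝ U)
    (s : MvPolynomial V ℝ →ₗ[ℝ] ℝ) : Prop :=
  (∀ e : V →₀ ℕ, e.degree = i → ¬ Δ e.support → s (monomial e 1) = 0) ∧
    ∀ (x : U) (j : ℕ) (b : MvPolynomial V ℝ), j + 1 = i → b.IsHomogeneous j →
      s (theta p x * b) = 0

/-- Boundary mod 2 of a chain `c : Finset V → ZMod 2`. -/
def bd (c : Finset V → ZMod 2) (G : Finset V) : ZMod 2 :=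
  ∑ v ∈ Finset.univ.filter (fun v => v ∉ G), c (insert v G)

end Stress

end MP46
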