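import Pool.Agent.Lib.MP_46e101_co.LFUN
import Pool.Agent.Lib.MP_46e101_co.LGEO

/-! # Positivity of `D (θ ^ n)` -/

open MvPolynomial

universe u w

noncomputable section

namespace MP46

private theorem theta_hom {V : Type u} [Fintype V] {U : Type w} [AddCommGroup U] [Module ℝ U]
    (p : V → Module.Dual ℝ U) (x : U) : (theta p x).IsHomogeneous 1 := by
  unfold theta
  apply IsHomogeneous.sum
  intro v _
  have := (isHomogeneous_C V (p v x)).mul (isHomogeneous_X ℝ v)
  simpa using this

private theorem theta_pow_succ {V : Type u} [Fintype V] {U : Type w} [AddCommGroup U] [Module ℝ U]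
    (p : V → Module.Dual ℝ U) (x : U) (n : ℕ) (D : MvPolynomial V ℝ →ₗ[ℝ] ℝ) :
    D (theta p x ^ (n + 1)) = ∑ v, p v x * D (X v * theta p x ^ n) := by
  have h1 : theta p x ^ (n + 1) = ∑ v, p v x • (X v * theta p x ^ n) := by
    rw [pow_succ, mul_comm]
    conv_lhs => rw [theta]
    rw [Finset.sum_mul]
    apply Finset.sum_congr rfl
    intro v _
    rw [MvPolynomial.smul_eq_C_mul]
    rw [mul_assoc]
    rfl
  rw [h1, map_sum]
  apply Finset.sum_congr rfl
  intro v _
  rw [map_smul, smul_eq_mul]

private theorem pos_ord_aux (n : ℕ) : ∀ (V : Type u) [Fintype V] [DecidableEq V] (U : Type w)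
    [AddCommGroup U] [Module ℝ U] (o : Module.Dual ℝ U) (p : V → Module.Dual ℝ U)
    (D : MvPolynomial V ℝ →ₗ[ℝ] ℝ), Ord n o p → IsFun n (Face o p) o p D →
    ∀ x : U, o x = 1 → 0 < D (theta p x ^ n) := by
  induction n with
  | zero =>
    intro V _ _ U _ _ o p D h hD x hx
    have := hD.k3 ∅ h.face_empty rfl
    simpa using this
  | succ n IH =>
    intro V _ _ U _ _ o p D h hD x hx
    obtain ⟨x0, hx0, hpos⟩ := h.interior
    have h1 : D (theta p x ^ (n + 1)) = D (theta p x0 ^ (n + 1)) := by
      have := isFun_congr_pow hD hx hx0 (r := n + 1) (j := 0) (by ring) (isHomogeneous_one V ℝ)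
      simpa using this
    rw [h1, theta_pow_succ]
    have hface : ∀ v, Face o p {v} → 0 < D (X v * theta p x0 ^ n) := by
      intro v hv
      obtain ⟨_, x', hx'⟩ := h.link_points hv
      rw [pow_link hD v hx0 hx']
      obtain ⟨hO, hF⟩ := h.link hv
      have hfun := isFun_link hD v
      have heq : linkF (Face o p) v = Face (linkO o p v) (linkP p v) :=
        funext fun G => propext (hF G).symm
      rw [heq] at hfun
      exact IH _ _ _ _ _ hO hfun x' hx'
    have hnot : ∀ v, ¬ Face o p {v} → D (X v * theta p x0 ^ n) = 0 := by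
      intro v hv
      refine ghost hD v ?_ (j := n) rfl ?_
      · intro G hvG hG
        exact hv (hG.mono (Finset.singleton_subset_iff.2 hvG))
      · simpa using (theta_hom p x0).pow n
    obtain ⟨F, hF, hFc, -⟩ := h.face_facet h.face_empty
    obtain ⟨v, hv⟩ : F.Nonempty := by
      rw [← Finset.card_pos, hFc]
      exact Nat.succ_pos n
    have hfv : Face o p {v} := hF.mono (Finset.singleton_subset_iff.2 hv)
    apply Finset.sum_pos'
    · intro w _
      by_cases hw : Face o p {w}
      · exact (mul_pos (hpos w) (hface w hw)).le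
      · rw [hnot w hw, mul_zero]
    · exact ⟨v, Finset.mem_univ v, mul_pos (hpos v) (hface v hfv)⟩

variable {V : Type u} [Fintype V] [DecidableEq V] {U : Type w} [AddCommGroup U] [Module ℝ U]
  {o : Module.Dual ℝ U} {p : V → Module.Dual ℝ U} {n : ℕ}

theorem pos_ord (h : Ord n o p) {D : MvPolynomial V ℝ →ₗ[ℝ] ℝ}
    (hD : IsFun n (Face o p) o p D) {x : U} (hx : o x = 1) : 0 < D (theta p x ^ n) :=
  pos_ord_aux n V U o p D h hD x hx

theorem pos_spec {A B : Finset V} {xs : U} (h : Spec n o p A B xs)
    {D : MvPolynomial V ℝ →ₗ[ℝ] ℝ}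
    (hD : IsFun n (SFace o p A) o p D) {x : U} (hx : o x = 1) : 0 < D (theta p x ^ n) := by
  obtain ⟨m, rfl⟩ : ∃ m, n = m + 1 := by
    have h1 := h.card
    have h2 := h.neA.card_pos
    have h3 := h.neB.card_pos
    exact ⟨n - 1, by omega⟩
  have hxs : o xs = 1 := h.mem.1
  have h1 : D (theta p x ^ (m + 1)) = D (theta p xs ^ (m + 1)) := by
    have := isFun_congr_pow hD hx hxs (r := m + 1) (j := 0) (by ring) (isHomogeneous_one V ℝ)
    simpa using this
  rw [h1, theta_pow_succ]
  have hmem : ∀ v, v ∈ A ∪ B ↔ p v xs = 0 := by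
    intro v
    rw [← h.act_eq]
    simp [act]
  have hface : ∀ v, v ∉ A → v ∉ B → Face o p {v} → 0 < D (X v * theta p xs ^ m) := by
    intro v hvA hvB hv
    obtain ⟨_, x', hx'⟩ := h.link_points hv
    rw [pow_link hD v hxs hx']
    obtain ⟨hO, hF⟩ := h.link_out hv hvA hvB
    have hfun := isFun_link hD v
    have heq : linkF (SFace o p A) v = Face (linkO o p v) (linkP p v) :=
      funext fun G => propext (hF G).symm
    rw [heq] at hfun
    exact pos_ord hO hfun hx'
  have hnot : ∀ v, ¬ Face o p {v} → D (X v * theta p xs ^ m) = 0 := by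
    intro v hv
    refine ghost hD v ?_ (j := m) rfl ?_
    · intro G hvG hG
      exact hv (hG.1.mono (Finset.singleton_subset_iff.2 hvG))
    · simpa using (theta_hom p xs).pow m
  obtain ⟨v, hvA, hvB, hv⟩ := h.exists_outside
  apply Finset.sum_pos'
  · intro w _
    by_cases hwAB : w ∈ A ∪ B
    · rw [(hmem w).1 hwAB, zero_mul]
    · rw [Finset.mem_union, not_or] at hwAB
      by_cases hw : Face o p {w}
      · exact mul_nonneg (h.mem.2 w) (hface w hwAB.1 hwAB.2 hw).le
      · rw [hnot w hw, mul_zero]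
  · refine ⟨v, Finset.mem_univ v, mul_pos ?_ (hface v hvA hvB hv)⟩
    have hne : p v xs ≠ 0 := by
      intro h0
      have := (hmem v).2 h0
      rw [Finset.mem_union] at this
      exact this.elim hvA hvB
    exact lt_of_le_of_ne (h.mem.2 v) (Ne.symm hne)

end MP46
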