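import Pool.Agent.Lib.MP_46e101_co.Defs

/-!
# Links of degree functionals (module LFUN)
-/

open MvPolynomial

universe u w

noncomputable section

namespace MP46

section LFUN
variable {V : Type u} [Fintype V] [DecidableEq V] {U : Type w} [AddCommGroup U] [Module ℝ U]
  {o : Module.Dual ℝ U} {p : V → Module.Dual ℝ U} {n : ℕ}

private theorem lfun_ext {W : Type u} {m : ℕ} (E : MvPolynomial W ℝ →ₗ[ℝ] ℝ)
    (h : ∀ s : W →₀ ℕ, s.degree = m → E (monomial s 1) = 0) {b : MvPolynomial W ℝ}
    (hb : b.IsHomogeneous m) : E b = 0 := by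
  rw [b.as_sum, map_sum]
  refine Finset.sum_eq_zero fun s hs => ?_
  have h1 : monomial s (coeff s b) = (coeff s b) • (monomial s (1 : ℝ)) := by
    rw [smul_monomial, smul_eq_mul, mul_one]
  have hdeg : s.degree = m := by
    have := hb (mem_support_iff.mp hs)
    rwa [Finsupp.degree_eq_weight_one]
  rw [h1, map_smul, h s hdeg, smul_zero]

private theorem lfun_theta_hom {W : Type u} [Fintype W] {U' : Type w} [AddCommGroup U']
    [Module ℝ U'] (q : W → Module.Dual ℝ U') (x : U') : (theta q x).IsHomogeneous 1 := by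
  unfold theta
  refine IsHomogeneous.sum _ _ _ fun v _ => ?_
  have := (isHomogeneous_C (R := ℝ) W (q v x)).mul (isHomogeneous_X (R := ℝ) v)
  simpa using this

private theorem lfun_theta_sub (x x' : U) : theta p x - theta p x' = theta p (x - x') := by
  unfold theta
  rw [← Finset.sum_sub_distrib]
  refine Finset.sum_congr rfl fun v _ => ?_
  rw [map_sub, C_sub, sub_mul]

private theorem lfun_pow {W : Type u} {a b : MvPolynomial W ℝ} (ha : a.IsHomogeneous 1)
    (hb : b.IsHomogeneous 1) (r : ℕ) :
    ∃ G : MvPolynomial W ℝ, G.IsHomogeneous r ∧ a ^ (r + 1) - b ^ (r + 1) = G * (a - b) := by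
  refine ⟨∑ i ∈ Finset.range (r + 1), a ^ i * b ^ (r + 1 - 1 - i), ?_, ?_⟩
  · refine IsHomogeneous.sum _ _ _ fun i hi => ?_
    have hi' : i < r + 1 := Finset.mem_range.mp hi
    have h1 := (ha.pow i).mul (hb.pow (r + 1 - 1 - i))
    have h2 : 1 * i + 1 * (r + 1 - 1 - i) = r := by omega
    rwa [h2] at h1
  · exact ((Commute.all a b).geom_sum₂_mul (r + 1)).symm

/-- independence of the point `x` of height one. -/
theorem isFun_congr_pow {Δ : Finset V → Prop} {D : MvPolynomial V ℝ →ₗ[ℝ] ℝ}
    (hD : IsFun n Δ o p D) {x x' : U} (hx : o x = 1) (hx' : o x' = 1) {r j : ℕ}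
    (hr : r + j = n) {b : MvPolynomial V ℝ} (hb : b.IsHomogeneous j) :
    D (b * theta p x ^ r) = D (b * theta p x' ^ r) := by
  rcases Nat.eq_zero_or_pos r with h0 | h0
  · subst h0; simp
  · obtain ⟨r', rfl⟩ : ∃ r', r = r' + 1 := ⟨r - 1, by omega⟩
    obtain ⟨G, hG, hGe⟩ := lfun_pow (lfun_theta_hom p x) (lfun_theta_hom p x') r'
    have h1 : b * theta p x ^ (r' + 1) - b * theta p x' ^ (r' + 1)
        = theta p (x - x') * (b * G) := by
      rw [← mul_sub, hGe, lfun_theta_sub]; ring
    have h2 : D (theta p (x - x') * (b * G)) = 0 := by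
      refine hD.k2 (x - x') ?_ (j + r') (b * G) (by omega) (hb.mul hG)
      rw [map_sub, hx, hx', sub_self]
    have h3 := congrArg D h1
    rw [map_sub, h2] at h3
    linarith

/-- a label which is not a face is killed. -/
theorem ghost {Δ : Finset V → Prop} {D : MvPolynomial V ℝ →ₗ[ℝ] ℝ} (hD : IsFun n Δ o p D)
    (v : V) (hΔ : ∀ G : Finset V, v ∈ G → ¬ Δ G) {j : ℕ} (hj : j + 1 = n)
    {b : MvPolynomial V ℝ} (hb : b.IsHomogeneous j) : D (X v * b) = 0 := by
  have h := lfun_ext (m := j) (D ∘ₗ LinearMap.mulLeft ℝ (X v)) (fun s hs => ?_) hb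
  · simpa using h
  · have h1 : (X v : MvPolynomial V ℝ) * monomial s 1 = monomial (s + Finsupp.single v 1) 1 := by
      rw [monomial_add_single, pow_one, mul_comm]
    simp only [LinearMap.comp_apply, LinearMap.mulLeft_apply]
    rw [h1]
    refine hD.k1 _ ?_ (hΔ _ ?_)
    · rw [map_add, hs, Finsupp.degree_single, hj]
    · simp [Finsupp.mem_support_iff]

private theorem lfun_rename_theta (v : V) (x : LinearMap.ker (p v)) :
    rename (Subtype.val : {w : V // w ≠ v} → V) (theta (linkP p v) x) = theta p (x : U) := by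
  classical
  unfold theta
  rw [map_sum]
  have hv : p v (x : U) = 0 := x.2
  rw [← Finset.sum_erase_add Finset.univ _ (Finset.mem_univ v), hv, C_0, zero_mul, add_zero]
  have h1 : ∀ w : {w : V // w ≠ v}, rename (Subtype.val : {w : V // w ≠ v} → V)
      (C (linkP p v w x) * X w) = C (p w.1 (x : U)) * X w.1 := by
    intro w
    rw [map_mul, rename_C, rename_X]
    rfl
  rw [Finset.sum_congr rfl fun w _ => h1 w]
  rw [← Finset.sum_subtype (Finset.univ.erase v) (p := fun w => w ≠ v)
    (fun w => by simp) (fun w => C (p w (x : U)) * X w)]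

private theorem lfun_map_support (v : V) (s : {w : V // w ≠ v} →₀ ℕ) :
    (s.mapDomain (Subtype.val : {w : V // w ≠ v} → V) + Finsupp.single v 1).support
      = insert v (s.support.map (Function.Embedding.subtype fun w => w ≠ v)) := by
  classical
  ext w
  rw [Finsupp.mem_support_iff, Finset.mem_insert, Finset.mem_map]
  by_cases hw : w = v
  · subst hw
    simp
  · have h1 : (s.mapDomain (Subtype.val : {w : V // w ≠ v} → V)) w = s ⟨w, hw⟩ :=
      Finsupp.mapDomain_apply Subtype.val_injective s ⟨w, hw⟩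
    rw [Finsupp.add_apply, h1, Finsupp.single_eq_of_ne (by simpa using hw), add_zero]
    constructor
    · intro h
      right
      exact ⟨⟨w, hw⟩, Finsupp.mem_support_iff.mpr h, rfl⟩
    · rintro (h | ⟨a, ha, rfl⟩)
      · exact absurd h hw
      · exact Finsupp.mem_support_iff.mp ha

theorem isFun_link {Δ : Finset V → Prop} {D : MvPolynomial V ℝ →ₗ[ℝ] ℝ}
    (hD : IsFun (n + 1) Δ o p D) (v : V) :
    IsFun n (linkF Δ v) (linkO o p v) (linkP p v) (linkD D v) := by
  classical
  refine ⟨?_, ?_, ?_⟩
  · intro s hs hΔ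
    have h1 : linkD D v (monomial s 1)
        = D (monomial (s.mapDomain (Subtype.val : {w : V // w ≠ v} → V)
            + Finsupp.single v 1) 1) := by
      rw [monomial_add_single, pow_one, mul_comm]
      simp [linkD, rename_monomial]
    rw [h1]
    refine hD.k1 _ ?_ ?_
    · rw [map_add, Finsupp.degree_single]
      have : (s.mapDomain (Subtype.val : {w : V // w ≠ v} → V)).degree = s.degree :=
        Finsupp.degree_mapDomain _ s
      omega
    · rw [lfun_map_support]
      exact hΔ
  · intro x hx j b hj hb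
    have h1 : linkD D v (theta (linkP p v) x * b)
        = D (theta p (x : U) * (X v * rename (Subtype.val : {w : V // w ≠ v} → V) b)) := by
      simp only [linkD, LinearMap.comp_apply, LinearMap.mulLeft_apply, AlgHom.toLinearMap_apply,
        map_mul, lfun_rename_theta]
      congr 1
      ring
    rw [h1]
    refine hD.k2 (x : U) hx (1 + j) _ (by omega) ?_
    exact (isHomogeneous_X ℝ v).mul hb.rename_isHomogeneous
  · intro F hF hc
    have h1 : linkD D v (∏ w ∈ F, X w)
        = D (∏ w ∈ insert v (F.map (Function.Embedding.subtype fun w => w ≠ v)), X w) := by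
      rw [Finset.prod_insert (by simp), Finset.prod_map]
      simp [linkD, map_prod]
    rw [h1]
    refine hD.k3 _ hF ?_
    rw [Finset.card_insert_of_notMem (by simp), Finset.card_map, hc]

theorem pow_link {Δ : Finset V → Prop} {D : MvPolynomial V ℝ →ₗ[ℝ] ℝ}
    (hD : IsFun (n + 1) Δ o p D) (v : V)
    {x : U} (hx : o x = 1) {x' : LinearMap.ker (p v)} (hx' : o x' = 1) :
    D (X v * theta p x ^ n) = linkD D v (theta (linkP p v) x' ^ n) := by
  rw [isFun_congr_pow hD hx hx' (r := n) (j := 1) rfl (isHomogeneous_X ℝ v)]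
  simp only [linkD, LinearMap.comp_apply, LinearMap.mulLeft_apply, AlgHom.toLinearMap_apply,
    map_pow, lfun_rename_theta]

/-- the substitution `X v ↦ - ∑_{w ≠ v} p_w(y) X_w`. -/
private def sig (p : V → Module.Dual ℝ U) (v : V) (y : U) :
    MvPolynomial V ℝ →ₐ[ℝ] MvPolynomial {w : V // w ≠ v} ℝ :=
  aeval fun w => if h : w ≠ v then X (⟨w, h⟩ : {w : V // w ≠ v}) else
    - ∑ w : {w : V // w ≠ v}, C (p w.1 y) * X w

private theorem sig_rename (v : V) (y : U) (b : MvPolynomial {w : V // w ≠ v} ℝ) :
    sig p v y (rename (Subtype.val : {w : V // w ≠ v} → V) b) = b := by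
  have h : (sig p v y).comp (rename (Subtype.val : {w : V // w ≠ v} → V)) = AlgHom.id ℝ _ := by
    refine MvPolynomial.algHom_ext fun w => ?_
    have hw : w.1 ≠ v := w.2
    simp [sig, hw]
  exact DFunLike.congr_fun h b

private theorem sig_hom (v : V) (y : U) {b : MvPolynomial V ℝ} {j : ℕ}
    (hb : b.IsHomogeneous j) : (sig p v y b).IsHomogeneous j := by
  have h1 : (1 : ℕ) * j = j := one_mul j
  have := hb.aeval (fun w : V => if h : w ≠ v then X (⟨w, h⟩ : {w : V // w ≠ v}) else
    - ∑ w : {w : V // w ≠ v}, C (p w.1 y) * X w) (n := 1) ?_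
  · rwa [h1] at this
  · intro w
    by_cases hw : w ≠ v
    · simp only [hw, ne_eq, not_false_eq_true, dite_true]
      exact isHomogeneous_X ℝ _
    · simp only [hw, dite_false]
      refine IsHomogeneous.neg ?_
      refine IsHomogeneous.sum _ _ _ fun w _ => ?_
      have := (isHomogeneous_C (R := ℝ) {w : V // w ≠ v} (p w.1 y)).mul
        (isHomogeneous_X (R := ℝ) w)
      simpa using this

private theorem rename_sig_X (v : V) {y : U} (hy : p v y = 1) :
    rename (Subtype.val : {w : V // w ≠ v} → V) (sig p v y (X v)) = X v - theta p y := by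
  classical
  have h1 : sig p v y (X v) = - ∑ w : {w : V // w ≠ v}, C (p w.1 y) * X w := by
    simp [sig]
  rw [h1, map_neg, map_sum]
  unfold theta
  rw [← Finset.sum_erase_add Finset.univ (fun w => C (p w y) * X w) (Finset.mem_univ v), hy,
    C_1, one_mul]
  have h2 : ∀ w : {w : V // w ≠ v}, rename (Subtype.val : {w : V // w ≠ v} → V)
      (C (p w.1 y) * X w) = C (p w.1 y) * X w.1 := by
    intro w
    rw [map_mul, rename_C, rename_X]
  rw [Finset.sum_congr rfl fun w _ => h2 w]
  rw [← Finset.sum_subtype (Finset.univ.erase v) (p := fun w => w ≠ v)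
    (fun w => by simp) (fun w => C (p w y) * X w)]
  ring

private theorem rename_sig_X_ne {v w : V} (hw : w ≠ v) (y : U) :
    rename (Subtype.val : {w : V // w ≠ v} → V) (sig p v y (X w)) = X w := by
  simp [sig, hw]

private theorem key_sub {Δ : Finset V → Prop} {D : MvPolynomial V ℝ →ₗ[ℝ] ℝ}
    (hD : IsFun (n + 1) Δ o p D) (v : V) {y : U} (hoy : o y = 0) (hy : p v y = 1)
    {b : MvPolynomial V ℝ} (hb : b.IsHomogeneous n) :
    D (X v * b) = linkD D v (sig p v y b) := by
  classical
  have h := lfun_ext (m := n) (D ∘ₗ LinearMap.mulLeft ℝ (X v) - linkD D v ∘ₗ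
    (sig p v y).toLinearMap) (fun s hs => ?_) hb
  · simp only [LinearMap.sub_apply, LinearMap.comp_apply, LinearMap.mulLeft_apply,
      AlgHom.toLinearMap_apply] at h
    linarith
  · simp only [LinearMap.sub_apply, LinearMap.comp_apply, LinearMap.mulLeft_apply,
      AlgHom.toLinearMap_apply, linkD]
    have hs1 : s = s.erase v + Finsupp.single v (s v) := (Finsupp.erase_add_single v s).symm
    have hM : (monomial s (1 : ℝ)) = monomial (s.erase v) 1 * X v ^ (s v) := by
      conv_lhs => rw [hs1]
      rw [monomial_add_single]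
    have hfix : rename (Subtype.val : {w : V // w ≠ v} → V)
        (sig p v y (monomial (s.erase v) 1)) = monomial (s.erase v) 1 := by
      rw [monomial_eq, C_1, one_mul, Finsupp.prod, map_prod, map_prod]
      refine Finset.prod_congr rfl fun w hw => ?_
      have hwv : w ≠ v := by
        rw [Finsupp.support_erase] at hw
        exact Finset.ne_of_mem_erase hw
      rw [map_pow, map_pow, rename_sig_X_ne hwv]
    rw [hM, map_mul (sig p v y), map_mul (rename (Subtype.val : {w : V // w ≠ v} → V)),
      map_pow (sig p v y), map_pow (rename (Subtype.val : {w : V // w ≠ v} → V)), hfix,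
      rename_sig_X v hy]
    rw [← map_sub, ← mul_sub, ← mul_sub]
    rcases Nat.eq_zero_or_pos (s v) with h0 | h0
    · simp [h0]
    · obtain ⟨r, hr⟩ : ∃ r, s v = r + 1 := ⟨s v - 1, by omega⟩
      have hX1 : (X v - theta p y : MvPolynomial V ℝ).IsHomogeneous 1 :=
        (isHomogeneous_X ℝ v).sub (lfun_theta_hom p y)
      obtain ⟨G, hG, hGe⟩ := lfun_pow (isHomogeneous_X ℝ v) hX1 r
      rw [hr, hGe, sub_sub_cancel]
      have hMh : (monomial (s.erase v) (1 : ℝ)).IsHomogeneous (s.erase v).degree := by
        exact isHomogeneous_monomial _ rfl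
      have hdeg : (s.erase v).degree + (r + 1) = n := by
        have := congrArg Finsupp.degree hs1
        rw [map_add, Finsupp.degree_single, hs, hr] at this
        omega
      have h3 : (X v : MvPolynomial V ℝ) * (monomial (s.erase v) 1 * (G * theta p y))
          = theta p y * (X v * (monomial (s.erase v) 1 * G)) := by ring
      rw [h3]
      refine hD.k2 y hoy (1 + ((s.erase v).degree + r)) _ (by omega) ?_
      exact (isHomogeneous_X ℝ v).mul (hMh.mul hG)

/-- transfer identity. -/
private theorem key_transfer {Δ : Finset V → Prop} {D : MvPolynomial V ℝ →ₗ[ℝ] ℝ}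
    (hD : IsFun (n + 1) Δ o p D) (v : V) {y : U} (hoy : o y = 0) (hy : p v y = 1)
    {x : U} (hx : o x = 1) {x' : LinearMap.ker (p v)} (hx' : o x' = 1) {r i : ℕ}
    (hr : r + i = n) {c : MvPolynomial V ℝ} (hc : c.IsHomogeneous i) :
    D (X v * (c * theta p x ^ r)) = linkD D v (sig p v y c * theta (linkP p v) x' ^ r) := by
  rw [← mul_assoc, isFun_congr_pow hD hx hx' (r := r) (j := 1 + i) (by omega)
    ((isHomogeneous_X ℝ v).mul hc), mul_assoc]
  have hh : (c * theta p (x' : U) ^ r).IsHomogeneous n := by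
    have := hc.mul ((lfun_theta_hom p (x' : U)).pow r)
    have h2 : i + 1 * r = n := by omega
    rwa [h2] at this
  rw [key_sub hD v hoy hy hh, map_mul (sig p v y), map_pow (sig p v y),
    ← lfun_rename_theta v x', sig_rename]

theorem hrs_of_link {Δ : Finset V → Prop} {D : MvPolynomial V ℝ →ₗ[ℝ] ℝ}
    (hD : IsFun (n + 1) Δ o p D) (v : V) {y : U} (hoy : o y = 0) (hy : p v y = 1)
    {x : U} (hx : o x = 1) {x' : LinearMap.ker (p v)} (hx' : o x' = 1) {k : ℕ}
    (hk : 2 * k ≤ n) (H : HRs (linkD D v) (theta (linkP p v) x') n k) :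
    HRs (D ∘ₗ LinearMap.mulLeft ℝ (X v)) (theta p x) n k := by
  intro a ha hprim
  have hs : (sig p v y a).IsHomogeneous k := sig_hom v y ha
  have hP : Prim (linkD D v) (theta (linkP p v) x') n k (sig p v y a) := by
    intro j b hj hb
    have h1 := hprim j (rename (Subtype.val : {w : V // w ≠ v} → V) b) hj
      hb.rename_isHomogeneous
    simp only [LinearMap.comp_apply, LinearMap.mulLeft_apply] at h1
    rw [key_transfer hD v hoy hy hx hx' (r := n - 2 * k + 1) (i := k + j) (by omega)
      (ha.mul hb.rename_isHomogeneous), map_mul (sig p v y), sig_rename] at h1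
    exact h1
  rcases H (sig p v y a) hs hP with h | h
  · left
    simp only [LinearMap.comp_apply, LinearMap.mulLeft_apply]
    rw [key_transfer hD v hoy hy hx hx' (r := n - 2 * k) (i := k * 2) (by omega)
      (ha.pow 2), map_pow (sig p v y)]
    exact h
  · right
    intro b hb
    have h1 := h (sig p v y b) (sig_hom v y hb)
    have h2 := key_sub hD v hoy hy (b := a * b) (by
      have := ha.mul hb
      have h3 : k + (n - k) = n := by omega
      rwa [h3] at this)
    rw [map_mul (sig p v y), h1] at h2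
    simpa using h2

theorem hrw_of_link {Δ : Finset V → Prop} {D : MvPolynomial V ℝ →ₗ[ℝ] ℝ}
    (hD : IsFun (n + 1) Δ o p D) (v : V) {y : U} (hoy : o y = 0) (hy : p v y = 1)
    {x : U} (hx : o x = 1) {x' : LinearMap.ker (p v)} (hx' : o x' = 1) {k : ℕ}
    (hk : 2 * k ≤ n) (H : HRw (linkD D v) (theta (linkP p v) x') n k) :
    HRw (D ∘ₗ LinearMap.mulLeft ℝ (X v)) (theta p x) n k := by
  intro a ha hprim
  have hs : (sig p v y a).IsHomogeneous k := sig_hom v y ha
  have hP : Prim (linkD D v) (theta (linkP p v) x') n k (sig p v y a) := by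
    intro j b hj hb
    have h1 := hprim j (rename (Subtype.val : {w : V // w ≠ v} → V) b) hj
      hb.rename_isHomogeneous
    simp only [LinearMap.comp_apply, LinearMap.mulLeft_apply] at h1
    rw [key_transfer hD v hoy hy hx hx' (r := n - 2 * k + 1) (i := k + j) (by omega)
      (ha.mul hb.rename_isHomogeneous), map_mul (sig p v y), sig_rename] at h1
    exact h1
  have h := H (sig p v y a) hs hP
  simp only [LinearMap.comp_apply, LinearMap.mulLeft_apply]
  rw [key_transfer hD v hoy hy hx hx' (r := n - 2 * k) (i := k * 2) (by omega)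
    (ha.pow 2), map_pow (sig p v y)]
  exact h

end LFUN

end MP46
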