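import Pool.Agent.Lib.MP_46e101_co.Defs
import Pool.Agent.Lib.MP_46e101_co.PRESC
import Pool.Agent.Lib.MP_46e101_co.FACES
import Pool.Agent.Lib.MP_46e101_co.LFUN
import Pool.Agent.Lib.MP_46e101_co.LGEO
import Pool.Agent.Lib.MP_46e101_co.POS

open MvPolynomial

universe u w

set_option linter.unusedSectionVars false

noncomputable section

namespace MP46

section NDaux
variable {V : Type u} [Fintype V] [DecidableEq V] {U : Type w} [AddCommGroup U] [Module ℝ U]
  {o : Module.Dual ℝ U} {p : V → Module.Dual ℝ U} {n : ℕ}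

private theorem nd_theta_hom (p : V → Module.Dual ℝ U) (x : U) :
    (theta p x).IsHomogeneous 1 := by
  unfold theta
  refine IsHomogeneous.sum _ _ _ fun v _ => ?_
  simpa using (isHomogeneous_C V (p v x)).mul (isHomogeneous_X ℝ v)

private theorem nd_theta_pow_hom (p : V → Module.Dual ℝ U) (x : U) (r : ℕ) :
    (theta p x ^ r).IsHomogeneous r := by
  simpa using (nd_theta_hom p x).pow r

/-- to kill a homogeneous polynomial it is enough to kill monomials. -/
private theorem nd_of_mon (E : MvPolynomial V ℝ →ₗ[ℝ] ℝ) {j : ℕ}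
    (h : ∀ s : V →₀ ℕ, s.degree = j → E (monomial s 1) = 0) {b : MvPolynomial V ℝ}
    (hb : b.IsHomogeneous j) : E b = 0 := by
  rw [b.as_sum, map_sum]
  refine Finset.sum_eq_zero fun s hs => ?_
  have hs' : s.degree = j := by
    by_contra hne
    exact (mem_support_iff.1 hs) (hb.coeff_eq_zero hne)
  have h2 : (monomial s (coeff s b) : MvPolynomial V ℝ) = coeff s b • monomial s 1 := by
    rw [smul_monomial, smul_eq_mul, mul_one]
  rw [h2, map_smul, h s hs', smul_zero]

private theorem nd_mon_split {s : V →₀ ℕ} {v : V} (hv : s v ≠ 0) :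
    (monomial s 1 : MvPolynomial V ℝ) = X v * monomial (s - Finsupp.single v 1) 1 ∧
      (s - Finsupp.single v 1).degree + 1 = s.degree := by
  have h1 : Finsupp.single v 1 ≤ s := by
    rw [Finsupp.single_le_iff]
    omega
  have h2 : Finsupp.single v 1 + (s - Finsupp.single v 1) = s := add_tsub_cancel_of_le h1
  constructor
  · rw [X, monomial_mul, h2, one_mul]
  · have := congrArg Finsupp.degree h2
    rw [map_add, Finsupp.degree_single] at this
    omega

/-- the functional `D (X v · )` -/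
private abbrev nd_lv (D : MvPolynomial V ℝ →ₗ[ℝ] ℝ) (v : V) : MvPolynomial V ℝ →ₗ[ℝ] ℝ :=
  D ∘ₗ LinearMap.mulLeft ℝ (X v)

private theorem nd_lv_apply (D : MvPolynomial V ℝ →ₗ[ℝ] ℝ) (v : V) (b : MvPolynomial V ℝ) :
    nd_lv D v b = D (X v * b) := rfl

private theorem nd_prim {D : MvPolynomial V ℝ →ₗ[ℝ] ℝ} {l a : MvPolynomial V ℝ} {k : ℕ}
    (hk : 2 * k ≤ n)
    (H : ∀ b : MvPolynomial V ℝ, b.IsHomogeneous k → D (a * b * l ^ (n + 1 - 2 * k)) = 0)
    (v : V) : Prim (nd_lv D v) l n k a := by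
  intro j b hj hb
  rw [nd_lv_apply]
  have h1 : (X v * b : MvPolynomial V ℝ).IsHomogeneous k := by
    have := (isHomogeneous_X ℝ v).mul hb
    rwa [Nat.add_comm, hj] at this
  have h2 := H _ h1
  have h3 : n + 1 - 2 * k = n - 2 * k + 1 := by omega
  rw [h3] at h2
  rw [← h2]
  congr 1
  ring

/-- the quantity attached to the link of `v`. -/
private abbrev nd_q (D : MvPolynomial V ℝ →ₗ[ℝ] ℝ) (l a : MvPolynomial V ℝ) (n k : ℕ) (v : V) :
    ℝ := (-1 : ℝ) ^ k * D (X v * (a ^ 2 * l ^ (n - 2 * k)))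

private theorem nd_q_of_ann {D : MvPolynomial V ℝ →ₗ[ℝ] ℝ} {l a : MvPolynomial V ℝ} {k : ℕ}
    (hk : 2 * k ≤ n) (hl : l.IsHomogeneous 1) (ha : a.IsHomogeneous k) {v : V}
    (h : Ann (nd_lv D v) (n - k) a) : nd_q D l a n k v = 0 := by
  have h1 : (a * l ^ (n - 2 * k)).IsHomogeneous (n - k) := by
    have := ha.mul (hl.pow (n - 2 * k))
    have e : k + 1 * (n - 2 * k) = n - k := by omega
    rwa [e] at this
  have h2 := h _ h1
  rw [nd_lv_apply] at h2
  unfold nd_q
  have e : X v * (a ^ 2 * l ^ (n - 2 * k)) = X v * (a * (a * l ^ (n - 2 * k))) := by ring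
  rw [e, h2, mul_zero]

private theorem nd_of_hrs {D : MvPolynomial V ℝ →ₗ[ℝ] ℝ} {l a : MvPolynomial V ℝ} {k : ℕ}
    (hk : 2 * k ≤ n) (hl : l.IsHomogeneous 1) (ha : a.IsHomogeneous k) {v : V}
    (hp : Prim (nd_lv D v) l n k a) (h : HRs (nd_lv D v) l n k) :
    0 ≤ nd_q D l a n k v ∧ (nd_q D l a n k v = 0 → Ann (nd_lv D v) (n - k) a) := by
  rcases h a ha hp with h | h
  · rw [nd_lv_apply] at h
    exact ⟨h.le, fun h0 => absurd h0 h.ne'⟩
  · exact ⟨(nd_q_of_ann hk hl ha h).ge, fun _ => h⟩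

private theorem nd_of_ghost {D : MvPolynomial V ℝ →ₗ[ℝ] ℝ} {l a : MvPolynomial V ℝ} {k : ℕ}
    (hk : 2 * k ≤ n) (hl : l.IsHomogeneous 1) (ha : a.IsHomogeneous k)
    {Δ : Finset V → Prop} (hD : IsFun (n + 1) Δ o p D) {v : V}
    (hΔ : ∀ G : Finset V, v ∈ G → ¬ Δ G) :
    0 ≤ nd_q D l a n k v ∧ (nd_q D l a n k v = 0 → Ann (nd_lv D v) (n - k) a) := by
  have h : Ann (nd_lv D v) (n - k) a := by
    intro b hb
    rw [nd_lv_apply]
    refine ghost hD v hΔ (j := n) rfl ?_
    have := ha.mul hb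
    have e : k + (n - k) = n := by omega
    rwa [e] at this
  exact ⟨(nd_q_of_ann hk hl ha h).ge, fun _ => h⟩

/-- summing up over the interior point. -/
private theorem nd_sum {D : MvPolynomial V ℝ →ₗ[ℝ] ℝ} {a : MvPolynomial V ℝ} {k : ℕ}
    (hk : 2 * k ≤ n) {x : U} (hx : ∀ v, 0 < p v x) (ha : a.IsHomogeneous k)
    (H : ∀ b : MvPolynomial V ℝ, b.IsHomogeneous k →
      D (a * b * theta p x ^ (n + 1 - 2 * k)) = 0)
    (hq : ∀ v, 0 ≤ nd_q D (theta p x) a n k v) (v : V) : nd_q D (theta p x) a n k v = 0 := by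
  have h0 : ∑ v, p v x * nd_q D (theta p x) a n k v = 0 := by
    have h1 := H a ha
    have h3 : n + 1 - 2 * k = (n - 2 * k) + 1 := by omega
    have h2 : a * a * theta p x ^ (n + 1 - 2 * k) =
        ∑ v, p v x • (X v * (a ^ 2 * theta p x ^ (n - 2 * k))) := by
      rw [h3, pow_succ]
      nth_rewrite 2 [theta]
      rw [← mul_assoc, Finset.mul_sum]
      refine Finset.sum_congr rfl fun v _ => ?_
      rw [MvPolynomial.smul_eq_C_mul]
      ring
    rw [h2, map_sum] at h1
    have h4 : ∑ v, p v x * nd_q D (theta p x) a n k v =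
        (-1 : ℝ) ^ k * ∑ v, D (p v x • (X v * (a ^ 2 * theta p x ^ (n - 2 * k)))) := by
      rw [Finset.mul_sum]
      refine Finset.sum_congr rfl fun v _ => ?_
      rw [map_smul, smul_eq_mul]
      unfold nd_q
      ring
    rw [h4, h1, mul_zero]
  have h5 := (Finset.sum_eq_zero_iff_of_nonneg
    (fun v _ => mul_nonneg (hx v).le (hq v))).1 h0 v (Finset.mem_univ v)
  exact (mul_eq_zero.1 h5).resolve_left (hx v).ne'

private theorem nd_change {Δ : Finset V → Prop} {D : MvPolynomial V ℝ →ₗ[ℝ] ℝ}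
    (hD : IsFun (n + 1) Δ o p D) {x x' : U} (hx : o x = 1) (hx' : o x' = 1) {k : ℕ}
    (hk : 2 * k ≤ n) {a : MvPolynomial V ℝ} (ha : a.IsHomogeneous k)
    (H : ∀ b : MvPolynomial V ℝ, b.IsHomogeneous k →
      D (a * b * theta p x ^ (n + 1 - 2 * k)) = 0) :
    ∀ b : MvPolynomial V ℝ, b.IsHomogeneous k →
      D (a * b * theta p x' ^ (n + 1 - 2 * k)) = 0 := by
  intro b hb
  have h1 : (a * b).IsHomogeneous (k + k) := ha.mul hb
  rw [← isFun_congr_pow hD hx hx' (r := n + 1 - 2 * k) (j := k + k) (by omega) h1]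
  exact H b hb

private theorem nd_isFun_congr {m : ℕ} {Δ Δ' : Finset V → Prop} {D : MvPolynomial V ℝ →ₗ[ℝ] ℝ}
    (h : ∀ G, Δ' G ↔ Δ G) (hD : IsFun m Δ o p D) : IsFun m Δ' o p D :=
  ⟨fun s hs hn => hD.k1 s hs (fun h' => hn ((h _).2 h')), hD.k2,
    fun F hF hc => hD.k3 F ((h _).1 hF) hc⟩

/-- the link of an ordinary vertex. -/
private theorem nd_link_hrs (IH : OrdHR.{u, w} n) {Δ : Finset V → Prop}
    {D : MvPolynomial V ℝ →ₗ[ℝ] ℝ} (hD : IsFun (n + 1) Δ o p D) {v : V}
    (hl : Ord n (linkO o p v) (linkP p v) ∧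
      ∀ G, Face (linkO o p v) (linkP p v) G ↔ linkF Δ v G)
    (hpt : (∃ y : U, o y = 0 ∧ p v y = 1) ∧ ∃ x' : LinearMap.ker (p v), o x' = 1)
    {x : U} (hx : o x = 1) {k : ℕ} (hk : 2 * k ≤ n) : HRs (nd_lv D v) (theta p x) n k := by
  obtain ⟨⟨y, hy0, hy1⟩, x', hx'⟩ := hpt
  have h1 : IsFun n (Face (linkO o p v) (linkP p v)) (linkO o p v) (linkP p v) (linkD D v) :=
    nd_isFun_congr hl.2 (isFun_link hD v)
  exact hrs_of_link hD v hy0 hy1 hx hx' hk
    (IH {w : V // w ≠ v} (LinearMap.ker (p v)) (linkO o p v) (linkP p v) (linkD D v) hl.1 h1 x'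
      hx' k hk)

end NDaux

section NDM
variable {V : Type u} [Fintype V] [DecidableEq V] {U : Type w} [AddCommGroup U] [Module ℝ U]
  {o : Module.Dual ℝ U} {p : V → Module.Dual ℝ U} {n : ℕ}

theorem nd_ord (IH : OrdHR.{u, w} n) (h : Ord (n + 1) o p) {D : MvPolynomial V ℝ →ₗ[ℝ] ℝ}
    (hD : IsFun (n + 1) (Face o p) o p D) {x : U} (hx : o x = 1) {k : ℕ}
    (hk : 2 * k < n + 1) : ND D (theta p x) (n + 1) k := by
  intro a ha H
  have hk' : 2 * k ≤ n := by omega
  obtain ⟨x0, hx0, hpos⟩ := h.interior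
  have H0 := nd_change hD hx hx0 hk' ha H
  have key : ∀ v, 0 ≤ nd_q D (theta p x0) a n k v ∧
      (nd_q D (theta p x0) a n k v = 0 → Ann (nd_lv D v) (n - k) a) := by
    intro v
    by_cases hv : Face o p {v}
    · exact nd_of_hrs hk' (nd_theta_hom p x0) ha (nd_prim hk' H0 v)
        (nd_link_hrs IH hD (h.link hv) (h.link_points hv) hx0 hk')
    · refine nd_of_ghost hk' (nd_theta_hom p x0) ha hD (v := v) fun G hG hF => hv ?_
      exact hF.mono (Finset.singleton_subset_iff.2 hG)
  have hann : ∀ v, Ann (nd_lv D v) (n - k) a := fun v =>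
    (key v).2 (nd_sum hk' hpos ha H0 (fun v => (key v).1) v)
  intro b hb
  refine nd_of_mon (D ∘ₗ LinearMap.mulLeft ℝ a) (fun s hs => ?_) hb
  have hne : s ≠ 0 := by
    rintro rfl
    rw [map_zero] at hs
    omega
  obtain ⟨v, hv⟩ := Finsupp.ne_iff.1 hne
  obtain ⟨h1, h2⟩ := nd_mon_split (s := s) (v := v) (by simpa using hv)
  have h3 : (monomial (s - Finsupp.single v 1) 1 : MvPolynomial V ℝ).IsHomogeneous (n - k) :=
    isHomogeneous_monomial _ (by omega)
  have h4 := hann v _ h3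
  rw [nd_lv_apply] at h4
  rw [LinearMap.comp_apply, LinearMap.mulLeft_apply, h1, ← h4]
  congr 1
  ring

theorem nd_spec (IH : OrdHR.{u, w} n) (IH' : SpecHR.{u, w} n) {A B : Finset V} {xs : U}
    (h : Spec (n + 1) o p A B xs) {D : MvPolynomial V ℝ →ₗ[ℝ] ℝ}
    (hD : IsFun (n + 1) (SFace o p A) o p D) {x : U} (hx : o x = 1) {k : ℕ}
    (hk : 2 * k < n + 1) (hkB : k < B.card) : ND D (theta p x) (n + 1) k := by
  intro a ha H
  have hk' : 2 * k ≤ n := by omega
  rcases Nat.eq_zero_or_pos k with rfl | hk0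
  · -- degree zero
    have hpos := pos_spec h hD hx
    have ha' : a = C (coeff 0 a) :=
      totalDegree_eq_zero_iff_eq_C.1 ((totalDegree_zero_iff_isHomogeneous V).2 ha)
    have h1 := H 1 (isHomogeneous_one V ℝ)
    rw [mul_one, ha', ← MvPolynomial.smul_eq_C_mul, map_smul, smul_eq_mul, mul_zero,
      Nat.sub_zero] at h1
    have h2 : coeff 0 a = 0 := (mul_eq_zero.1 h1).resolve_right hpos.ne'
    rw [h2, C_0] at ha'
    intro b _
    rw [ha', zero_mul, map_zero]
  have hB2 : 2 ≤ B.card := by omega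
  obtain ⟨x0, hx0, hpos⟩ := h.interior
  have H0 := nd_change hD hx hx0 hk' ha H
  have hface : ∀ v ∈ A ∪ B, Face o p {v} := by
    intro v hv
    refine ⟨xs, h.mem, ?_⟩
    rw [h.act_eq]
    exact Finset.singleton_subset_iff.2 hv
  have hl := nd_theta_hom p x0
  -- labels outside `B`
  have key : ∀ v, v ∉ B → 0 ≤ nd_q D (theta p x0) a n k v ∧
      (nd_q D (theta p x0) a n k v = 0 → Ann (nd_lv D v) (n - k) a) := by
    intro v hvB
    by_cases hvA : v ∈ A
    · by_cases hA2 : 2 ≤ A.card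
      · obtain ⟨xs', hS, hSF⟩ := h.link_A hvA hA2
        obtain ⟨⟨y, hy0, hy1⟩, x', hx'⟩ :=
          h.link_points (hface v (Finset.mem_union_left _ hvA))
        have h1 : IsFun n (SFace (linkO o p v) (linkP p v) (A.subtype fun w => w ≠ v))
            (linkO o p v) (linkP p v) (linkD D v) := nd_isFun_congr hSF (isFun_link hD v)
        have hc : (B.subtype fun w => w ≠ v).card = B.card := by
          rw [Finset.card_subtype, Finset.filter_true_of_mem]
          intro w hw he
          exact hvB (he ▸ hw)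
        have h2 := (IH' {w : V // w ≠ v} (LinearMap.ker (p v)) (linkO o p v) (linkP p v)
          (linkD D v) _ _ xs' hS h1 x' hx' k hk').1 (by rw [hc]; exact hkB)
        exact nd_of_hrs hk' hl ha (nd_prim hk' H0 v) (hrs_of_link hD v hy0 hy1 hx0 hx' hk' h2)
      · refine nd_of_ghost hk' hl ha hD (v := v) fun G hG hF => hF.2 ?_
        intro w hw
        have : A.card ≤ 1 := by omega
        rw [Finset.card_le_one.1 this w hw v hvA]
        exact hG
    · by_cases hv : Face o p {v}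
      · exact nd_of_hrs hk' hl ha (nd_prim hk' H0 v)
          (nd_link_hrs IH hD (h.link_out hv hvA hvB) (h.link_points hv) hx0 hk')
      · refine nd_of_ghost hk' hl ha hD (v := v) fun G hG hF => hv ?_
        exact hF.1.mono (Finset.singleton_subset_iff.2 hG)
  have key2 : ∀ v, 0 ≤ nd_q D (theta p x0) a n k v := by
    intro v
    by_cases hvB : v ∈ B
    · obtain ⟨xs', hS, hSF⟩ := h.link_B hvB hB2
      obtain ⟨⟨y, hy0, hy1⟩, x', hx'⟩ :=
        h.link_points (hface v (Finset.mem_union_right _ hvB))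
      have h1 : IsFun n (SFace (linkO o p v) (linkP p v) (A.subtype fun w => w ≠ v))
          (linkO o p v) (linkP p v) (linkD D v) := nd_isFun_congr hSF (isFun_link hD v)
      have hc : (B.subtype fun w => w ≠ v).card + 1 = B.card := by
        rw [Finset.card_subtype]
        have : B.filter (fun w => w ≠ v) = B.erase v := by
          ext w
          simp [and_comm]
        rw [this, Finset.card_erase_add_one hvB]
      have h2 := IH' {w : V // w ≠ v} (LinearMap.ker (p v)) (linkO o p v) (linkP p v)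
          (linkD D v) _ _ xs' hS h1 x' hx' k hk'
      rcases Nat.lt_or_ge k (B.subtype fun w => w ≠ v).card with hlt | hge
      · exact (nd_of_hrs hk' hl ha (nd_prim hk' H0 v)
          (hrs_of_link hD v hy0 hy1 hx0 hx' hk' (h2.1 hlt))).1
      · have h3 := hrw_of_link hD v hy0 hy1 hx0 hx' hk' (h2.2 (by omega))
        exact h3 a ha (nd_prim hk' H0 v)
    · exact (key v hvB).1
  have hann : ∀ v, v ∉ B → Ann (nd_lv D v) (n - k) a := fun v hv =>
    (key v hv).2 (nd_sum hk' hpos ha H0 key2 v)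
  have hannv : ∀ v, v ∉ B → ∀ s : V →₀ ℕ, s.degree = n - k →
      D (a * (X v * monomial s 1)) = 0 := by
    intro v hv s hs
    have h4 := hann v hv _ (isHomogeneous_monomial (1 : ℝ) hs)
    rw [nd_lv_apply] at h4
    rw [← h4]
    congr 1
    ring
  intro b hb
  refine nd_of_mon (D ∘ₗ LinearMap.mulLeft ℝ a) (fun s hs => ?_) hb
  rw [LinearMap.comp_apply, LinearMap.mulLeft_apply]
  have hne : s ≠ 0 := by
    rintro rfl
    rw [map_zero] at hs
    omega
  by_cases hsB : s.support ⊆ B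
  · obtain ⟨g, hg⟩ := Finsupp.ne_iff.1 hne
    have hg0 : s g ≠ 0 := by simpa using hg
    have hgB : g ∈ B := hsB (Finsupp.mem_support_iff.2 hg0)
    obtain ⟨a0, ha0⟩ := h.neA
    have hIB : Ind p B := by
      refine (h.circuit a0 (Finset.mem_union_left _ ha0)).mono ?_
      intro w hw
      refine Finset.mem_erase.2 ⟨?_, Finset.mem_union_right _ hw⟩
      rintro rfl
      exact Finset.disjoint_left.1 h.disj ha0 hw
    have hact : ∀ v ∈ B, p v xs = 0 := by
      intro v hv
      have : v ∈ act p xs := by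
        rw [h.act_eq]
        exact Finset.mem_union_right _ hv
      simpa [act] using this
    obtain ⟨y, hy0, hy⟩ := prescribe h.mem.1 hact hIB 0 (fun v => if v = g then 1 else 0)
    obtain ⟨h1, h2⟩ := nd_mon_split (s := s) (v := g) hg0
    set s' := s - Finsupp.single g 1 with hs'
    have h3 : s'.degree = n - k := by omega
    have h4 : D (theta p y * (a * monomial s' 1)) = 0 := by
      refine hD.k2 y hy0 n _ rfl ?_
      have := ha.mul (isHomogeneous_monomial (1 : ℝ) h3)
      have e : k + (n - k) = n := by omega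
      rwa [e] at this
    have h5 : theta p y * (a * monomial s' 1) =
        ∑ v, p v y • (a * (X v * monomial s' 1)) := by
      unfold theta
      rw [Finset.sum_mul]
      refine Finset.sum_congr rfl fun v _ => ?_
      rw [MvPolynomial.smul_eq_C_mul]
      ring
    rw [h5, map_sum, Finset.sum_eq_single g] at h4
    · rw [map_smul, hy g hgB, if_pos rfl, smul_eq_mul, one_mul] at h4
      rw [h1]
      exact h4
    · intro v _ hvg
      rw [map_smul]
      by_cases hvB : v ∈ B
      · rw [hy v hvB, if_neg hvg, zero_smul]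
      · rw [hannv v hvB s' h3, smul_zero]
    · intro hg'
      exact absurd (Finset.mem_univ g) hg'
  · obtain ⟨v, hv, hvB⟩ := Finset.not_subset.1 hsB
    obtain ⟨h1, h2⟩ := nd_mon_split (s := s) (v := v) (Finsupp.mem_support_iff.1 hv)
    rw [h1]
    exact hannv v hvB _ (by omega)

end NDM

end MP46
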