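import Pool.Agent.Lib.MP_46e101_co.Defs

/-! ### Module VERT -/

open MvPolynomial

universe u w

noncomputable section

namespace MP46

section VERT
variable {V : Type u} [Fintype V] [DecidableEq V] {U : Type w} [AddCommGroup U] [Module ℝ U]
  {o : Module.Dual ℝ U} {p : V → Module.Dual ℝ U}

private theorem mem_act {x : U} {v : V} : v ∈ act p x ↔ p v x = 0 := by
  unfold act
  rw [Finset.mem_filter]
  exact and_iff_right (Finset.mem_univ v)

theorem first_hit (hB : Bdd o p) {x y : U} (hx : x ∈ PP o p) (hy : y ≠ 0) (hoy : o y = 0) :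
    ∃ t : ℝ, 0 ≤ t ∧ x + t • y ∈ PP o p ∧ ∃ v, p v y < 0 ∧ p v (x + t • y) = 0 := by
  obtain ⟨v0, hv0⟩ := hB y hy hoy
  obtain ⟨v, hv, hmin⟩ := Finset.exists_min_image (Finset.univ.filter fun v => p v y < 0)
    (fun v => p v x / (-p v y)) ⟨v0, Finset.mem_filter.2 ⟨Finset.mem_univ _, hv0⟩⟩
  have hvy : p v y < 0 := (Finset.mem_filter.1 hv).2
  have ht0 : 0 ≤ p v x / (-p v y) := div_nonneg (hx.2 v) (by linarith)
  refine ⟨p v x / (-p v y), ht0, ⟨?_, fun u => ?_⟩, v, hvy, ?_⟩
  · rw [map_add, map_smul, hoy, smul_zero, add_zero]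
    exact hx.1
  · rw [map_add, map_smul, smul_eq_mul]
    by_cases hu : p u y < 0
    · have h1 := hmin u (Finset.mem_filter.2 ⟨Finset.mem_univ _, hu⟩)
      have h2 : p v x / (-p v y) * (-p u y) ≤ p u x := by
        rw [le_div_iff₀ (by linarith)] at h1
        exact h1
      linarith
    · have h1 : 0 ≤ p u y := not_lt.1 hu
      have h2 := mul_nonneg ht0 h1
      have h3 := hx.2 u
      linarith
  · rw [map_add, map_smul, smul_eq_mul]
    have h1 : -p v y ≠ 0 := by linarith
    have h2 : p v x / (-p v y) * (-p v y) = p v x := div_mul_cancel₀ _ h1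
    linarith

private theorem exists_vertex_aux (hB : Bdd o p) (f : Module.Dual ℝ U) (k : ℕ) : ∀ x0 : U,
    x0 ∈ PP o p → Fintype.card V - (act p x0).card ≤ k →
    ∃ x ∈ PP o p, act p x0 ⊆ act p x ∧ f x0 ≤ f x ∧
      ∀ y : U, o y = 0 → (∀ v ∈ act p x, p v y = 0) → y = 0 := by
  induction k with
  | zero =>
    intro x0 hx0 hk
    by_cases hcon : ∀ y : U, o y = 0 → (∀ v ∈ act p x0, p v y = 0) → y = 0
    · exact ⟨x0, hx0, subset_rfl, le_rfl, hcon⟩
    · exfalso
      push Not at hcon
      obtain ⟨y, hoy, hy, hy0⟩ := hcon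
      obtain ⟨v, hv⟩ := hB y hy0 hoy
      have h1 : v ∉ act p x0 := fun h => by have := hy v h; linarith
      have h2 : (act p x0).card < Fintype.card V := by
        rw [← Finset.card_univ]
        exact Finset.card_lt_card ⟨Finset.subset_univ _, fun h => h1 (h (Finset.mem_univ v))⟩
      omega
  | succ k ih =>
    intro x0 hx0 hk
    by_cases hcon : ∀ y : U, o y = 0 → (∀ v ∈ act p x0, p v y = 0) → y = 0
    · exact ⟨x0, hx0, subset_rfl, le_rfl, hcon⟩
    · push Not at hcon
      obtain ⟨y, hoy, hy, hy0⟩ := hcon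
      have key : ∃ z : U, z ≠ 0 ∧ o z = 0 ∧ (∀ v ∈ act p x0, p v z = 0) ∧ 0 ≤ f z := by
        rcases le_total 0 (f y) with h | h
        · exact ⟨y, hy0, hoy, hy, h⟩
        · refine ⟨-y, neg_ne_zero.2 hy0, by rw [map_neg, hoy, neg_zero], fun v hv => ?_, ?_⟩
          · rw [map_neg, hy v hv, neg_zero]
          · rw [map_neg]; linarith
      obtain ⟨z, hz0, hoz, hz, hfz⟩ := key
      obtain ⟨t, ht0, hmem, v, hvz, hv⟩ := first_hit hB hx0 hz0 hoz
      have hsub : act p x0 ⊆ act p (x0 + t • z) := by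
        intro u hu
        rw [mem_act] at hu ⊢
        rw [map_add, map_smul, hu, hz u (mem_act.2 hu), smul_zero, add_zero]
      have hvn : v ∉ act p x0 := fun h => by have := hz v h; linarith
      have hvm : v ∈ act p (x0 + t • z) := mem_act.2 hv
      have hlt : (act p x0).card < (act p (x0 + t • z)).card :=
        Finset.card_lt_card ⟨hsub, fun h => hvn (h hvm)⟩
      obtain ⟨x, hx, h1, h2, h3⟩ := ih (x0 + t • z) hmem (by omega)
      refine ⟨x, hx, hsub.trans h1, ?_, h3⟩
      refine le_trans ?_ h2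
      rw [map_add, map_smul, smul_eq_mul]
      have := mul_nonneg ht0 hfz
      linarith

theorem exists_vertex (hB : Bdd o p) {x0 : U} (hx0 : x0 ∈ PP o p) (f : Module.Dual ℝ U) :
    ∃ x ∈ PP o p, act p x0 ⊆ act p x ∧ f x0 ≤ f x ∧
      ∀ y : U, o y = 0 → (∀ v ∈ act p x, p v y = 0) → y = 0 :=
  exists_vertex_aux hB f _ x0 hx0 le_rfl

/-- small moves: if `p v y ≥ 0` on the active set then `x + s y` stays in the polyhedron, and the
active set of `x + s y` is `{v ∈ act x | p v y = 0}`. -/
theorem small_move {x y : U} (hx : x ∈ PP o p) (hoy : o y = 0)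
    (hy : ∀ v ∈ act p x, 0 ≤ p v y) :
    ∃ ε > 0, ∀ s : ℝ, 0 < s → s ≤ ε → x + s • y ∈ PP o p ∧
      act p (x + s • y) = (act p x).filter (fun v => p v y = 0) := by
  have hev : ∀ᶠ s : ℝ in nhds 0, ∀ v : V, v ∉ act p x → 0 < p v x + s * p v y := by
    rw [Filter.eventually_all]
    intro v
    by_cases hv : v ∈ act p x
    · exact Filter.Eventually.of_forall fun s h => absurd hv h
    · have hpos : 0 < p v x := lt_of_le_of_ne (hx.2 v) fun h => hv (mem_act.2 h.symm)
      have hcont : Continuous fun s : ℝ => p v x + s * p v y := by fun_prop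
      have h0 : 0 < p v x + (0 : ℝ) * p v y := by rw [zero_mul, add_zero]; exact hpos
      have := hcont.continuousAt.eventually (lt_mem_nhds h0)
      exact this.mono fun s hs _ => hs
  obtain ⟨δ, hδ, hδ'⟩ := Metric.eventually_nhds_iff.1 hev
  refine ⟨δ / 2, by positivity, fun s hs hsδ => ?_⟩
  have hs' := hδ' (y := s) (by
    rw [Real.dist_eq, sub_zero, abs_of_pos hs]; linarith)
  have hval : ∀ v, p v (x + s • y) = p v x + s * p v y := fun v => by
    rw [map_add, map_smul, smul_eq_mul]
  refine ⟨⟨?_, fun v => ?_⟩, ?_⟩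
  · rw [map_add, map_smul, hoy, smul_zero, add_zero]
    exact hx.1
  · rw [hval]
    by_cases hv : v ∈ act p x
    · rw [mem_act.1 hv, zero_add]
      exact mul_nonneg hs.le (hy v hv)
    · exact (hs' v hv).le
  · ext v
    rw [mem_act, Finset.mem_filter, hval]
    constructor
    · intro h
      by_cases hv : v ∈ act p x
      · refine ⟨hv, ?_⟩
        rw [mem_act.1 hv, zero_add] at h
        rcases mul_eq_zero.1 h with h | h
        · exact absurd h hs.ne'
        · exact h
      · exact absurd h (hs' v hv).ne'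
    · rintro ⟨hv, h⟩
      rw [mem_act.1 hv, h, mul_zero, add_zero]

end VERT

end MP46
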