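import Pool.Agent.Lib.MP_46e101_co.Defs
import Pool.Agent.Lib.MP_46e101_co.VERT
import Pool.Agent.Lib.MP_46e101_co.PRESC
import Pool.Agent.Lib.MP_46e101_co.FACES

open MvPolynomial

universe u w

noncomputable section

namespace MP46

section PERT
variable {V : Type u} [Fintype V] [DecidableEq V] {U : Type w} [AddCommGroup U] [Module ℝ U]
  {o : Module.Dual ℝ U} {p : V → Module.Dual ℝ U} {n : ℕ}

omit [Fintype V] in
private theorem pert_apply (A : Finset V) (s : ℝ) (v : V) (x : U) :
    pertP o p A s v x = p v x + s * (if v ∈ A then 1 else 0) * o x := by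
  unfold pertP
  split_ifs with hv
  · simp
  · simp

omit [Fintype V] in
private theorem pert_apply_zero (A : Finset V) (s : ℝ) (v : V) {x : U} (hx : o x = 0) :
    pertP o p A s v x = p v x := by
  rw [pert_apply, hx, mul_zero, add_zero]

omit [Fintype V] in
private theorem pert_bdd (hB : Bdd o p) (A : Finset V) (s : ℝ) : Bdd o (pertP o p A s) := by
  intro x hx hox
  obtain ⟨v, hv⟩ := hB x hx hox
  exact ⟨v, by rwa [pert_apply_zero A s v hox]⟩

private theorem small_pos {a : ℝ} (r : ℝ) (ha : 0 < a) :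
    ∀ᶠ s in nhdsWithin (0 : ℝ) (Set.Ioi 0), 0 < a + s * r := by
  have h1 : Filter.Tendsto (fun s : ℝ => a + s * r) (nhds 0) (nhds (a + 0 * r)) :=
    (continuous_const.add (continuous_id.mul continuous_const)).tendsto 0
  rw [zero_mul, add_zero] at h1
  exact (h1.eventually (lt_mem_nhds ha)).filter_mono nhdsWithin_le_nhds

omit [DecidableEq V] in
private theorem mem_act {q : V → Module.Dual ℝ U} {x : U} {v : V} :
    v ∈ act q x ↔ q v x = 0 := by
  simp [act]

/-- forward moves -/
private theorem pert_forward {A G : Finset V} {x y : U} (hox : o x = 1) (hoy : o y = 0)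
    (hxy : ∀ v, 0 < p v x ∨ (p v x = 0 ∧ 0 ≤ p v y + (if v ∈ A then 1 else 0)))
    (hG : ∀ v ∈ G, p v x = 0 ∧ p v y + (if v ∈ A then 1 else 0) = 0) :
    ∀ᶠ s in nhdsWithin (0 : ℝ) (Set.Ioi 0), Face o (pertP o p A s) G := by
  have hval : ∀ (s : ℝ) (v : V), pertP o p A s v (x + s • y) =
      p v x + s * (p v y + (if v ∈ A then 1 else 0)) := by
    intro s v
    rw [pert_apply, map_add, map_add, map_smul, map_smul, hox, hoy, smul_eq_mul, smul_eq_mul]
    ring
  have h1 : ∀ᶠ s in nhdsWithin (0 : ℝ) (Set.Ioi 0), ∀ v : V,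
      0 ≤ p v x + s * (p v y + (if v ∈ A then 1 else 0)) := by
    rw [Filter.eventually_all]
    intro v
    rcases hxy v with hv | ⟨hv1, hv2⟩
    · exact (small_pos _ hv).mono fun s hs => hs.le
    · refine Filter.mem_of_superset self_mem_nhdsWithin fun s hs => ?_
      have hs' : (0 : ℝ) < s := hs
      have := mul_nonneg hs'.le hv2
      rw [Set.mem_ofPred_eq, hv1, zero_add]
      exact this
  refine h1.mono fun s hs => ⟨x + s • y, ⟨?_, fun v => ?_⟩, fun v hv => ?_⟩
  · rw [map_add, map_smul, hox, hoy, smul_zero, add_zero]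
  · rw [hval]
    exact hs v
  · rw [mem_act, hval, (hG v hv).1, (hG v hv).2, mul_zero, add_zero]

private theorem pert_limit (hB : Bdd o p) {A G : Finset V}
    (hfr : ∃ᶠ s in nhdsWithin (0 : ℝ) (Set.Ioi 0), Face o (pertP o p A s) G) :
    ∃ x ∈ PP o p, G ⊆ act p x := by
  classical
  have h1 : ∃ᶠ s in nhdsWithin (0 : ℝ) (Set.Ioi 0), ∃ F : Finset V, (G ⊆ F ∧
      (∀ y : U, o y = 0 → (∀ v ∈ F, p v y = 0) → y = 0)) ∧
      ∃ x ∈ PP o (pertP o p A s), act (pertP o p A s) x = F := by
    refine hfr.mono fun s hs => ?_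
    obtain ⟨x0, hx0, hG⟩ := hs
    obtain ⟨x, hx, hact, -, hinj⟩ := exists_vertex (pert_bdd hB A s) hx0 0
    exact ⟨_, ⟨hG.trans hact, fun y hoy hy => hinj y hoy fun v hv => by
      rw [pert_apply_zero A s v hoy]; exact hy v hv⟩, x, hx, rfl⟩
  obtain ⟨F, hF⟩ : ∃ F : Finset V, ∃ᶠ s in nhdsWithin (0 : ℝ) (Set.Ioi 0), (G ⊆ F ∧
      (∀ y : U, o y = 0 → (∀ v ∈ F, p v y = 0) → y = 0)) ∧
      ∃ x ∈ PP o (pertP o p A s), act (pertP o p A s) x = F := by
    by_contra hcon
    push Not at hcon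
    have h2 := Filter.eventually_all.2 hcon
    obtain ⟨s, hs1, F, hs2, hs3⟩ := (h2.and_frequently h1).exists
    obtain ⟨x, hx, hxF⟩ := hs3
    exact hs1 F hs2 x hx hxF
  have hF' := hF.and_eventually (self_mem_nhdsWithin (a := (0 : ℝ)) (s := Set.Ioi 0))
  obtain ⟨s₁, ⟨⟨hGF, hinj⟩, x₁, hx₁, hax₁⟩, hs₁⟩ := hF'.exists
  have hs₁' : (0 : ℝ) < s₁ := hs₁
  have hlt : ∀ᶠ s in nhdsWithin (0 : ℝ) (Set.Ioi 0), s < s₁ :=
    (gt_mem_nhds hs₁').filter_mono nhdsWithin_le_nhds
  obtain ⟨s₂, ⟨⟨-, x₂, hx₂, hax₂⟩, hs₂⟩, hs₂lt⟩ := (hF'.and_eventually hlt).exists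
  have hact : ∀ {s : ℝ} {x : U}, x ∈ PP o (pertP o p A s) → act (pertP o p A s) x = F →
      ∀ v ∈ F, p v x = - (s * (if v ∈ A then 1 else 0)) := by
    intro s x hx hax v hv
    rw [← hax, mem_act, pert_apply, hx.1, mul_one] at hv
    linarith
  set y : U := (s₁ - s₂)⁻¹ • (x₁ - x₂) with hy
  have hne : s₁ - s₂ ≠ 0 := by
    have : s₂ < s₁ := hs₂lt
    exact ne_of_gt (by linarith)
  have hoy : o y = 0 := by
    rw [hy, map_smul, map_sub, hx₁.1, hx₂.1, sub_self, smul_zero]
  have hpy : ∀ v ∈ F, p v y = - (if v ∈ A then 1 else 0) := by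
    intro v hv
    rw [hy, map_smul, map_sub, hact hx₁ hax₁ v hv, hact hx₂ hax₂ v hv, smul_eq_mul]
    field_simp
    ring
  set x₀ : U := x₁ - s₁ • y with hx₀
  have hox₀ : o x₀ = 1 := by
    rw [hx₀, map_sub, map_smul, hoy, smul_zero, sub_zero, hx₁.1]
  have hpx₀ : ∀ v ∈ F, p v x₀ = 0 := by
    intro v hv
    rw [hx₀, map_sub, map_smul, hact hx₁ hax₁ v hv, hpy v hv, smul_eq_mul]
    ring
  have hform : ∀ {s : ℝ} {x : U}, x ∈ PP o (pertP o p A s) → act (pertP o p A s) x = F →
      x = x₀ + s • y := by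
    intro s x hx hax
    have := hinj (x - (x₀ + s • y)) (by
      rw [map_sub, map_add, map_smul, hoy, hox₀, hx.1, smul_zero, add_zero, sub_self]) (by
      intro v hv
      rw [map_sub, map_add, map_smul, hpx₀ v hv, hpy v hv, hact hx hax v hv, smul_eq_mul]
      ring)
    exact sub_eq_zero.1 this
  refine ⟨x₀, ⟨hox₀, fun v => ?_⟩, fun v hv => ?_⟩
  · by_contra hneg
    push Not at hneg
    have h3 := small_pos (a := - p v x₀) (-(p v y + (if v ∈ A then 1 else 0))) (by linarith)
    obtain ⟨s, hs1, ⟨-, x, hx, hax⟩, hs2⟩ := (h3.and_frequently hF').exists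
    have h4 := hx.2 v
    rw [pert_apply, hx.1, hform hx hax, map_add, map_smul, smul_eq_mul] at h4
    nlinarith
  · rw [mem_act]
    exact hpx₀ v (hGF hv)

/-- in the perturbed polyhedron `A` is never active. -/
private theorem pert_not_A {A B : Finset V} {xs : U} (h : Spec n o p A B xs) {s : ℝ}
    (hs : 0 < s) {G : Finset V} (hG : Face o (pertP o p A s) G) : ¬ A ⊆ G := by
  intro hA
  obtain ⟨x, hx, hGx⟩ := hG
  obtain ⟨c, hc, hrel⟩ := h.rel
  have h1 := congrArg (fun g : Module.Dual ℝ U => g x) hrel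
  simp only [LinearMap.sum_apply, LinearMap.smul_apply, smul_eq_mul] at h1
  have h2 : ∑ v ∈ A, c v * p v x < 0 := by
    refine Finset.sum_neg (fun v hv => ?_) h.neA
    have h3 := mem_act.1 (hGx (hA hv))
    rw [pert_apply, if_pos hv, hx.1] at h3
    have := hc v (Finset.mem_union_left _ hv)
    nlinarith
  have h4 : 0 ≤ ∑ v ∈ B, c v * p v x := by
    refine Finset.sum_nonneg fun v hv => ?_
    have h3 := hx.2 v
    rw [pert_apply, if_neg (Finset.disjoint_right.1 h.disj hv), hx.1] at h3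
    have := hc v (Finset.mem_union_right _ hv)
    nlinarith
  linarith

/-- faces of the special complex are independent. -/
private theorem sface_ind {A B : Finset V} {xs : U} (h : Spec n o p A B xs) {x : U}
    (hx : x ∈ PP o p) {G : Finset V} (hG : G ⊆ act p x) (hA : ¬ A ⊆ G) : Ind p G := by
  by_cases hxs : x = xs
  · subst hxs
    obtain ⟨a, ha, haG⟩ := Finset.not_subset.1 hA
    refine (h.circuit a (Finset.mem_union_left _ ha)).mono fun v hv => ?_
    rw [Finset.mem_erase, ← h.act_eq]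
    exact ⟨fun hva => haG (hva ▸ hv), hG hv⟩
  · exact (h.simple x hx hxs).mono hG

private theorem pert_face_of_sface {A B : Finset V} {xs : U} (h : Spec n o p A B xs)
    {G : Finset V} (hG : SFace o p A G) :
    ∀ᶠ s in nhdsWithin (0 : ℝ) (Set.Ioi 0), Face o (pertP o p A s) G := by
  obtain ⟨⟨x, hx, hGx⟩, hA⟩ := hG
  by_cases hxs : x = xs
  · subst hxs
    obtain ⟨a, ha, haG⟩ := Finset.not_subset.1 hA
    obtain ⟨y, hoy, hy⟩ := prescribe hx.1 (F := (A ∪ B).erase a) (fun v hv => by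
      rw [← mem_act, h.act_eq]
      exact Finset.mem_of_mem_erase hv) (h.circuit a (Finset.mem_union_left _ ha)) 0
      (fun v => - (if v ∈ A then 1 else 0))
    obtain ⟨c, hc, hrel⟩ := h.rel
    have h1 := congrArg (fun g : Module.Dual ℝ U => g y) hrel
    simp only [LinearMap.sum_apply, LinearMap.smul_apply, smul_eq_mul] at h1
    have hca : 0 < c a := hc a (Finset.mem_union_left _ ha)
    have h2 : 0 ≤ p a y := by
      have h3 : ∑ v ∈ B, c v * p v y = 0 := by
        refine Finset.sum_eq_zero fun v hv => ?_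
        have hvA : v ∉ A := Finset.disjoint_right.1 h.disj hv
        rw [hy v (Finset.mem_erase.2 ⟨fun hva => hvA (hva ▸ ha), Finset.mem_union_right _ hv⟩),
          if_neg hvA, neg_zero, mul_zero]
      have h4 : ∑ v ∈ A.erase a, c v * p v y ≤ 0 := by
        refine Finset.sum_nonpos fun v hv => ?_
        have hv' := Finset.mem_erase.1 hv
        rw [hy v (Finset.mem_erase.2 ⟨hv'.1, Finset.mem_union_left _ hv'.2⟩), if_pos hv'.2]
        have := hc v (Finset.mem_union_left _ hv'.2)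
        linarith
      rw [h3, ← Finset.add_sum_erase A _ ha] at h1
      have h5 : 0 ≤ c a * p a y := by linarith
      exact nonneg_of_mul_nonneg_right h5 hca
    refine pert_forward (x := x) (y := y) hx.1 hoy (fun v => ?_) (fun v hv => ?_)
    · rcases (hx.2 v).eq_or_lt with hv | hv
      · right
        refine ⟨hv.symm, ?_⟩
        by_cases hva : v = a
        · subst hva
          rw [if_pos ha]
          linarith
        · rw [hy v (Finset.mem_erase.2 ⟨hva, by rw [← h.act_eq, mem_act]; exact hv.symm⟩)]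
          linarith
      · exact Or.inl hv
    · have hva : v ≠ a := fun hva => haG (hva ▸ hv)
      refine ⟨mem_act.1 (hGx hv), ?_⟩
      rw [hy v (Finset.mem_erase.2 ⟨hva, by rw [← h.act_eq]; exact hGx hv⟩)]
      ring
  · obtain ⟨y, hoy, hy⟩ := prescribe hx.1 (F := act p x) (fun v hv => mem_act.1 hv)
      (h.simple x hx hxs) 0 (fun v => - (if v ∈ A then 1 else 0))
    refine pert_forward (x := x) (y := y) hx.1 hoy (fun v => ?_) (fun v hv => ?_)
    · rcases (hx.2 v).eq_or_lt with hv | hv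
      · right
        refine ⟨hv.symm, ?_⟩
        rw [hy v (mem_act.2 hv.symm)]
        linarith
      · exact Or.inl hv
    · refine ⟨mem_act.1 (hGx hv), ?_⟩
      rw [hy v (hGx hv)]
      ring

/-- independence is kept by the perturbation. -/
private theorem pert_ind {A F : Finset V} {x : U} (hx : o x = 1) (hF : ∀ v ∈ F, p v x = 0)
    (hI : Ind p F) (s : ℝ) : Ind (pertP o p A s) F := by
  rw [ind_iff] at hI ⊢
  intro r hr
  have h1 := congrArg (fun g : Module.Dual ℝ U => g x) hr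
  simp only [LinearMap.sum_apply, LinearMap.smul_apply, smul_eq_mul, LinearMap.zero_apply,
    pert_apply, hx, mul_one] at h1
  have h2 : ∑ v ∈ F, r v * (s * (if v ∈ A then 1 else 0)) = 0 := by
    refine Eq.trans (Finset.sum_congr rfl fun v hv => ?_) h1
    rw [hF v hv, zero_add]
  refine hI r ?_
  ext z
  have h3 := congrArg (fun g : Module.Dual ℝ U => g z) hr
  simp only [LinearMap.sum_apply, LinearMap.smul_apply, smul_eq_mul, LinearMap.zero_apply,
    pert_apply] at h3 ⊢
  have h4 : ∑ v ∈ F, r v * (p v z + s * (if v ∈ A then 1 else 0) * o z) =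
      ∑ v ∈ F, r v * p v z + (∑ v ∈ F, r v * (s * (if v ∈ A then 1 else 0))) * o z := by
    rw [Finset.sum_mul, ← Finset.sum_add_distrib]
    exact Finset.sum_congr rfl fun v _ => by ring
  rw [h4, h2, zero_mul, add_zero] at h3
  exact h3

theorem pert_geom {A B : Finset V} {xs : U} (h : Spec n o p A B xs) :
    ∀ᶠ s in nhdsWithin (0 : ℝ) (Set.Ioi 0), Ord n o (pertP o p A s) ∧
      ∀ G, Face o (pertP o p A s) G ↔ SFace o p A G := by
  have hface : ∀ᶠ s in nhdsWithin (0 : ℝ) (Set.Ioi 0), ∀ G : Finset V,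
      Face o (pertP o p A s) G ↔ SFace o p A G := by
    rw [Filter.eventually_all]
    intro G
    by_cases hG : SFace o p A G
    · exact (pert_face_of_sface h hG).mono fun s hs => ⟨fun _ => hG, fun _ => hs⟩
    · by_contra hcon
      rw [Filter.not_eventually] at hcon
      have h1 : ∃ᶠ s in nhdsWithin (0 : ℝ) (Set.Ioi 0), Face o (pertP o p A s) G :=
        hcon.mono fun s hs => by
          by_contra hf
          exact hs ⟨fun hh => absurd hh hf, fun hh => absurd hh hG⟩
      obtain ⟨x, hx, hGx⟩ := pert_limit h.bdd h1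
      obtain ⟨s, hs1, hs2⟩ :=
        (h1.and_eventually (self_mem_nhdsWithin (a := (0 : ℝ)) (s := Set.Ioi 0))).exists
      exact hG ⟨⟨x, hx, hGx⟩, pert_not_A h hs2 hs1⟩
  refine (hface.and (self_mem_nhdsWithin (a := (0 : ℝ)) (s := Set.Ioi 0))).mono ?_
  rintro s ⟨hs, hs0⟩
  have hs0' : (0 : ℝ) < s := hs0
  refine ⟨⟨h.dim, ⟨xs, h.mem.1, fun v => ?_⟩, pert_bdd h.bdd A s, fun x hx => ?_⟩, hs⟩
  · rw [pert_apply, h.mem.1]
    have h1 := h.mem.2 v
    have h2 : (0 : ℝ) ≤ (if v ∈ A then 1 else 0) := by split_ifs <;> norm_num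
    have h3 := mul_nonneg hs0'.le h2
    linarith
  · obtain ⟨⟨x', hx', hsub⟩, hA⟩ := (hs (act (pertP o p A s) x)).1 ⟨x, hx, Finset.Subset.refl _⟩
    exact pert_ind hx'.1 (fun v hv => mem_act.1 (hsub hv)) (sface_ind h hx' hsub hA) s

theorem theta_pert {A : Finset V} {x : U} (hx : o x = 1) (s : ℝ) :
    theta (pertP o p A s) x = theta p x + s • ∑ v ∈ A, (X v : MvPolynomial V ℝ) := by
  unfold theta
  have h1 : s • ∑ v ∈ A, (X v : MvPolynomial V ℝ) =
      ∑ v, (if v ∈ A then s • (X v : MvPolynomial V ℝ) else 0) := by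
    rw [Finset.smul_sum, Finset.sum_ite_mem, Finset.univ_inter]
  rw [h1, ← Finset.sum_add_distrib]
  refine Finset.sum_congr rfl fun v _ => ?_
  rw [pert_apply, hx, mul_one]
  split_ifs with hv
  · rw [mul_one, C_add, add_mul, MvPolynomial.smul_eq_C_mul]
  · rw [mul_zero, add_zero, add_zero]

theorem pert_isFun {A : Finset V} {D : MvPolynomial V ℝ →ₗ[ℝ] ℝ} {s : ℝ}
    (hD : IsFun n (SFace o p A) o p D)
    (hG : ∀ G, Face o (pertP o p A s) G ↔ SFace o p A G) :
    IsFun n (Face o (pertP o p A s)) o (pertP o p A s) D := by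
  refine ⟨fun e he hne => hD.k1 e he fun hh => hne ((hG _).2 hh), fun x hx j b hj hb => ?_,
    fun F hF hc => hD.k3 F ((hG F).1 hF) hc⟩
  have : theta (pertP o p A s) x = theta p x := by
    unfold theta
    exact Finset.sum_congr rfl fun v _ => by rw [pert_apply_zero A s v hx]
  rw [this]
  exact hD.k2 x hx j b hj hb

theorem Spec.symm {A B : Finset V} {xs : U} (h : Spec n o p A B xs) : Spec n o p B A xs := by
  refine ⟨h.dim, h.bdd, h.mem, by rw [h.act_eq, Finset.union_comm], h.disj.symm,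
    by rw [add_comm]; exact h.card, h.neB, h.neA, ?_, ?_, h.simple⟩
  · obtain ⟨c, hc, hrel⟩ := h.rel
    exact ⟨c, fun v hv => hc v (by rwa [Finset.union_comm]), hrel.symm⟩
  · intro v hv
    rw [Finset.union_comm]
    exact h.circuit v (by rwa [Finset.union_comm])

end PERT

end MP46
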