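import Pool.Agent.Lib.MP_46e101_co.Defs
import Pool.Agent.Lib.MP_46e101_co.PERT
import Pool.Agent.Lib.MP_46e101_co.ND
import Pool.Agent.Lib.MP_46e101_co.ANAL

/-! # MP_46e101_co, module SPECHR: the Hodge-Riemann relations for special data -/

open MvPolynomial

universe u w

noncomputable section

namespace MP46

private theorem theta_hom1 {V : Type u} [Fintype V] {U : Type w} [AddCommGroup U] [Module ℝ U]
    (p : V → Module.Dual ℝ U) (x : U) : (theta p x).IsHomogeneous 1 := by
  unfold theta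
  refine IsHomogeneous.sum _ _ _ fun v _ => ?_
  have h := (isHomogeneous_C V (p v x)).mul (isHomogeneous_X ℝ v)
  simpa using h

private theorem sum_X_hom1 {V : Type u} (A : Finset V) :
    (∑ v ∈ A, (X v : MvPolynomial V ℝ)).IsHomogeneous 1 :=
  IsHomogeneous.sum _ _ _ fun v _ => isHomogeneous_X ℝ v

/-- non-degeneracy in the middle degree is trivial. -/
private theorem nd_mid {V : Type u} {D : MvPolynomial V ℝ →ₗ[ℝ] ℝ} {l : MvPolynomial V ℝ}
    {n k : ℕ} (hk : 2 * k = n) : ND D l n k := by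
  intro a _ hb b hb'
  have h1 : n - k = k := by omega
  rw [h1] at hb'
  have h2 := hb b hb'
  have h3 : n - 2 * k = 0 := by omega
  rwa [h3, pow_zero, mul_one] at h2

theorem spec_hr {n : ℕ} (IH : OrdHR.{u, w} n) (IH' : SpecHR.{u, w} n)
    (H : OrdHR.{u, w} (n + 1)) : SpecHR.{u, w} (n + 1) := by
  intro V _ _ U _ _ o p D A B xs hS hD x hx k hk
  have hl : (theta p x).IsHomogeneous 1 := theta_hom1 p x
  have hm : (∑ v ∈ A, (X v : MvPolynomial V ℝ)).IsHomogeneous 1 := sum_X_hom1 A
  have hev : ∀ᶠ s in nhdsWithin (0 : ℝ) (Set.Ioi 0),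
      HRs D (theta p x + s • ∑ v ∈ A, (X v : MvPolynomial V ℝ)) (n + 1) k := by
    filter_upwards [pert_geom hS] with s hs
    have h1 := H V U o (pertP o p A s) D hs.1 (pert_isFun hD hs.2) x hx k hk
    rwa [theta_pert hx s] at h1
  have hw : k ≤ B.card → HRw D (theta p x) (n + 1) k := by
    intro hkB
    refine hrw_limit hl hm hk ?_ hev
    intro j hj
    exact nd_spec IH IH' hS hD hx (by omega) (by omega)
  refine ⟨fun hkB => ?_, fun hkB => hw hkB.le⟩
  refine hrs_of_hrw hl hk ?_ ?_ (hw hkB.le)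
  · intro j hj
    exact nd_spec IH IH' hS hD hx (by omega) (by omega)
  · rcases Nat.lt_or_ge (2 * k) (n + 1) with h | h
    · exact nd_spec IH IH' hS hD hx h hkB
    · exact nd_mid (by omega)

end MP46
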