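import Pool.Agent.Lib.MP_46e101_co.SID

open MvPolynomial

universe u w

noncomputable section

namespace MP46

set_option linter.unusedSectionVars false

section SWE
variable {V : Type u} [Fintype V] [DecidableEq V] {U : Type w} [AddCommGroup U] [Module ℝ U]
  {o : Module.Dual ℝ U} {p : V → Module.Dual ℝ U} {n : ℕ} {f : Module.Dual ℝ U}
  {t : Finset V → ℝ} {c : Finset V → V → ℝ} {D : MvPolynomial V ℝ →ₗ[ℝ] ℝ}

/-- set the new variable to `1`. -/
private def sigma1 (V : Type u) : MvPolynomial (Option V) ℝ →ₐ[ℝ] MvPolynomial V ℝ :=
  MvPolynomial.aeval (fun v : Option V => v.elim 1 X)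

/-- set the new variable to `0`. -/
private def sigma0 (V : Type u) : MvPolynomial (Option V) ℝ →ₐ[ℝ] MvPolynomial V ℝ :=
  MvPolynomial.aeval (fun v : Option V => v.elim 0 X)

private theorem DT_facets (μ : Finset V → ℝ) (P : MvPolynomial (Option V) ℝ) :
    DT μ c (facets n o p) P = Psi n o p μ c (sigma1 V P) := by
  unfold DT Psi evL
  simp only [LinearMap.coe_sum, Finset.sum_apply, LinearMap.smul_apply, AlgHom.toLinearMap_apply]
  refine Finset.sum_congr rfl fun F _ => ?_
  congr 1
  have : (MvPolynomial.aeval (lam (c F)) : MvPolynomial (Option V) ℝ →ₐ[ℝ] ℝ) =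
      (MvPolynomial.aeval (fun v => -c F v)).comp (sigma1 V) := by
    apply MvPolynomial.algHom_ext
    intro v
    cases v with
    | none => simp [sigma1, lam]
    | some v => simp [sigma1, lam]
  rw [this]
  rfl

private theorem theta_hom {W : Type u} [Fintype W] (q : W → Module.Dual ℝ U) (x : U) :
    (theta q x).IsHomogeneous 1 := by
  unfold theta
  refine MvPolynomial.IsHomogeneous.sum _ _ _ fun v _ => ?_
  simpa using (MvPolynomial.isHomogeneous_C W (q v x)).mul (MvPolynomial.isHomogeneous_X ℝ v)

private theorem sigma1_mono (s : Option V →₀ ℕ) (r : ℝ) :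
    sigma1 V (monomial s r) = monomial s.some r := by
  rw [sigma1, MvPolynomial.aeval_monomial, MvPolynomial.monomial_eq, MvPolynomial.algebraMap_eq,
    Finsupp.prod_option_index]
  · simp
  · intro _; simp
  · intro _ _ _; exact pow_add _ _ _

private theorem sigma0_mono (s : Option V →₀ ℕ) (r : ℝ) :
    sigma0 V (monomial s r) = if s none = 0 then monomial s.some r else 0 := by
  rw [sigma0, MvPolynomial.aeval_monomial, MvPolynomial.monomial_eq, MvPolynomial.algebraMap_eq,
    Finsupp.prod_option_index]
  · split_ifs with h
    · simp [h]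
    · simp [h]
  · intro _; simp
  · intro _ _ _; exact pow_add _ _ _

private theorem degree_some (s : Option V →₀ ℕ) : s.degree = s none + s.some.degree := by
  rw [Finsupp.degree_eq_sum, Finsupp.degree_eq_sum, Fintype.sum_option]
  rfl

private theorem key (h : Ord n o p) (hg : Gen n o p f t c) (hD : IsFun n (Face o p) o p D)
    {P : MvPolynomial (Option V) ℝ} (hP : P.IsHomogeneous n) :
    DT (fun F => D (∏ v ∈ F, X v)) c (facets n o p) P = D (sigma0 V P) := by
  rw [P.as_sum]
  simp only [map_sum]
  refine Finset.sum_congr rfl fun s hs => ?_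
  have hdeg : s.degree = n := by
    have := hP (MvPolynomial.mem_support_iff.mp hs)
    rw [Finsupp.degree_eq_weight_one]
    exact this
  rw [DT_facets, sigma1_mono, sigma0_mono]
  have hs2 := degree_some s
  split_ifs with h0
  · apply Psi_eq h hg hD
    apply MvPolynomial.isHomogeneous_monomial
    omega
  · rw [map_zero]
    apply Psi_low h hg (ridgeRel_of_isFun h hD) (j := s.some.degree)
    · omega
    · exact MvPolynomial.isHomogeneous_monomial _ rfl

private theorem sigma0_theta (τ : ℝ) (x : U) :
    sigma0 V (theta (optP p f o τ) x) = theta p x := by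
  unfold theta sigma0
  rw [Fintype.sum_option]
  simp [optP]

private theorem sigma0_rename (a : MvPolynomial V ℝ) : sigma0 V (rename some a) = a := by
  unfold sigma0
  rw [MvPolynomial.aeval_rename]
  have : ((fun v : Option V => v.elim (0 : MvPolynomial V ℝ) X) ∘ some) = X := by
    funext v; rfl
  rw [this]
  exact MvPolynomial.aeval_X_left_apply a

theorem sweep_end (h : Ord n o p) (hg : Gen n o p f t c) (hD : IsFun n (Face o p) o p D)
    {τ : ℝ} {x : U} (hx : o x = 1) {k : ℕ} (hk : 2 * k ≤ n)
    (H : HRs (DT (fun F => D (∏ v ∈ F, X v)) c (facets n o p)) (theta (optP p f o τ) x) n k) :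
    HRs D (theta p x) n k := by
  intro a ha hprim
  have hra : (rename (some : V → Option V) a).IsHomogeneous k :=
    ha.rename_isHomogeneous
  have hth := theta_hom (optP p f o τ) x
  have key2 : ∀ P : MvPolynomial (Option V) ℝ, P.IsHomogeneous n →
    DT (fun F => D (∏ v ∈ F, X v)) c (facets n o p) P = D (sigma0 V P) :=
    fun P hP => key h hg hD hP
  have hs0 : ∀ (j : ℕ) (b : MvPolynomial (Option V) ℝ), b.IsHomogeneous j →
      (sigma0 V b).IsHomogeneous j := by
    intro j b hb
    have := MvPolynomial.IsHomogeneous.aeval hb
      (fun v : Option V => v.elim (0 : MvPolynomial V ℝ) X) (n := 1) (by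
        intro v
        cases v with
        | none => exact MvPolynomial.isHomogeneous_zero _ _ _
        | some v => exact MvPolynomial.isHomogeneous_X _ _)
    simpa [sigma0] using this
  have h1 : Prim (DT (fun F => D (∏ v ∈ F, X v)) c (facets n o p)) (theta (optP p f o τ) x) n k
      (rename some a) := by
    intro j b hj hb
    rw [key2]
    · have e : sigma0 V (rename some a * b * theta (optP p f o τ) x ^ (n - 2 * k + 1)) =
          a * sigma0 V b * theta p x ^ (n - 2 * k + 1) := by
        rw [map_mul, map_mul, map_pow, sigma0_theta, sigma0_rename]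
      rw [e]
      exact hprim j _ hj (hs0 j b hb)
    · have := (hra.mul hb).mul (hth.pow (n - 2 * k + 1))
      convert this using 1
      omega
  rcases H _ hra h1 with H | H
  · left
    rw [key2] at H
    · have e : sigma0 V (rename some a ^ 2 * theta (optP p f o τ) x ^ (n - 2 * k)) =
          a ^ 2 * theta p x ^ (n - 2 * k) := by
        rw [map_mul, map_pow, map_pow, sigma0_theta, sigma0_rename]
      rwa [e] at H
    · have := (hra.pow 2).mul (hth.pow (n - 2 * k))
      convert this using 1
      omega
  · right
    intro b hb
    have h2 := H (rename some b) hb.rename_isHomogeneous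
    rw [key2] at h2
    · have e : sigma0 V (rename some a * rename some b) = a * b := by
        rw [map_mul, sigma0_rename, sigma0_rename]
      rwa [e] at h2
    · have := hra.mul (hb.rename_isHomogeneous (f := (some : V → Option V)))
      convert this using 1
      omega

end SWE

end MP46
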