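import Pool.Agent.Lib.MP_46e101_co.FACES
import Pool.Agent.Lib.MP_46e101_co.GEN

/-! ### Module TRO : the truncated data, ordinary case -/

open MvPolynomial

universe u w

noncomputable section

namespace MP46

section TRUNC
variable {V : Type u} [Fintype V] [DecidableEq V] {U : Type w} [AddCommGroup U] [Module ℝ U]
  {o : Module.Dual ℝ U} {p : V → Module.Dual ℝ U} {n : ℕ} {f : Module.Dual ℝ U}
  {t : Finset V → ℝ} {c : Finset V → V → ℝ} {D : MvPolynomial V ℝ →ₗ[ℝ] ℝ}

omit [DecidableEq V] in
private theorem mem_act' {x : U} {v : V} : v ∈ act p x ↔ p v x = 0 := by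
  unfold act
  rw [Finset.mem_filter]
  exact and_iff_right (Finset.mem_univ v)

omit [DecidableEq V] in
private theorem some_mem_act {x : U} {v : V} {τ : ℝ} :
    some v ∈ act (optP p f o τ) x ↔ p v x = 0 := mem_act'

omit [DecidableEq V] in
private theorem none_mem_act {x : U} {τ : ℝ} :
    none ∈ act (optP p f o τ) x ↔ f x + τ * o x = 0 := by
  rw [mem_act']
  exact Iff.rfl

omit [Fintype V] [DecidableEq V] in
private theorem mem_PP_opt {x : U} {τ : ℝ} :
    x ∈ PP o (optP p f o τ) ↔ x ∈ PP o p ∧ 0 ≤ f x + τ := by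
  constructor
  · rintro ⟨h1, h2⟩
    refine ⟨⟨h1, fun v => h2 (some v)⟩, ?_⟩
    have h3 : 0 ≤ f x + τ * o x := h2 none
    rwa [h1, mul_one] at h3
  · rintro ⟨h1, h2⟩
    refine ⟨h1.1, fun i => ?_⟩
    cases i with
    | none =>
      show 0 ≤ f x + τ * o x
      rw [h1.1, mul_one]
      exact h2
    | some v => exact h1.2 v

/-- a sum over a finset of `Option V`. -/
private theorem sum_option {M : Type*} [AddCommMonoid M] (S : Finset (Option V))
    (g : Option V → M) :
    ∑ i ∈ S, g i = (if none ∈ S then g none else 0) +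
      ∑ v ∈ Finset.univ.filter (fun v : V => some v ∈ S), g (some v) := by
  have h1 : ∑ i ∈ S, g i = ∑ i : Option V, if i ∈ S then g i else 0 := by
    rw [Finset.sum_ite_mem, Finset.univ_inter]
  rw [h1, Fintype.sum_option, Finset.sum_filter]

theorem trunc_ord (h : Ord n o p) (hg : Gen n o p f t c) {τ : ℝ}
    (hne : ∀ F ∈ facets n o p, t F ≠ τ) (hex : ∃ F ∈ facets n o p, t F < τ) :
    Ord n o (optP p f o τ) ∧
      ∀ G, Face o (optP p f o τ) G ↔ TFace n o p (below n o p t τ) G := by
  have hval : ∀ {F : Finset V} {x : U}, Face o p F → F.card = n → x ∈ PP o p → act p x = F →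
      f x = - t F := by
    intro F x hF hc hx hact
    exact Gen.val hg hF hc hx.1 fun v hv => mem_act'.1 (hact ▸ hv)
  refine ⟨⟨h.dim, ?_, ?_, ?_⟩, ?_⟩
  · obtain ⟨F, hF, htF⟩ := hex
    obtain ⟨hF1, hF2⟩ := mem_facets.1 hF
    obtain ⟨x, hx, hact, -⟩ := Ord.facet_point h hF1 hF2
    refine ⟨x, mem_PP_opt.2 ⟨hx, ?_⟩⟩
    rw [hval hF1 hF2 hx hact]
    linarith
  · intro x hx hox
    obtain ⟨v, hv⟩ := h.bdd x hx hox
    exact ⟨some v, hv⟩
  · intro x hx
    obtain ⟨hxP, hxf⟩ := mem_PP_opt.1 hx
    have hI := h.simple x hxP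
    rw [ind_iff] at hI ⊢
    intro a ha
    have hfil : Finset.univ.filter (fun v : V => some v ∈ act (optP p f o τ) x) = act p x := by
      ext v
      rw [Finset.mem_filter, some_mem_act, mem_act']
      exact and_iff_right (Finset.mem_univ v)
    rw [sum_option, hfil] at ha
    have hnone : none ∈ act (optP p f o τ) x → a none = 0 := by
      intro hn
      by_contra ha0
      rw [if_pos hn] at ha
      obtain ⟨F, hF, hFc, hGF⟩ := Ord.face_facet h (G := act p x) ⟨x, hxP, subset_rfl⟩
      obtain ⟨xF, hxF, hactF, -⟩ := Ord.facet_point h hF hFc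
      have hrep := hg.rep F hF hFc
      have hf2 : f = -τ • o + ∑ v ∈ F,
          (if v ∈ act p x then -(a none)⁻¹ * a (some v) else 0) • p v := by
        have h1 : ∑ v ∈ F, (if v ∈ act p x then -(a none)⁻¹ * a (some v) else 0) • p v =
            ∑ v ∈ act p x, (-(a none)⁻¹ * a (some v)) • p v := by
          have h2 : ∀ v, (if v ∈ act p x then -(a none)⁻¹ * a (some v) else 0) • p v =
              if v ∈ act p x then (-(a none)⁻¹ * a (some v)) • p v else 0 := by
            intro v
            split_ifs
            · rfl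
            · exact zero_smul _ _
          rw [Finset.sum_congr rfl fun v _ => h2 v, Finset.sum_ite_mem,
            Finset.inter_eq_right.2 hGF]
        rw [h1]
        refine LinearMap.ext fun y => ?_
        have h3 := congrArg (fun g : Module.Dual ℝ U => g y) ha
        have h4 : a none * (f y + τ * o y) + ∑ v ∈ act p x, a (some v) * p v y = 0 := by
          simp only [LinearMap.add_apply, LinearMap.smul_apply, LinearMap.coe_sum,
            Finset.sum_apply, smul_eq_mul, LinearMap.zero_apply] at h3
          exact h3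
        simp only [LinearMap.add_apply, LinearMap.smul_apply, LinearMap.coe_sum,
          Finset.sum_apply, smul_eq_mul]
        have h5 : ∑ v ∈ act p x, (-(a none)⁻¹ * a (some v)) * p v y =
            -(a none)⁻¹ * ∑ v ∈ act p x, a (some v) * p v y := by
          rw [Finset.mul_sum]
          exact Finset.sum_congr rfl fun v _ => mul_assoc _ _ _
        rw [h5, eq_neg_of_add_eq_zero_right h4]
        field_simp
        ring
      have h6 := full_rep_unique hxF.1 (fun v hv => mem_act'.1 (hactF ▸ hv)) (Ord.ind h hF)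
        (hrep.symm.trans hf2)
      exact hne F (mem_facets.2 ⟨hF, hFc⟩) h6.1
    have hrest : ∑ v ∈ act p x, a (some v) • p v = 0 := by
      by_cases hn : none ∈ act (optP p f o τ) x
      · rw [if_pos hn, hnone hn, zero_smul, zero_add] at ha
        exact ha
      · rw [if_neg hn, zero_add] at ha
        exact ha
    have h7 := hI (fun v => a (some v)) hrest
    intro i hi
    cases i with
    | none => exact hnone hi
    | some v => exact h7 v (mem_act'.2 (some_mem_act.1 hi))
  · intro G
    constructor
    · rintro ⟨x, hx, hGx⟩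
      obtain ⟨hxP, hxf⟩ := mem_PP_opt.1 hx
      have hG0 : ∀ v, some v ∈ G → v ∈ act p x := fun v hv =>
        mem_act'.2 (some_mem_act.1 (hGx hv))
      constructor
      · obtain ⟨x', hx', h1, h2, h3⟩ := Ord.vertex_above h hxP f
        have hF : Face o p (act p x') := ⟨x', hx', subset_rfl⟩
        have hv := hval hF h3 hx' rfl
        have hmem := mem_facets.2 ⟨hF, h3⟩
        refine ⟨act p x', hmem, ?_, fun v hv => h1 (hG0 v hv)⟩
        refine Finset.mem_filter.2 ⟨hmem, lt_of_le_of_ne (by linarith) (hne _ hmem)⟩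
      · intro hn
        obtain ⟨x', hx', h1, h2, h3⟩ := Ord.vertex_above h hxP (-f)
        have hF : Face o p (act p x') := ⟨x', hx', subset_rfl⟩
        have hv := hval hF h3 hx' rfl
        have hmem := mem_facets.2 ⟨hF, h3⟩
        refine ⟨act p x', hmem, ?_, fun v hv => h1 (hG0 v hv)⟩
        intro hb
        have h4 : t (act p x') < τ := (Finset.mem_filter.1 hb).2
        have h5 := none_mem_act.1 (hGx hn)
        rw [hxP.1, mul_one] at h5
        have h6 : -f x ≤ -f x' := h2
        linarith
    · rintro ⟨⟨F, hF, hFb, hGF⟩, hN⟩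
      obtain ⟨hF1, hF2⟩ := mem_facets.1 hF
      have htF : t F < τ := (Finset.mem_filter.1 hFb).2
      by_cases hn : none ∈ G
      · obtain ⟨F', hF', hFb', hGF'⟩ := hN hn
        obtain ⟨hF1', hF2'⟩ := mem_facets.1 hF'
        have htF' : τ ≤ t F' := by
          by_contra hcon
          exact hFb' (Finset.mem_filter.2 ⟨hF', not_le.1 hcon⟩)
        obtain ⟨x, hx, hGx, hfx⟩ := Gen.exists_level h hg hF1 hF2 hF1' hF2'
          (G := Finset.univ.filter fun v : V => some v ∈ G)
          (fun v hv => hGF v (Finset.mem_filter.1 hv).2)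
          (fun v hv => hGF' v (Finset.mem_filter.1 hv).2) htF.le htF'
        refine ⟨x, mem_PP_opt.2 ⟨hx, by rw [hfx]; linarith⟩, ?_⟩
        intro i hi
        cases i with
        | none =>
          rw [none_mem_act, hx.1, hfx]
          ring
        | some v =>
          rw [some_mem_act]
          exact mem_act'.1 (hGx (Finset.mem_filter.2 ⟨Finset.mem_univ v, hi⟩))
      · obtain ⟨x, hx, hact, -⟩ := Ord.facet_point h hF1 hF2
        refine ⟨x, mem_PP_opt.2 ⟨hx, ?_⟩, ?_⟩
        · rw [hval hF1 hF2 hx hact]
          linarith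
        · intro i hi
          cases i with
          | none => exact absurd hi hn
          | some v =>
            rw [some_mem_act]
            exact mem_act'.1 (hact.symm ▸ hGF v hi)

/-- evaluation of the linear form of the truncated data. -/
theorem ev_theta_opt (hg : Gen n o p f t c) {F : Finset V} (hF : F ∈ facets n o p) (τ : ℝ)
    (x : U) : evL (lam (c F)) (theta (optP p f o τ) x) = (τ - t F) * o x := by
  obtain ⟨hF1, hF2⟩ := mem_facets.1 hF
  have h1 : evL (lam (c F)) (theta (optP p f o τ) x) =
      ∑ i : Option V, optP p f o τ i x * lam (c F) i := by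
    unfold evL theta
    rw [AlgHom.toLinearMap_apply, map_sum]
    refine Finset.sum_congr rfl fun i _ => ?_
    rw [map_mul, aeval_C, aeval_X]
    rfl
  rw [h1, Fintype.sum_option]
  have h2 : optP p f o τ none x * lam (c F) none = f x + τ * o x := by
    show (f x + τ * o x) * 1 = f x + τ * o x
    rw [mul_one]
  have h3 : ∑ v : V, optP p f o τ (some v) x * lam (c F) (some v) =
      -∑ v ∈ F, c F v * p v x := by
    have h4 : ∀ v : V, optP p f o τ (some v) x * lam (c F) (some v) = -(c F v * p v x) := by
      intro v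
      show p v x * (-c F v) = _
      ring
    rw [Finset.sum_congr rfl fun v _ => h4 v, Finset.sum_neg_distrib]
    congr 1
    symm
    refine Finset.sum_subset (Finset.subset_univ F) fun v _ hv => ?_
    rw [hg.supp F v hv, zero_mul]
  have h5 : f x = -(t F) * o x + ∑ v ∈ F, c F v * p v x := by
    have h6 := congrArg (fun g : Module.Dual ℝ U => g x) (hg.rep F hF1 hF2)
    simp only [LinearMap.add_apply, LinearMap.smul_apply, LinearMap.coe_sum, Finset.sum_apply,
      smul_eq_mul] at h6
    exact h6
  rw [h2, h3, h5]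
  ring

theorem theta_opt {x : U} (hx : o x = 1) (τ τ' : ℝ) :
    theta (optP p f o τ') x = theta (optP p f o τ) x + (τ' - τ) • X none := by
  unfold theta
  rw [Fintype.sum_option, Fintype.sum_option]
  have h1 : (optP p f o τ' none) x = f x + τ' := by
    show f x + τ' * o x = _
    rw [hx, mul_one]
  have h2 : (optP p f o τ none) x = f x + τ := by
    show f x + τ * o x = _
    rw [hx, mul_one]
  have h3 : ∀ v : V, (optP p f o τ' (some v)) x = (optP p f o τ (some v)) x := fun v => rfl
  rw [h1, h2, Finset.sum_congr rfl fun v _ => by rw [h3 v], smul_eq_C_mul]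
  rw [map_add, map_add, map_sub]
  ring

end TRUNC

end MP46
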