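import Pool.Agent.Lib.MP_46e101_co.Defs
import Pool.Agent.Lib.MP_46e101_co.GEN
import Pool.Agent.Lib.MP_46e101_co.TRO

/-!
# MP_46e101_co, module SWB: the base of the sweep
-/

open MvPolynomial

universe u w

noncomputable section

namespace MP46

section SW
variable {V : Type u} [Fintype V] [DecidableEq V] {U : Type w} [AddCommGroup U] [Module ℝ U]
  {o : Module.Dual ℝ U} {p : V → Module.Dual ℝ U} {n : ℕ} {f : Module.Dual ℝ U}
  {t : Finset V → ℝ} {c : Finset V → V → ℝ} {D : MvPolynomial V ℝ →ₗ[ℝ] ℝ}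

theorem sweep_base (h : Ord n o p) (hg : Gen n o p f t c) (hD : IsFun n (Face o p) o p D)
    {F₁ : Finset V} (hF₁ : F₁ ∈ facets n o p) (hmin : ∀ F ∈ facets n o p, t F₁ ≤ t F)
    {τ : ℝ} (hτ : t F₁ < τ) {x : U} (hx : o x = 1) {k : ℕ} (hk : 2 * k ≤ n) :
    HRs (DT (fun F => D (∏ v ∈ F, X v)) c {F₁}) (theta (optP p f o τ) x) n k := by
  obtain ⟨hF, hc⟩ := mem_facets.1 hF₁
  have hneg : ∀ v ∈ F₁, 0 < -c F₁ v := by
    intro v hv
    by_contra hcon
    have h1 : 0 < c F₁ v := lt_of_le_of_ne (by linarith) (hg.nz F₁ hF hc v hv).symm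
    obtain ⟨F', hF', hc', -, hlt⟩ := hg.lower h hF hc (Finset.empty_subset F₁) hv
      (Finset.notMem_empty v) h1
    exact absurd (hmin F' (mem_facets.2 ⟨hF', hc'⟩)) (not_le.2 hlt)
  set μ : Finset V → ℝ := fun F => D (∏ v ∈ F, X v) with hμ
  have hκ : 0 < kap μ c F₁ := div_pos (hD.k3 F₁ hF hc) (Finset.prod_pos hneg)
  have hval : ∀ b : MvPolynomial (Option V) ℝ,
      DT μ c {F₁} b = kap μ c F₁ * aeval (lam (c F₁)) b := by
    intro b
    rw [DT, Finset.sum_singleton, LinearMap.smul_apply, smul_eq_mul]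
    rfl
  set l := theta (optP p f o τ) x with hl
  have hlz : aeval (lam (c F₁)) l = τ - t F₁ := by
    have h1 := ev_theta_opt hg hF₁ τ x
    rw [hx, mul_one] at h1
    exact h1
  have hpos : 0 < τ - t F₁ := by linarith
  intro a ha hprim
  by_cases haz : aeval (lam (c F₁)) a = 0
  · right
    intro b hb
    rw [hval, map_mul, haz, zero_mul, mul_zero]
  · left
    obtain rfl | hk0 := Nat.eq_zero_or_pos k
    · rw [hval, map_mul, map_pow, map_pow, hlz]
      have : 0 < (aeval (lam (c F₁)) a) ^ 2 := by positivity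
      positivity
    · exfalso
      apply haz
      have h1 := hprim (k - 1) (X none ^ (k - 1)) (by omega) (isHomogeneous_X_pow none (k - 1))
      rw [hval, map_mul, map_mul, map_pow, map_pow, hlz, aeval_X] at h1
      have h2 : lam (c F₁) none = 1 := rfl
      rw [h2, one_pow, mul_one] at h1
      rcases mul_eq_zero.1 h1 with h3 | h3
      · exact absurd h3 hκ.ne'
      · rcases mul_eq_zero.1 h3 with h4 | h4
        · exact h4
        · exact absurd h4 (pow_pos hpos _).ne'

end SW

end MP46
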