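import Pool.Agent.Lib.MP_46e101_co.Defs
import Pool.Agent.Lib.MP_46e101_co.ANA0
import Pool.Agent.Lib.MP_46e101_co.ANAL
import Pool.Agent.Lib.MP_46e101_co.ANAO

open MvPolynomial

universe u w

noncomputable section

namespace MP46

section TRANS
variable {V : Type u} [Finite V]

omit [Finite V] in
private lemma tev_mul (z : V → ℝ) (a b : MvPolynomial V ℝ) :
    evL z (a * b) = evL z a * evL z b := by simp [evL]

omit [Finite V] in
private lemma tev_pow (z : V → ℝ) (a : MvPolynomial V ℝ) (r : ℕ) :
    evL z (a ^ r) = (evL z a) ^ r := by simp [evL]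

omit [Finite V] in
private lemma tls_hom {l m : MvPolynomial V ℝ} (hl : l.IsHomogeneous 1) (hm : m.IsHomogeneous 1)
    (s : ℝ) : (l + s • m).IsHomogeneous 1 :=
  (mem_homogeneousSubmodule _ _).mp (Submodule.add_mem _ ((mem_homogeneousSubmodule _ _).mpr hl)
    (Submodule.smul_mem _ _ ((mem_homogeneousSubmodule _ _).mpr hm)))

omit [Finite V] in
private lemma tls_ev {l m : MvPolynomial V ℝ} {z : V → ℝ} (hlz : evL z l = 0)
    (hmz : evL z m = 1) (s : ℝ) : evL z (l + s • m) = s := by
  rw [map_add, map_smul, hlz, hmz]; simp

omit [Finite V] in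
private lemma tpow_hom {l : MvPolynomial V ℝ} (hl : l.IsHomogeneous 1) (r : ℕ) :
    (l ^ r).IsHomogeneous r := by
  simpa using hl.pow r

omit [Finite V] in
private lemma tD_apply (D : MvPolynomial V ℝ →ₗ[ℝ] ℝ) (κ : ℝ) (z : V → ℝ)
    (a : MvPolynomial V ℝ) : (D + κ • evL z) a = D a + κ * evL z a := by
  simp

omit [Finite V] in
/-- If all primitive elements for `D'` vanish at `z` then HR passes from `D` to `D'`. -/
private lemma t_same {D : MvPolynomial V ℝ →ₗ[ℝ] ℝ} {κ : ℝ} {z : V → ℝ}
    {l : MvPolynomial V ℝ} {n k : ℕ}
    (h : ∀ a : MvPolynomial V ℝ, a.IsHomogeneous k → Prim (D + κ • evL z) l n k a → evL z a = 0)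
    (H : HRs D l n k) : HRs (D + κ • evL z) l n k := by
  intro a ha hp
  have h0 := h a ha hp
  have hD : ∀ c, (D + κ • evL z) (a * c) = D (a * c) := by
    intro c
    rw [tD_apply, tev_mul, h0]; ring
  have hp' : Prim D l n k a := by
    intro j b hj hb
    have := hp j b hj hb
    rw [mul_assoc, hD, ← mul_assoc] at this
    exact this
  rcases H a ha hp' with h1 | h1
  · left
    rw [sq, mul_assoc] at h1 ⊢
    rw [hD]; exact h1
  · right
    intro b hb
    rw [hD]; exact h1 b hb

omit [Finite V] in
/-- coincidence of the forms at `s = 0`. -/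
private lemma t_zero {D : MvPolynomial V ℝ →ₗ[ℝ] ℝ} {κ : ℝ} {z : V → ℝ}
    {l : MvPolynomial V ℝ} {n k : ℕ} (hl : l.IsHomogeneous 1) (hlz : evL z l = 0)
    (hk : 2 * k < n) (hnd : ND (D + κ • evL z) l n k)
    (H : HRs D l n k) : HRs (D + κ • evL z) l n k := by
  intro a ha hp
  have hD : ∀ (c : MvPolynomial V ℝ) (r : ℕ), r ≠ 0 →
      (D + κ • evL z) (c * l ^ r) = D (c * l ^ r) := by
    intro c r hr
    rw [tD_apply, tev_mul, tev_pow, hlz, zero_pow hr]; ring
  have hp' : Prim D l n k a := by
    intro j b hj hb
    have := hp j b hj hb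
    rw [hD _ _ (by omega)] at this
    exact this
  rcases H a ha hp' with h1 | h1
  · left
    rw [hD _ _ (by omega)]; exact h1
  · right
    apply hnd a ha
    intro b hb
    rw [hD _ _ (by omega), mul_assoc]
    apply h1
    have := hb.mul (tpow_hom hl (n - 2 * k))
    rwa [show k + (n - 2 * k) = n - k by omega] at this

private lemma t_star {D : MvPolynomial V ℝ →ₗ[ℝ] ℝ} {l m : MvPolynomial V ℝ}
    (hl : l.IsHomogeneous 1) (hm : m.IsHomogeneous 1) {n k : ℕ} (hk : 2 * k ≤ n)
    (hnd : ∀ j, j + 1 = k → ND D l n j) (hndk : 2 * k < n → ND D l n k)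
    (H : ∀ᶠ s in nhdsWithin (0 : ℝ) (Set.Iio 0), HRs D (l + s • m) n k) :
    HRs D l n k := by
  have hm' : (-m).IsHomogeneous 1 :=
    (mem_homogeneousSubmodule _ _).mp (Submodule.neg_mem _ ((mem_homogeneousSubmodule _ _).mpr hm))
  have hneg : Filter.Tendsto (fun s : ℝ => -s) (nhdsWithin (0 : ℝ) (Set.Ioi 0))
      (nhdsWithin (0 : ℝ) (Set.Iio 0)) := by
    apply tendsto_nhdsWithin_of_tendsto_nhds_of_eventually_within
    · have : Filter.Tendsto (fun s : ℝ => -s) (nhds 0) (nhds (-0)) := tendsto_neg 0
      rw [neg_zero] at this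
      exact this.mono_left nhdsWithin_le_nhds
    · filter_upwards [self_mem_nhdsWithin] with s hs
      simpa using hs
  have H' : ∀ᶠ s in nhdsWithin (0 : ℝ) (Set.Ioi 0), HRs D (l + s • (-m)) n k := by
    filter_upwards [hneg.eventually H] with s hs
    simpa using hs
  have hw := hrw_limit hl hm' hk hnd H'
  apply hrs_of_hrw hl hk hnd ?_ hw
  rcases lt_or_eq_of_le hk with h | h
  · exact hndk h
  · intro a ha hb b hbh
    have h1 := hb b (by rwa [show n - k = k by omega] at hbh)
    rw [show n - 2 * k = 0 by omega, pow_zero, mul_one] at h1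
    exact h1

theorem transfer {D : MvPolynomial V ℝ →ₗ[ℝ] ℝ} {κ : ℝ} {z : V → ℝ}
    {l m e₁ e₂ : MvPolynomial V ℝ} {n N N' : ℕ}
    (hl : l.IsHomogeneous 1) (hm : m.IsHomogeneous 1) (hlz : evL z l = 0) (hmz : evL z m = 1)
    (he₁ : e₁.IsHomogeneous N) (he₂ : e₂.IsHomogeneous N')
    (he₁z : evL z e₁ ≠ 0) (he₂z : evL z e₂ ≠ 0)
    (hN : N + N' = n + 1) (hN1 : 1 ≤ N) (hN1' : 1 ≤ N')
    (hκ : 0 < (-1 : ℝ) ^ N * κ)
    (hD₁ : ∀ b : MvPolynomial V ℝ, b.IsHomogeneous (n - N) → D (e₁ * b) = 0)
    (hD₂ : ∀ b : MvPolynomial V ℝ, b.IsHomogeneous (n - N') → (D + κ • evL z) (e₂ * b) = 0)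
    (hnd₁ : ∀ j, j < N' → 2 * j < n → ND D l n j)
    (hnd₂ : ∀ j, j < N → 2 * j < n → ND (D + κ • evL z) l n j)
    (H : ∀ k, 2 * k ≤ n → ∀ᶠ s in nhdsWithin (0 : ℝ) (Set.Iio 0), HRs D (l + s • m) n k) :
    ∀ k, 2 * k ≤ n → ∀ᶠ s in nhdsWithin (0 : ℝ) (Set.Ioi 0),
      HRs (D + κ • evL z) (l + s • m) n k := by
  intro k hk
  have hκ0 : κ ≠ 0 := by
    rintro rfl; simp at hκ
  have hstar : k < N' → HRs D l n k := by
    intro hkN
    apply t_star hl hm hk _ _ (H k hk)
    · intro j hj
      exact hnd₁ j (by omega) (by omega)
    · intro h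
      exact hnd₁ k hkN h
  rcases le_or_gt (2 * N) n with hcase | hcase
  · -- Case I
    have hkN' : k < N' := by omega
    have hopen : ∀ᶠ s in nhds (0 : ℝ), HRs D (l + s • m) n k :=
      hrs_open hl hm hk (hstar hkN')
    rcases lt_trichotomy k N with hkN | hkN | hkN
    · -- k < N
      have h0 : HRs (D + κ • evL z) l n k :=
        t_zero hl hlz (by omega) (hnd₂ k hkN (by omega)) (hstar hkN')
      exact (hrs_open hl hm hk h0).filter_mono nhdsWithin_le_nhds
    · -- k = N
      by_cases hb0 : ∃ b₀ : MvPolynomial V ℝ, b₀.IsHomogeneous (k - 1) ∧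
          Ann D (n - (k - 1)) b₀ ∧ evL z b₀ ≠ 0
      · obtain ⟨b₀, hb₀, hann, hb₀z⟩ := hb0
        filter_upwards [hopen.filter_mono nhdsWithin_le_nhds, self_mem_nhdsWithin] with s hs hs0
        have hs0' : (0 : ℝ) < s := hs0
        refine t_same ?_ hs
        intro a ha hp
        have h1 := hp (k - 1) b₀ (by omega) hb₀
        rw [tD_apply] at h1
        have h2 : D (a * b₀ * (l + s • m) ^ (n - 2 * k + 1)) = 0 := by
          rw [mul_comm a b₀, mul_assoc]
          apply hann
          have := ha.mul (tpow_hom (tls_hom hl hm s) (n - 2 * k + 1))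
          rwa [show k + (n - 2 * k + 1) = n - (k - 1) by omega] at this
        rw [h2, zero_add, tev_mul, tev_mul, tev_pow, tls_ev hlz hmz] at h1
        have h3 : s ^ (n - 2 * k + 1) ≠ 0 := pow_ne_zero _ hs0'.ne'
        by_contra hne
        exact (mul_ne_zero hκ0 (mul_ne_zero (mul_ne_zero hne hb₀z) h3)) h1
      · push Not at hb0
        obtain ⟨N0, e, γ, heh, hγ, hsol, _⟩ := solve (D := D) (l := l) (m := m) hl hm
          (n := n) (j := k - 1) (by omega) (hnd₁ (k - 1) (by omega) (by omega))
          (fun _ => evL z) (fun b => continuous_const)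
          (fun _ b hb hann => hb0 b hb hann)
        -- the value at `z` of the solution is bounded near `0`
        have hcont : ContinuousAt (fun s : ℝ => 1 + κ * s ^ (n - 2 * k + 2) *
            (∑ i, γ i s * evL z (e i))) 0 := by
          apply ContinuousAt.add continuousAt_const
          apply ContinuousAt.mul (by fun_prop)
          apply tendsto_finsetSum
          intro i _
          exact (hγ i).mul continuousAt_const
        have hpos : ∀ᶠ s in nhds (0 : ℝ), 0 < 1 + κ * s ^ (n - 2 * k + 2) *
            (∑ i, γ i s * evL z (e i)) := by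
          apply hcont.eventually (lt_mem_nhds _)
          have h0 : (0 : ℝ) ^ (n - 2 * k + 2) = 0 := zero_pow (by omega)
          simp only [h0]; simp
        filter_upwards [hopen.filter_mono nhdsWithin_le_nhds, self_mem_nhdsWithin,
          hsol.filter_mono nhdsWithin_le_nhds, hpos.filter_mono nhdsWithin_le_nhds]
          with s hs hs0 hsols hposs
        have hs0' : (0 : ℝ) < s := hs0
        set ls := l + s • m with hls
        have hlsh : ls.IsHomogeneous 1 := tls_hom hl hm s
        have hlsz : evL z ls = s := tls_ev hlz hmz s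
        set c : MvPolynomial V ℝ := ∑ i, γ i s • e i with hc
        have hch : c.IsHomogeneous (k - 1) := by
          apply (mem_homogeneousSubmodule _ _).mp
          exact Submodule.sum_mem _ fun i _ => Submodule.smul_mem _ _
            ((mem_homogeneousSubmodule _ _).mpr (heh i))
        have hcz : evL z c = ∑ i, γ i s * evL z (e i) := by
          rw [hc, map_sum]
          exact Finset.sum_congr rfl fun i _ => by rw [map_smul, smul_eq_mul]
        have hsol' : ∀ b : MvPolynomial V ℝ, b.IsHomogeneous (k - 1) →
            D (c * b * ls ^ (n - 2 * k + 2)) = evL z b := by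
          intro b hb
          have := hsols b hb
          rwa [show n - 2 * (k - 1) = n - 2 * k + 2 by omega] at this
        intro a ha hp
        by_cases hα : evL z a = 0
        · -- as before
          have hD : ∀ c, (D + κ • evL z) (a * c) = D (a * c) := by
            intro c
            rw [tD_apply, tev_mul, hα]; ring
          have hp' : Prim D ls n k a := by
            intro j b hj hb
            have := hp j b hj hb
            rw [mul_assoc, hD, ← mul_assoc] at this
            exact this
          rcases hs a ha hp' with h1 | h1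
          · left
            rw [sq, mul_assoc] at h1 ⊢
            rw [hD]; exact h1
          · right
            intro b hb
            rw [hD]; exact h1 b hb
        · left
          set α := evL z a with hαdef
          set τ : ℝ := κ * s ^ (n - 2 * k + 1) * α with hτ
          set a2 : MvPolynomial V ℝ := a + τ • (c * ls) with ha2
          have ha2h : a2.IsHomogeneous k := by
            apply (mem_homogeneousSubmodule _ _).mp
            refine Submodule.add_mem _ ((mem_homogeneousSubmodule _ _).mpr ha)
              (Submodule.smul_mem _ _ ((mem_homogeneousSubmodule _ _).mpr ?_))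
            have := hch.mul hlsh
            rwa [show k - 1 + 1 = k by omega] at this
          have hprim : Prim D ls n k a2 := by
            intro j b hj hb
            have h1 := hp j b hj hb
            rw [tD_apply, tev_mul, tev_mul, tev_pow, hlsz] at h1
            have hj' : j = k - 1 := by omega
            subst hj'
            have h2 := hsol' b hb
            have h3 : a2 * b * ls ^ (n - 2 * k + 1) =
                a * b * ls ^ (n - 2 * k + 1) + τ • (c * b * ls ^ (n - 2 * k + 2)) := by
              rw [ha2, smul_eq_C_mul, smul_eq_C_mul]; ring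
            rw [h3, map_add, map_smul, h2, smul_eq_mul, hτ]
            linarith
          have hquad : D (a ^ 2 * ls ^ (n - 2 * k)) =
              D (a2 ^ 2 * ls ^ (n - 2 * k)) + τ ^ 2 * evL z c := by
            have h1 := hprim (k - 1) c (by omega) hch
            have h2 := hsol' c hch
            have h3 : a ^ 2 * ls ^ (n - 2 * k) = a2 ^ 2 * ls ^ (n - 2 * k) -
                (2 * τ) • (a2 * c * ls ^ (n - 2 * k + 1)) +
                (τ ^ 2) • (c * c * ls ^ (n - 2 * k + 2)) := by
              rw [ha2]
              simp only [smul_eq_C_mul, map_mul, map_pow, map_ofNat]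
              ring
            rw [h3, map_add, map_sub, map_smul, map_smul, h1, h2]
            simp
          have hge : 0 ≤ (-1 : ℝ) ^ k * D (a2 ^ 2 * ls ^ (n - 2 * k)) := by
            rcases hs a2 ha2h hprim with h1 | h1
            · exact h1.le
            · have : D (a2 ^ 2 * ls ^ (n - 2 * k)) = 0 := by
                rw [sq, mul_assoc]
                apply h1
                have := ha2h.mul (tpow_hom hlsh (n - 2 * k))
                rwa [show k + (n - 2 * k) = n - k by omega] at this
              rw [this]; simp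
          rw [tD_apply, tev_mul, tev_pow, tev_pow, hlsz, hquad]
          have hval : (-1 : ℝ) ^ k * (D (a2 ^ 2 * ls ^ (n - 2 * k)) + τ ^ 2 * evL z c +
              κ * (α ^ 2 * s ^ (n - 2 * k))) = (-1 : ℝ) ^ k * D (a2 ^ 2 * ls ^ (n - 2 * k)) +
              ((-1 : ℝ) ^ k * κ) * (α ^ 2 * s ^ (n - 2 * k)) *
                (1 + κ * s ^ (n - 2 * k + 2) * evL z c) := by
            rw [hτ]; ring
          rw [hval]
          have hκ' : 0 < (-1 : ℝ) ^ k * κ := by rw [hkN]; exact hκ
          rw [← hcz] at hposs
          have h5 : 0 < α ^ 2 * s ^ (n - 2 * k) :=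
            mul_pos (by positivity) (pow_pos hs0' _)
          have := mul_pos (mul_pos hκ' h5) hposs
          linarith
    · -- k > N
      filter_upwards [hopen.filter_mono nhdsWithin_le_nhds, self_mem_nhdsWithin] with s hs hs0
      have hs0' : (0 : ℝ) < s := hs0
      refine t_same ?_ hs
      intro a ha hp
      have heh : (e₁ * m ^ (k - 1 - N)).IsHomogeneous (k - 1) := by
        have := he₁.mul (tpow_hom hm (k - 1 - N))
        rwa [show N + (k - 1 - N) = k - 1 by omega] at this
      have h1 := hp (k - 1) _ (by omega) heh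
      rw [tD_apply] at h1
      have h2 : D (a * (e₁ * m ^ (k - 1 - N)) * (l + s • m) ^ (n - 2 * k + 1)) = 0 := by
        have : a * (e₁ * m ^ (k - 1 - N)) * (l + s • m) ^ (n - 2 * k + 1) =
            e₁ * (a * m ^ (k - 1 - N) * (l + s • m) ^ (n - 2 * k + 1)) := by ring
        rw [this]
        apply hD₁
        have := (ha.mul (tpow_hom hm (k - 1 - N))).mul
          (tpow_hom (tls_hom hl hm s) (n - 2 * k + 1))
        rwa [show k + (k - 1 - N) + (n - 2 * k + 1) = n - N by omega] at this
      rw [h2, zero_add, tev_mul, tev_mul, tev_mul, tev_pow, tev_pow, tls_ev hlz hmz, hmz,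
        one_pow, mul_one] at h1
      have h3 : s ^ (n - 2 * k + 1) ≠ 0 := pow_ne_zero _ hs0'.ne'
      by_contra hne
      exact (mul_ne_zero hκ0 (mul_ne_zero (mul_ne_zero hne he₁z) h3)) h1
  · -- Case II
    suffices h : HRs (D + κ • evL z) l n k from
      (hrs_open hl hm hk h).filter_mono nhdsWithin_le_nhds
    rcases lt_or_ge k N' with hkN | hkN
    · exact t_zero hl hlz (by omega) (hnd₂ k (by omega) (by omega)) (hstar hkN)
    · apply t_star hl hm hk
      · intro j hj
        exact hnd₂ j (by omega) (by omega)
      · intro h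
        exact hnd₂ k (by omega) h
      · filter_upwards [H k hk] with s hs
        set ls := l + s • m with hls
        have hlsh : ls.IsHomogeneous 1 := tls_hom hl hm s
        set e := e₂ * m ^ (k - N') with he
        have heh : e.IsHomogeneous k := by
          have := he₂.mul (tpow_hom hm (k - N'))
          rwa [show N' + (k - N') = k by omega] at this
        have hez : evL z e ≠ 0 := by
          rw [he, tev_mul, tev_pow, hmz, one_pow, mul_one]; exact he₂z
        have hDe : ∀ c : MvPolynomial V ℝ, c.IsHomogeneous (n - k) →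
            (D + κ • evL z) (e * c) = 0 := by
          intro c hc
          rw [he, mul_assoc]
          apply hD₂
          have := (tpow_hom hm (k - N')).mul hc
          rwa [show k - N' + (n - k) = n - N' by omega] at this
        intro a ha hp
        set a' := a - (evL z a / evL z e) • e with ha'
        have ha'h : a'.IsHomogeneous k := by
          apply (mem_homogeneousSubmodule _ _).mp
          exact Submodule.sub_mem _ ((mem_homogeneousSubmodule _ _).mpr ha)
            (Submodule.smul_mem _ _ ((mem_homogeneousSubmodule _ _).mpr heh))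
        have ha'z : evL z a' = 0 := by
          rw [ha', map_sub, map_smul, smul_eq_mul, div_mul_cancel₀ _ hez, sub_self]
        have h1 : ∀ c : MvPolynomial V ℝ, c.IsHomogeneous (n - k) →
            (D + κ • evL z) (a' * c) = (D + κ • evL z) (a * c) := by
          intro c hc
          rw [ha', sub_mul, smul_mul_assoc, map_sub, map_smul, hDe c hc, smul_zero, sub_zero]
        have h2 : ∀ c : MvPolynomial V ℝ, D (a' * c) = (D + κ • evL z) (a' * c) := by
          intro c
          rw [tD_apply, tev_mul, ha'z]; ring
        have hp' : Prim D ls n k a' := by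
          intro j b hj hb
          have hbh : (b * ls ^ (n - 2 * k + 1)).IsHomogeneous (n - k) := by
            have := hb.mul (tpow_hom hlsh (n - 2 * k + 1))
            rwa [show j + (n - 2 * k + 1) = n - k by omega] at this
          have := hp j b hj hb
          rw [mul_assoc] at this ⊢
          rw [h2, h1 _ hbh]; exact this
        rcases hs a' ha'h hp' with h3 | h3
        · left
          have h4 : D (a' ^ 2 * ls ^ (n - 2 * k)) = (D + κ • evL z) (a ^ 2 * ls ^ (n - 2 * k)) := by
            have hh : ∀ {q : MvPolynomial V ℝ}, q.IsHomogeneous k →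
                (q * ls ^ (n - 2 * k)).IsHomogeneous (n - k) := by
              intro q hq
              have := hq.mul (tpow_hom hlsh (n - 2 * k))
              rwa [show k + (n - 2 * k) = n - k by omega] at this
            rw [sq, mul_assoc, h2, h1 _ (hh ha'h)]
            have : a * (a' * ls ^ (n - 2 * k)) = a' * (a * ls ^ (n - 2 * k)) := by ring
            rw [this, h1 _ (hh ha), sq, mul_assoc]
          rw [← h4]; exact h3
        · right
          intro b hb
          rw [← h1 b hb, ← h2]
          exact h3 b hb

end TRANS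

end MP46
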