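import Pool.Agent.Lib.MP_46e101_co.Defs
import Pool.Agent.Lib.MP_46e101_co.PRESC
import Pool.Agent.Lib.MP_46e101_co.FACES
import Pool.Agent.Lib.MP_46e101_co.GEN

open MvPolynomial

universe u w

noncomputable section

namespace MP46

section TRS
variable {V : Type u} [Fintype V] [DecidableEq V] {U : Type w} [AddCommGroup U] [Module ℝ U]
  {o : Module.Dual ℝ U} {p : V → Module.Dual ℝ U} {n : ℕ} {f : Module.Dual ℝ U}
  {t : Finset V → ℝ} {c : Finset V → V → ℝ}

set_option linter.unusedSectionVars false

/-- the labels of the old kind. -/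
private def un (G : Finset (Option V)) : Finset V :=
  Finset.univ.filter fun v => some v ∈ G

private theorem mem_un {G : Finset (Option V)} {v : V} : v ∈ un G ↔ some v ∈ G := by
  simp [un]

private theorem un_subset {G : Finset (Option V)} {F : Finset V} :
    un G ⊆ F ↔ ∀ v, some v ∈ G → v ∈ F := by
  constructor
  · intro h v hv
    exact h (mem_un.2 hv)
  · intro h v hv
    exact h v (mem_un.1 hv)

private theorem optP_none (τ : ℝ) : optP p f o τ none = f + τ • o := rfl

private theorem optP_some (τ : ℝ) (v : V) : optP p f o τ (some v) = p v := rfl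

private theorem optP_none_apply {τ : ℝ} {x : U} (h1 : o x = 1) :
    optP p f o τ none x = f x + τ := by
  rw [optP_none, LinearMap.add_apply, LinearMap.smul_apply, h1, smul_eq_mul, mul_one]

private theorem pp_optP {τ : ℝ} {x : U} :
    x ∈ PP o (optP p f o τ) ↔ x ∈ PP o p ∧ -τ ≤ f x := by
  constructor
  · rintro ⟨h1, h2⟩
    refine ⟨⟨h1, fun v => h2 (some v)⟩, ?_⟩
    have := h2 none
    rw [optP_none_apply h1] at this
    linarith
  · rintro ⟨⟨h1, h2⟩, h3⟩
    refine ⟨h1, ?_⟩
    intro v
    cases v with
    | none =>
      rw [optP_none_apply h1]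
      linarith
    | some v => exact h2 v

private theorem mem_act' {W : Type u} [Fintype W] {q : W → Module.Dual ℝ U} {x : U} {v : W} :
    v ∈ act q x ↔ q v x = 0 := by
  simp [act]

private theorem some_mem_act {τ : ℝ} {x : U} {v : V} :
    some v ∈ act (optP p f o τ) x ↔ v ∈ act p x := by
  rw [mem_act', mem_act', optP_some]

private theorem none_mem_act {τ : ℝ} {x : U} (hx : o x = 1) :
    none ∈ act (optP p f o τ) x ↔ f x = -τ := by
  rw [mem_act', optP_none_apply hx]
  constructor
  · intro h
    linarith
  · intro h
    linarith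

private theorem face_optP {τ : ℝ} {G : Finset (Option V)} :
    Face o (optP p f o τ) G ↔
      ∃ x ∈ PP o p, un G ⊆ act p x ∧ -τ ≤ f x ∧ (none ∈ G → f x = -τ) := by
  constructor
  · rintro ⟨x, hx, hG⟩
    obtain ⟨h1, h2⟩ := pp_optP.1 hx
    refine ⟨x, h1, ?_, h2, ?_⟩
    · rw [un_subset]
      intro v hv
      exact some_mem_act.1 (hG hv)
    · intro hn
      exact (none_mem_act h1.1).1 (hG hn)
  · rintro ⟨x, hx, h1, h2, h3⟩
    refine ⟨x, pp_optP.2 ⟨hx, h2⟩, ?_⟩
    intro a ha
    cases a with
    | none => exact (none_mem_act hx.1).2 (h3 ha)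
    | some v => exact some_mem_act.2 (un_subset.1 h1 v ha)

private theorem facet_above (h : Ord n o p) (hg : Gen n o p f t c) {x : U} (hx : x ∈ PP o p) :
    ∃ F : Finset V, Face o p F ∧ F.card = n ∧ act p x ⊆ F ∧ t F ≤ -f x := by
  obtain ⟨x1, h1, h2, h3, h4⟩ := h.vertex_above hx f
  refine ⟨act p x1, ⟨x1, h1, subset_rfl⟩, h4, h2, ?_⟩
  have := hg.val ⟨x1, h1, subset_rfl⟩ h4 h1.1 (fun v hv => mem_act'.1 hv)
  linarith

private theorem facet_below (h : Ord n o p) (hg : Gen n o p f t c) {x : U} (hx : x ∈ PP o p) :
    ∃ F : Finset V, Face o p F ∧ F.card = n ∧ act p x ⊆ F ∧ -f x ≤ t F := by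
  obtain ⟨x1, h1, h2, h3, h4⟩ := h.vertex_above hx (-f)
  refine ⟨act p x1, ⟨x1, h1, subset_rfl⟩, h4, h2, ?_⟩
  have := hg.val ⟨x1, h1, subset_rfl⟩ h4 h1.1 (fun v hv => mem_act'.1 hv)
  simp only [LinearMap.neg_apply] at h3
  linarith

private theorem mem_below {F : Finset V} {τ : ℝ} :
    F ∈ below n o p t τ ↔ (Face o p F ∧ F.card = n) ∧ t F < τ := by
  simp [below, mem_facets]

private theorem mem_belowEq {F : Finset V} {τ : ℝ} :
    F ∈ belowEq n o p t τ ↔ (Face o p F ∧ F.card = n) ∧ t F ≤ τ := by
  simp [belowEq, mem_facets]

private theorem some_mem_posSet {F : Finset V} {v : V} :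
    some v ∈ posSet c F ↔ v ∈ F ∧ 0 < c F v := by
  simp [posSet]

private theorem none_mem_posSet {F : Finset V} : none ∉ posSet c F := by
  simp [posSet]

private theorem some_mem_negSet {F : Finset V} {v : V} :
    some v ∈ negSet c F ↔ v ∈ F ∧ c F v < 0 := by
  simp [negSet]

private theorem none_mem_negSet {F : Finset V} : none ∈ negSet c F := by
  simp [negSet]

private theorem ind_opt {τ : ℝ} {G : Finset (Option V)} :
    Ind (optP p f o τ) G ↔ ∀ (a : ℝ) (r : V → ℝ), (none ∉ G → a = 0) →
      a • (f + τ • o) + ∑ v ∈ un G, r v • p v = 0 → a = 0 ∧ ∀ v ∈ un G, r v = 0 := by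
  have key : ∀ (r : Option V → ℝ), ∑ v ∈ G, r v • optP p f o τ v =
      (if none ∈ G then r none else 0) • (f + τ • o) + ∑ v ∈ un G, r (some v) • p v := by
    intro r
    have h1 : ∑ v ∈ G, r v • optP p f o τ v =
        ∑ v : Option V, if v ∈ G then r v • optP p f o τ v else 0 := by
      rw [Finset.sum_ite_mem, Finset.univ_inter]
    rw [h1, Fintype.sum_option]
    congr 1
    · by_cases hn : none ∈ G
      · simp [hn, optP_none]
      · simp [hn]
    · rw [un, Finset.sum_filter]
      rfl
  rw [ind_iff]
  constructor
  · intro H a r ha hr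
    have h1 := H (fun v => match v with
      | none => a
      | some v => r v) (by
        rw [key]
        by_cases hn : none ∈ G
        · simpa [hn] using hr
        · have := ha hn
          subst this
          simpa [hn] using hr)
    constructor
    · by_cases hn : none ∈ G
      · exact h1 none hn
      · exact ha hn
    · intro v hv
      exact h1 (some v) (mem_un.1 hv)
  · intro H r hr
    rw [key] at hr
    obtain ⟨h1, h2⟩ := H _ (fun v => r (some v)) (by
      intro hn
      simp [hn]) hr
    intro v hv
    cases v with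
    | none => simpa [hv] using h1
    | some v => exact h2 v (mem_un.2 hv)

theorem trunc_spec (h : Ord n o p) (hg : Gen n o p f t c) {F₀ : Finset V}
    (hF₀ : F₀ ∈ facets n o p) (hex : ∃ F ∈ facets n o p, t F < t F₀) :
    ∃ xs : U, Spec n o (optP p f o (t F₀)) (posSet c F₀) (negSet c F₀) xs ∧
      (∀ G, SFace o (optP p f o (t F₀)) (posSet c F₀) G ↔
        TFace n o p (below n o p t (t F₀)) G) ∧
      (∀ G, SFace o (optP p f o (t F₀)) (negSet c F₀) G ↔
        TFace n o p (belowEq n o p t (t F₀)) G) := by
  rw [mem_facets] at hF₀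
  obtain ⟨hF, hFc⟩ := hF₀
  obtain ⟨F1, hF1, hlt⟩ := hex
  rw [mem_facets] at hF1
  obtain ⟨xs, hxs, hact, huniq⟩ := h.facet_point hF hFc
  have hfxs : f xs = - t F₀ := hg.val hF hFc hxs.1 (fun v hv => by
    rw [← hact] at hv
    exact mem_act'.1 hv)
  have hrep := hg.rep F₀ hF hFc
  have hrep' : f + t F₀ • o = ∑ v ∈ F₀, c F₀ v • p v := by
    rw [hrep]
    module
  have hindF : Ind p F₀ := h.ind hF
  refine ⟨xs, ?_, ?_, ?_⟩
  · -- Spec
    have hunion : posSet c F₀ ∪ negSet c F₀ = insert none (F₀.map Function.Embedding.some) := by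
      ext a
      cases a with
      | none => simp [none_mem_negSet]
      | some v =>
        rw [Finset.mem_union, some_mem_posSet, some_mem_negSet]
        simp only [Finset.mem_insert, reduceCtorEq, Finset.mem_map, Function.Embedding.some_apply,
          Option.some.injEq, exists_eq_right, false_or]
        constructor
        · rintro (h1 | h1)
          · exact h1.1
          · exact h1.1
        · intro hv
          rcases lt_trichotomy (c F₀ v) 0 with h1 | h1 | h1
          · exact Or.inr ⟨hv, h1⟩
          · exact absurd h1 (hg.nz F₀ hF hFc v hv)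
          · exact Or.inl ⟨hv, h1⟩
    have hdisj : Disjoint (posSet c F₀) (negSet c F₀) := by
      rw [Finset.disjoint_left]
      intro a
      cases a with
      | none => intro h1; exact absurd h1 none_mem_posSet
      | some v =>
        rw [some_mem_posSet, some_mem_negSet]
        rintro ⟨_, h1⟩ ⟨_, h2⟩
        linarith
    have hcard : (posSet c F₀).card + (negSet c F₀).card = n + 1 := by
      rw [← Finset.card_union_of_disjoint hdisj, hunion, Finset.card_insert_of_notMem (by simp),
        Finset.card_map, hFc]
    refine ⟨h.dim, ?_, ?_, ?_, hdisj, hcard, ?_, ⟨none, none_mem_negSet⟩, ?_, ?_, ?_⟩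
    · intro x hx hox
      obtain ⟨v, hv⟩ := h.bdd x hx hox
      exact ⟨some v, hv⟩
    · rw [pp_optP]
      exact ⟨hxs, by rw [hfxs]⟩
    · rw [hunion]
      ext a
      cases a with
      | none =>
        rw [none_mem_act hxs.1]
        simp [hfxs]
      | some v =>
        rw [some_mem_act, hact]
        simp
    · by_contra hne
      rw [Finset.not_nonempty_iff_eq_empty] at hne
      have := hg.le_of_pos h hF hFc hF1.1 hF1.2 (by
        intro v hv hpos
        have : some v ∈ posSet c F₀ := some_mem_posSet.2 ⟨hv, hpos⟩
        rw [hne] at this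
        exact absurd this (Finset.notMem_empty _))
      linarith
    · refine ⟨fun v => match v with
        | none => 1
        | some v => |c F₀ v|, ?_, ?_⟩
      · intro a ha
        cases a with
        | none => simp
        | some v =>
          rw [hunion] at ha
          have hv : v ∈ F₀ := by simpa using ha
          exact abs_pos.2 (hg.nz F₀ hF hFc v hv)
      · rw [posSet, negSet, Finset.sum_insert (by simp), Finset.sum_map, Finset.sum_map]
        simp only [Function.Embedding.some_apply, optP_some, optP_none, one_smul]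
        rw [hrep']
        rw [← Finset.sum_filter_add_sum_filter_not F₀ (fun v => 0 < c F₀ v) (fun v => c F₀ v • p v)]
        have e1 : F₀.filter (fun v => ¬ 0 < c F₀ v) = F₀.filter (fun v => c F₀ v < 0) := by
          apply Finset.filter_congr
          intro v hv
          constructor
          · intro h1
            exact lt_of_le_of_ne (not_lt.1 h1) (hg.nz F₀ hF hFc v hv)
          · intro h1
            exact not_lt.2 h1.le
        rw [e1, add_assoc, ← Finset.sum_add_distrib]
        have e2 : ∑ v ∈ F₀.filter (fun v => c F₀ v < 0), (c F₀ v • p v + |c F₀ v| • p v) = 0 := by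
          apply Finset.sum_eq_zero
          intro v hv
          rw [Finset.mem_filter] at hv
          rw [abs_of_neg hv.2]
          module
        rw [e2, add_zero]
        apply Finset.sum_congr rfl
        intro v hv
        rw [Finset.mem_filter] at hv
        rw [abs_of_pos hv.2]
    · -- circuit
      rw [hunion]
      intro a ha
      cases a with
      | none =>
        rw [ind_opt]
        intro a r ha hr
        have ha0 : a = 0 := ha (by simp)
        refine ⟨ha0, ?_⟩
        have hun : un ((insert none (F₀.map Function.Embedding.some)).erase none) = F₀ := by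
          ext v
          simp [mem_un]
        rw [hun] at hr ⊢
        rw [ha0, zero_smul, zero_add] at hr
        exact ind_iff.1 hindF r hr
      | some v0 =>
        have hv0 : v0 ∈ F₀ := by simpa using ha
        rw [ind_opt]
        intro a r _ hr
        have hun : un ((insert none (F₀.map Function.Embedding.some)).erase (some v0)) =
            F₀.erase v0 := by
          ext v
          simp [mem_un]
        rw [hun] at hr ⊢
        rw [hrep', Finset.smul_sum] at hr
        have e1 : ∑ v ∈ F₀.erase v0, r v • p v = ∑ v ∈ F₀, (if v = v0 then 0 else r v) • p v := by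
          rw [← Finset.add_sum_erase F₀ _ hv0]
          simp only [↓reduceIte, zero_smul, zero_add]
          apply Finset.sum_congr rfl
          intro v hv
          rw [if_neg (Finset.ne_of_mem_erase hv)]
        rw [e1, ← Finset.sum_add_distrib] at hr
        have h2 := ind_iff.1 hindF (fun v => a * c F₀ v + (if v = v0 then 0 else r v)) (by
          rw [← hr]
          apply Finset.sum_congr rfl
          intro v _
          module)
        have ha0 : a = 0 := by
          have h3 := h2 v0 hv0
          simp only [↓reduceIte, add_zero] at h3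
          exact (mul_eq_zero.1 h3).resolve_right (hg.nz F₀ hF hFc v0 hv0)
        refine ⟨ha0, ?_⟩
        intro v hv
        have h3 := h2 v (Finset.mem_of_mem_erase hv)
        simpa [ha0, Finset.ne_of_mem_erase hv] using h3
    · -- simple
      intro x hx hne
      rw [pp_optP] at hx
      obtain ⟨hx, hfx⟩ := hx
      have hind := h.simple x hx
      have hun : un (act (optP p f o (t F₀)) x) = act p x := by
        ext v
        rw [mem_un, some_mem_act]
      rw [ind_opt, hun]
      intro a r ha hr
      suffices ha0 : a = 0 by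
        refine ⟨ha0, ?_⟩
        rw [ha0, zero_smul, zero_add] at hr
        exact ind_iff.1 hind r hr
      by_contra ha0
      -- `f = -τ o + ∑ (-r/a) p`
      have hf : f = -(t F₀) • o + ∑ v ∈ act p x, (-(r v) / a) • p v := by
        have e1 : f + t F₀ • o = ∑ v ∈ act p x, (-(r v) / a) • p v := by
          have e2 : a • (f + t F₀ • o) = - ∑ v ∈ act p x, r v • p v := eq_neg_of_add_eq_zero_left hr
          have e3 : f + t F₀ • o = a⁻¹ • (a • (f + t F₀ • o)) := by
            rw [smul_smul, inv_mul_cancel₀ ha0, one_smul]
          rw [e3, e2, smul_neg, Finset.smul_sum, ← Finset.sum_neg_distrib]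
          apply Finset.sum_congr rfl
          intro v _
          rw [smul_smul, ← neg_smul]
          congr 1
          field_simp
        rw [← e1]
        module
      obtain ⟨F, hFF, hFFc, hsub⟩ := h.face_facet (G := act p x) ⟨x, hx, subset_rfl⟩
      obtain ⟨y, hy, hyact, _⟩ := h.facet_point hFF hFFc
      have hrepF := hg.rep F hFF hFFc
      have hf2 : f = -(t F₀) • o + ∑ v ∈ F, (if v ∈ act p x then -(r v) / a else 0) • p v := by
        conv_lhs => rw [hf]
        congr 1
        rw [← Finset.sum_subset hsub]
        · apply Finset.sum_congr rfl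
          intro v hv
          rw [if_pos hv]
        · intro v _ hv
          rw [if_neg hv, zero_smul]
      have hu := full_rep_unique hy.1 (F := F) (p := p) (o := o) (fun v hv => by
        rw [← hyact] at hv
        exact mem_act'.1 hv) (h.ind hFF) (hrepF.symm.trans hf2)
      have hFeq : F = act p x := by
        apply Finset.Subset.antisymm _ hsub
        intro v hv
        by_contra hv'
        have := hu.2 v hv
        rw [if_neg hv'] at this
        exact hg.nz F hFF hFFc v hv this
      have hF0 : F = F₀ := hg.inj F F₀ hFF hFFc hF hFc hu.1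
      apply hne
      apply huniq x hx
      rw [← hFeq, hF0]
  · -- below
    intro G
    constructor
    · rintro ⟨hG, hnot⟩
      rw [face_optP] at hG
      obtain ⟨x, hx, h1, h2, h3⟩ := hG
      constructor
      · obtain ⟨F, hFF, hFFc, hsub, hle⟩ := facet_above h hg hx
        have hle2 : t F ≤ t F₀ := by linarith
        rcases hle2.lt_or_eq with hlt2 | heq
        · exact ⟨F, mem_facets.2 ⟨hFF, hFFc⟩, mem_below.2 ⟨⟨hFF, hFFc⟩, hlt2⟩,
            un_subset.1 (h1.trans hsub)⟩
        · have hF0 : F = F₀ := hg.inj F F₀ hFF hFFc hF hFc heq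
          subst hF0
          rw [Finset.not_subset] at hnot
          obtain ⟨a, ha, haG⟩ := hnot
          cases a with
          | none => exact absurd ha none_mem_posSet
          | some v =>
            rw [some_mem_posSet] at ha
            obtain ⟨F', q1, q2, q3, q4⟩ := hg.lower h hF hFc (h1.trans hsub) ha.1
              (fun hh => haG (mem_un.1 hh)) ha.2
            exact ⟨F', mem_facets.2 ⟨q1, q2⟩, mem_below.2 ⟨⟨q1, q2⟩, q4⟩, un_subset.1 q3⟩
      · intro hn
        obtain ⟨F, hFF, hFFc, hsub, hle⟩ := facet_below h hg hx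
        have := h3 hn
        refine ⟨F, mem_facets.2 ⟨hFF, hFFc⟩, ?_, un_subset.1 (h1.trans hsub)⟩
        rw [mem_below]
        rintro ⟨_, q⟩
        linarith
    · rintro ⟨⟨F, _, hFm, hFG⟩, h2⟩
      rw [mem_below] at hFm
      obtain ⟨⟨hFF, hFFc⟩, hlt2⟩ := hFm
      refine ⟨?_, ?_⟩
      · rw [face_optP]
        by_cases hn : none ∈ G
        · obtain ⟨F', hF', hF'2, hF'G⟩ := h2 hn
          rw [mem_facets] at hF'
          have hge : t F₀ ≤ t F' := by
            by_contra hh
            exact hF'2 (mem_below.2 ⟨hF', not_le.1 hh⟩)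
          obtain ⟨x, hx, q1, q2⟩ := hg.exists_level h hFF hFFc hF'.1 hF'.2 (un_subset.2 hFG)
            (un_subset.2 hF'G) hlt2.le hge
          exact ⟨x, hx, q1, q2.ge, fun _ => q2⟩
        · obtain ⟨x, hx, hxact, _⟩ := h.facet_point hFF hFFc
          refine ⟨x, hx, ?_, ?_, fun hn' => absurd hn' hn⟩
          · rw [hxact]
            exact un_subset.2 hFG
          · have := hg.val hFF hFFc hx.1 (fun v hv => by
              rw [← hxact] at hv
              exact mem_act'.1 hv)
            rw [this]
            linarith
      · intro hsub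
        have := hg.le_of_pos h hF hFc hFF hFFc (by
          intro v hv hpos
          exact hFG v (hsub (some_mem_posSet.2 ⟨hv, hpos⟩)))
        linarith
  · -- belowEq
    intro G
    constructor
    · rintro ⟨hG, hnot⟩
      rw [face_optP] at hG
      obtain ⟨x, hx, h1, h2, h3⟩ := hG
      constructor
      · obtain ⟨F, hFF, hFFc, hsub, hle⟩ := facet_above h hg hx
        have hle2 : t F ≤ t F₀ := by linarith
        exact ⟨F, mem_facets.2 ⟨hFF, hFFc⟩, mem_belowEq.2 ⟨⟨hFF, hFFc⟩, hle2⟩,
            un_subset.1 (h1.trans hsub)⟩
      · intro hn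
        obtain ⟨F, hFF, hFFc, hsub, hle⟩ := facet_below h hg hx
        have hfx := h3 hn
        have hge : t F₀ ≤ t F := by linarith
        rcases hge.lt_or_eq with hlt2 | heq
        · refine ⟨F, mem_facets.2 ⟨hFF, hFFc⟩, ?_, un_subset.1 (h1.trans hsub)⟩
          rw [mem_belowEq]
          rintro ⟨_, q⟩
          linarith
        · have hF0 : F = F₀ := hg.inj F F₀ hFF hFFc hF hFc heq.symm
          subst hF0
          rw [Finset.not_subset] at hnot
          obtain ⟨a, ha, haG⟩ := hnot
          cases a with
          | none => exact absurd hn haG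
          | some v =>
            rw [some_mem_negSet] at ha
            obtain ⟨F', q1, q2, q3, q4⟩ := hg.upper h hF hFc (h1.trans hsub) ha.1
              (fun hh => haG (mem_un.1 hh)) ha.2
            refine ⟨F', mem_facets.2 ⟨q1, q2⟩, ?_, un_subset.1 q3⟩
            rw [mem_belowEq]
            rintro ⟨_, q⟩
            linarith
    · rintro ⟨⟨F, _, hFm, hFG⟩, h2⟩
      rw [mem_belowEq] at hFm
      obtain ⟨⟨hFF, hFFc⟩, hle2⟩ := hFm
      refine ⟨?_, ?_⟩
      · rw [face_optP]
        by_cases hn : none ∈ G
        · obtain ⟨F', hF', hF'2, hF'G⟩ := h2 hn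
          rw [mem_facets] at hF'
          have hge : t F₀ ≤ t F' := by
            by_contra hh
            exact hF'2 (mem_belowEq.2 ⟨hF', (not_le.1 hh).le⟩)
          obtain ⟨x, hx, q1, q2⟩ := hg.exists_level h hFF hFFc hF'.1 hF'.2 (un_subset.2 hFG)
            (un_subset.2 hF'G) hle2 hge
          exact ⟨x, hx, q1, q2.ge, fun _ => q2⟩
        · obtain ⟨x, hx, hxact, _⟩ := h.facet_point hFF hFFc
          refine ⟨x, hx, ?_, ?_, fun hn' => absurd hn' hn⟩
          · rw [hxact]
            exact un_subset.2 hFG
          · have := hg.val hFF hFFc hx.1 (fun v hv => by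
              rw [← hxact] at hv
              exact mem_act'.1 hv)
            rw [this]
            linarith
      · intro hsub
        have hn : none ∈ G := hsub none_mem_negSet
        obtain ⟨F', hF', hF'2, hF'G⟩ := h2 hn
        rw [mem_facets] at hF'
        have hgt : t F₀ < t F' := by
          by_contra hh
          exact hF'2 (mem_belowEq.2 ⟨hF', not_lt.1 hh⟩)
        have := hg.le_of_neg h hF hFc hF'.1 hF'.2 (by
          intro v hv hneg
          exact hF'G v (hsub (some_mem_negSet.2 ⟨hv, hneg⟩)))
        linarith

end TRS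

end MP46
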