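import Pool.Agent.Lib.MP_46e101_co.Defs
import Pool.Agent.Lib.MP_46e101_co.GEN
import Pool.Agent.Lib.MP_46e101_co.TRO
import Pool.Agent.Lib.MP_46e101_co.TRS
import Pool.Agent.Lib.MP_46e101_co.DTF
import Pool.Agent.Lib.MP_46e101_co.TRANS
import Pool.Agent.Lib.MP_46e101_co.PERT
import Pool.Agent.Lib.MP_46e101_co.ND

/-! MP_46e101_co, module SWS: one step of the sweep. -/

open MvPolynomial

universe u w

noncomputable section

namespace MP46

variable {V : Type u} [Fintype V] [DecidableEq V] {U : Type w} [AddCommGroup U] [Module ℝ U]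
  {o : Module.Dual ℝ U} {p : V → Module.Dual ℝ U} {n : ℕ} {f : Module.Dual ℝ U}
  {t : Finset V → ℝ} {c : Finset V → V → ℝ} {D : MvPolynomial V ℝ →ₗ[ℝ] ℝ}

private theorem sws_theta_hom {W : Type u} [Fintype W] (q : W → Module.Dual ℝ U) (x : U) :
    (theta q x).IsHomogeneous 1 := by
  unfold theta
  refine IsHomogeneous.sum _ _ _ fun v _ => ?_
  simpa using (isHomogeneous_C W (q v x)).mul (isHomogeneous_X ℝ v)

private theorem sws_prod_hom {W : Type u} (A : Finset W) :
    (∏ v ∈ A, (X v : MvPolynomial W ℝ)).IsHomogeneous A.card := by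
  have := IsHomogeneous.prod A (fun v => (X v : MvPolynomial W ℝ)) (fun _ => 1)
    (fun v _ => isHomogeneous_X ℝ v)
  simpa using this

private theorem sws_prod_mul_monomial {W : Type u} (A : Finset W) (s : W →₀ ℕ) :
    (∏ v ∈ A, (X v : MvPolynomial W ℝ)) * monomial s 1 =
      monomial ((∑ v ∈ A, Finsupp.single v 1) + s) 1 := by
  have h1 : (∏ v ∈ A, (X v : MvPolynomial W ℝ)) = monomial (∑ v ∈ A, Finsupp.single v 1) 1 := by
    rw [monomial_sum_one A]
    rfl
  rw [h1, monomial_mul, one_mul]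

/-- a functional killing all monomials of degree `m` divisible by `∏_{A}` kills `∏_A * b`. -/
private theorem sws_kill {W : Type u} [DecidableEq W] (A : Finset W) {m j : ℕ}
    (hj : A.card + j = m) (E : MvPolynomial W ℝ →ₗ[ℝ] ℝ)
    (hE : ∀ s : W →₀ ℕ, s.degree = m → A ⊆ s.support → E (monomial s 1) = 0)
    {b : MvPolynomial W ℝ} (hb : b.IsHomogeneous j) :
    E ((∏ v ∈ A, X v) * b) = 0 := by
  rw [b.as_sum, Finset.mul_sum, map_sum]
  refine Finset.sum_eq_zero fun s hs => ?_
  have hds : s.degree = j := by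
    have := hb (mem_support_iff.1 hs)
    rwa [Finsupp.degree_eq_weight_one]
  have hc : (monomial s) (coeff s b) = coeff s b • monomial s (1 : ℝ) := by
    rw [smul_monomial, smul_eq_mul, mul_one]
  rw [hc, mul_smul_comm, map_smul, sws_prod_mul_monomial, hE, smul_zero]
  · rw [map_add, map_sum]
    simp [hds, hj]
  · intro v hv
    rw [Finsupp.mem_support_iff, Finsupp.add_apply, Finsupp.finsetSum_apply]
    have : (1 : ℕ) ≤ ∑ i ∈ A, (Finsupp.single i 1 : W →₀ ℕ) v := by
      have h1 : (Finsupp.single v 1 : W →₀ ℕ) v = 1 := by simp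
      calc (1 : ℕ) = (Finsupp.single v 1 : W →₀ ℕ) v := h1.symm
        _ ≤ _ := Finset.single_le_sum (f := fun i => (Finsupp.single i 1 : W →₀ ℕ) v)
          (fun i _ => Nat.zero_le _) hv
    omega

omit [Fintype V] [DecidableEq V] in
private theorem sws_lam_ne {c' : V → ℝ} {F : Finset V} (hnz : ∀ v ∈ F, c' v ≠ 0)
    {A : Finset (Option V)} (hA : ∀ v, some v ∈ A → v ∈ F) :
    evL (lam c') (∏ v ∈ A, X v) ≠ 0 := by
  unfold evL
  rw [AlgHom.toLinearMap_apply, map_prod, Finset.prod_ne_zero_iff]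
  intro v hv
  rw [aeval_X]
  cases v with
  | none => simp [lam]
  | some v => simpa [lam] using hnz v (hA v hv)

theorem sweep_step (IH : OrdHR.{u, w} n) (IH' : SpecHR.{u, w} n) (h : Ord (n + 1) o p)
    (hg : Gen (n + 1) o p f t c) (hD : IsFun (n + 1) (Face o p) o p D)
    {F₀ : Finset V} (hF₀ : F₀ ∈ facets (n + 1) o p)
    (hex : ∃ F ∈ facets (n + 1) o p, t F < t F₀) {x : U} (hx : o x = 1)
    (H : ∀ k, 2 * k ≤ n + 1 → ∀ᶠ τ in nhdsWithin (t F₀) (Set.Iio (t F₀)),
      HRs (DT (fun F => D (∏ v ∈ F, X v)) c (below (n + 1) o p t (t F₀)))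
        (theta (optP p f o τ) x) (n + 1) k) :
    ∀ k, 2 * k ≤ n + 1 → ∀ᶠ τ in nhdsWithin (t F₀) (Set.Ioi (t F₀)),
      HRs (DT (fun F => D (∏ v ∈ F, X v)) c (belowEq (n + 1) o p t (t F₀)))
        (theta (optP p f o τ) x) (n + 1) k := by
  classical
  obtain ⟨hFace, hcard⟩ := mem_facets.1 hF₀
  have hnz := hg.nz F₀ hFace hcard
  obtain ⟨xs, hS, hS1, hS2⟩ := trunc_spec h hg hF₀ hex
  -- the functionals
  set μ : Finset V → ℝ := fun F => D (∏ v ∈ F, X v) with hμ
  have hfun1 : IsFun (n + 1) (SFace o (optP p f o (t F₀)) (posSet c F₀)) o (optP p f o (t F₀))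
      (DT μ c (below (n + 1) o p t (t F₀))) := by
    have hf := DT_isFun h hg hD (T := below (n + 1) o p t (t F₀)) (Finset.filter_subset _ _)
      (by
        intro F hF F' hF' hle
        exact Finset.mem_filter.2 ⟨hF', lt_of_le_of_lt hle (Finset.mem_filter.1 hF).2⟩) (t F₀)
    have e : SFace o (optP p f o (t F₀)) (posSet c F₀) =
        TFace (n + 1) o p (below (n + 1) o p t (t F₀)) := funext fun G => propext (hS1 G)
    rw [e]; exact hf
  have hfun2 : IsFun (n + 1) (SFace o (optP p f o (t F₀)) (negSet c F₀)) o (optP p f o (t F₀))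
      (DT μ c (belowEq (n + 1) o p t (t F₀))) := by
    have hf := DT_isFun h hg hD (T := belowEq (n + 1) o p t (t F₀)) (Finset.filter_subset _ _)
      (by
        intro F hF F' hF' hle
        exact Finset.mem_filter.2 ⟨hF', le_trans hle (Finset.mem_filter.1 hF).2⟩) (t F₀)
    have e : SFace o (optP p f o (t F₀)) (negSet c F₀) =
        TFace (n + 1) o p (belowEq (n + 1) o p t (t F₀)) := funext fun G => propext (hS2 G)
    rw [e]; exact hf
  have hins : belowEq (n + 1) o p t (t F₀) = insert F₀ (below (n + 1) o p t (t F₀)) := by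
    ext F
    simp only [belowEq, below, Finset.mem_insert, Finset.mem_filter]
    constructor
    · rintro ⟨hF, hle⟩
      rcases hle.lt_or_eq with h1 | h1
      · exact Or.inr ⟨hF, h1⟩
      · exact Or.inl (hg.inj F F₀ (mem_facets.1 hF).1 (mem_facets.1 hF).2 hFace hcard h1)
    · rintro (rfl | ⟨hF, hlt⟩)
      · exact ⟨hF₀, le_rfl⟩
      · exact ⟨hF, hlt.le⟩
  have hsum : DT μ c (belowEq (n + 1) o p t (t F₀)) =
      DT μ c (below (n + 1) o p t (t F₀)) + kap μ c F₀ • evL (lam (c F₀)) := by
    rw [hins]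
    unfold DT
    rw [Finset.sum_insert, add_comm]
    simp [below]
  -- cardinalities
  have hposcard : (posSet c F₀).card = (F₀.filter fun v => 0 < c F₀ v).card := by
    simp [posSet]
  have hnegcard : (negSet c F₀).card = (F₀.filter fun v => c F₀ v < 0).card + 1 := by
    unfold negSet
    rw [Finset.card_insert_of_notMem (by simp), Finset.card_map]
  have hsplit : (F₀.filter fun v => ¬ (0 < c F₀ v)) = F₀.filter fun v => c F₀ v < 0 := by
    apply Finset.filter_congr
    intro v hv
    have := hnz v hv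
    constructor
    · intro h1; exact lt_of_le_of_ne (not_lt.1 h1) this
    · intro h1; exact not_lt.2 h1.le
  have hcc : (posSet c F₀).card + (negSet c F₀).card = (n + 1) + 1 := by
    have := Finset.card_filter_add_card_filter_not (s := F₀) (fun v => 0 < c F₀ v)
    rw [hsplit, hcard] at this
    omega
  have hpos1 : 1 ≤ (posSet c F₀).card := hS.neA.card_pos
  have hneg1 : 1 ≤ (negSet c F₀).card := by omega
  -- sign of kappa
  have hκ : 0 < (-1 : ℝ) ^ (posSet c F₀).card * kap μ c F₀ := by
    have hμ0 : 0 < μ F₀ := hD.k3 F₀ hFace hcard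
    have hprod : ∏ v ∈ F₀, (-c F₀ v) =
        (-1 : ℝ) ^ (posSet c F₀).card *
          ((∏ v ∈ F₀.filter (fun v => 0 < c F₀ v), c F₀ v) *
            ∏ v ∈ F₀.filter (fun v => c F₀ v < 0), (-c F₀ v)) := by
      rw [← Finset.prod_filter_mul_prod_filter_not F₀ (fun v => 0 < c F₀ v), hsplit, hposcard,
        ← mul_assoc]
      congr 1
      rw [← Finset.prod_const, ← Finset.prod_mul_distrib]
      exact Finset.prod_congr rfl fun v _ => by ring
    have hq : 0 < (∏ v ∈ F₀.filter (fun v => 0 < c F₀ v), c F₀ v) *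
            ∏ v ∈ F₀.filter (fun v => c F₀ v < 0), (-c F₀ v) := by
      refine mul_pos (Finset.prod_pos fun v hv => (Finset.mem_filter.1 hv).2)
        (Finset.prod_pos fun v hv => ?_)
      have := (Finset.mem_filter.1 hv).2
      linarith
    unfold kap
    rw [hprod]
    set q := (∏ v ∈ F₀.filter (fun v => 0 < c F₀ v), c F₀ v) *
            ∏ v ∈ F₀.filter (fun v => c F₀ v < 0), (-c F₀ v)
    have h1 : ((-1 : ℝ) ^ (posSet c F₀).card) ≠ 0 := pow_ne_zero _ (by norm_num)
    have h2 : (-1 : ℝ) ^ (posSet c F₀).card * (μ F₀ / ((-1 : ℝ) ^ (posSet c F₀).card * q)) =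
        μ F₀ / q := by
      field_simp
    rw [h2]
    exact div_pos hμ0 hq
  -- evaluation
  have hz1 : evL (lam (c F₀)) (∏ v ∈ posSet c F₀, X v) ≠ 0 := by
    refine sws_lam_ne hnz ?_
    intro v hv
    simp only [posSet, Finset.mem_map, Finset.mem_filter, Function.Embedding.some_apply,
      Option.some.injEq] at hv
    obtain ⟨a, ha, rfl⟩ := hv
    exact ha.1
  have hz2 : evL (lam (c F₀)) (∏ v ∈ negSet c F₀, X v) ≠ 0 := by
    refine sws_lam_ne hnz ?_
    intro v hv
    simp only [negSet, Finset.mem_insert, Finset.mem_map, Finset.mem_filter,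
      Function.Embedding.some_apply, Option.some.injEq] at hv
    rcases hv with hv | ⟨a, ha, rfl⟩
    · simp at hv
    · exact ha.1
  have hthe : ∀ s : ℝ, theta (optP p f o (t F₀ + s)) x =
      theta (optP p f o (t F₀)) x + s • X none := by
    intro s
    rw [theta_opt hx (t F₀) (t F₀ + s)]
    congr 2
    ring
  have key := transfer (D := DT μ c (below (n + 1) o p t (t F₀))) (κ := kap μ c F₀)
    (z := lam (c F₀)) (l := theta (optP p f o (t F₀)) x) (m := X none)
    (e₁ := ∏ v ∈ posSet c F₀, X v) (e₂ := ∏ v ∈ negSet c F₀, X v) (n := n + 1)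
    (N := (posSet c F₀).card) (N' := (negSet c F₀).card)
    (sws_theta_hom _ _) (isHomogeneous_X ℝ none)
    (by rw [ev_theta_opt hg hF₀ (t F₀) x]; ring)
    (by simp [evL, lam]) (sws_prod_hom _) (sws_prod_hom _) hz1 hz2 hcc hpos1 hneg1 hκ
    (fun b hb => sws_kill _ (by omega) _ (fun s hs hsub => hfun1.k1 s hs
      (fun hsf => hsf.2 hsub)) hb)
    (fun b hb => by
      rw [← hsum]
      exact sws_kill _ (by omega) _ (fun s hs hsub => hfun2.k1 s hs
        (fun hsf => hsf.2 hsub)) hb)
    (fun j hj1 hj2 => nd_spec IH IH' hS hfun1 hx hj2 hj1)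
    (fun j hj1 hj2 => by
      rw [← hsum]
      exact nd_spec IH IH' hS.symm hfun2 hx hj2 hj1)
    (fun k hk => by
      have h1 := H k hk
      have h2 : Filter.Tendsto (fun s : ℝ => t F₀ + s) (nhdsWithin 0 (Set.Iio 0))
          (nhdsWithin (t F₀) (Set.Iio (t F₀))) := by
        refine tendsto_nhdsWithin_of_tendsto_nhds_of_eventually_within _ ?_ ?_
        · have : Filter.Tendsto (fun s : ℝ => t F₀ + s) (nhds 0) (nhds (t F₀ + 0)) :=
            (continuous_const.add continuous_id).tendsto 0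
          rw [add_zero] at this
          exact this.mono_left nhdsWithin_le_nhds
        · filter_upwards [self_mem_nhdsWithin] with s hs
          simp only [Set.mem_Iio] at hs ⊢
          linarith
      have h3 := h2.eventually h1
      filter_upwards [h3] with s hs
      rwa [hthe] at hs)
  intro k hk
  have h1 := key k hk
  rw [← hsum] at h1
  have h2 : Filter.Tendsto (fun τ : ℝ => τ - t F₀) (nhdsWithin (t F₀) (Set.Ioi (t F₀)))
      (nhdsWithin 0 (Set.Ioi 0)) := by
    refine tendsto_nhdsWithin_of_tendsto_nhds_of_eventually_within _ ?_ ?_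
    · have : Filter.Tendsto (fun s : ℝ => s - t F₀) (nhds (t F₀)) (nhds (t F₀ - t F₀)) :=
        (continuous_id.sub continuous_const).tendsto (t F₀)
      rw [sub_self] at this
      exact this.mono_left nhdsWithin_le_nhds
    · filter_upwards [self_mem_nhdsWithin] with s hs
      simp only [Set.mem_Ioi] at hs ⊢
      linarith
  have h3 := h2.eventually h1
  filter_upwards [h3] with τ hτ
  have h4 := hthe (τ - t F₀)
  rw [← h4] at hτ
  rwa [add_sub_cancel] at hτ

end MP46
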