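import Pool.Agent.Lib.MP_46e101_co.Defs
import Pool.Agent.Lib.MP_46e101_co.SWB
import Pool.Agent.Lib.MP_46e101_co.SWS
import Pool.Agent.Lib.MP_46e101_co.ND
import Pool.Agent.Lib.MP_46e101_co.TRO
import Pool.Agent.Lib.MP_46e101_co.DTF
import Pool.Agent.Lib.MP_46e101_co.ANAC

/-! # MP_46e101_co, module SWI: the induction along the sweep -/

open MvPolynomial

universe u w

noncomputable section

namespace MP46

section SWI
variable {V : Type u} [Fintype V] [DecidableEq V] {U : Type w} [AddCommGroup U] [Module ℝ U]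
  {o : Module.Dual ℝ U} {p : V → Module.Dual ℝ U} {n : ℕ} {f : Module.Dual ℝ U}
  {t : Finset V → ℝ} {c : Finset V → V → ℝ} {D : MvPolynomial V ℝ →ₗ[ℝ] ℝ}

private theorem theta_hom1w {W : Type u} [Fintype W]
    (q : W → Module.Dual ℝ U) (x : U) : (theta q x).IsHomogeneous 1 := by
  unfold theta
  refine IsHomogeneous.sum _ _ _ fun v _ => ?_
  have h := (isHomogeneous_C W (q v x)).mul (isHomogeneous_X ℝ v)
  simpa using h

private theorem nd_midw {W : Type u} {E : MvPolynomial W ℝ →ₗ[ℝ] ℝ} {l : MvPolynomial W ℝ}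
    {m k : ℕ} (hk : 2 * k = m) : ND E l m k := by
  intro a _ hb b hb'
  have h1 : m - k = k := by omega
  rw [h1] at hb'
  have h2 := hb b hb'
  have h3 : m - 2 * k = 0 := by omega
  rwa [h3, pow_zero, mul_one] at h2

omit [DecidableEq V] in
private theorem mem_below_iff {m : ℕ} {τ : ℝ} {F : Finset V} :
    F ∈ below m o p t τ ↔ F ∈ facets m o p ∧ t F < τ := by
  unfold below
  rw [Finset.mem_filter]

omit [DecidableEq V] in
private theorem mem_belowEq_iff {m : ℕ} {τ : ℝ} {F : Finset V} :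
    F ∈ belowEq m o p t τ ↔ F ∈ facets m o p ∧ t F ≤ τ := by
  unfold belowEq
  rw [Finset.mem_filter]

/-- the functional of the swept part at a regular time. -/
private theorem isFun_below (h : Ord n o p) (hg : Gen n o p f t c)
    (hD : IsFun n (Face o p) o p D) {τ : ℝ} (hne : ∀ F ∈ facets n o p, t F ≠ τ)
    (hex : ∃ F ∈ facets n o p, t F < τ) :
    IsFun n (Face o (optP p f o τ)) o (optP p f o τ)
      (DT (fun F => D (∏ v ∈ F, X v)) c (below n o p t τ)) := by
  have h1 : IsFun n (TFace n o p (below n o p t τ)) o (optP p f o τ)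
      (DT (fun F => D (∏ v ∈ F, X v)) c (below n o p t τ)) := by
    refine DT_isFun h hg hD ?_ ?_ τ
    · intro F hF
      exact (mem_below_iff.1 hF).1
    · intro F hF F' hF' hle
      exact mem_below_iff.2 ⟨hF', lt_of_le_of_lt hle (mem_below_iff.1 hF).2⟩
  have h2 := (trunc_ord h hg hne hex).2
  have h3 : TFace n o p (below n o p t τ) = Face o (optP p f o τ) := by
    funext G
    exact propext (h2 G).symm
  rwa [h3] at h1

private theorem nd_all (IH : OrdHR.{u, w} n) (h : Ord (n + 1) o p)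
    (hg : Gen (n + 1) o p f t c) (hD : IsFun (n + 1) (Face o p) o p D) {τ : ℝ}
    (hne : ∀ F ∈ facets (n + 1) o p, t F ≠ τ) (hex : ∃ F ∈ facets (n + 1) o p, t F < τ)
    {x : U} (hx : o x = 1) {k : ℕ} (hk : 2 * k ≤ n + 1) :
    ND (DT (fun F => D (∏ v ∈ F, X v)) c (below (n + 1) o p t τ))
      (theta (optP p f o τ) x) (n + 1) k := by
  rcases Nat.lt_or_ge (2 * k) (n + 1) with h1 | h1
  · exact nd_ord IH (trunc_ord h hg hne hex).1 (isFun_below h hg hD hne hex) hx h1
  · exact nd_midw (by omega)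

/-- a real number strictly below `a` bounding finitely many smaller numbers. -/
private theorem eventually_gt_all {ι : Type*} (S : Finset ι) (g : ι → ℝ) {a : ℝ}
    (hS : ∀ i ∈ S, g i < a) : ∀ᶠ s in nhdsWithin a (Set.Iio a), ∀ i ∈ S, g i < s := by
  rw [Filter.eventually_all_finset]
  intro i hi
  exact mem_nhdsWithin_of_mem_nhds (Ioi_mem_nhds (hS i hi))

theorem sweep_all (IH : OrdHR.{u, w} n) (IH' : SpecHR.{u, w} n) (h : Ord (n + 1) o p)
    (hg : Gen (n + 1) o p f t c) (hD : IsFun (n + 1) (Face o p) o p D) {τ : ℝ}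
    (hne : ∀ F ∈ facets (n + 1) o p, t F ≠ τ) (hex : ∃ F ∈ facets (n + 1) o p, t F < τ)
    {x : U} (hx : o x = 1) {k : ℕ} (hk : 2 * k ≤ n + 1) :
    HRs (DT (fun F => D (∏ v ∈ F, X v)) c (below (n + 1) o p t τ))
      (theta (optP p f o τ) x) (n + 1) k := by
  -- induction on the number of swept facets
  suffices key : ∀ (N : ℕ) (τ : ℝ), (below (n + 1) o p t τ).card = N →
      (∀ F ∈ facets (n + 1) o p, t F ≠ τ) → (∃ F ∈ facets (n + 1) o p, t F < τ) →
      ∀ k : ℕ, 2 * k ≤ n + 1 →
      HRs (DT (fun F => D (∏ v ∈ F, X v)) c (below (n + 1) o p t τ))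
        (theta (optP p f o τ) x) (n + 1) k from key _ τ rfl hne hex k hk
  intro N
  induction N using Nat.strong_induction_on with
  | _ N ih =>
  intro τ hN hne hex k hk
  obtain ⟨F₁, hF₁, hF₁τ⟩ := hex
  have hTne : (below (n + 1) o p t τ).Nonempty := ⟨F₁, mem_below_iff.2 ⟨hF₁, hF₁τ⟩⟩
  obtain ⟨F₀, hF₀T, hmax⟩ := Finset.exists_max_image (below (n + 1) o p t τ) t hTne
  have hF₀ := (mem_below_iff.1 hF₀T).1
  have hF₀τ := (mem_below_iff.1 hF₀T).2
  have hF₀' := mem_facets.1 hF₀
  by_cases hlow : ∃ F ∈ facets (n + 1) o p, t F < t F₀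
  · -- there is a facet strictly below `F₀`
    -- times slightly smaller than `t F₀`
    have hsub : ∀ᶠ s in nhdsWithin (t F₀) (Set.Iio (t F₀)),
        ∀ F ∈ below (n + 1) o p t (t F₀), t F < s :=
      eventually_gt_all _ t fun F hF => (mem_below_iff.1 hF).2
    have hH : ∀ k, 2 * k ≤ n + 1 → ∀ᶠ s in nhdsWithin (t F₀) (Set.Iio (t F₀)),
        HRs (DT (fun F => D (∏ v ∈ F, X v)) c (below (n + 1) o p t (t F₀)))
          (theta (optP p f o s) x) (n + 1) k := by
      intro k hk
      filter_upwards [hsub, self_mem_nhdsWithin] with s hs hs'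
      have hs' : s < t F₀ := hs'
      have hbe : below (n + 1) o p t s = below (n + 1) o p t (t F₀) := by
        ext F
        rw [mem_below_iff, mem_below_iff]
        constructor
        · rintro ⟨h1, h2⟩
          exact ⟨h1, h2.trans hs'⟩
        · rintro ⟨h1, h2⟩
          exact ⟨h1, hs F (mem_below_iff.2 ⟨h1, h2⟩)⟩
      have hcard : (below (n + 1) o p t s).card < N := by
        rw [← hN, hbe]
        apply Finset.card_lt_card
        rw [Finset.ssubset_iff_of_subset]
        · refine ⟨F₀, hF₀T, fun h1 => ?_⟩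
          exact lt_irrefl _ (mem_below_iff.1 h1).2
        · intro F hF
          rw [mem_below_iff] at hF ⊢
          exact ⟨hF.1, hF.2.trans hF₀τ⟩
      have h1 := ih _ hcard s rfl ?_ ?_ k hk
      · rwa [hbe] at h1
      · intro F hF hFs
        rcases lt_or_ge (t F) (t F₀) with h2 | h2
        · exact absurd (hs F (mem_below_iff.2 ⟨hF, h2⟩)) (by rw [hFs]; exact lt_irrefl _)
        · rw [hFs] at h2
          exact absurd hs' (not_lt.2 h2)
      · obtain ⟨F, hF, hFlt⟩ := hlow
        exact ⟨F, hF, hs F (mem_below_iff.2 ⟨hF, hFlt⟩)⟩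
    have hstep := sweep_step IH IH' h hg hD hF₀ hlow hx hH k hk
    -- the set of swept facets is constant on `(t F₀, τ]`
    have hconst : ∀ s, t F₀ < s → s ≤ τ →
        below (n + 1) o p t s = below (n + 1) o p t τ := by
      intro s h1 h2
      ext F
      rw [mem_below_iff, mem_below_iff]
      constructor
      · rintro ⟨h3, h4⟩
        exact ⟨h3, lt_of_lt_of_le h4 h2⟩
      · rintro ⟨h3, h4⟩
        exact ⟨h3, lt_of_le_of_lt (hmax F (mem_below_iff.2 ⟨h3, h4⟩)) h1⟩
    have hEq : belowEq (n + 1) o p t (t F₀) = below (n + 1) o p t τ := by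
      ext F
      rw [mem_below_iff, mem_belowEq_iff]
      constructor
      · rintro ⟨h3, h4⟩
        exact ⟨h3, lt_of_le_of_lt h4 hF₀τ⟩
      · rintro ⟨h3, h4⟩
        exact ⟨h3, hmax F (mem_below_iff.2 ⟨h3, h4⟩)⟩
    rw [hEq] at hstep
    have hneS : ∀ s, t F₀ < s → s ≤ τ → ∀ F ∈ facets (n + 1) o p, t F ≠ s := by
      intro s h1 h2 F hF hFs
      rcases lt_or_ge (t F) τ with h3 | h3
      · have h4 := hmax F (mem_below_iff.2 ⟨hF, h3⟩)
        rw [hFs] at h4
        exact absurd h1 (not_lt.2 h4)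
      · have h5 : t F = τ := le_antisymm (hFs.trans_le h2) h3
        exact hne F hF h5
    have hND : ∀ s, t F₀ < s → s ≤ τ → ∀ j : ℕ, 2 * j ≤ n + 1 →
        ND (DT (fun F => D (∏ v ∈ F, X v)) c (below (n + 1) o p t τ))
          (theta (optP p f o s) x) (n + 1) j := by
      intro s h1 h2 j hj
      have h3 := nd_all IH h hg hD (hneS s h1 h2) ⟨F₀, hF₀, h1⟩ hx hj
      rwa [hconst s h1 h2] at h3
    have hth : ∀ s : ℝ, theta (optP p f o s) x = theta (optP p f o 0) x + s • X none := by
      intro s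
      have h1 := theta_opt (p := p) (f := f) hx 0 s
      rwa [sub_zero] at h1
    have hfin := hrs_continue
      (D := DT (fun F => D (∏ v ∈ F, X v)) c (below (n + 1) o p t τ))
      (l := theta (optP p f o 0) x) (m := X none) (theta_hom1w _ _) (isHomogeneous_X ℝ _)
      hk hF₀τ ?_ ?_ ?_ τ hF₀τ le_rfl
    · rwa [← hth] at hfin
    · intro s h1 h2 j hj
      rw [← hth]
      exact hND s h1 h2 j (by omega)
    · intro s h1 h2
      rw [← hth]
      exact hND s h1 h2 k hk
    · filter_upwards [hstep] with s hs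
      rwa [← hth]
  · -- `F₀` is the lowest facet
    push Not at hlow
    have hT : below (n + 1) o p t τ = {F₀} := by
      ext F
      rw [Finset.mem_singleton]
      constructor
      · intro hF
        have h1 := hmax F hF
        have h2 := hlow F (mem_below_iff.1 hF).1
        have h3 := mem_facets.1 (mem_below_iff.1 hF).1
        exact hg.inj F F₀ h3.1 h3.2 hF₀'.1 hF₀'.2 (le_antisymm h1 h2)
      · rintro rfl
        exact hF₀T
    rw [hT]
    exact sweep_base h hg hD hF₀ hlow hF₀τ hx hk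

end SWI

end MP46
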