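import Pool.Agent.Lib.MP_46e101_co.Defs
import Pool.Agent.Lib.MP_46e101_co.FACES
import Pool.Agent.Lib.MP_46e101_co.GEN
import Pool.Agent.Lib.MP_46e101_co.POS
import Pool.Agent.Lib.MP_46e101_co.SWI
import Pool.Agent.Lib.MP_46e101_co.SWE
import Pool.Agent.Lib.MP_46e101_co.SPECHR

open MvPolynomial

universe u w

noncomputable section

namespace MP46

theorem ord_succ {n : ℕ} (IH : OrdHR.{u, w} n) (IH' : SpecHR.{u, w} n) :
    OrdHR.{u, w} (n + 1) := by
  intro V _ _ U _ _ o p D h hD x hx k hk
  obtain ⟨f, t, c, hg⟩ := h.exists_gen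
  obtain ⟨τ, hτ⟩ : ∃ τ : ℝ, ∀ F ∈ facets (n + 1) o p, t F < τ := by
    refine ⟨1 + ∑ F ∈ facets (n + 1) o p, |t F|, fun F hF => ?_⟩
    have h1 := Finset.single_le_sum (f := fun F => |t F|) (fun i _ => abs_nonneg _) hF
    have h2 := le_abs_self (t F)
    linarith
  have hb : below (n + 1) o p t τ = facets (n + 1) o p := by
    unfold below
    exact Finset.filter_true_of_mem hτ
  obtain ⟨F, hF, hFc, -⟩ := h.face_facet h.face_empty
  have hFm : F ∈ facets (n + 1) o p := by
    unfold facets
    simp [hF, hFc]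
  have h1 := sweep_all IH IH' h hg hD (τ := τ) (fun F hF => (hτ F hF).ne) ⟨F, hFm, hτ F hFm⟩ hx hk
  rw [hb] at h1
  exact sweep_end h hg hD hx hk h1

theorem hr_all (n : ℕ) : OrdHR.{u, w} n ∧ SpecHR.{u, w} n := by
  induction n with
  | zero =>
    constructor
    · intro V _ _ U _ _ o p D h hD x hx k hk
      obtain rfl : k = 0 := by omega
      intro a ha _
      have h1 := pos_ord h hD hx
      rw [pow_zero] at h1
      have hta : a.totalDegree = 0 := (totalDegree_zero_iff_isHomogeneous _).2 ha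
      rw [totalDegree_eq_zero_iff_eq_C] at hta
      by_cases hr : coeff 0 a = 0
      · right
        intro b _
        rw [hta, hr, C_0, zero_mul, map_zero]
      · left
        have h2 : a ^ 2 * theta p x ^ (0 - 2 * 0) = (coeff 0 a) ^ 2 • (1 : MvPolynomial V ℝ) := by
          rw [hta, smul_eq_C_mul]
          simp
        rw [h2, map_smul, pow_zero, one_mul, smul_eq_mul]
        positivity
    · intro V _ _ U _ _ o p D A B xs h
      exfalso
      have h1 := h.card
      have h2 := h.neA.card_pos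
      have h3 := h.neB.card_pos
      omega
  | succ n ih =>
    exact ⟨ord_succ ih.1 ih.2, spec_hr ih.1 ih.2 (ord_succ ih.1 ih.2)⟩

end MP46
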