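import Pool.Agent.Lib.MP_46e101_co.GEN
import Pool.Agent.Lib.MP_46e101_co.SPAN

/-!
# Module SHELL (MP_46e101_co): shelling and Poincare duality

`shell_span`: a functional which kills the non-faces, the linear system and the monomials of the
restriction sets of the facets (for a generic sweep) vanishes.  `duality`: Poincare duality, by
a triangular system along the sweep.
-/

open MvPolynomial

universe u w

noncomputable section

namespace MP46

section SHELL
variable {V : Type u} [Fintype V] [DecidableEq V] {U : Type w} [AddCommGroup U] [Module ℝ U]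
  {o : Module.Dual ℝ U} {p : V → Module.Dual ℝ U} {n : ℕ}

private theorem sh_prod_eq (G : Finset V) :
    (∏ v ∈ G, (X v : MvPolynomial V ℝ)) = monomial (∑ v ∈ G, Finsupp.single v 1) 1 := by
  classical
  induction G using Finset.induction_on with
  | empty => simp
  | insert a s ha ih =>
    rw [Finset.prod_insert ha, Finset.sum_insert ha, ih, X, monomial_mul, one_mul]

private theorem sh_apply (G : Finset V) (w : V) :
    (∑ v ∈ G, Finsupp.single v 1 : V →₀ ℕ) w = if w ∈ G then 1 else 0 := by
  classical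
  rw [Finsupp.finsetSum_apply]
  simp [Finsupp.single_apply]

private theorem sh_supp (G : Finset V) :
    (∑ v ∈ G, Finsupp.single v 1 : V →₀ ℕ).support = G := by
  classical
  ext w
  rw [Finsupp.mem_support_iff, sh_apply]
  by_cases hw : w ∈ G <;> simp [hw]

private theorem sh_deg (G : Finset V) :
    (∑ v ∈ G, Finsupp.single v 1 : V →₀ ℕ).degree = G.card := by
  classical
  rw [map_sum]
  simp

private theorem sh_supp_add (G H : Finset V) :
    ((∑ v ∈ G, Finsupp.single v 1 : V →₀ ℕ) + ∑ v ∈ H, Finsupp.single v 1).support = G ∪ H := by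
  classical
  ext w
  rw [Finsupp.mem_support_iff, Finsupp.add_apply, sh_apply, sh_apply, Finset.mem_union]
  by_cases hw : w ∈ G <;> by_cases hw' : w ∈ H <;> simp [hw, hw']

private theorem sh_hom (G : Finset V) :
    (∏ v ∈ G, (X v : MvPolynomial V ℝ)).IsHomogeneous G.card := by
  have := MvPolynomial.IsHomogeneous.prod G (fun v => (X v : MvPolynomial V ℝ)) (fun _ => 1)
    (fun v _ => isHomogeneous_X ℝ v)
  simpa using this

/-- triangular systems are solvable. -/
private theorem sh_triangular {ι : Type*} [DecidableEq ι] (t : ι → ℝ) (N : ι → ι → ℝ)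
    (e : ι → ℝ) (T : Finset ι) :
    (∀ i ∈ T, N i i ≠ 0) → (∀ i ∈ T, ∀ i' ∈ T, i ≠ i' → t i' ≤ t i → N i i' = 0) →
    ∃ γ : ι → ℝ, ∀ i ∈ T, ∑ i' ∈ T, γ i' * N i i' = e i := by
  induction T using Finset.induction_on_min_value t with
  | empty => intro _ _; exact ⟨0, by simp⟩
  | insert a s ha hmin ih =>
    intro hd hz
    obtain ⟨γ, hγ⟩ := ih (fun i hi => hd i (Finset.mem_insert_of_mem hi))
      (fun i hi i' hi' => hz i (Finset.mem_insert_of_mem hi) i' (Finset.mem_insert_of_mem hi'))
    have haa : N a a ≠ 0 := hd a (Finset.mem_insert_self _ _)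
    refine ⟨Function.update γ a ((e a - ∑ i' ∈ s, γ i' * N a i') / N a a), ?_⟩
    have hsum : ∀ i, ∑ i' ∈ s, Function.update γ a ((e a - ∑ i' ∈ s, γ i' * N a i') / N a a) i'
        * N i i' = ∑ i' ∈ s, γ i' * N i i' := by
      intro i
      refine Finset.sum_congr rfl fun i' hi' => ?_
      have hne : i' ≠ a := fun hh => ha (hh ▸ hi')
      rw [Function.update_of_ne hne]
    intro i hi
    rw [Finset.sum_insert ha, hsum, Function.update_self]
    rcases Finset.mem_insert.1 hi with rfl | his
    · field_simp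
      ring
    · have hia : i ≠ a := fun hh => ha (hh ▸ his)
      rw [hz i hi a (Finset.mem_insert_self _ _) hia (hmin i his), mul_zero, zero_add]
      exact hγ i his

private theorem sh_min_facet (h : Ord n o p) (t : Finset V → ℝ) {G : Finset V}
    (hG : Face o p G) :
    ∃ F : Finset V, Face o p F ∧ F.card = n ∧ G ⊆ F ∧
      ∀ F' : Finset V, Face o p F' → F'.card = n → G ⊆ F' → t F ≤ t F' := by
  classical
  obtain ⟨F₀, h1, h2, h3⟩ := h.face_facet hG
  have hne : ((facets n o p).filter fun F => G ⊆ F).Nonempty :=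
    ⟨F₀, Finset.mem_filter.2 ⟨mem_facets.2 ⟨h1, h2⟩, h3⟩⟩
  obtain ⟨F, hF, hmin⟩ := Finset.exists_min_image _ t hne
  obtain ⟨hF1, hF2⟩ := Finset.mem_filter.1 hF
  obtain ⟨hF3, hF4⟩ := mem_facets.1 hF1
  exact ⟨F, hF3, hF4, hF2, fun F' a b c =>
    hmin F' (Finset.mem_filter.2 ⟨mem_facets.2 ⟨a, b⟩, c⟩)⟩

theorem shell_span (h : Ord n o p) {f : Module.Dual ℝ U} {t : Finset V → ℝ}
    {c : Finset V → V → ℝ} (hg : Gen n o p f t c) (j : ℕ) (E : MvPolynomial V ℝ →ₗ[ℝ] ℝ)
    (h1 : ∀ s : V →₀ ℕ, s.degree = j → ¬ Face o p s.support → E (monomial s 1) = 0)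
    (h2 : ∀ x : U, o x = 0 → ∀ (i : ℕ) (b : MvPolynomial V ℝ), i + 1 = j →
      b.IsHomogeneous i → E (theta p x * b) = 0)
    (h3 : ∀ F : Finset V, Face o p F → F.card = n →
      (F.filter fun v => 0 < c F v).card = j → E (∏ v ∈ F.filter (fun v => 0 < c F v), X v) = 0) :
    ∀ b : MvPolynomial V ℝ, b.IsHomogeneous j → E b = 0 := by
  classical
  refine lee_span h j E h1 h2 ?_
  -- the claim by induction on the number of facets above
  have key : ∀ (m : ℕ) (F G : Finset V), Face o p F → F.card = n → G ⊆ F → G.card = j →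
      (∀ F' : Finset V, Face o p F' → F'.card = n → G ⊆ F' → t F ≤ t F') →
      ((facets n o p).filter fun F' => t F < t F').card = m → E (∏ v ∈ G, X v) = 0 := by
    intro m
    induction m using Nat.strong_induction_on with
    | _ m ih =>
    intro F G hF hFc hGF hGc hmin hm
    have hR : F.filter (fun v => 0 < c F v) ⊆ G := by
      intro v hv
      obtain ⟨hvF, hpos⟩ := Finset.mem_filter.1 hv
      by_contra hvG
      obtain ⟨F', a1, a2, a3, a4⟩ := Gen.lower h hg hF hFc hGF hvF hvG hpos
      exact absurd (hmin F' a1 a2 a3) (not_le.2 a4)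
    by_cases hRc : (F.filter fun v => 0 < c F v).card = j
    · have : F.filter (fun v => 0 < c F v) = G :=
        Finset.eq_of_subset_of_card_le hR (by rw [hGc, hRc])
      rw [← this]
      exact h3 F hF hFc hRc
    · obtain ⟨g, hgG, hgR⟩ : ∃ g ∈ G, g ∉ F.filter (fun v => 0 < c F v) := by
        by_contra hcon
        push Not at hcon
        exact hRc ((congrArg Finset.card (Finset.Subset.antisymm hR hcon)).trans hGc)
      obtain ⟨x0, hx0, hact, -⟩ := h.facet_point hF hFc
      have hF0 : ∀ v ∈ F, p v x0 = 0 := by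
        intro v hv
        rw [← hact] at hv
        simpa [act] using hv
      obtain ⟨x, hx, hxF⟩ := prescribe hx0.1 hF0 (h.ind hF) 0 (fun v => if v = g then 1 else 0)
      have hgF : g ∈ F := hGF hgG
      have hj : (G.erase g).card + 1 = j := by
        rw [Finset.card_erase_add_one hgG, hGc]
      have hth := h2 x hx _ _ hj (sh_hom (G.erase g))
      -- split theta
      have hsplit : theta p x = (X g : MvPolynomial V ℝ) +
          ∑ w ∈ Finset.univ.filter (fun w => w ∉ F), C (p w x) * X w := by
        unfold theta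
        rw [← Finset.sum_filter_add_sum_filter_not Finset.univ (fun w => w ∈ F)]
        congr 1
        have hfil : Finset.univ.filter (fun w => w ∈ F) = F := by ext; simp
        rw [hfil, Finset.sum_eq_single_of_mem g hgF]
        · rw [hxF g hgF]; simp
        · intro b hb hbg
          rw [hxF b hb]; simp [hbg]
      rw [hsplit, add_mul, map_add, Finset.mul_prod_erase G _ hgG, Finset.sum_mul, map_sum] at hth
      have hzero : ∑ w ∈ Finset.univ.filter (fun w => w ∉ F),
          E (C (p w x) * X w * ∏ v ∈ G.erase g, X v) = 0 := by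
        refine Finset.sum_eq_zero fun w hw => ?_
        have hwF : w ∉ F := (Finset.mem_filter.1 hw).2
        have hwG : w ∉ G.erase g := fun hh => hwF (hGF (Finset.mem_of_mem_erase hh))
        have hprod : C (p w x) * X w * ∏ v ∈ G.erase g, (X v : MvPolynomial V ℝ) =
            (p w x) • ∏ v ∈ insert w (G.erase g), (X v : MvPolynomial V ℝ) := by
          rw [Finset.prod_insert hwG, mul_assoc, MvPolynomial.smul_eq_C_mul]
        rw [hprod, map_smul]
        have hcard : (insert w (G.erase g)).card = j := by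
          rw [Finset.card_insert_of_notMem hwG, hj]
        have hE : E (∏ v ∈ insert w (G.erase g), (X v : MvPolynomial V ℝ)) = 0 := by
          by_cases hface : Face o p (insert w (G.erase g))
          · obtain ⟨F'', b1, b2, b3, b4⟩ := sh_min_facet h t hface
            have hRsub : ∀ v ∈ F, 0 < c F v → v ∈ F'' := by
              intro v hv hpos
              have hvR : v ∈ F.filter (fun v => 0 < c F v) := Finset.mem_filter.2 ⟨hv, hpos⟩
              apply b3
              apply Finset.mem_insert_of_mem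
              refine Finset.mem_erase.2 ⟨?_, hR hvR⟩
              rintro rfl
              exact hgR hvR
            have hle := Gen.le_of_pos h hg hF hFc b1 b2 hRsub
            have hlt : t F < t F'' := by
              refine lt_of_le_of_ne hle fun heq => ?_
              have := hg.inj F F'' hF hFc b1 b2 heq
              rw [this] at hwF
              exact hwF (b3 (Finset.mem_insert_self _ _))
            refine ih ((facets n o p).filter fun F' => t F'' < t F').card ?_ F''
              (insert w (G.erase g)) b1 b2 b3 hcard b4 rfl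
            rw [← hm]
            apply Finset.card_lt_card
            refine Finset.ssubset_iff_of_subset ?_ |>.2 ⟨F'', ?_, ?_⟩
            · intro F' hF'
              obtain ⟨c1, c2⟩ := Finset.mem_filter.1 hF'
              exact Finset.mem_filter.2 ⟨c1, hlt.trans c2⟩
            · exact Finset.mem_filter.2 ⟨mem_facets.2 ⟨b1, b2⟩, hlt⟩
            · intro hh
              exact lt_irrefl _ (Finset.mem_filter.1 hh).2
          · rw [sh_prod_eq]
            apply h1
            · rw [sh_deg, hcard]
            · rw [sh_supp]; exact hface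
        rw [hE, smul_zero]
      rw [hzero, add_zero] at hth
      exact hth
  intro G hG hGc
  obtain ⟨F, b1, b2, b3, b4⟩ := sh_min_facet h t hG
  exact key _ F G b1 b2 b3 hGc b4 rfl

/-- Poincare duality. -/
theorem duality (h : Ord n o p) {D : MvPolynomial V ℝ →ₗ[ℝ] ℝ}
    (hD : IsFun n (Face o p) o p D) {j : ℕ} (hj : j ≤ n) {a : MvPolynomial V ℝ}
    (ha : a.IsHomogeneous j) (hann : Ann D (n - j) a) (E : MvPolynomial V ℝ →ₗ[ℝ] ℝ)
    (h1 : ∀ s : V →₀ ℕ, s.degree = j → ¬ Face o p s.support → E (monomial s 1) = 0)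
    (h2 : ∀ x : U, o x = 0 → ∀ (i : ℕ) (b : MvPolynomial V ℝ), i + 1 = j →
      b.IsHomogeneous i → E (theta p x * b) = 0) : E a = 0 := by
  classical
  obtain ⟨f, t, c, hg⟩ := h.exists_gen
  set R : Finset V → Finset V := fun F => F.filter (fun v => 0 < c F v) with hRdef
  set Q : Finset V → Finset V := fun F => F.filter (fun v => ¬ 0 < c F v) with hQdef
  have hRQ : ∀ F, (R F).card + (Q F).card = F.card := fun F =>
    Finset.card_filter_add_card_filter_not _
  set T : Finset (Finset V) := (facets n o p).filter fun F => (R F).card = j with hTdef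
  have hT : ∀ F ∈ T, Face o p F ∧ F.card = n ∧ (R F).card = j ∧ (Q F).card = n - j := by
    intro F hF
    obtain ⟨a1, a2⟩ := Finset.mem_filter.1 hF
    obtain ⟨a3, a4⟩ := mem_facets.1 a1
    refine ⟨a3, a4, a2, ?_⟩
    have := hRQ F
    omega
  -- the triangular matrix
  have hdiag : ∀ F ∈ T, D ((∏ v ∈ R F, X v) * ∏ v ∈ Q F, X v) ≠ 0 := by
    intro F hF
    obtain ⟨a1, a2, -, -⟩ := hT F hF
    have : (∏ v ∈ R F, (X v : MvPolynomial V ℝ)) * ∏ v ∈ Q F, X v = ∏ v ∈ F, X v :=
      Finset.prod_filter_mul_prod_filter_not _ _ _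
    rw [this]
    exact (hD.k3 F a1 a2).ne'
  have htri : ∀ F ∈ T, ∀ F' ∈ T, F ≠ F' → t F' ≤ t F →
      D ((∏ v ∈ R F, X v) * ∏ v ∈ Q F', X v) = 0 := by
    intro F hF F' hF' hne hle
    obtain ⟨a1, a2, a3, -⟩ := hT F hF
    obtain ⟨b1, b2, -, b4⟩ := hT F' hF'
    rw [sh_prod_eq, sh_prod_eq, monomial_mul, one_mul]
    apply hD.k1
    · rw [map_add, sh_deg, sh_deg, a3, b4]; omega
    · rw [sh_supp_add]
      intro hface
      obtain ⟨F'', c1, c2, c3⟩ := h.face_facet hface
      have e1 := Gen.le_of_pos h hg a1 a2 c1 c2 (fun v hv hpos =>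
        c3 (Finset.mem_union_left _ (Finset.mem_filter.2 ⟨hv, hpos⟩)))
      have e2 := Gen.le_of_neg h hg b1 b2 c1 c2 (fun v hv hneg =>
        c3 (Finset.mem_union_right _ (Finset.mem_filter.2 ⟨hv, not_lt.2 hneg.le⟩)))
      exact hne (hg.inj F F' a1 a2 b1 b2 (le_antisymm (e1.trans e2) hle))
  obtain ⟨γ, hγ⟩ := sh_triangular t (fun F F' => D ((∏ v ∈ R F, X v) * ∏ v ∈ Q F', X v))
    (fun F => E (∏ v ∈ R F, X v)) T hdiag htri
  -- the difference functional
  set E' : MvPolynomial V ℝ →ₗ[ℝ] ℝ := E - ∑ F' ∈ T, γ F' •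
    (D ∘ₗ LinearMap.mulRight ℝ (∏ v ∈ Q F', (X v : MvPolynomial V ℝ))) with hE'
  have hE'val : ∀ b, E' b = E b - ∑ F' ∈ T, γ F' * D (b * ∏ v ∈ Q F', X v) := by
    intro b
    rw [hE', LinearMap.sub_apply, LinearMap.sum_apply]
    rfl
  have hzero : E' a = 0 := by
    refine shell_span h hg j E' ?_ ?_ ?_ a ha
    · intro s hs hsf
      rw [hE'val, h1 s hs hsf, zero_sub, neg_eq_zero]
      refine Finset.sum_eq_zero fun F' hF' => ?_
      obtain ⟨b1, b2, -, b4⟩ := hT F' hF'
      rw [sh_prod_eq, monomial_mul, one_mul, hD.k1, mul_zero]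
      · rw [map_add, sh_deg, hs, b4]; omega
      · intro hface
        apply hsf
        refine Face.mono hface ?_
        intro v hv
        rw [Finsupp.mem_support_iff] at hv ⊢
        rw [Finsupp.add_apply]
        omega
    · intro x hx i b hi hb
      rw [hE'val, h2 x hx i b hi hb, zero_sub, neg_eq_zero]
      refine Finset.sum_eq_zero fun F' hF' => ?_
      obtain ⟨b1, b2, -, b4⟩ := hT F' hF'
      rw [mul_assoc, hD.k2 x hx (i + (n - j)) _ (by omega), mul_zero]
      have := hb.mul (sh_hom (Q F'))
      rwa [b4] at this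
    · intro F hF hFc hcard
      have hFT : F ∈ T := Finset.mem_filter.2 ⟨mem_facets.2 ⟨hF, hFc⟩, hcard⟩
      rw [hE'val]
      have := hγ F hFT
      rw [this]
      exact sub_self _
  rw [hE'val] at hzero
  have hsum : ∑ F' ∈ T, γ F' * D (a * ∏ v ∈ Q F', X v) = 0 := by
    refine Finset.sum_eq_zero fun F' hF' => ?_
    obtain ⟨b1, b2, -, b4⟩ := hT F' hF'
    rw [hann _ (by have := sh_hom (Q F'); rwa [b4] at this), mul_zero]
  rw [hsum, sub_zero] at hzero
  exact hzero

end SHELL

end MP46
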