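import Pool.Agent.Lib.MP_46e101_co.Defs
import Pool.Agent.Lib.MP_46e101_co.PRESC
import Pool.Agent.Lib.MP_46e101_co.FACES
import Pool.Agent.Lib.MP_46e101_co.SHELL
import Pool.Agent.Lib.MP_46e101_co.LFUN
import Pool.Agent.Lib.MP_46e101_co.LGEO
import Pool.Agent.Lib.MP_46e101_co.ND
import Pool.Agent.Lib.MP_46e101_co.ANA0
import Pool.Agent.Lib.MP_46e101_co.DET
import Pool.Agent.Lib.MP_46e101_co.HRM

open MvPolynomial

universe u w

noncomputable section

namespace MP46

namespace MVaux

section

variable {V : Type u}

/-- a linear functional killing the monomials of degree `j` kills homogeneous polynomials. -/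
theorem lin_homog (L : MvPolynomial V ℝ →ₗ[ℝ] ℝ) {j : ℕ}
    (h : ∀ s : V →₀ ℕ, s.degree = j → L (monomial s 1) = 0)
    {b : MvPolynomial V ℝ} (hb : b.IsHomogeneous j) : L b = 0 := by
  rw [b.as_sum, map_sum]
  apply Finset.sum_eq_zero
  intro s hs
  have hd : s.degree = j := by
    by_contra hne
    exact (mem_support_iff.1 hs) (hb.coeff_eq_zero hne)
  have : (monomial s (coeff s b) : MvPolynomial V ℝ) = coeff s b • monomial s 1 := by
    rw [smul_monomial, smul_eq_mul, mul_one]
  rw [this, map_smul, h s hd, smul_zero]

theorem evL_mul (z : V → ℝ) (a b : MvPolynomial V ℝ) : evL z (a * b) = evL z a * evL z b := by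
  simp [evL]

theorem evL_pow (z : V → ℝ) (a : MvPolynomial V ℝ) (r : ℕ) : evL z (a ^ r) = evL z a ^ r := by
  simp [evL]

theorem evL_X (z : V → ℝ) (v : V) : evL z (X v) = z v := by
  simp [evL]

theorem evL_monomial (z : V → ℝ) (s : V →₀ ℕ) :
    evL z (monomial s 1) = s.prod fun v k => z v ^ k := by
  simp [evL, aeval_monomial]

end

section

variable {V : Type u} [Fintype V] [DecidableEq V] {U : Type w} [AddCommGroup U] [Module ℝ U]
  {o : Module.Dual ℝ U} {p : V → Module.Dual ℝ U} {n : ℕ}

theorem homog_theta (x : U) : (theta p x).IsHomogeneous 1 := by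
  unfold theta
  apply IsHomogeneous.sum
  intro v _
  exact isHomogeneous_C_mul_X _ _

theorem theta_lin (r : ℝ) (x y : U) : theta p (r • x + y) = C r * theta p x + theta p y := by
  unfold theta
  rw [Finset.mul_sum, ← Finset.sum_add_distrib]
  apply Finset.sum_congr rfl
  intro v _
  rw [map_add, map_smul, smul_eq_mul, C_add, C_mul]
  ring

theorem evL_theta (z : V → ℝ) (x : U) : evL z (theta p x) = ∑ v, p v x * z v := by
  unfold theta
  rw [map_sum]
  apply Finset.sum_congr rfl
  intro v _
  simp [evL]

theorem kill_monomial {Δ : Finset V → Prop} (hmono : ∀ F G : Finset V, Δ F → G ⊆ F → Δ G)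
    {D : MvPolynomial V ℝ →ₗ[ℝ] ℝ} (hD : IsFun n Δ o p D) {s : V →₀ ℕ} (hs : ¬ Δ s.support)
    {j : ℕ} {b : MvPolynomial V ℝ} (hb : b.IsHomogeneous j) (hj : s.degree + j = n) :
    D (monomial s 1 * b) = 0 := by
  have := lin_homog (D ∘ₗ LinearMap.mulLeft ℝ (monomial s 1)) (j := j) ?_ hb
  · simpa using this
  · intro t ht
    simp only [LinearMap.comp_apply, LinearMap.mulLeft_apply, monomial_mul, mul_one]
    apply hD.k1
    · rw [map_add, ht, hj]
    · intro h
      apply hs
      apply hmono _ _ h
      intro v hv
      rw [Finsupp.mem_support_iff] at hv ⊢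
      rw [Finsupp.add_apply]
      omega


theorem card_support_le (s : V →₀ ℕ) : s.support.card ≤ s.degree := by
  rw [Finsupp.degree, Finset.card_eq_sum_ones]
  apply Finset.sum_le_sum
  intro v hv
  rw [Finsupp.mem_support_iff] at hv
  exact Nat.one_le_iff_ne_zero.2 hv

theorem exists_two {s : V →₀ ℕ} (h : s.support.card < s.degree) : ∃ g ∈ s.support, 2 ≤ s g := by
  by_contra hcon
  push Not at hcon
  apply absurd h
  rw [not_lt, Finsupp.degree, Finset.card_eq_sum_ones]
  apply Finset.sum_le_sum
  intro v hv
  have := hcon v hv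
  omega

theorem evL_LF (z y : V → ℝ) : evL z (LF y) = ∑ v, y v * z v := by
  unfold LF
  rw [map_sum]
  apply Finset.sum_congr rfl
  intro v _
  simp [evL]

theorem hrs_vertex {D : MvPolynomial V ℝ →ₗ[ℝ] ℝ} (h : Ord (n + 1) o p)
    (hD : IsFun (n + 1) (Face o p) o p D) {x : U} (hx : o x = 1) {k : ℕ} (hk : 2 * k ≤ n)
    (w : V) : HRs (D ∘ₗ LinearMap.mulLeft ℝ (X w)) (theta p x) n k := by
  by_cases hw : Face o p {w}
  · obtain ⟨⟨y, hoy, hy⟩, x', hx'⟩ := h.link_points hw
    obtain ⟨hl, hf⟩ := h.link hw
    have h1 := isFun_link hD w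
    have h2 : linkF (Face o p) w = Face (linkO o p w) (linkP p w) := by
      funext G
      exact propext (hf G).symm
    rw [h2] at h1
    have h3 := (hr_all.{u, w} n).1 _ _ (linkO o p w) (linkP p w) (linkD D w) hl h1 x' hx' k hk
    exact hrs_of_link hD w hoy hy hx hx' hk h3
  · intro a ha _
    right
    intro b hb
    have hg : ∀ G : Finset V, w ∈ G → ¬ Face o p G := by
      intro G hwG hG
      exact hw (hG.mono (by simpa using hwG))
    have := ghost hD w hg (j := n) rfl (b := a * b) (by
      have := ha.mul hb
      rwa [show k + (n - k) = n by omega] at this)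
    simpa using this

end

end MVaux

open MVaux in
theorem mversion {V : Type u} [Fintype V] [DecidableEq V] {U : Type w} [AddCommGroup U]
    [Module ℝ U] {o : Module.Dual ℝ U} {p : V → Module.Dual ℝ U} {n : ℕ}
    {i : ℕ} (hi : 1 ≤ i) (h2i : 2 * i ≤ n) (h : Ord n o p)
    {M : Finset V} (hM : ¬ Face o p M) (hMin : ∀ a ∈ M, Face o p (M.erase a))
    (hc1 : i + 1 ≤ M.card) (hc2 : M.card ≤ n - i + 1)
    {ν : V → ℝ} (hν : ∀ a ∈ M, 0 < ν a) (hνo : o = ∑ a ∈ M, ν a • p a)
    {y : V → ℝ} (hy0 : ∀ a ∈ M, y a = 0) (hy : ∀ v, v ∉ M → 0 < y v)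
    (hs : ∀ s : MvPolynomial V ℝ →ₗ[ℝ] ℝ, IsStressFun i (Face o p) p s →
      ∀ (j : ℕ) (b : MvPolynomial V ℝ), j + 1 = i → b.IsHomogeneous j → s (LF y * b) = 0) :
    False := by
  obtain ⟨k, rfl⟩ : ∃ k, i = k + 1 := ⟨i - 1, by omega⟩
  obtain ⟨r, rfl⟩ : ∃ r, n = 2 * k + 1 + r + 1 := ⟨n - (2 * k + 2), by omega⟩
  obtain ⟨D, hD⟩ := exists_functional h
  obtain ⟨x, hxP⟩ := h.ne
  have hx : o x = 1 := hxP.1
  set ν' : V → ℝ := fun v => if v ∈ M then ν v else 0 with hν'
  have hE0 : ∀ z : U, evL ν' (theta p z) = o z := by
    intro z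
    rw [evL_theta, hνo]
    simp only [hν', mul_ite, mul_zero, Finset.sum_ite_mem, Finset.univ_inter,
      LinearMap.sum_apply, LinearMap.smul_apply, smul_eq_mul]
    exact Finset.sum_congr rfl fun v _ => mul_comm _ _
  have hmono : ∀ F G : Finset V, Face o p F → G ⊆ F → Face o p G := fun F G hF hG => hF.mono hG
  have hEmon : ∀ s : V →₀ ℕ, s.degree < M.card → ¬ Face o p s.support →
      evL ν' (monomial s 1) = 0 := by
    intro s hsd hsF
    rw [evL_monomial]
    by_cases hsub : s.support ⊆ M
    · exfalso
      obtain ⟨a, haM, has⟩ : ∃ a ∈ M, a ∉ s.support := by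
        by_contra hcon
        push Not at hcon
        have h1 : M.card ≤ s.support.card := Finset.card_le_card hcon
        have h2 := card_support_le s
        omega
      apply hsF
      apply (hMin a haM).mono
      intro v hv
      rw [Finset.mem_erase]
      exact ⟨fun hva => has (hva ▸ hv), hsub hv⟩
    · obtain ⟨v, hv, hvM⟩ := Finset.not_subset.1 hsub
      rw [Finsupp.prod]
      apply Finset.prod_eq_zero hv
      rw [Finsupp.mem_support_iff] at hv
      simp only [hν', hvM, if_false]
      exact zero_pow hv
  obtain ⟨N, e, γ, he, -, hev, -⟩ := solve (D := D) (l := theta p x) (m := 0) (homog_theta x)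
    (isHomogeneous_zero _ _ _) (n := 2 * k + 1 + r + 1) (j := k) (by omega)
    (nd_ord (hr_all.{u, w} _).1 h hD hx (by omega)) (fun _ => evL ν')
    (fun _ => continuous_const) (by
      intro _ b hb hann
      refine duality h hD (by omega) hb hann (evL ν') ?_ ?_
      · intro s hsd hsF
        exact hEmon s (by omega) hsF
      · intro z hz i b _ _
        rw [evL_mul, hE0, hz, zero_mul])
  have h0 := hev.self_of_nhds
  simp only [smul_zero, add_zero, show 2 * k + 1 + r + 1 - 2 * k = r + 2 by omega] at h0
  set aM : MvPolynomial V ℝ := ∑ i, γ i 0 • e i with haM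
  have haMh : aM.IsHomogeneous k := by
    apply IsHomogeneous.sum
    intro i _
    rw [smul_eq_C_mul]
    exact (he i).C_mul _
  clear_value aM
  have hth := homog_theta (p := p) x
  -- the stress functional
  have hstress : IsStressFun (k + 1) (Face o p) p
      (D ∘ₗ LinearMap.mulLeft ℝ (aM * theta p x ^ (r + 1)) - evL ν') := by
    constructor
    · intro e' hed heF
      rw [LinearMap.sub_apply, hEmon e' (by omega) heF, sub_zero, LinearMap.comp_apply,
        LinearMap.mulLeft_apply, mul_comm]
      apply kill_monomial hmono hD heF (j := k + 1 * (r + 1))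
      · exact haMh.mul (hth.pow _)
      · omega
    · intro z j b hj hb
      obtain rfl : j = k := by omega
      rw [LinearMap.sub_apply, LinearMap.comp_apply, LinearMap.mulLeft_apply, evL_mul, hE0]
      have hz : z = o z • x + (z - o z • x) := by abel
      have h1 : theta p z = C (o z) * theta p x + theta p (z - o z • x) := by
        conv_lhs => rw [hz]
        exact theta_lin _ _ _
      have h2 : D (theta p (z - o z • x) * (aM * theta p x ^ (r + 1) * b)) = 0 := by
        apply hD.k2 _ _ (j + 1 * (r + 1) + j)
        · omega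
        · exact (haMh.mul (hth.pow _)).mul hb
        · rw [map_sub, map_smul, hx, smul_eq_mul, mul_one, sub_self]
      have h3 := h0 b hb
      have h4 : aM * theta p x ^ (r + 1) * (theta p z * b) =
          o z • (aM * b * theta p x ^ (r + 2)) +
            theta p (z - o z • x) * (aM * theta p x ^ (r + 1) * b) := by
        rw [h1, smul_eq_C_mul]
        ring
      rw [h4, map_add, map_smul, h2, h3, add_zero, smul_eq_mul, sub_self]
  have hval := hs _ hstress k aM rfl haMh
  rw [LinearMap.sub_apply, LinearMap.comp_apply, LinearMap.mulLeft_apply, evL_mul, evL_LF] at hval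
  have hz0 : ∑ v, y v * ν' v = 0 := by
    apply Finset.sum_eq_zero
    intro v _
    by_cases hv : v ∈ M
    · rw [hy0 v hv, zero_mul]
    · simp [hν', hv]
  rw [hz0, zero_mul, sub_zero] at hval
  have hsum : ∑ v, y v * ((-1) ^ k * D (X v * (aM ^ 2 * theta p x ^ (r + 1)))) = 0 := by
    have h1 : aM * theta p x ^ (r + 1) * (LF y * aM) =
        ∑ v, y v • (X v * (aM ^ 2 * theta p x ^ (r + 1))) := by
      unfold LF
      rw [Finset.sum_mul, Finset.mul_sum]
      apply Finset.sum_congr rfl
      intro v _
      rw [smul_eq_C_mul]
      ring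
    rw [h1, map_sum] at hval
    have : ∑ v, y v * ((-1) ^ k * D (X v * (aM ^ 2 * theta p x ^ (r + 1)))) =
        (-1) ^ k * ∑ v, D (y v • (X v * (aM ^ 2 * theta p x ^ (r + 1)))) := by
      rw [Finset.mul_sum]
      apply Finset.sum_congr rfl
      intro v _
      rw [map_smul, smul_eq_mul]
      ring
    rw [this, hval, mul_zero]
  have hkey : ∀ w, w ∉ M → 0 < (-1) ^ k * D (X w * (aM ^ 2 * theta p x ^ (r + 1))) ∨
      Ann (D ∘ₗ LinearMap.mulLeft ℝ (X w)) (k + 1 + r) aM := by
    intro w hw
    have h1 := hrs_vertex h hD hx (k := k) (by omega) w aM haMh (by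
      intro j b hj hb
      rw [show 2 * k + 1 + r - 2 * k + 1 = r + 2 by omega, LinearMap.comp_apply,
        LinearMap.mulLeft_apply]
      have h2 : (X w : MvPolynomial V ℝ) * (aM * b * theta p x ^ (r + 2)) =
          aM * (X w * b) * theta p x ^ (r + 2) := by ring
      have h3 : (X w * b : MvPolynomial V ℝ).IsHomogeneous k := by
        have := (isHomogeneous_X ℝ w).mul hb
        rwa [show 1 + j = k by omega] at this
      rw [h2, h0 _ h3, evL_mul, evL_X]
      simp [hν', hw])
    rw [show 2 * k + 1 + r - 2 * k = r + 1 by omega,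
      show 2 * k + 1 + r - k = k + 1 + r by omega] at h1
    simpa using h1
  have hnn : ∀ w, w ∉ M → 0 ≤ (-1) ^ k * D (X w * (aM ^ 2 * theta p x ^ (r + 1))) := by
    intro w hw
    rcases hkey w hw with h1 | h1
    · exact h1.le
    · have h2 : (aM * theta p x ^ (r + 1)).IsHomogeneous (k + 1 + r) := by
        have := haMh.mul (hth.pow (r + 1))
        rwa [show k + 1 * (r + 1) = k + 1 + r by omega] at this
      have h3 := h1 _ h2
      rw [LinearMap.comp_apply, LinearMap.mulLeft_apply] at h3
      have h4 : (X w : MvPolynomial V ℝ) * (aM ^ 2 * theta p x ^ (r + 1)) =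
          X w * (aM * (aM * theta p x ^ (r + 1))) := by ring
      rw [h4, h3, mul_zero]
  have hann : ∀ w, w ∉ M → Ann (D ∘ₗ LinearMap.mulLeft ℝ (X w)) (k + 1 + r) aM := by
    intro w hw
    rcases hkey w hw with h1 | h1
    · exfalso
      have h2 : ∀ v ∈ Finset.univ, 0 ≤
          y v * ((-1) ^ k * D (X v * (aM ^ 2 * theta p x ^ (r + 1)))) := by
        intro v _
        by_cases hv : v ∈ M
        · rw [hy0 v hv, zero_mul]
        · exact mul_nonneg (hy v hv).le (hnn v hv)
      have h3 := (Finset.sum_eq_zero_iff_of_nonneg h2).1 hsum w (Finset.mem_univ w)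
      have h4 := mul_pos (hy w hw) h1
      rw [h3] at h4
      exact lt_irrefl _ h4
    · exact h1
  have hA : ∀ (s : V →₀ ℕ), s.degree = k + r + 1 → ∀ w, w ∉ M →
      D (aM * monomial (s + Finsupp.single w 1) 1) = 0 := by
    intro s hsd w hw
    have h1 := hann w hw (monomial s 1) (isHomogeneous_monomial _ (by omega))
    rw [LinearMap.comp_apply, LinearMap.mulLeft_apply] at h1
    rw [← h1]
    congr 1
    rw [show (X w : MvPolynomial V ℝ) = monomial (Finsupp.single w 1) 1 from rfl,
      mul_left_comm, monomial_mul, mul_one, add_comm]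
  have hne : ∀ s : V →₀ ℕ, s.degree = k + r + 2 → ¬ s.support ⊆ M →
      D (aM * monomial s 1) = 0 := by
    intro s hsd hsub
    obtain ⟨w, hw, hwM⟩ := Finset.not_subset.1 hsub
    rw [Finsupp.mem_support_iff] at hw
    have h1 : s = (s - Finsupp.single w 1) + Finsupp.single w 1 := by
      rw [tsub_add_cancel_of_le]
      rw [Finsupp.single_le_iff]
      omega
    have h2 : (s - Finsupp.single w 1).degree = k + r + 1 := by
      have h3 := congrArg Finsupp.degree h1
      rw [map_add, Finsupp.degree_single] at h3
      omega
    rw [h1]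
    exact hA _ h2 w hwM
  have hB : ∀ (m : ℕ) (s : V →₀ ℕ), s.degree = k + r + 2 → M.card ≤ m + s.support.card →
      D (aM * monomial s 1) = 0 := by
    intro m
    induction m with
    | zero =>
      intro s hsd hc
      by_cases hsub : s.support ⊆ M
      · have h1 : s.support = M := Finset.eq_of_subset_of_card_le hsub (by omega)
        rw [mul_comm]
        exact kill_monomial hmono hD (by rw [h1]; exact hM) haMh (by omega)
      · exact hne s hsd hsub
    | succ m ih =>
      intro s hsd hc
      by_cases hsub : s.support ⊆ M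
      · by_cases hF : Face o p s.support
        · have hcard : s.support.card < M.card := by
            rcases Nat.lt_or_ge s.support.card M.card with h1 | h1
            · exact h1
            · exact absurd (Finset.eq_of_subset_of_card_le hsub h1 ▸ hF) hM
          obtain ⟨g, hg, hg2⟩ := exists_two (s := s) (by omega)
          obtain ⟨x0, hx0P, hx0⟩ := hF
          obtain ⟨y', hoy', hy'⟩ := prescribe (o := o) (p := p) (x := x0) (F := s.support)
            hx0P.1 (fun v hv => by
              have := hx0 hv
              simpa [act] using this) ((h.simple x0 hx0P).mono hx0) 0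
            (fun v => if v = g then 1 else 0)
          set s' := s - Finsupp.single g 1 with hs'
          have h1 : s = s' + Finsupp.single g 1 := by
            rw [hs', tsub_add_cancel_of_le]
            rw [Finsupp.single_le_iff]
            omega
          have h2 : s'.degree = k + r + 1 := by
            have h3 := congrArg Finsupp.degree h1
            rw [map_add, Finsupp.degree_single] at h3
            omega
          have hsup : ∀ v, v ∉ s.support → (s' + Finsupp.single v 1).support =
              insert v s.support := by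
            intro v hv
            have hvs : s v = 0 := by simpa using hv
            ext u
            rw [Finset.mem_insert, Finsupp.mem_support_iff, Finsupp.mem_support_iff, hs',
              Finsupp.add_apply, Finsupp.tsub_apply, Finsupp.single_apply, Finsupp.single_apply]
            by_cases hu : u = v
            · subst hu
              simp
            · have hvu : ¬ v = u := fun h => hu h.symm
              simp only [hvu, if_false, hu, false_or]
              split_ifs with hgu
              · subst hgu
                omega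
              · omega
          have h3 : D (theta p y' * (aM * monomial s' 1)) = 0 := by
            apply hD.k2 _ hoy' (k + (k + r + 1))
            · omega
            · exact haMh.mul (isHomogeneous_monomial _ h2)
          have h4 : theta p y' * (aM * monomial s' 1) =
              ∑ v, p v y' • (aM * monomial (s' + Finsupp.single v 1) 1) := by
            unfold theta
            rw [Finset.sum_mul]
            apply Finset.sum_congr rfl
            intro v _
            rw [smul_eq_C_mul, add_comm s', show (monomial (Finsupp.single v 1 + s') 1 :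
              MvPolynomial V ℝ) = X v * monomial s' 1 by
                rw [show (X v : MvPolynomial V ℝ) = monomial (Finsupp.single v 1) 1 from rfl,
                  monomial_mul, mul_one]]
            ring
          rw [h4, map_sum, Finset.sum_eq_single g] at h3
          · rw [map_smul, hy' g hg, if_pos rfl, one_smul, ← h1] at h3
            exact h3
          · intro v _ hvg
            rw [map_smul]
            by_cases hv : v ∈ s.support
            · rw [hy' v hv, if_neg hvg, zero_smul]
            · rw [ih (s' + Finsupp.single v 1), smul_zero]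
              · rw [map_add, h2, Finsupp.degree_single]
              · rw [hsup v hv, Finset.card_insert_of_notMem hv]
                omega
          · intro hcon
            exact absurd (Finset.mem_univ g) hcon
        · rw [mul_comm]
          exact kill_monomial hmono hD hF haMh (by omega)
      · exact hne s hsd hsub
  have hfin : ∀ b : MvPolynomial V ℝ, b.IsHomogeneous (k + r + 2) → D (aM * b) = 0 := by
    intro b hb
    have := lin_homog (D ∘ₗ LinearMap.mulLeft ℝ aM) (j := k + r + 2) (fun s hsd => by
      rw [LinearMap.comp_apply, LinearMap.mulLeft_apply]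
      exact hB M.card s hsd (by omega)) hb
    simpa using this
  obtain ⟨g, hg⟩ : M.Nonempty := Finset.card_pos.1 (by omega)
  have h5 := h0 (X g ^ k) (by
    have := (isHomogeneous_X ℝ g).pow k
    rwa [one_mul] at this)
  rw [mul_assoc, hfin, evL_pow, evL_X] at h5
  · simp only [hν', hg, if_true] at h5
    exact absurd h5.symm (pow_ne_zero _ (hν g hg).ne')
  · have h6 := ((isHomogeneous_X ℝ g).pow k).mul (hth.pow (r + 2))
    rwa [show 1 * k + 1 * (r + 2) = k + r + 2 by omega] at h6

end MP46
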