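import Pool.Agent.Lib.MP_46e101_co.Poly
import Pool.Agent.Lib.MP_46e101_co.FACES

/-! # The homogenised data of a simplicial polytope -/

open MvPolynomial

universe u

noncomputable section

namespace MP46

variable {V : Type u} [Fintype V] [DecidableEq V] {d : ℕ}

theorem pv_apply (q : V → EuclideanSpace ℝ (Fin d)) (v : V) (x : AffU d) :
    pv q v x = x.1 (q v) + x.2 := by
  simp [pv]

private theorem bary_apply (q : V → EuclideanSpace ℝ (Fin d)) (M : Finset V) (x : AffU d) :
    bary q M x = (1 / (M.card : ℝ)) * ∑ a ∈ M, pv q a x := by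
  simp [bary, LinearMap.sum_apply, Finset.mul_sum]

/-- the affine functional attached to `x`. -/
private def affOf (x : AffU d) : EuclideanSpace ℝ (Fin d) →ᵃ[ℝ] ℝ :=
  x.1.toAffineMap + AffineMap.const ℝ (EuclideanSpace ℝ (Fin d)) x.2

private theorem affOf_apply (x : AffU d) (y : EuclideanSpace ℝ (Fin d)) :
    affOf x y = x.1 y + x.2 := by
  simp [affOf]

private def ofAff (a : EuclideanSpace ℝ (Fin d) →ᵃ[ℝ] ℝ) : AffU d := (a.linear, a 0)

private theorem pv_ofAff (q : V → EuclideanSpace ℝ (Fin d)) (v : V)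
    (a : EuclideanSpace ℝ (Fin d) →ᵃ[ℝ] ℝ) : pv q v (ofAff a) = a (q v) := by
  rw [pv_apply]
  have h := AffineMap.decomp a
  have h2 := congrFun h (q v)
  simp only [Pi.add_apply] at h2
  rw [h2]
  rfl

private theorem finrank_affU : Module.finrank ℝ (AffU d) = d + 1 := by
  simp [AffU, Module.finrank_prod, Subspace.dual_finrank_eq]

private theorem isFace_act {q : V → EuclideanSpace ℝ (Fin d)} {x : AffU d}
    (hx : ∀ v, 0 ≤ pv q v x) (hne : ∃ v, v ∉ act (pv q) x) : IsFace q (act (pv q) x) := by
  refine ⟨hne, affOf x, ?_, ?_⟩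
  · intro v hv
    rw [affOf_apply, ← pv_apply]
    simpa [act] using hv
  · intro v hv
    rw [affOf_apply, ← pv_apply]
    have h1 : pv q v x ≠ 0 := by simpa [act] using hv
    exact lt_of_le_of_ne (hx v) (Ne.symm h1)

private theorem ind_of_affineIndependent {q : V → EuclideanSpace ℝ (Fin d)} {F : Finset V}
    (h : AffineIndependent ℝ (fun v : F => q (v : V))) : Ind (pv q) F := by
  unfold Ind
  rw [Fintype.linearIndependent_iff]
  intro g hg
  have h0 : ∑ i : F, g i = 0 := by
    have := LinearMap.congr_fun hg ((0, 1) : AffU d)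
    simpa [LinearMap.sum_apply, pv_apply] using this
  have h1 : ∑ i : F, g i • q (i : V) = 0 := by
    by_contra hne
    obtain ⟨φ, hφ⟩ : ∃ φ : Module.Dual ℝ (EuclideanSpace ℝ (Fin d)),
        φ (∑ i : F, g i • q (i : V)) ≠ 0 := by
      by_contra hcon
      push Not at hcon
      exact hne ((Module.forall_dual_apply_eq_zero_iff ℝ _).1 hcon)
    apply hφ
    have := LinearMap.congr_fun hg ((φ, 0) : AffU d)
    simpa [LinearMap.sum_apply, pv_apply, map_sum] using this
  rw [affineIndependent_iff] at h
  intro i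
  exact h Finset.univ g h0 h1 i (Finset.mem_univ i)

private theorem eq_zero_of_span {q : V → EuclideanSpace ℝ (Fin d)}
    (hfull : affineSpan ℝ (Set.range q) = ⊤) {x : AffU d} (hx : ∀ v, pv q v x = 0) : x = 0 := by
  have h1 : ∀ y : EuclideanSpace ℝ (Fin d), affOf x y = 0 := by
    intro y
    have hy : y ∈ affineSpan ℝ (Set.range q) := by rw [hfull]; exact AffineSubspace.mem_top _ _ _
    have h2 : (affineSpan ℝ (Set.range q)).map (affOf x) ≤ affineSpan ℝ {(0 : ℝ)} := by
      rw [AffineSubspace.map_span]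
      apply affineSpan_mono
      rintro _ ⟨_, ⟨v, rfl⟩, rfl⟩
      rw [affOf_apply, ← pv_apply, hx v]
      exact Set.mem_singleton _
    have h3 := h2 (AffineSubspace.mem_map_of_mem (affOf x) hy)
    simpa using h3
  have hc : x.2 = 0 := by
    have := h1 0
    rw [affOf_apply] at this
    simpa using this
  have hl : x.1 = 0 := by
    ext y
    have := h1 y
    rw [affOf_apply, hc] at this
    simpa using this
  exact Prod.ext hl hc

private theorem ord_aux {q : V → EuclideanSpace ℝ (Fin d)} (hq : IsSimplicialPolytope q)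
    {M : Finset V} (hne : M.Nonempty) (hM : ∀ F : Finset V, IsFace q F → ¬ M ⊆ F) :
    Ord d (bary q M) (pv q) := by
  have hcard : (0 : ℝ) < M.card := by exact_mod_cast hne.card_pos
  have key : ∀ x : AffU d, (∀ v, 0 ≤ pv q v x) → bary q M x = 0 → ∀ a ∈ M, pv q a x = 0 := by
    intro x hx hb a ha
    rw [bary_apply] at hb
    have h1 : ∑ a ∈ M, pv q a x = 0 := by
      rcases mul_eq_zero.1 hb with h | h
      · have : (1 : ℝ) / M.card > 0 := by positivity
        linarith
      · exact h
    exact (Finset.sum_eq_zero_iff_of_nonneg (fun a _ => hx a)).1 h1 a ha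
  refine ⟨finrank_affU, ⟨(0, 1), ?_, ?_⟩, ?_, ?_⟩
  · rw [bary_apply]
    simp only [pv_apply, LinearMap.zero_apply, zero_add, Finset.sum_const, nsmul_eq_mul, mul_one]
    field_simp
  · intro v
    rw [pv_apply]
    simp
  · intro x hx hb
    by_contra hcon
    push Not at hcon
    have h1 := key x hcon hb
    by_cases hall : ∀ v, pv q v x = 0
    · exact hx (eq_zero_of_span hq.full hall)
    · push Not at hall
      obtain ⟨v, hv⟩ := hall
      refine hM _ (isFace_act hcon ⟨v, by simpa [act] using hv⟩) ?_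
      intro a ha
      simpa [act] using h1 a ha
  · rintro x ⟨hx1, hx2⟩
    apply ind_of_affineIndependent
    apply hq.simplicial
    apply isFace_act hx2
    by_contra hcon
    push Not at hcon
    rw [bary_apply] at hx1
    have : ∑ a ∈ M, pv q a x = 0 := by
      apply Finset.sum_eq_zero
      intro a _
      simpa [act] using hcon a
    rw [this] at hx1
    simp at hx1

theorem ord_of_polytope {q : V → EuclideanSpace ℝ (Fin d)} (hq : IsSimplicialPolytope q)
    {M : Finset V} (hne : M.Nonempty) (hM : ∀ F : Finset V, IsFace q F → ¬ M ⊆ F) :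
    Ord d (bary q M) (pv q) ∧ ∀ G : Finset V, Face (bary q M) (pv q) G ↔ IsFace q G := by
  have hO := ord_aux hq hne hM
  refine ⟨hO, fun G => ⟨?_, ?_⟩⟩
  · intro hG
    obtain ⟨x, hx, hact⟩ := hO.relint hG
    rw [← hact]
    apply isFace_act hx.2
    by_contra hcon
    push Not at hcon
    have hx1 := hx.1
    rw [bary_apply] at hx1
    have : ∑ a ∈ M, pv q a x = 0 := by
      apply Finset.sum_eq_zero
      intro a _
      simpa [act] using hcon a
    rw [this] at hx1
    simp at hx1
  · rintro hF
    have hMG := hM G hF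
    obtain ⟨_, a, ha0, hapos⟩ := hF
    have hnn : ∀ v, 0 ≤ pv q v (ofAff a) := by
      intro v
      rw [pv_ofAff]
      by_cases hv : v ∈ G
      · exact (ha0 v hv).ge
      · exact (hapos v hv).le
    obtain ⟨w, hwM, hwG⟩ := Finset.not_subset.1 hMG
    have hcard : (0 : ℝ) < M.card := by exact_mod_cast hne.card_pos
    have hb : 0 < bary q M (ofAff a) := by
      rw [bary_apply]
      apply mul_pos (by positivity)
      apply Finset.sum_pos' (fun v _ => hnn v)
      exact ⟨w, hwM, by rw [pv_ofAff]; exact hapos w hwG⟩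
    refine ⟨(bary q M (ofAff a))⁻¹ • ofAff a, ⟨?_, ?_⟩, ?_⟩
    · rw [map_smul, smul_eq_mul, inv_mul_cancel₀ hb.ne']
    · intro v
      rw [map_smul, smul_eq_mul]
      exact mul_nonneg (inv_nonneg.2 hb.le) (hnn v)
    · intro v hv
      simp only [act, Finset.mem_filter, Finset.mem_univ, true_and]
      rw [map_smul, pv_ofAff, ha0 v hv, smul_zero]

end MP46
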