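import Pool.Agent.Lib.MP_46e101_co.Defs

open MvPolynomial

universe u w

noncomputable section

namespace MP46

section CH
variable {V : Type u} [Fintype V] [DecidableEq V] {U : Type w} [AddCommGroup U] [Module ℝ U]
  {o : Module.Dual ℝ U} {p : V → Module.Dual ℝ U} {n : ℕ}

private lemma par_mem {E : Type w} [AddCommGroup E] [Module ℝ E] (π : V → E) (G : Finset V)
    (r : V → ℝ) : ∑ v ∈ G, r v • π v ∈ Submodule.span ℝ (π '' G) := by
  apply Submodule.sum_mem
  intro v hv
  exact Submodule.smul_mem _ _ (Submodule.subset_span ⟨v, hv, rfl⟩)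

/-- parity of the number of facets of a non-positively-dependent system whose cone contains a
generic vector. -/
theorem cone_parity {E : Type w} [AddCommGroup E] [Module ℝ E] {e : ℕ} (he1 : 1 ≤ e)
    (hE : Module.finrank ℝ E = e) (π : V → E) (F : Finset V) (hF : F.card = e + 1)
    (hpos : ∀ r : V → ℝ, (∀ v ∈ F, 0 ≤ r v) → ∑ v ∈ F, r v • π v = 0 → ∀ v ∈ F, r v = 0)
    (x : E) (hgen : ∀ G ⊆ F, G.card < e → x ∉ Submodule.span ℝ (π '' G)) :
    Even (Finset.card (by classical exact F.filter fun w =>
      ∃ r : V → ℝ, (∀ v ∈ F.erase w, 0 < r v) ∧ x = ∑ v ∈ F.erase w, r v • π v)) := by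
  classical
  set P : V → Prop := fun w =>
      ∃ r : V → ℝ, (∀ v ∈ F.erase w, 0 < r v) ∧ x = ∑ v ∈ F.erase w, r v • π v with hP
  by_cases hex : ∃ w0 ∈ F, P w0
  swap
  · push Not at hex
    have : F.filter P = ∅ := Finset.filter_eq_empty_iff.mpr hex
    rw [this]; simp
  obtain ⟨w0, hw0, r, hr, hx⟩ := hex
  set F0 := F.erase w0 with hF0
  have hcF0 : F0.card = e := by rw [hF0, Finset.card_erase_of_mem hw0, hF]; simp
  -- independence
  have hind : ∀ a : V → ℝ, ∑ v ∈ F0, a v • π v = 0 → ∀ v ∈ F0, a v = 0 := by
    intro a ha v0 hv0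
    by_contra hne
    have h1 : x = ∑ v ∈ F0.erase v0, (r v - (r v0 / a v0) * a v) • π v := by
      have h2 : x = ∑ v ∈ F0, (r v - (r v0 / a v0) * a v) • π v := by
        have h3 : ∑ v ∈ F0, (r v - (r v0 / a v0) * a v) • π v =
            ∑ v ∈ F0, r v • π v - (r v0 / a v0) • ∑ v ∈ F0, a v • π v := by
          rw [Finset.smul_sum, ← Finset.sum_sub_distrib]
          refine Finset.sum_congr rfl fun v _ => ?_
          rw [sub_smul, mul_smul]
        rw [h3, ha, smul_zero, sub_zero]; exact hx
      rw [h2, ← Finset.add_sum_erase F0 _ hv0]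
      rw [div_mul_cancel₀ _ hne, sub_self, zero_smul, zero_add]
    refine hgen (F0.erase v0) ((Finset.erase_subset _ _).trans (Finset.erase_subset _ _)) ?_ ?_
    · rw [Finset.card_erase_of_mem hv0, hcF0]; omega
    · rw [h1]; exact par_mem π _ _
  -- spanning
  have : Module.Finite ℝ E := Module.finite_of_finrank_pos (by omega)
  have hli : LinearIndependent ℝ (fun v : F0 => π (v : V)) := by
    have : LinearIndepOn ℝ π (F0 : Set V) := by
      rw [linearIndepOn_finset_iff]
      exact fun a ha v hv => hind a ha v hv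
    exact this
  have hspan : ∃ b : V → ℝ, π w0 = ∑ v ∈ F0, b v • π v := by
    have htop : Submodule.span ℝ (Set.range (fun v : F0 => π (v : V))) = ⊤ :=
      hli.span_eq_top_of_card_eq_finrank' (by rw [hE]; simp [hcF0])
    have hmem : π w0 ∈ Submodule.span ℝ (Set.range (fun v : F0 => π (v : V))) := by
      rw [htop]; trivial
    rw [Submodule.mem_span_range_iff_exists_fun] at hmem
    obtain ⟨c, hc⟩ := hmem
    refine ⟨fun v => if h : v ∈ F0 then c ⟨v, h⟩ else 0, ?_⟩
    rw [← hc, ← Finset.sum_coe_sort F0]
    refine Finset.sum_congr rfl fun v _ => ?_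
    simp
  obtain ⟨b, hb⟩ := hspan
  set lam : V → ℝ := fun v => if v = w0 then 1 else - b v with hlam
  have hlam0 : lam w0 = 1 := by simp [hlam]
  have hlamsum : ∑ v ∈ F, lam v • π v = 0 := by
    rw [← Finset.add_sum_erase F _ hw0, hlam0, one_smul, hb, ← Finset.sum_add_distrib]
    apply Finset.sum_eq_zero
    intro v hv
    have hne : v ≠ w0 := (Finset.mem_erase.mp hv).1
    simp [hlam, hne]
  -- uniqueness of dependencies
  have huniq : ∀ a : V → ℝ, ∑ v ∈ F, a v • π v = 0 → ∀ v ∈ F, a v = a w0 * lam v := by
    intro a ha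
    have h1 : ∑ v ∈ F, (a v - a w0 * lam v) • π v = 0 := by
      have h3 : ∑ v ∈ F, (a v - a w0 * lam v) • π v =
            ∑ v ∈ F, a v • π v - a w0 • ∑ v ∈ F, lam v • π v := by
          rw [Finset.smul_sum, ← Finset.sum_sub_distrib]
          refine Finset.sum_congr rfl fun v _ => ?_
          rw [sub_smul, mul_smul]
      rw [h3, ha, hlamsum, smul_zero, sub_zero]
    rw [← Finset.add_sum_erase F _ hw0, hlam0, mul_one, sub_self, zero_smul, zero_add] at h1
    have h2 := hind _ h1
    intro v hv
    by_cases hvw : v = w0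
    · rw [hvw, hlam0, mul_one]
    · have := h2 v (Finset.mem_erase.mpr ⟨hvw, hv⟩)
      linarith
  -- some negative coefficient
  have hneg : (F0.filter fun v => lam v < 0).Nonempty := by
    by_contra hcon
    rw [Finset.not_nonempty_iff_eq_empty, Finset.filter_eq_empty_iff] at hcon
    have := hpos lam (by
      intro v hv
      by_cases hvw : v = w0
      · rw [hvw, hlam0]; norm_num
      · exact not_lt.mp (hcon (Finset.mem_erase.mpr ⟨hvw, hv⟩))) hlamsum w0 hw0
    rw [hlam0] at this
    norm_num at this
  obtain ⟨us, hus, hmin⟩ := Finset.exists_min_image _ (fun v => r v / (-lam v)) hneg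
  rw [Finset.mem_filter] at hus
  obtain ⟨husF0, huslam⟩ := hus
  have husF : us ∈ F := (Finset.mem_erase.mp husF0).2
  have husne : us ≠ w0 := (Finset.mem_erase.mp husF0).1
  set τ := r us / (-lam us) with hτ
  have hτpos : 0 < τ := div_pos (hr us husF0) (by linarith)
  have hτus : r us + τ * lam us = 0 := by
    have h1 : τ * (-lam us) = r us := div_mul_cancel₀ _ (by linarith : (-lam us) ≠ 0)
    linarith
  -- the second representation
  set q : V → ℝ := fun v => if v = w0 then τ else r v + τ * lam v with hq
  have hqsum : ∑ v ∈ F, q v • π v = x := by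
    rw [← Finset.add_sum_erase F _ hw0]
    have h1 : ∑ v ∈ F.erase w0, q v • π v =
        ∑ v ∈ F.erase w0, r v • π v + τ • ∑ v ∈ F.erase w0, lam v • π v := by
      rw [Finset.smul_sum, ← Finset.sum_add_distrib]
      refine Finset.sum_congr rfl fun v hv => ?_
      have hne : v ≠ w0 := (Finset.mem_erase.mp hv).1
      simp only [hq, hne, if_false]
      rw [add_smul, mul_smul]
    have h2 : ∑ v ∈ F.erase w0, lam v • π v = - π w0 := by
      rw [← Finset.add_sum_erase F _ hw0, hlam0, one_smul] at hlamsum
      exact (neg_eq_of_add_eq_zero_right hlamsum).symm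
    rw [h1, h2, ← hx]
    simp [hq]
  have hqpos : ∀ v ∈ F.erase us, 0 < q v := by
    intro v hv
    obtain ⟨hvus, hvF⟩ := Finset.mem_erase.mp hv
    by_cases hvw : v = w0
    · simp [hq, hvw, hτpos]
    have hvF0 : v ∈ F0 := Finset.mem_erase.mpr ⟨hvw, hvF⟩
    have hge : 0 ≤ q v := by
      simp only [hq, hvw, if_false]
      by_cases hl : lam v < 0
      · have := hmin v (Finset.mem_filter.mpr ⟨hvF0, hl⟩)
        have h2 : τ * (-lam v) ≤ r v := by
          rw [← le_div_iff₀ (by linarith)]; exact this
        linarith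
      · have := hr v hvF0
        have : 0 ≤ τ * lam v := mul_nonneg hτpos.le (not_lt.mp hl)
        linarith
    refine lt_of_le_of_ne hge fun h0 => ?_
    have hqus : q us = 0 := by simp only [hq, husne, if_false]; exact hτus
    have h1 : x = ∑ u ∈ (F.erase us).erase v, q u • π u := by
      rw [← hqsum, ← Finset.add_sum_erase F _ husF, hqus, zero_smul, zero_add,
        ← Finset.add_sum_erase (F.erase us) _ hv, ← h0, zero_smul, zero_add]
    refine hgen ((F.erase us).erase v)
      ((Finset.erase_subset _ _).trans (Finset.erase_subset _ _)) ?_ ?_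
    · rw [Finset.card_erase_of_mem hv, Finset.card_erase_of_mem husF, hF]; omega
    · rw [h1]; exact par_mem π _ _
  have hPus : P us := by
    refine ⟨q, hqpos, ?_⟩
    have hqus : q us = 0 := by simp only [hq, husne, if_false]; exact hτus
    rw [← hqsum, ← Finset.add_sum_erase F _ husF, hqus, zero_smul, zero_add]
  have key : F.filter P = {w0, us} := by
    ext v
    simp only [Finset.mem_filter, Finset.mem_insert, Finset.mem_singleton]
    constructor
    · rintro ⟨hvF, a, ha, hxa⟩
      by_contra hcon
      push Not at hcon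
      obtain ⟨hv0, hvus⟩ := hcon
      -- a representation with `v` coefficient zero
      set a' : V → ℝ := fun u => if u = v then 0 else a u with ha'
      have hsum' : ∑ u ∈ F, a' u • π u = x := by
        rw [← Finset.add_sum_erase F _ hvF, hxa]
        simp only [ha', if_true, zero_smul, zero_add]
        refine Finset.sum_congr rfl fun u hu => ?_
        have hne : u ≠ v := (Finset.mem_erase.mp hu).1
        simp [hne]
      set r' : V → ℝ := fun u => if u = w0 then 0 else r u with hr'
      have hsumr : ∑ u ∈ F, r' u • π u = x := by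
        rw [← Finset.add_sum_erase F _ hw0, hx]
        simp only [hr', if_true, zero_smul, zero_add]
        refine Finset.sum_congr rfl fun u hu => ?_
        have hne : u ≠ w0 := (Finset.mem_erase.mp hu).1
        simp [hne]
      have hdiff : ∑ u ∈ F, (a' u - r' u) • π u = 0 := by
        have : ∑ u ∈ F, (a' u - r' u) • π u = ∑ u ∈ F, a' u • π u - ∑ u ∈ F, r' u • π u := by
          rw [← Finset.sum_sub_distrib]
          exact Finset.sum_congr rfl fun u _ => sub_smul _ _ _
        rw [this, hsum', hsumr, sub_self]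
      have hu := huniq _ hdiff
      have hw0v : w0 ≠ v := fun h => hv0 h.symm
      have hT : 0 < a w0 := ha w0 (Finset.mem_erase.mpr ⟨hw0v, hw0⟩)
      have e0 : a' w0 - r' w0 = a w0 := by simp [ha', hr', hw0v]
      have e1 : a' v - r' v = - r v := by simp [ha', hr', hv0]
      have e2 : a' us - r' us = a us - r us := by
        have : us ≠ v := fun h => hvus h.symm
        simp [ha', hr', this, husne]
      have h1 := hu v hvF
      have h2 := hu us husF
      rw [e0, e1] at h1
      rw [e0, e2] at h2
      have hvF0 : v ∈ F0 := Finset.mem_erase.mpr ⟨hv0, hvF⟩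
      have hrv := hr v hvF0
      have hlv : lam v < 0 := by
        by_contra hc
        have := mul_nonneg hT.le (not_lt.mp hc)
        linarith
      have hle := hmin v (Finset.mem_filter.mpr ⟨hvF0, hlv⟩)
      have h3 : r v / (-lam v) = a w0 := by
        rw [div_eq_iff (by linarith : (-lam v) ≠ 0)]
        linarith
      have haus : 0 < a us := ha us (Finset.mem_erase.mpr ⟨fun h => hvus h.symm, husF⟩)
      have h4 : τ ≤ a w0 := by rw [← h3]; exact hle
      have h5 : a w0 * lam us ≤ τ * lam us := mul_le_mul_of_nonpos_right h4 huslam.le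
      linarith
    · rintro (rfl | rfl)
      · exact ⟨hw0, r, hr, hx⟩
      · exact ⟨husF, hPus⟩
  have hcard : (F.filter P).card = 2 := by
    rw [key, Finset.card_pair husne.symm]
  have : Even (F.filter P).card := by rw [hcard]; exact even_two
  exact this

end CH

end MP46
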