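import Pool.Agent.Lib.MP_46e101_co.GEN
import Pool.Agent.Lib.MP_46e101_co.FACES
import Pool.Agent.Lib.MP_46e101_co.PRESC
import Pool.Agent.Lib.MP_46e101_co.PAR

/-! ### Module LNK -/

open MvPolynomial

universe u w

noncomputable section

namespace MP46

section LNK
variable {V : Type u} [Fintype V] [DecidableEq V] {U : Type w} [AddCommGroup U] [Module ℝ U]
  {o : Module.Dual ℝ U} {p : V → Module.Dual ℝ U} {n : ℕ}

private lemma lnk_mem_act {x : U} {v : V} : v ∈ act p x ↔ p v x = 0 := by
  unfold act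
  rw [Finset.mem_filter]
  exact and_iff_right (Finset.mem_univ v)

private lemma lnk_eval (M : Finset V) (s : V → ℝ) (x : U) :
    (∑ b ∈ M, s b • p b) x = ∑ b ∈ M, s b * p b x := by
  rw [LinearMap.sum_apply]
  exact Finset.sum_congr rfl fun b _ => by rw [LinearMap.smul_apply, smul_eq_mul]

/-- a point of the polyhedron on which exactly the label `b` of `M` is not active -/
private lemma lnk_point {M : Finset V} (hM : ¬ Face o p M) {b : V} (hb : b ∈ M)
    (hMin : Face o p (M.erase b)) :
    ∃ x ∈ PP o p, (∀ v ∈ M.erase b, p v x = 0) ∧ 0 < p b x := by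
  obtain ⟨x, hx, hsub⟩ := hMin
  refine ⟨x, hx, fun v hv => lnk_mem_act.1 (hsub hv), lt_of_le_of_ne (hx.2 b) fun h => hM ?_⟩
  refine ⟨x, hx, fun v hv => ?_⟩
  by_cases hvb : v = b
  · rw [hvb]; exact lnk_mem_act.2 h.symm
  · exact hsub (Finset.mem_erase.2 ⟨hvb, hv⟩)

private lemma lnk_indM (h : Ord n o p) {M : Finset V} (hM : ¬ Face o p M) {a : V} (ha : a ∈ M)
    (hMin : Face o p (M.erase a)) : Ind p M := by
  rw [ind_iff]
  intro r hr
  obtain ⟨x, hx, hx0, hxa⟩ := lnk_point hM ha hMin
  have h1 : ∑ b ∈ M, r b * p b x = 0 := by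
    rw [← lnk_eval, hr, LinearMap.zero_apply]
  have h2 : ∑ b ∈ M, r b * p b x = r a * p a x := by
    refine Finset.sum_eq_single_of_mem a ha fun b hb hba => ?_
    rw [hx0 b (Finset.mem_erase.2 ⟨hba, hb⟩), mul_zero]
  have h3 : r a = 0 := by
    rw [h2] at h1
    exact (mul_eq_zero.1 h1).resolve_right hxa.ne'
  have h4 : ∑ b ∈ M.erase a, r b • p b = 0 := by
    rw [← Finset.add_sum_erase M _ ha, h3, zero_smul, zero_add] at hr
    exact hr
  have h5 := (ind_iff.1 (h.ind hMin)) r h4
  intro v hv
  by_cases hva : v = a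
  · rw [hva, h3]
  · exact h5 v (Finset.mem_erase.2 ⟨hva, hv⟩)

/-- a nonzero vector killed by few functionals -/
private lemma lnk_kill [Module.Finite ℝ U] (G : Finset V) (hG : G.card < Module.finrank ℝ U) :
    ∃ y : U, y ≠ 0 ∧ ∀ v ∈ G, p v y = 0 := by
  let L : U →ₗ[ℝ] (G → ℝ) := LinearMap.pi fun v : G => p (v : V)
  have hlt : Module.finrank ℝ (G → ℝ) < Module.finrank ℝ U := by
    rw [Module.finrank_fintype_fun_eq_card, Fintype.card_coe]
    exact hG
  have hne := LinearMap.ker_ne_bot_of_finrank_lt (f := L) hlt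
  obtain ⟨y, hy, hy0⟩ := Submodule.exists_mem_ne_zero_of_ne_bot hne
  refine ⟨y, hy0, fun v hv => ?_⟩
  exact congrFun (LinearMap.mem_ker.1 hy) ⟨v, hv⟩

/-- the functional `f` avoiding all small spans -/
private lemma lnk_gen (h : Ord n o p) (M : Finset V) {e : ℕ} (he : e + M.card = n + 1) :
    ∃ (f : Module.Dual ℝ U) (t : Finset V → ℝ) (c : Finset V → V → ℝ), Gen n o p f t c ∧
      ∀ G : Finset V, G.card < e → ∀ (r s : V → ℝ),
        f ≠ ∑ b ∈ M, s b • p b + ∑ v ∈ G, r v • p v := by
  classical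
  have hfin : Module.Finite ℝ U := Module.finite_of_finrank_pos (by rw [h.dim]; omega)
  obtain ⟨S, hS0, hS⟩ := h.gen_of_avoid
  have hk : ∀ G : Finset V, ∃ y : U, G.card < e → y ≠ 0 ∧ ∀ v ∈ M ∪ G, p v y = 0 := by
    intro G
    by_cases hG : G.card < e
    · have hc : (M ∪ G).card < Module.finrank ℝ U := by
        have := Finset.card_union_le M G
        rw [h.dim]; omega
      obtain ⟨y, hy⟩ := lnk_kill (p := p) (M ∪ G) hc
      exact ⟨y, fun _ => hy⟩
    · exact ⟨0, fun hG' => absurd hG' hG⟩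
  choose y hy using hk
  obtain ⟨f, hf⟩ := exists_avoid
    (S ∪ ((Finset.univ.filter fun G : Finset V => G.card < e).image y)) (by
      intro z hz
      rcases Finset.mem_union.1 hz with hz | hz
      · exact hS0 z hz
      · obtain ⟨G, hG, rfl⟩ := Finset.mem_image.1 hz
        exact (hy G (Finset.mem_filter.1 hG).2).1)
  obtain ⟨t, c, hg⟩ := hS f fun z hz => hf z (Finset.mem_union_left _ hz)
  refine ⟨f, t, c, hg, fun G hG r s heq => ?_⟩
  have h1 := hf (y G) (Finset.mem_union_right _
    (Finset.mem_image_of_mem y (Finset.mem_filter.2 ⟨Finset.mem_univ G, hG⟩)))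
  apply h1
  have h2 := (hy G hG).2
  rw [heq, LinearMap.add_apply, lnk_eval, lnk_eval]
  rw [Finset.sum_eq_zero, Finset.sum_eq_zero, add_zero]
  · intro v hv
    rw [h2 v (Finset.mem_union_right _ hv), mul_zero]
  · intro b hb
    rw [h2 b (Finset.mem_union_left _ hb), mul_zero]

/-- no nonnegative dependency modulo `span p_M` on a face disjoint from `M`. -/
private lemma lnk_pos (h : Ord n o p) {M : Finset V} (hM : ¬ Face o p M)
    (hMin : ∀ a ∈ M, Face o p (M.erase a)) {F : Finset V} (hF : Face o p F)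
    (hFM : Disjoint F M) (r s : V → ℝ) (hr : ∀ v ∈ F, 0 ≤ r v)
    (hrs : ∑ v ∈ F, r v • p v = ∑ b ∈ M, s b • p b) : ∀ v ∈ F, r v = 0 := by
  have hs : ∀ b ∈ M, 0 ≤ s b := by
    intro b hb
    obtain ⟨x, hx, hx0, hxb⟩ := lnk_point hM hb (hMin b hb)
    have h1 : ∑ v ∈ F, r v * p v x = s b * p b x := by
      rw [← lnk_eval, hrs, lnk_eval]
      refine Finset.sum_eq_single_of_mem b hb fun v hv hvb => ?_
      rw [hx0 v (Finset.mem_erase.2 ⟨hvb, hv⟩), mul_zero]
    have h2 : 0 ≤ s b * p b x := by
      rw [← h1]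
      exact Finset.sum_nonneg fun v hv => mul_nonneg (hr v hv) (hx.2 v)
    exact nonneg_of_mul_nonneg_left h2 hxb
  obtain ⟨x, hx, hsub⟩ := hF
  have h1 : ∑ b ∈ M, s b * p b x = 0 := by
    rw [← lnk_eval, ← hrs, lnk_eval]
    refine Finset.sum_eq_zero fun v hv => ?_
    rw [lnk_mem_act.1 (hsub hv), mul_zero]
  have h2 := (Finset.sum_eq_zero_iff_of_nonneg
    (fun b hb => mul_nonneg (hs b hb) (hx.2 b))).1 h1
  have h3 := h.simple x hx
  rw [ind_iff] at h3
  set q : V → ℝ := fun v => if v ∈ F then r v else if v ∈ M then - s v else 0 with hq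
  have hqF : ∀ v ∈ F, q v = r v := fun v hv => by simp only [hq, if_pos hv]
  have hqM : ∀ v ∈ M, q v = - s v := fun v hv => by
    have : v ∉ F := fun h' => Finset.disjoint_left.1 hFM h' hv
    simp only [hq, if_neg this, if_pos hv]
  have hq0 : ∀ v, v ∉ F → v ∉ M → q v = 0 := fun v h1 h2 => by
    simp only [hq, if_neg h1, if_neg h2]
  have hqact : ∀ v, v ∉ act p x → q v = 0 := by
    intro v hv
    by_cases hvF : v ∈ F
    · exact absurd (hsub hvF) hv
    · by_cases hvM : v ∈ M
      · rw [hqM v hvM]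
        have h4 := h2 v hvM
        rcases mul_eq_zero.1 h4 with h4 | h4
        · rw [h4, neg_zero]
        · exact absurd (lnk_mem_act.2 h4) hv
      · exact hq0 v hvF hvM
  have hsum : ∑ v ∈ act p x, q v • p v = 0 := by
    have e1 : ∑ v ∈ act p x, q v • p v = ∑ v, q v • p v :=
      Finset.sum_subset (Finset.subset_univ _) fun v _ hv => by
        rw [hqact v hv, zero_smul]
    have e2 : ∑ v ∈ F ∪ M, q v • p v = ∑ v, q v • p v :=
      Finset.sum_subset (Finset.subset_univ _) fun v _ hv => by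
        rw [hq0 v (fun h' => hv (Finset.mem_union_left _ h'))
          (fun h' => hv (Finset.mem_union_right _ h')), zero_smul]
    rw [e1, ← e2, Finset.sum_union hFM,
      Finset.sum_congr rfl (fun v hv => by rw [hqF v hv] :
        ∀ v ∈ F, q v • p v = r v • p v), hrs,
      Finset.sum_congr rfl (fun v hv => by rw [hqM v hv]; exact neg_smul (s v) (p v) :
        ∀ v ∈ M, q v • p v = -(s v • p v)), Finset.sum_neg_distrib, add_neg_cancel]
  intro v hv
  rw [← hqF v hv]
  exact h3 q hsum v (hsub hv)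

/-- uniqueness of the representation modulo `span p_M` on a facet through `M.erase a`. -/
private lemma lnk_uniq (h : Ord n o p) {M : Finset V} (hM : ¬ Face o p M) {a : V} (ha : a ∈ M)
    {F : Finset V} (hF : Face o p F) (hNF : M.erase a ⊆ F) (q s : V → ℝ)
    (hqs : ∑ v ∈ F \ M.erase a, q v • p v = ∑ b ∈ M, s b • p b) :
    ∀ v ∈ F \ M.erase a, q v = 0 := by
  obtain ⟨x, hx, hsub⟩ := hF
  have haF : a ∉ act p x := by
    intro h'
    apply hM
    refine ⟨x, hx, fun v hv => ?_⟩
    by_cases hva : v = a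
    · rw [hva]; exact h'
    · exact hsub (hNF (Finset.mem_erase.2 ⟨hva, hv⟩))
  have hax : p a x ≠ 0 := fun h' => haF (lnk_mem_act.2 h')
  have h1 : ∑ b ∈ M, s b * p b x = 0 := by
    rw [← lnk_eval, ← hqs, lnk_eval]
    refine Finset.sum_eq_zero fun v hv => ?_
    rw [lnk_mem_act.1 (hsub (Finset.mem_sdiff.1 hv).1), mul_zero]
  have h2 : ∑ b ∈ M, s b * p b x = s a * p a x := by
    refine Finset.sum_eq_single_of_mem a ha fun b hb hba => ?_
    rw [lnk_mem_act.1 (hsub (hNF (Finset.mem_erase.2 ⟨hba, hb⟩))), mul_zero]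
  have hsa : s a = 0 := by
    rw [h2] at h1
    exact (mul_eq_zero.1 h1).resolve_right hax
  rw [← Finset.add_sum_erase M _ ha, hsa, zero_smul, zero_add] at hqs
  have h3 := (ind_iff.1 (h.ind ⟨x, hx, hsub⟩))
    (fun v => if v ∈ M.erase a then - s v else q v) (by
      rw [← Finset.sum_sdiff hNF]
      have e1 : ∑ v ∈ F \ M.erase a, (if v ∈ M.erase a then - s v else q v) • p v =
          ∑ v ∈ F \ M.erase a, q v • p v :=
        Finset.sum_congr rfl fun v hv => by rw [if_neg (Finset.mem_sdiff.1 hv).2]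
      have e2 : ∑ v ∈ M.erase a, (if v ∈ M.erase a then - s v else q v) • p v =
          ∑ v ∈ M.erase a, -(s v • p v) :=
        Finset.sum_congr rfl fun v hv => by rw [if_pos hv]; exact neg_smul (s v) (p v)
      rw [e1, e2, hqs, Finset.sum_neg_distrib, add_neg_cancel])
  intro v hv
  have h4 := h3 v (Finset.mem_sdiff.1 hv).1
  rw [if_neg (Finset.mem_sdiff.1 hv).2] at h4
  exact h4

private lemma lnk_finrank (h : Ord n o p) {M : Finset V} (hI : Ind p M) {e : ℕ}
    (he : e + M.card = n + 1) :
    Module.finrank ℝ (Module.Dual ℝ U ⧸ Submodule.span ℝ (p '' (M : Set V))) = e := by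
  have hfin : Module.Finite ℝ U := Module.finite_of_finrank_pos (by rw [h.dim]; omega)
  have h1 := (Submodule.span ℝ (p '' (M : Set V))).finrank_quotient_add_finrank
  have h2 : Module.finrank ℝ (Submodule.span ℝ (p '' (M : Set V))) = M.card := by
    have h3 := finrank_span_eq_card (R := ℝ) (b := fun v : M => p (v : V)) hI
    rw [Fintype.card_coe] at h3
    rw [← h3, Set.image_eq_range]
    rfl
  have h4 : Module.finrank ℝ (Module.Dual ℝ U) = n + 1 := by
    rw [Subspace.dual_finrank_eq, h.dim]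
  rw [h2, h4] at h1
  omega

private lemma lnk_mk {M : Finset V} {f : Module.Dual ℝ U} {G : Finset V} {r : V → ℝ} :
    (Submodule.span ℝ (p '' (M : Set V))).mkQ f =
      ∑ v ∈ G, r v • (Submodule.span ℝ (p '' (M : Set V))).mkQ (p v) ↔
    ∃ s : V → ℝ, f = ∑ b ∈ M, s b • p b + ∑ v ∈ G, r v • p v := by
  have e1 : ∑ v ∈ G, r v • (Submodule.span ℝ (p '' (M : Set V))).mkQ (p v) =
      (Submodule.span ℝ (p '' (M : Set V))).mkQ (∑ v ∈ G, r v • p v) := by
    rw [map_sum]
    exact Finset.sum_congr rfl fun v _ => (map_smul _ _ _).symm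
  rw [e1, Submodule.mkQ_apply, Submodule.mkQ_apply, Submodule.Quotient.eq,
    Submodule.mem_span_image_finset_iff_exists_fun']
  constructor
  · rintro ⟨s, hs⟩
    exact ⟨s, by rw [hs, sub_add_cancel]⟩
  · rintro ⟨s, hs⟩
    exact ⟨s, by rw [hs, add_sub_cancel_right]⟩

theorem linking (h : Ord n o p) {M : Finset V} (hM : ¬ Face o p M)
    (hMin : ∀ a ∈ M, Face o p (M.erase a))
    {ν : V → ℝ} (hν : ∀ a ∈ M, 0 < ν a) (hνo : o = ∑ a ∈ M, ν a • p a)
    {a : V} (ha : a ∈ M) {e : ℕ} (he : e + M.card = n + 1) (he1 : 1 ≤ e) :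
    ∃ Φ z : Finset V → ZMod 2,
      (∀ G, z G ≠ 0 → Face o p G ∧ G.card = e ∧ Disjoint G M) ∧
      (∀ G, bd z G = 0) ∧ (∑ G, Φ G * z G = 1) ∧
      (∀ F, Face o p F → Disjoint F M → F.card = e + 1 → ∑ v ∈ F, Φ (F.erase v) = 0) := by
  classical
  obtain ⟨f, t, c, hg, hav⟩ := lnk_gen h M he
  have hNf : Face o p (M.erase a) := hMin a ha
  have hNc : (M.erase a).card + 1 = M.card := Finset.card_erase_add_one ha
  have hNM : M.erase a ⊆ M := Finset.erase_subset _ _
  set P : Finset V → Prop := fun G => ∃ r : V → ℝ, (∀ v ∈ G, 0 < r v) ∧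
    ∃ s : V → ℝ, f = ∑ b ∈ M, s b • p b + ∑ v ∈ G, r v • p v with hP
  set Q : Finset V → Prop := fun G => G.card = e ∧ Disjoint G M ∧ Face o p (G ∪ M.erase a)
    with hQ
  have hins : ∀ R : Finset V, M.erase a ⊆ R → Face o p R → a ∉ R := by
    intro R h1 h2 h3
    apply hM
    refine h2.mono fun v hv => ?_
    by_cases hva : v = a
    · rw [hva]; exact h3
    · exact h1 (Finset.mem_erase.2 ⟨hva, hv⟩)
  -- facets through `M.erase a` and supports
  have hQF : ∀ F : Finset V, Face o p F → F.card = n → M.erase a ⊆ F → Q (F \ M.erase a) := by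
    intro F hF hc hsub
    have haF := hins F hsub hF
    refine ⟨?_, ?_, ?_⟩
    · have := Finset.card_sdiff_add_card_eq_card hsub
      omega
    · rw [Finset.disjoint_left]
      intro v hv hvM
      obtain ⟨h1, h2⟩ := Finset.mem_sdiff.1 hv
      by_cases hva : v = a
      · rw [hva] at h1; exact haF h1
      · exact h2 (Finset.mem_erase.2 ⟨hva, hvM⟩)
    · rw [Finset.sdiff_union_of_subset hsub]; exact hF
  have hFQ : ∀ G : Finset V, Q G → Face o p (G ∪ M.erase a) ∧ (G ∪ M.erase a).card = n ∧
      (G ∪ M.erase a) \ M.erase a = G := by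
    rintro G ⟨h1, h2, h3⟩
    have h4 : Disjoint G (M.erase a) := h2.mono_right hNM
    refine ⟨h3, ?_, ?_⟩
    · rw [Finset.card_union_of_disjoint h4]; omega
    · exact Finset.union_sdiff_cancel_right h4
  have hPc : ∀ F : Finset V, Face o p F → F.card = n → M.erase a ⊆ F →
      (P (F \ M.erase a) ↔ ∀ v ∈ F \ M.erase a, 0 < c F v) := by
    intro F hF hc hsub
    have haF := hins F hsub hF
    have hrep : f = ∑ b ∈ M, (-(t F) * ν b + c F b) • p b +
        ∑ v ∈ F \ M.erase a, c F v • p v := by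
      have e1 : ∑ b ∈ M, (-(t F) * ν b + c F b) • p b =
          -(t F) • o + ∑ b ∈ M.erase a, c F b • p b := by
        have e2 : ∑ b ∈ M, (-(t F) * ν b + c F b) • p b =
            ∑ b ∈ M, (-(t F)) • (ν b • p b) + ∑ b ∈ M, c F b • p b := by
          rw [← Finset.sum_add_distrib]
          refine Finset.sum_congr rfl fun b _ => ?_
          rw [add_smul, mul_smul]
        rw [e2, ← Finset.smul_sum, ← hνo, ← Finset.add_sum_erase M _ ha, hg.supp F a haF,
          zero_smul, zero_add]
      rw [e1, add_assoc, add_comm (∑ b ∈ M.erase a, c F b • p b), Finset.sum_sdiff hsub]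
      exact hg.rep F hF hc
    constructor
    · rintro ⟨r, hr, s, hs⟩ v hv
      have h1 : ∑ v ∈ F \ M.erase a, (c F v - r v) • p v =
          ∑ b ∈ M, (s b - (-(t F) * ν b + c F b)) • p b := by
        have h2 : ∑ b ∈ M, (-(t F) * ν b + c F b) • p b + ∑ v ∈ F \ M.erase a, c F v • p v =
            ∑ b ∈ M, s b • p b + ∑ v ∈ F \ M.erase a, r v • p v := by rw [← hrep, ← hs]
        have h3 : ∑ v ∈ F \ M.erase a, (c F v - r v) • p v =
            ∑ v ∈ F \ M.erase a, c F v • p v - ∑ v ∈ F \ M.erase a, r v • p v := by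
          rw [← Finset.sum_sub_distrib]
          exact Finset.sum_congr rfl fun v _ => sub_smul (c F v) (r v) (p v)
        have h4 : ∑ b ∈ M, (s b - (-(t F) * ν b + c F b)) • p b =
            ∑ b ∈ M, s b • p b - ∑ b ∈ M, (-(t F) * ν b + c F b) • p b := by
          rw [← Finset.sum_sub_distrib]
          exact Finset.sum_congr rfl fun v _ =>
            sub_smul (s v) (-(t F) * ν v + c F v) (p v)
        rw [h3, h4, sub_eq_sub_iff_add_eq_add, add_comm, h2]
      have h5 := lnk_uniq h hM ha hF hsub _ _ h1 v hv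
      have h6 := hr v hv
      linarith
    · intro hpos
      exact ⟨c F, hpos, _, hrep⟩
  refine ⟨fun G => if P G then 1 else 0, fun G => if Q G then 1 else 0, ?_, ?_, ?_, ?_⟩
  · intro G hG
    have hQG : Q G := by
      by_contra hcon
      exact hG (if_neg hcon)
    exact ⟨hQG.2.2.mono Finset.subset_union_left, hQG.1, hQG.2.1⟩
  · intro G
    unfold bd
    by_cases hex : ∃ v, v ∉ G ∧ Q (insert v G)
    · obtain ⟨v, hvG, hv1, hv2, hv3⟩ := hex
      rw [Finset.card_insert_of_notMem hvG] at hv1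
      have hGM : Disjoint G M := hv2.mono_left (Finset.subset_insert _ _)
      have hGN : Disjoint G (M.erase a) := hGM.mono_right hNM
      have hR : Face o p (G ∪ M.erase a) := hv3.mono
        (Finset.union_subset_union_left (Finset.subset_insert _ _))
      have hRc : (G ∪ M.erase a).card + 1 = n := by
        rw [Finset.card_union_of_disjoint hGN]; omega
      obtain ⟨y, -, -, -, -, a', b', ha', hb', hab, hfa, hfb, -, -, huniq⟩ := h.ridge hR hRc
      have key : ∀ u, u ∉ G ∪ M.erase a → Face o p (insert u (G ∪ M.erase a)) →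
          Q (insert u G) := by
        intro u hu hfu
        have huG : u ∉ G := fun h' => hu (Finset.mem_union_left _ h')
        refine ⟨by rw [Finset.card_insert_of_notMem huG]; exact hv1, ?_, ?_⟩
        · rw [Finset.disjoint_insert_left]
          refine ⟨fun huM => ?_, hGM⟩
          by_cases hua : u = a
          · rw [hua] at hfu
            exact hins _ ((Finset.subset_union_right).trans (Finset.subset_insert _ _)) hfu
              (Finset.mem_insert_self _ _)
          · exact hu (Finset.mem_union_right _ (Finset.mem_erase.2 ⟨hua, huM⟩))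
        · rw [Finset.insert_union]; exact hfu
      have hmem : ∀ u, u ∉ G ∪ M.erase a → u ∈ Finset.univ.filter (fun v => v ∉ G) := by
        intro u hu
        exact Finset.mem_filter.2 ⟨Finset.mem_univ _, fun h' => hu (Finset.mem_union_left _ h')⟩
      rw [Finset.sum_eq_add_of_mem a' b' (hmem a' ha') (hmem b' hb') hab]
      · beta_reduce
        rw [if_pos (key a' ha' hfa), if_pos (key b' hb' hfb)]
        decide
      · rintro u hu ⟨hua, hub⟩
        refine if_neg fun hcon => ?_
        have huG : u ∉ G := (Finset.mem_filter.1 hu).2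
        have huM : u ∉ M := fun h' =>
          Finset.disjoint_left.1 hcon.2.1 (Finset.mem_insert_self _ _) h'
        have huR : u ∉ G ∪ M.erase a := by
          intro h'
          rcases Finset.mem_union.1 h' with h' | h'
          · exact huG h'
          · exact huM (hNM h')
        rcases huniq u huR (by rw [← Finset.insert_union]; exact hcon.2.2) with h' | h'
        · exact hua h'
        · exact hub h'
    · refine Finset.sum_eq_zero fun v hv => if_neg fun hcon => ?_
      exact hex ⟨v, (Finset.mem_filter.1 hv).2, hcon⟩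
  · obtain ⟨F0, hF0, hc0, hsub0⟩ := h.face_facet hNf
    obtain ⟨F, hFm, hmax⟩ := Finset.exists_max_image
      (Finset.univ.filter fun F : Finset V => Face o p F ∧ F.card = n ∧ M.erase a ⊆ F) t
      ⟨F0, Finset.mem_filter.2 ⟨Finset.mem_univ _, hF0, hc0, hsub0⟩⟩
    obtain ⟨-, hF, hc, hsub⟩ := Finset.mem_filter.1 hFm
    have hpos : ∀ v ∈ F \ M.erase a, 0 < c F v := by
      intro v hv
      obtain ⟨hv1, hv2⟩ := Finset.mem_sdiff.1 hv
      rcases lt_or_gt_of_ne (hg.nz F hF hc v hv1) with hlt | hgt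
      · obtain ⟨F', hF', hc', hsub', hlt'⟩ := hg.upper h hF hc hsub hv1 hv2 hlt
        have := hmax F' (Finset.mem_filter.2 ⟨Finset.mem_univ _, hF', hc', hsub'⟩)
        exact absurd hlt' (not_lt.2 this)
      · exact hgt
    rw [Finset.sum_eq_single_of_mem (F \ M.erase a) (Finset.mem_univ _)]
    · beta_reduce
      rw [if_pos ((hPc F hF hc hsub).2 hpos), if_pos (hQF F hF hc hsub), mul_one]
    intro G _ hG
    beta_reduce
    by_cases hQG : Q G
    · obtain ⟨h1, h2, h3⟩ := hFQ G hQG
      by_cases hPG : P G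
      · exfalso
        apply hG
        have h4 := (hPc _ h1 h2 Finset.subset_union_right).1 (by rw [h3]; exact hPG)
        have h5 : G ∪ M.erase a = F := by
          refine hg.inj _ _ h1 h2 hF hc (le_antisymm ?_ ?_)
          · exact hmax _ (Finset.mem_filter.2
              ⟨Finset.mem_univ _, h1, h2, Finset.subset_union_right⟩)
          · refine hg.le_of_neg h h1 h2 hF hc fun v hv hneg => ?_
            by_cases hvN : v ∈ M.erase a
            · exact hsub hvN
            · have := h4 v (Finset.mem_sdiff.2 ⟨hv, hvN⟩)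
              linarith
        rw [← h5, h3]
      · rw [if_neg hPG, zero_mul]
    · rw [if_neg hQG, mul_zero]
  · intro F hF hFM hFc
    have hI := lnk_indM h hM ha hNf
    have hE := lnk_finrank h hI he
    have hpar := cone_parity he1 hE
      (fun v => (Submodule.span ℝ (p '' (M : Set V))).mkQ (p v)) F hFc
      (by
        intro r hr hsum
        have h1 : (Submodule.span ℝ (p '' (M : Set V))).mkQ (∑ v ∈ F, r v • p v) = 0 := by
          rw [← hsum, map_sum]
          exact Finset.sum_congr rfl fun v _ => map_smul _ _ _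
        rw [Submodule.mkQ_apply, Submodule.Quotient.mk_eq_zero,
          Submodule.mem_span_image_finset_iff_exists_fun'] at h1
        obtain ⟨s, hs⟩ := h1
        exact lnk_pos h hM hMin hF hFM r s hr hs.symm)
      ((Submodule.span ℝ (p '' (M : Set V))).mkQ f)
      (by
        intro G _ hGe hmem
        rw [Submodule.mem_span_image_finset_iff_exists_fun'] at hmem
        obtain ⟨r, hr⟩ := hmem
        obtain ⟨s, hs⟩ := lnk_mk.1 hr.symm
        exact hav G hGe r s hs)
    have hsum : ∑ v ∈ F, (if P (F.erase v) then (1 : ZMod 2) else 0) =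
        ((F.filter fun v => P (F.erase v)).card : ZMod 2) := Finset.sum_boole _ _
    rw [hsum, ZMod.natCast_eq_zero_iff_even]
    have hfil : (F.filter fun v => P (F.erase v)) = F.filter fun w => ∃ r : V → ℝ,
        (∀ v ∈ F.erase w, 0 < r v) ∧ (Submodule.span ℝ (p '' (M : Set V))).mkQ f =
          ∑ v ∈ F.erase w, r v • (Submodule.span ℝ (p '' (M : Set V))).mkQ (p v) := by
      refine Finset.filter_congr fun w _ => ?_
      refine exists_congr fun r => and_congr_right fun _ => ?_
      exact lnk_mk.symm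
    rw [hfil]
    exact hpar

end LNK

end MP46
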