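import Pool.Agent.Lib.MP_46e101_co.Defs
import Pool.Agent.Lib.MP_46e101_co.FACES
import Pool.Agent.Lib.MP_46e101_co.LNK
import Pool.Agent.Lib.MP_46e101_co.ACY

open MvPolynomial

universe u w

noncomputable section

namespace MP46

section

variable {V : Type u} [Fintype V] [DecidableEq V] {U : Type w} [AddCommGroup U] [Module ℝ U]
  {o : Module.Dual ℝ U} {p : V → Module.Dual ℝ U} {n : ℕ}

private theorem bd_swap (Φ c : Finset V → ZMod 2) :
    ∑ G, Φ G * bd c G = ∑ F, c F * ∑ v ∈ F, Φ (F.erase v) := by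
  have h1 : ∑ G, Φ G * bd c G = ∑ a ∈ (Finset.univ : Finset (Finset V)).sigma
      (fun G => Finset.univ.filter (fun v => v ∉ G)), Φ a.1 * c (insert a.2 a.1) := by
    rw [Finset.sum_sigma]
    apply Finset.sum_congr rfl
    intro G _
    rw [bd, Finset.mul_sum]
  have h2 : ∑ F, c F * ∑ v ∈ F, Φ (F.erase v) = ∑ a ∈ (Finset.univ : Finset (Finset V)).sigma
      (fun F => F), c a.1 * Φ (a.1.erase a.2) := by
    rw [Finset.sum_sigma]
    apply Finset.sum_congr rfl
    intro G _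
    rw [Finset.mul_sum]
  rw [h1, h2]
  refine Finset.sum_nbij' (fun a => ⟨insert a.2 a.1, a.2⟩) (fun a => ⟨a.1.erase a.2, a.2⟩)
    ?_ ?_ ?_ ?_ ?_
  · rintro ⟨G, v⟩ h
    simp
  · rintro ⟨F, v⟩ h
    simp
  · rintro ⟨G, v⟩ h
    have hv : v ∉ G := by simpa using h
    simp [hv]
  · rintro ⟨F, v⟩ h
    have hv : v ∈ F := by simpa using h
    simp [hv]
  · rintro ⟨G, v⟩ h
    have hv : v ∉ G := by simpa using h
    simp [hv, mul_comm]

private theorem exists_pert (h : Ord n o p) {M : Finset V} (hM : Face o p M) :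
    ∃ f : U, (∀ v ∈ M, p v f < 0) ∧ ∀ v, v ∉ M → 0 < p v f := by
  obtain ⟨x, hx, hxM⟩ := h.relint hM
  obtain ⟨g, -, hg⟩ := h.interior
  have hev : ∀ᶠ δ in nhdsWithin (0 : ℝ) (Set.Ioi 0), ∀ v, v ∉ M → 0 < p v (x - δ • g) := by
    rw [Filter.eventually_all]
    intro v
    by_cases hv : v ∈ M
    · exact Filter.Eventually.of_forall fun _ h => absurd hv h
    · have hpos : 0 < p v x := by
        rcases (hx.2 v).lt_or_eq with h1 | h1
        · exact h1
        · exfalso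
          apply hv
          rw [← hxM]
          simp [act, h1.symm]
      have hc : Filter.Tendsto (fun δ : ℝ => p v (x - δ • g)) (nhdsWithin 0 (Set.Ioi 0))
          (nhds (p v x)) := by
        have h2 : Continuous fun δ : ℝ => p v (x - δ • g) := by
          simp only [map_sub, map_smul, smul_eq_mul]
          fun_prop
        have h3 := h2.tendsto 0
        simp only [zero_smul, sub_zero] at h3
        exact h3.mono_left nhdsWithin_le_nhds
      filter_upwards [hc.eventually (lt_mem_nhds hpos)] with δ hδ _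
      exact hδ
  obtain ⟨δ, h1, h2⟩ := (hev.and self_mem_nhdsWithin).exists
  refine ⟨x - δ • g, fun v hv => ?_, h1⟩
  have h3 : p v x = 0 := by
    rw [← hxM] at hv
    simpa [act] using hv
  rw [map_sub, map_smul, h3, zero_sub, smul_eq_mul]
  have := mul_pos h2 (hg v)
  linarith

theorem stepD {U' : Type w} [AddCommGroup U'] [Module ℝ U'] {o' : Module.Dual ℝ U'}
    {p' : V → Module.Dual ℝ U'} (hP : Ord n o' p') (hQ : Ord n o p) {M : Finset V}
    (hMP : Face o' p' M) (hMQ : ¬ Face o p M) (hMin : ∀ a ∈ M, Face o p (M.erase a))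
    {ν : V → ℝ} (hν : ∀ a ∈ M, 0 < ν a) (hνo : o = ∑ a ∈ M, ν a • p a)
    {e : ℕ} (he : e + M.card = n + 1) (he1 : 1 ≤ e)
    (hag : ∀ G : Finset V, G.card ≤ e + 1 → (Face o' p' G ↔ Face o p G)) : False := by
  obtain ⟨a, ha⟩ : M.Nonempty := by
    rw [Finset.nonempty_iff_ne_empty]
    rintro rfl
    exact hMQ hQ.face_empty
  obtain ⟨Φ, z, hz, hbz, hΦz, hΦ⟩ := linking hQ hMQ hMin hν hνo ha he he1
  obtain ⟨f, hfM, hfn⟩ := exists_pert hP hMP
  have hzf : ∀ G, z G ≠ 0 → Face o' p' G ∧ G.card = e ∧ ∀ v ∈ G, 0 < p' v f := by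
    intro G hG
    obtain ⟨h1, h2, h3⟩ := hz G hG
    refine ⟨(hag G (by omega)).2 h1, h2, fun v hv => hfn v ?_⟩
    exact Finset.disjoint_left.1 h3 hv
  obtain ⟨G0, -, hG0⟩ : ∃ G ∈ Finset.univ, Φ G * z G ≠ 0 := by
    apply Finset.exists_ne_zero_of_sum_ne_zero
    rw [hΦz]
    decide
  have hzG0 : z G0 ≠ 0 := right_ne_zero_of_mul hG0
  obtain ⟨hF0, hc0, hp0⟩ := hzf G0 hzG0
  obtain ⟨v0, hv0⟩ : G0.Nonempty := Finset.card_pos.1 (by omega)
  obtain ⟨c, hc, hbc⟩ := acyclic hP (f := f) (fun v _ => by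
      by_cases hv : v ∈ M
      · exact (hfM v hv).ne
      · exact (hfn v hv).ne')
    ⟨v0, hF0.mono (by simpa using hv0), hp0 v0 hv0⟩
    ⟨a, hMP.mono (by simpa using ha), hfM a ha⟩ e z hzf hbz
  have h1 := bd_swap Φ c
  simp only [hbc] at h1
  rw [hΦz] at h1
  have h2 : ∑ F, c F * ∑ v ∈ F, Φ (F.erase v) = 0 := by
    apply Finset.sum_eq_zero
    intro F _
    by_cases hcF : c F = 0
    · rw [hcF, zero_mul]
    · obtain ⟨h3, h4, h5⟩ := hc F hcF
      rw [hΦ F ((hag F (by omega)).1 h3) ?_ h4, mul_zero]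
      rw [Finset.disjoint_left]
      intro v hv hvM
      exact lt_asymm (h5 v hv) (hfM v hvM)
  rw [h2] at h1
  exact one_ne_zero h1

end

end MP46
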