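import Pool.Agent.Lib.MP_46e101_co.Poly

/-! Module STR: stresses and functionals (MP_46e101_co). -/

open MvPolynomial

universe u

noncomputable section

namespace MP46

variable {V : Type u} [Fintype V] [DecidableEq V] {d : ℕ}

private theorem dual_expand (φ : Module.Dual ℝ (EuclideanSpace ℝ (Fin d)))
    (z : EuclideanSpace ℝ (Fin d)) :
    φ z = ∑ k : Fin d, φ (EuclideanSpace.basisFun (Fin d) ℝ k) * z k := by
  conv_lhs => rw [← (EuclideanSpace.basisFun (Fin d) ℝ).sum_repr z]
  rw [map_sum]
  refine Finset.sum_congr rfl fun k _ => ?_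
  rw [map_smul, smul_eq_mul, mul_comm]
  simp

/-- an affine function of the vertices kills all affine stresses. -/
theorem stress_killed {i : ℕ} {q : V → EuclideanSpace ℝ (Fin d)} {u : MvPolynomial V ℝ}
    (hu : u ∈ affineStress i q) (x : AffU d) : ∑ v, C (pv q v x) * pderiv v u = 0 := by
  obtain ⟨-, -, h3, h4⟩ := hu
  have h : ∀ v, C (pv q v x) * pderiv v u =
      (∑ k : Fin d, C (x.1 (EuclideanSpace.basisFun (Fin d) ℝ k)) * (C (q v k) * pderiv v u)) +
        C x.2 * pderiv v u := by
    intro v
    have : pv q v x = (∑ k : Fin d, x.1 (EuclideanSpace.basisFun (Fin d) ℝ k) * q v k) + x.2 := by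
      rw [← dual_expand]
      rfl
    rw [this, C_add, add_mul, map_sum, Finset.sum_mul]
    congr 1
    refine Finset.sum_congr rfl fun k _ => ?_
    rw [C_mul]
    ring
  rw [Finset.sum_congr rfl fun v _ => h v, Finset.sum_add_distrib, Finset.sum_comm,
    ← Finset.mul_sum, h3, mul_zero, add_zero]
  refine Finset.sum_eq_zero fun k _ => ?_
  rw [← Finset.mul_sum, h4 k, mul_zero]

/-- product of factorials. -/
private def fct (e : V →₀ ℕ) : ℝ := ∏ v, ((e v).factorial : ℝ)

omit [DecidableEq V] in
private theorem fct_ne (e : V →₀ ℕ) : fct e ≠ 0 :=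
  Finset.prod_ne_zero_iff.2 fun v _ => by exact_mod_cast Nat.factorial_ne_zero _

private theorem fct_add (e : V →₀ ℕ) (v : V) :
    fct (e + Finsupp.single v 1) = fct e * (e v + 1) := by
  unfold fct
  rw [← Finset.mul_prod_erase Finset.univ _ (Finset.mem_univ v),
    ← Finset.mul_prod_erase Finset.univ (fun v => ((e v).factorial : ℝ)) (Finset.mem_univ v)]
  have h1 : ∏ w ∈ Finset.univ.erase v, (((e + Finsupp.single v 1 : V →₀ ℕ) w).factorial : ℝ) =
      ∏ w ∈ Finset.univ.erase v, ((e w).factorial : ℝ) := by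
    refine Finset.prod_congr rfl fun w hw => ?_
    have hwv : w ≠ v := Finset.ne_of_mem_erase hw
    rw [Finsupp.add_apply, Finsupp.single_apply, if_neg (Ne.symm hwv), add_zero]
  rw [h1, Finsupp.add_apply, Finsupp.single_eq_same, Nat.factorial_succ]
  push_cast
  ring

/-- the polynomial attached to a functional. -/
private def poly (i : ℕ) (s : MvPolynomial V ℝ →ₗ[ℝ] ℝ) : MvPolynomial V ℝ :=
  ∑ e ∈ Finset.finsuppAntidiag (Finset.univ : Finset V) i, monomial e (s (monomial e 1) / fct e)

private theorem coeff_poly (i : ℕ) (s : MvPolynomial V ℝ →ₗ[ℝ] ℝ) (m : V →₀ ℕ) :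
    coeff m (poly i s) = if m.degree = i then s (monomial m 1) / fct m else 0 := by
  unfold poly
  rw [coeff_sum]
  simp only [coeff_monomial]
  rw [Finset.sum_ite_eq' (Finset.finsuppAntidiag (Finset.univ : Finset V) i) m]
  have : m ∈ Finset.finsuppAntidiag (Finset.univ : Finset V) i ↔ m.degree = i := by
    rw [Finset.mem_finsuppAntidiag, Finsupp.degree_eq_sum]
    simp
  simp only [this]

private theorem coeff_key {i j : ℕ} (hj : j + 1 = i) (s : MvPolynomial V ℝ →ₗ[ℝ] ℝ) (z : V → ℝ)
    (m : V →₀ ℕ) : coeff m (∑ v, C (z v) * pderiv v (poly i s)) =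
      if m.degree = j then s (LF z * monomial m 1) / fct m else 0 := by
  rw [coeff_sum]
  simp only [coeff_C_mul, coeff_pderiv, coeff_poly]
  have hd : ∀ v, (m + Finsupp.single v 1).degree = m.degree + 1 := by
    intro v
    rw [map_add, Finsupp.degree_single]
  simp only [hd]
  by_cases h : m.degree = j
  · rw [if_pos h]
    have h' : m.degree + 1 = i := by omega
    simp only [h', if_true]
    rw [LF, Finset.sum_mul, map_sum, Finset.sum_div]
    refine Finset.sum_congr rfl fun v _ => ?_
    rw [fct_add]
    have e1 : C (z v) * X v * monomial m (1 : ℝ) =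
        z v • monomial (m + Finsupp.single v 1) (1 : ℝ) := by
      rw [X, C_mul_monomial, monomial_mul, smul_monomial, add_comm m]
      simp
    rw [e1, map_smul, smul_eq_mul]
    have h2 : (m v : ℝ) + 1 ≠ 0 := by positivity
    have h3 := fct_ne m
    field_simp
  · rw [if_neg h]
    have h' : ¬ (m.degree + 1 = i) := by omega
    simp only [h', if_false, zero_mul, mul_zero, Finset.sum_const_zero]

private theorem sum_zero {i j : ℕ} (hj : j + 1 = i) {q : V → EuclideanSpace ℝ (Fin d)}
    {s : MvPolynomial V ℝ →ₗ[ℝ] ℝ} (hs : IsStressFun i (IsFace q) (pv q) s) (x : AffU d) :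
    ∑ v, C (pv q v x) * pderiv v (poly i s) = 0 := by
  ext m
  rw [coeff_key hj s (fun v => pv q v x) m, coeff_zero]
  split_ifs with h
  · have h1 : (monomial m (1 : ℝ)).IsHomogeneous j := isHomogeneous_monomial _ h
    have h2 := hs.2 x j (monomial m (1 : ℝ)) hj h1
    have h3 : LF (fun v => pv q v x) = theta (pv q) x := rfl
    rw [h3, h2, zero_div]
  · rfl

/-- functional form of the stresses. -/
theorem stress_pairing {i : ℕ} {q : V → EuclideanSpace ℝ (Fin d)} {y : V → ℝ}
    (hy : ∀ u ∈ affineStress i q, ∑ v, C (y v) * pderiv v u = 0)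
    {s : MvPolynomial V ℝ →ₗ[ℝ] ℝ} (hs : IsStressFun i (IsFace q) (pv q) s) :
    ∀ (j : ℕ) (b : MvPolynomial V ℝ), j + 1 = i → b.IsHomogeneous j → s (LF y * b) = 0 := by
  intro j b hj hb
  have hmem : poly i s ∈ affineStress i q := by
    refine ⟨?_, ?_, ?_, ?_⟩
    · intro m hm
      rw [coeff_poly] at hm
      have : m.degree = i := by
        by_contra h
        exact hm (if_neg h)
      rw [← this]
      exact (Finsupp.degree_eq_weight_one (R := ℕ) (σ := V)).symm ▸ rfl
    · intro m hm
      rw [mem_support_iff, coeff_poly] at hm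
      by_contra h
      apply hm
      split_ifs with hd
      · rw [hs.1 m hd h, zero_div]
      · rfl
    · have := sum_zero hj hs ((0, 1) : AffU d)
      have h1 : ∀ v, pv q v ((0, 1) : AffU d) = 1 := by
        intro v
        simp [pv]
      simpa [h1] using this
    · intro k
      have := sum_zero hj hs
        ((((EuclideanSpace.basisFun (Fin d) ℝ).toBasis.coord k : Module.Dual ℝ _), 0) : AffU d)
      have h1 : ∀ v, pv q v ((((EuclideanSpace.basisFun (Fin d) ℝ).toBasis.coord k :
          Module.Dual ℝ _), 0) : AffU d) = q v k := by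
        intro v
        simp [pv]
      simpa [h1] using this
  have hz := hy _ hmem
  have hm : ∀ m : V →₀ ℕ, m.degree = j → s (LF y * monomial m 1) = 0 := by
    intro m hm
    have h1 := coeff_key hj s y m
    rw [hz, coeff_zero, if_pos hm] at h1
    rcases (div_eq_zero_iff.1 h1.symm) with h | h
    · exact h
    · exact absurd h (fct_ne m)
  rw [b.as_sum, Finset.mul_sum, map_sum]
  refine Finset.sum_eq_zero fun m hmb => ?_
  have e1 : LF y * monomial m (coeff m b) = coeff m b • (LF y * monomial m (1 : ℝ)) := by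
    rw [← mul_smul_comm, smul_monomial, smul_eq_mul, mul_one]
  rw [e1, map_smul, hm m, smul_zero]
  have := hb (mem_support_iff.1 hmb)
  rw [← this]
  exact congrFun (congrArg DFunLike.coe (Finsupp.degree_eq_weight_one (R := ℕ) (σ := V))) m

end MP46
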