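import Pool.Agent.Lib.MP_46e101_co.FACES
import Pool.Agent.Lib.MP_46e101_co.PDATA
import Pool.Agent.Lib.MP_46e101_co.STR
import Pool.Agent.Lib.MP_46e101_co.MV
import Pool.Agent.Lib.MP_46e101_co.STD

/-!
# MP_46e101_co: final assembly
-/

open MvPolynomial

universe u

noncomputable section

namespace MP46

variable {V : Type u} [Fintype V] [DecidableEq V] {d : ℕ}

/-- The main step: a face of `P` which is not a face of `Q`. -/
private theorem kalai_aux {i : ℕ} (hi : 1 ≤ i) (hd : 2 * i ≤ d)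
    {P Q : V → EuclideanSpace ℝ (Fin d)}
    (hP : IsSimplicialPolytope P) (hQ : IsSimplicialPolytope Q)
    (hskel : ∀ F : Finset V, F.card ≤ i → (IsFace P F ↔ IsFace Q F))
    (hst : affineStress i P = affineStress i Q) {F : Finset V} (hF : IsFace P F) :
    IsFace Q F := by
  classical
  by_contra hFQ
  -- `P` data with respect to the barycentre of all vertices
  have hPuniv : ∀ F : Finset V, IsFace P F → ¬ (Finset.univ : Finset V) ⊆ F := by
    rintro F ⟨⟨v, hv⟩, -⟩ h
    exact hv (h (Finset.mem_univ v))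
  have hVne : (Finset.univ : Finset V).Nonempty := by
    obtain ⟨⟨v, -⟩, -⟩ := hF
    exact ⟨v, Finset.mem_univ v⟩
  obtain ⟨hOP, hFP⟩ := ord_of_polytope hP hVne hPuniv
  -- minimal non-face
  obtain ⟨M, hMF, hMmin⟩ : ∃ M : Finset V, (M ⊆ F ∧ ¬ IsFace Q M) ∧
      ∀ M' : Finset V, M' ⊂ M → IsFace Q M' := by
    have hex : ∃ k, ∃ M : Finset V, M ⊆ F ∧ ¬ IsFace Q M ∧ M.card = k :=
      ⟨F.card, F, le_rfl, hFQ, rfl⟩
    obtain ⟨M, h1, h2, h3⟩ := Nat.find_spec hex
    refine ⟨M, ⟨h1, h2⟩, fun M' hM' => ?_⟩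
    by_contra hcon
    have hlt : M'.card < Nat.find hex := by
      rw [← h3]
      exact Finset.card_lt_card hM'
    exact Nat.find_min hex hlt ⟨M', hM'.1.trans h1, hcon, rfl⟩
  obtain ⟨hMF, hMQ⟩ := hMF
  have hMP : IsFace P M := (hFP M).1 (Face.mono ((hFP F).2 hF) hMF)
  have hMcard : i + 1 ≤ M.card := by
    by_contra hlt
    exact hMQ ((hskel M (by omega)).1 hMP)
  have hMne : M.Nonempty := Finset.card_pos.1 (by omega)
  -- `M` is contained in no face of `Q`
  have hQuniv : ∀ F : Finset V, IsFace Q F → ¬ (Finset.univ : Finset V) ⊆ F := by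
    rintro F ⟨⟨v, hv⟩, -⟩ h
    exact hv (h (Finset.mem_univ v))
  obtain ⟨-, hFQ'⟩ := ord_of_polytope hQ hVne hQuniv
  have hMQ' : ∀ F : Finset V, IsFace Q F → ¬ M ⊆ F := by
    intro G hG hMG
    exact hMQ ((hFQ' M).1 (Face.mono ((hFQ' G).2 hG) hMG))
  obtain ⟨hOQ, hFaceQ⟩ := ord_of_polytope hQ hMne hMQ'
  have hMnot : ¬ Face (bary Q M) (pv Q) M := fun h => hMQ ((hFaceQ M).1 h)
  have hMer : ∀ a ∈ M, Face (bary Q M) (pv Q) (M.erase a) := fun a ha =>
    (hFaceQ _).2 (hMmin _ (Finset.erase_ssubset ha))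
  have hMpos : (0 : ℝ) < M.card := by exact_mod_cast Finset.card_pos.2 hMne
  have hν : ∀ a ∈ M, (0 : ℝ) < (fun _ : V => 1 / (M.card : ℝ)) a := fun a _ => by positivity
  have hνo : bary Q M = ∑ a ∈ M, (fun _ : V => 1 / (M.card : ℝ)) a • pv Q a := rfl
  have hMd : M.card ≤ d := hOP.card_le ((hFP M).2 hMP)
  rcases le_or_gt M.card (d - i + 1) with hle | hgt
  · -- the Hodge-Riemann part
    obtain ⟨-, a, ha0, hapos⟩ := hMP
    have hy : ∀ v, pv P v (a.linear.restrictScalars ℝ, a 0) = a (P v) := by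
      intro v
      rw [pv_apply]
      have := a.decomp' 
      have h2 := congrFun (AffineMap.decomp a) (P v)
      simpa using h2.symm
    refine mversion hi hd hOQ hMnot hMer hMcard hle hν hνo
      (y := fun v => a (P v)) ha0 (fun v hv => hapos v hv) ?_
    intro s hs
    refine stress_pairing (q := Q) (y := fun v => a (P v)) ?_ ?_
    · intro u hu
      rw [← hst] at hu
      have := stress_killed hu (a.linear.restrictScalars ℝ, a 0)
      simpa only [hy] using this
    · refine ⟨fun e he hne => hs.1 e he ?_, hs.2⟩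
      intro h
      exact hne ((hFaceQ _).1 h)
  · -- the Perles-Dancis part
    refine stepD (n := d) (e := d + 1 - M.card) hOP hOQ ((hFP M).2 hMP) hMnot hMer hν hνo
      (by omega) (by omega) ?_
    intro G hG
    rw [hFP, hFaceQ]
    exact hskel G (by omega)

theorem kalai {i : ℕ} (hi : 1 ≤ i) (hd : 2 * i ≤ d) {P Q : V → EuclideanSpace ℝ (Fin d)}
    (hP : IsSimplicialPolytope P) (hQ : IsSimplicialPolytope Q)
    (hskel : ∀ F : Finset V, F.card ≤ i → (IsFace P F ↔ IsFace Q F))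
    (hst : affineStress i P = affineStress i Q) : ∀ F : Finset V, IsFace P F ↔ IsFace Q F :=
  fun _ => ⟨fun h => kalai_aux hi hd hP hQ hskel hst h,
    fun h => kalai_aux hi hd hQ hP (fun F hF => (hskel F hF).symm) hst.symm h⟩

end MP46
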