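import Pool.Agent.Lib.MP_46e101_co.Defs

/-!
# Simplicial polytopes, boundary complexes and affine stresses (MP_46e101_co)

These are the definitions used in the statement of the result.
-/

open MvPolynomial

universe u

namespace MP46

variable {V : Type u} [Fintype V] [DecidableEq V] {d : ℕ}

/-- `F` is the vertex set of a proper face of the polytope `conv {q v | v ∈ V}` in `ℝ^d`: some
affine functional vanishes at the points `q v`, `v ∈ F`, is positive at the other points `q v`,
and there is such another point. -/
def IsFace (q : V → EuclideanSpace ℝ (Fin d)) (F : Finset V) : Prop :=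
  (∃ v, v ∉ F) ∧ ∃ a : EuclideanSpace ℝ (Fin d) →ᵃ[ℝ] ℝ,
    (∀ v ∈ F, a (q v) = 0) ∧ ∀ v, v ∉ F → 0 < a (q v)

/-- `q : V → ℝ^d` is the (injective) list of vertices of a simplicial `d`-polytope: the polytope
`conv {q v}` is full dimensional, every `q v` is a vertex (`{v}` is the vertex set of a face), and
all proper faces are simplices. -/
structure IsSimplicialPolytope (q : V → EuclideanSpace ℝ (Fin d)) : Prop where
  full : affineSpan ℝ (Set.range q) = ⊤
  vertex : ∀ v, IsFace q {v}
  simplicial : ∀ F : Finset V, IsFace q F → AffineIndependent ℝ (fun v : F => q (v : V))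

/-- The space of affine `i`-stresses: homogeneous polynomials `u` of degree `i` in the variables
`x_v` (`v ∈ V`), all of whose monomials are supported on faces of the boundary complex, such that
`∑_v ∂u/∂x_v = 0` and `∑_v q(v)_k ∂u/∂x_v = 0` for all coordinates `k`. -/
noncomputable def affineStress (i : ℕ) (q : V → EuclideanSpace ℝ (Fin d)) :
    Submodule ℝ (MvPolynomial V ℝ) where
  carrier := {u | u.IsHomogeneous i ∧ (∀ m ∈ u.support, IsFace q m.support) ∧
    ∑ v, pderiv v u = 0 ∧ ∀ k : Fin d, ∑ v, C (q v k) * pderiv v u = 0}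
  add_mem' := by
    rintro a b ⟨h1, h2, h3, h4⟩ ⟨h1', h2', h3', h4'⟩
    refine ⟨h1.add h1', ?_, ?_, ?_⟩
    · intro m hm
      rcases Finset.mem_union.1 (MvPolynomial.support_add hm) with h | h
      · exact h2 m h
      · exact h2' m h
    · simp only [map_add, Finset.sum_add_distrib, h3, h3', add_zero]
    · intro k
      simp only [map_add, mul_add, Finset.sum_add_distrib, h4 k, h4' k, add_zero]
  zero_mem' := by
    refine ⟨isHomogeneous_zero _ _ _, ?_, ?_, ?_⟩
    · intro m hm
      simp at hm
    · simp
    · intro k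
      simp
  smul_mem' := by
    rintro r a ⟨h1, h2, h3, h4⟩
    refine ⟨?_, ?_, ?_, ?_⟩
    · rw [MvPolynomial.smul_eq_C_mul]
      simpa using (isHomogeneous_C V r).mul h1
    · intro m hm
      exact h2 m (MvPolynomial.support_smul hm)
    · simp only [Derivation.map_smul, ← Finset.smul_sum, h3, smul_zero]
    · intro k
      simp only [Derivation.map_smul, mul_smul_comm, ← Finset.smul_sum, h4 k, smul_zero]

/-- The space of (linear part, constant part) of affine functionals on `ℝ^d`. -/
abbrev AffU (d : ℕ) : Type := Module.Dual ℝ (EuclideanSpace ℝ (Fin d)) × ℝ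

/-- Evaluation of affine functionals at the point `q v`. -/
def pv (q : V → EuclideanSpace ℝ (Fin d)) (v : V) : Module.Dual ℝ (AffU d) :=
  (Module.Dual.eval ℝ (EuclideanSpace ℝ (Fin d)) (q v)) ∘ₗ LinearMap.fst ℝ _ _ +
    LinearMap.snd ℝ _ _

/-- Evaluation at the barycentre of the points `q a`, `a ∈ M`. -/
noncomputable def bary (q : V → EuclideanSpace ℝ (Fin d)) (M : Finset V) :
    Module.Dual ℝ (AffU d) :=
  ∑ a ∈ M, (1 / (M.card : ℝ)) • pv q a

end MP46
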